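import Pool.Agent.Lib.MP_b1acb3_co.One.Stmts

/-!
Module (Assign): labels for all colours, realised by many edges.
-/

namespace Pool.Agent.Lib.MP_b1acb3_co.One

open Finset Uni Leaf

namespace ModAssign

variable {n K r : ℕ} {c : Sym2 (Fin n) → Fin K} {B : Fin K → Matrix (Fin n) (Fin n) ℝ}
  {Z : Finset (Fin K)} {τ : Fin K → Fin r → ZMod 2} {lam : Fin n → Fin r → ZMod 2} {ξ δ : ℝ}

theorem self_add (u : Fin r → ZMod 2) : u + u = 0 := by
  funext i
  exact CharTwo.add_self_eq_zero (u i)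

theorem add_eq_iff (u v t : Fin r → ZMod 2) : u + v = t ↔ v = u + t := by
  constructor
  · rintro rfl
    rw [← add_assoc, self_add, zero_add]
  · rintro rfl
    rw [← add_assoc, self_add, zero_add]

/-- The mass of the edges of colour `a` whose labels have the sum `t`. -/
noncomputable def M (B : Fin K → Matrix (Fin n) (Fin n) ℝ) (lam : Fin n → Fin r → ZMod 2)
    (a : Fin K) (t : Fin r → ZMod 2) : ℝ :=
  ((K : ℝ) / (n : ℝ) ^ 2) * ∑ x, ∑ y, if lam x + lam y = t then B a x y else 0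

/-- The mass of the edges of colour `a` with a wrong label. -/
noncomputable def W (B : Fin K → Matrix (Fin n) (Fin n) ℝ) (lam : Fin n → Fin r → ZMod 2)
    (a : Fin K) (t : Fin r → ZMod 2) : ℝ :=
  ((K : ℝ) / (n : ℝ) ^ 2) * ∑ x, ∑ y, if lam y ≠ lam x + t then B a x y else 0

theorem M_nonneg (hE : Env c B δ) (a : Fin K) (t : Fin r → ZMod 2) : 0 ≤ M B lam a t := by
  unfold M
  refine mul_nonneg (by positivity) (sum_nonneg fun x _ => sum_nonneg fun y _ => ?_)
  split_ifs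
  · exact hE.exact.nonneg a x y
  · exact le_rfl

theorem sum_B (hn : 0 < n) (hK : 0 < K) (hE : Env c B δ) (a : Fin K) :
    ((K : ℝ) / (n : ℝ) ^ 2) * ∑ x, ∑ y, B a x y = 1 := by
  have hn' : (n : ℝ) ≠ 0 := by exact_mod_cast hn.ne'
  have hK' : (K : ℝ) ≠ 0 := by exact_mod_cast hK.ne'
  have h1 : ∑ x, ∑ y, B a x y = (n : ℝ) * ((n : ℝ) / K) := by
    rw [sum_congr rfl fun x _ => hE.exact.row a x, sum_const, card_univ, Fintype.card_fin,
      nsmul_eq_mul]
  rw [h1]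
  field_simp

theorem sum_M (hn : 0 < n) (hK : 0 < K) (hE : Env c B δ) (a : Fin K) :
    ∑ t, M B lam a t = 1 := by
  classical
  unfold M
  rw [← mul_sum, sum_comm, sum_congr rfl fun x _ => sum_comm]
  rw [← sum_B hn hK hE a]
  congr 1
  refine sum_congr rfl fun x _ => sum_congr rfl fun y _ => ?_
  rw [sum_ite_eq]
  rw [if_pos (mem_univ _)]

theorem sum_M_colour (hn : 0 < n) (hE : Env c B δ) (t : Fin r → ZMod 2) :
    ∑ a, M B lam a t = ((K : ℝ) / n) * ∑ x, mu (cls lam (lam x + t)) := by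
  classical
  have hn' : (n : ℝ) ≠ 0 := by exact_mod_cast hn.ne'
  unfold M
  rw [← mul_sum, sum_comm, sum_congr rfl fun x _ => sum_comm]
  have h1 : ∀ x : Fin n, ∑ y, ∑ a, (if lam x + lam y = t then B a x y else 0) =
      (n : ℝ) * mu (cls lam (lam x + t)) := by
    intro x
    have h2 : ∀ y : Fin n, ∑ a, (if lam x + lam y = t then B a x y else 0) =
        if y ∈ cls lam (lam x + t) then (1 : ℝ) else 0 := by
      intro y
      by_cases h : lam x + lam y = t
      · rw [sum_congr rfl fun a _ => if_pos h, hE.exact.tot x y, if_pos]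
        rw [mem_cls]
        exact (add_eq_iff _ _ _).1 h
      · rw [sum_congr rfl fun a _ => if_neg h, sum_const_zero, if_neg]
        rw [mem_cls]
        exact fun h' => h ((add_eq_iff _ _ _).2 h')
    rw [sum_congr rfl fun y _ => h2 y, sum_boole]
    unfold mu
    rw [filter_mem_eq_inter, univ_inter]
    field_simp
  rw [sum_congr rfl fun x _ => h1 x, ← mul_sum]
  field_simp

theorem abs_sum_M (hn : 0 < n) (hE : Env c B δ) (t : Fin r → ZMod 2) {κ : ℝ}
    (hC : ∀ t, |mu (cls lam t) - 1 / 2 ^ r| ≤ κ) :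
    |∑ a, M B lam a t - (K : ℝ) / 2 ^ r| ≤ K * κ := by
  have hn' : (n : ℝ) ≠ 0 := by exact_mod_cast hn.ne'
  have hn0 : (0 : ℝ) < n := by exact_mod_cast hn
  rw [sum_M_colour hn hE t]
  have h1 : ((K : ℝ) / n) * ∑ x, mu (cls lam (lam x + t)) - (K : ℝ) / 2 ^ r =
      ((K : ℝ) / n) * ∑ x : Fin n, (mu (cls lam (lam x + t)) - 1 / 2 ^ r) := by
    rw [sum_sub_distrib, sum_const, card_univ, Fintype.card_fin, nsmul_eq_mul, mul_sub]
    congr 1
    field_simp
  rw [h1, abs_mul, abs_of_nonneg (by positivity)]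
  have h2 : |∑ x : Fin n, (mu (cls lam (lam x + t)) - 1 / 2 ^ r)| ≤ (n : ℝ) * κ := by
    refine (abs_sum_le_sum_abs _ _).trans ?_
    refine (sum_le_sum fun x _ => hC _).trans ?_
    rw [sum_const, card_univ, Fintype.card_fin, nsmul_eq_mul]
  calc ((K : ℝ) / n) * |∑ x : Fin n, (mu (cls lam (lam x + t)) - 1 / 2 ^ r)| ≤
      ((K : ℝ) / n) * ((n : ℝ) * κ) := mul_le_mul_of_nonneg_left h2 (by positivity)
    _ = K * κ := by field_simp

theorem W_le (hn : 0 < n) (hK : 0 < K) (hE : Env c B δ) (hL : Lab c Z τ lam ξ) (hδ : 0 ≤ δ)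
    (a : Fin K) (ha : a ∉ Z) : W B lam a (τ a) ≤ ξ + K / n + K * δ := by
  classical
  have hn' : (n : ℝ) ≠ 0 := by exact_mod_cast hn.ne'
  have hK' : (K : ℝ) ≠ 0 := by exact_mod_cast hK.ne'
  have h1 : ∀ x : Fin n, ∑ y, (if lam y ≠ lam x + τ a then B a x y else 0) ≤
      ξ * ((n : ℝ) / K) + 1 + n * δ := by
    intro x
    have h2 : ∀ y : Fin n, (if lam y ≠ lam x + τ a then B a x y else 0) ≤
        (if y ∈ (nbr c x a).filter (fun z => lam z ≠ lam x + τ a) then (1 : ℝ) else 0) +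
        (if y = x then (1 : ℝ) else 0) + δ := by
      intro y
      have h0 : (0 : ℝ) ≤ (if y ∈ (nbr c x a).filter (fun z => lam z ≠ lam x + τ a) then (1 : ℝ)
          else 0) := by split_ifs <;> norm_num
      have h0' : (0 : ℝ) ≤ (if y = x then (1 : ℝ) else 0) := by split_ifs <;> norm_num
      by_cases h : lam y ≠ lam x + τ a
      · rw [if_pos h]
        have h3 := hE.upper a x y
        by_cases hc : c s(x, y) = a
        · rw [if_pos hc] at h3
          by_cases hyx : y = x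
          · rw [if_pos hyx]
            linarith
          · have h4 : y ∈ (nbr c x a).filter (fun z => lam z ≠ lam x + τ a) := by
              rw [mem_filter, mem_nbr]
              exact ⟨⟨hyx, hc⟩, h⟩
            rw [if_pos h4]
            linarith
        · rw [if_neg hc] at h3
          linarith
      · rw [if_neg h]
        linarith
    refine (sum_le_sum fun y _ => h2 y).trans ?_
    rw [sum_add_distrib, sum_add_distrib, sum_boole, sum_ite_eq', if_pos (mem_univ _),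
      sum_const, card_univ, Fintype.card_fin, nsmul_eq_mul, filter_mem_eq_inter, univ_inter]
    have h5 := hL.lab x a ha
    linarith
  unfold W
  have h2 : ∑ x, ∑ y, (if lam y ≠ lam x + τ a then B a x y else 0) ≤
      (n : ℝ) * (ξ * ((n : ℝ) / K) + 1 + n * δ) := by
    refine (sum_le_sum fun x _ => h1 x).trans ?_
    rw [sum_const, card_univ, Fintype.card_fin, nsmul_eq_mul]
  calc ((K : ℝ) / (n : ℝ) ^ 2) * ∑ x, ∑ y, (if lam y ≠ lam x + τ a then B a x y else 0) ≤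
      ((K : ℝ) / (n : ℝ) ^ 2) * ((n : ℝ) * (ξ * ((n : ℝ) / K) + 1 + n * δ)) :=
        mul_le_mul_of_nonneg_left h2 (by positivity)
    _ = ξ + K / n + K * δ := by field_simp

theorem M_le_W (hE : Env c B δ) (a : Fin K) (t u : Fin r → ZMod 2) (htu : t ≠ u) :
    M B lam a t ≤ W B lam a u := by
  unfold M W
  refine mul_le_mul_of_nonneg_left (sum_le_sum fun x _ => sum_le_sum fun y _ => ?_) (by positivity)
  by_cases h : lam x + lam y = t
  · rw [if_pos h, if_pos]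
    intro h'
    apply htu
    rw [← h, h', ← add_assoc, self_add, zero_add]
  · rw [if_neg h]
    split_ifs
    · exact hE.exact.nonneg a x y
    · exact le_rfl

theorem one_le_M_add_W (hn : 0 < n) (hK : 0 < K) (hE : Env c B δ) (a : Fin K)
    (t : Fin r → ZMod 2) : 1 ≤ M B lam a t + W B lam a t := by
  unfold M W
  rw [← mul_add, ← sum_B hn hK hE a, ← sum_add_distrib]
  refine mul_le_mul_of_nonneg_left (sum_le_sum fun x _ => ?_) (by positivity)
  rw [← sum_add_distrib]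
  refine sum_le_sum fun y _ => ?_
  have h0 := hE.exact.nonneg a x y
  by_cases h : lam x + lam y = t
  · rw [if_pos h]
    split_ifs <;> linarith
  · rw [if_neg h, if_pos]
    · linarith
    · intro h'
      exact h ((add_eq_iff _ _ _).2 h')

theorem M_le_one (hn : 0 < n) (hK : 0 < K) (hE : Env c B δ) (a : Fin K)
    (t : Fin r → ZMod 2) : M B lam a t ≤ 1 := by
  rw [← sum_M (lam := lam) hn hK hE a]
  exact single_le_sum (f := fun t => M B lam a t) (fun t _ => M_nonneg hE a t) (mem_univ t)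

/-- The masses of the colours outside `Z`. -/
theorem abs_M (hn : 0 < n) (hK : 0 < K) (hE : Env c B δ) (hL : Lab c Z τ lam ξ) (hδ : 0 ≤ δ)
    (a : Fin K) (ha : a ∉ Z) (t : Fin r → ZMod 2) :
    |M B lam a t - (if τ a = t then 1 else 0)| ≤ ξ + K / n + K * δ := by
  have h1 := W_le hn hK hE hL hδ a ha
  by_cases h : τ a = t
  · rw [if_pos h, abs_le]
    have h2 := one_le_M_add_W (lam := lam) hn hK hE a t
    have h3 := M_le_one (lam := lam) hn hK hE a t
    rw [h] at h1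
    constructor
    · linarith
    · linarith
  · rw [if_neg h, sub_zero, abs_of_nonneg (M_nonneg hE a t)]
    exact (M_le_W hE a t (τ a) (fun h' => h h'.symm)).trans h1

/-- The masses of the colours of `Z`. -/
theorem abs_Z (hn : 0 < n) (hK : 0 < K) (hE : Env c B δ) (hL : Lab c Z τ lam ξ) (hδ : 0 ≤ δ)
    {κ κ' : ℝ} (hξ : 0 ≤ ξ) (hC : ∀ t, |mu (cls lam t) - 1 / 2 ^ r| ≤ κ)
    (hκ : K * κ + K * (ξ + K / n + K * δ) ≤ κ') (t : Fin r → ZMod 2) :
    |∑ a ∈ Z, M B lam a t - ((K : ℝ) / 2 ^ r - (Zᶜ.filter (fun a => τ a = t)).card)| ≤ κ' := by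
  have h1 := abs_sum_M hn hE t hC
  have h2 : ∑ a, M B lam a t = ∑ a ∈ Z, M B lam a t + ∑ a ∈ Zᶜ, M B lam a t :=
    (sum_add_sum_compl Z _).symm
  have h3 : ((Zᶜ.filter (fun a => τ a = t)).card : ℝ) =
      ∑ a ∈ Zᶜ, (if τ a = t then (1 : ℝ) else 0) := by
    rw [sum_boole]
  have h4 : |∑ a ∈ Zᶜ, (M B lam a t - (if τ a = t then 1 else 0))| ≤
      K * (ξ + K / n + K * δ) := by
    refine (abs_sum_le_sum_abs _ _).trans ?_
    refine (sum_le_sum fun a ha => abs_M hn hK hE hL hδ a (mem_compl.1 ha) t).trans ?_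
    rw [sum_const, nsmul_eq_mul]
    have h5 : ((Zᶜ).card : ℝ) ≤ K := by
      have := card_le_univ Zᶜ
      rw [Fintype.card_fin] at this
      exact_mod_cast this
    exact mul_le_mul_of_nonneg_right h5 (by positivity)
  rw [sum_sub_distrib, ← h3] at h4
  rw [abs_le] at h1 h4 ⊢
  constructor
  · linarith [h1.1, h4.2]
  · linarith [h1.2, h4.1]

theorem cnt_eq (c : Sym2 (Fin n) → Fin K) (lam : Fin n → Fin r → ZMod 2) (a : Fin K)
    (t : Fin r → ZMod 2) : (cnt c lam a t : ℝ) =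
      ∑ x : Fin n, ∑ y : Fin n,
        if x ≠ y ∧ c s(x, y) = a ∧ lam x + lam y = t then (1 : ℝ) else 0 := by
  unfold cnt
  rw [card_filter]
  push_cast
  rw [← Fintype.sum_prod_type']

/-- Large mass means many edges. -/
theorem M_le_cnt (hn : 0 < n) (hE : Env c B δ) (hδ : 0 ≤ δ) (a : Fin K) (t : Fin r → ZMod 2) :
    M B lam a t ≤ ((K : ℝ) / (n : ℝ) ^ 2) * (cnt c lam a t + n) + K * δ := by
  classical
  have hn' : (n : ℝ) ≠ 0 := by exact_mod_cast hn.ne'
  have h1 : ∀ x y : Fin n, (if lam x + lam y = t then B a x y else 0) ≤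
      (if x ≠ y ∧ c s(x, y) = a ∧ lam x + lam y = t then (1 : ℝ) else 0) +
      (if x = y then (1 : ℝ) else 0) + δ := by
    intro x y
    have h0 : (0 : ℝ) ≤ (if x ≠ y ∧ c s(x, y) = a ∧ lam x + lam y = t then (1 : ℝ) else 0) := by
      split_ifs <;> norm_num
    have h0' : (0 : ℝ) ≤ (if x = y then (1 : ℝ) else 0) := by split_ifs <;> norm_num
    by_cases h : lam x + lam y = t
    · rw [if_pos h]
      have h3 := hE.upper a x y
      by_cases hc : c s(x, y) = a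
      · rw [if_pos hc] at h3
        by_cases hxy : x = y
        · rw [if_pos hxy]
          linarith
        · rw [if_pos ⟨hxy, hc, h⟩]
          linarith
      · rw [if_neg hc] at h3
        linarith
    · rw [if_neg h]
      linarith
  have h2 : ∑ x, ∑ y, (if lam x + lam y = t then B a x y else 0) ≤
      cnt c lam a t + n + (n : ℝ) ^ 2 * δ := by
    refine (sum_le_sum fun x _ => sum_le_sum fun y _ => h1 x y).trans ?_
    rw [cnt_eq]
    simp only [sum_add_distrib, sum_ite_eq, mem_univ, if_true, sum_const, card_univ,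
      Fintype.card_fin, nsmul_eq_mul, mul_one]
    apply le_of_eq
    ring
  unfold M
  calc ((K : ℝ) / (n : ℝ) ^ 2) * ∑ x, ∑ y, (if lam x + lam y = t then B a x y else 0) ≤
      ((K : ℝ) / (n : ℝ) ^ 2) * (cnt c lam a t + n + (n : ℝ) ^ 2 * δ) :=
        mul_le_mul_of_nonneg_left h2 (by positivity)
    _ = ((K : ℝ) / (n : ℝ) ^ 2) * (cnt c lam a t + n) + K * δ := by field_simp

theorem cnt_ge (hn : 0 < n) (hK : 0 < K) (hE : Env c B δ) (hδ : 0 ≤ δ) {κ₀ : ℝ}
    (h1 : K * δ ≤ κ₀ / 4) (h2 : 4 * K ≤ κ₀ * n) (a : Fin K)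
    (t : Fin r → ZMod 2) (hM : κ₀ ≤ M B lam a t) :
    κ₀ / (2 * K) * (n : ℝ) ^ 2 ≤ cnt c lam a t := by
  have hn0 : (0 : ℝ) < n := by exact_mod_cast hn
  have hK0 : (0 : ℝ) < K := by exact_mod_cast hK
  have h3 := hM.trans (M_le_cnt (lam := lam) hn hE hδ a t)
  have h4 : κ₀ * (3 / 4) ≤ ((K : ℝ) / (n : ℝ) ^ 2) * (cnt c lam a t + n) := by linarith
  have h5 : κ₀ * (3 / 4) * (n : ℝ) ^ 2 ≤ K * (cnt c lam a t + n) := by
    have h6 := mul_le_mul_of_nonneg_right h4 (sq_nonneg (n : ℝ))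
    calc κ₀ * (3 / 4) * (n : ℝ) ^ 2 ≤
        ((K : ℝ) / (n : ℝ) ^ 2) * (cnt c lam a t + n) * (n : ℝ) ^ 2 := h6
      _ = K * (cnt c lam a t + n) := by field_simp
  have h7 : 4 * K * (n : ℝ) ≤ κ₀ * n * n := mul_le_mul_of_nonneg_right h2 hn0.le
  have h8 : κ₀ / (2 * K) * (n : ℝ) ^ 2 = κ₀ * (n : ℝ) ^ 2 / (2 * K) := by ring
  rw [h8, div_le_iff₀ (by positivity)]
  nlinarith

end ModAssign

open ModAssign in
/-- (Assign) Labels for all colours, realised by many edges. -/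
theorem thmAssign (hH : StHall) (hC : StClassN) : StAssign := by
  intro K hK
  have hK0 : (0 : ℝ) < K := by exact_mod_cast hK
  have hK1 : (1 : ℝ) ≤ K := by exact_mod_cast hK
  obtain ⟨ξ₁, hξ₁, δ₁, hδ₁, n₁, hcl⟩ := hC K (1 / (16 * (K : ℝ) ^ 2)) hK (by positivity)
  refine ⟨1 / (4 * (K : ℝ) ^ 3) / (2 * K), by positivity,
    min ξ₁ (1 / (16 * (K : ℝ) ^ 2)), lt_min hξ₁ (by positivity),
    min δ₁ (1 / (16 * (K : ℝ) ^ 4)), lt_min hδ₁ (by positivity), max n₁ (16 * K ^ 4), ?_⟩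
  intro n hn c B hE r Z τ lam hL hr s
  have hn1 : n₁ ≤ n := (le_max_left _ _).trans hn
  have hn2 : 16 * K ^ 4 ≤ n := (le_max_right _ _).trans hn
  have hnpos : 0 < n := lt_of_lt_of_le (by positivity) hn2
  have hn0 : (0 : ℝ) < n := by exact_mod_cast hnpos
  have hn3 : 16 * (K : ℝ) ^ 4 ≤ n := by exact_mod_cast hn2
  have hδ0 : 0 ≤ min δ₁ (1 / (16 * (K : ℝ) ^ 4)) := le_min hδ₁.le (by positivity)
  have hξ0 : 0 ≤ min ξ₁ (1 / (16 * (K : ℝ) ^ 2)) := le_min hξ₁.le (by positivity)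
  have hδ2 : min δ₁ (1 / (16 * (K : ℝ) ^ 4)) ≤ 1 / (16 * (K : ℝ) ^ 4) := min_le_right _ _
  have hξ2 : min ξ₁ (1 / (16 * (K : ℝ) ^ 2)) ≤ 1 / (16 * (K : ℝ) ^ 2) := min_le_right _ _
  have hcls : ∀ t, |mu (cls lam t) - 1 / 2 ^ r| ≤ 1 / (16 * (K : ℝ) ^ 2) :=
    hcl n hn1 c B (hE.mono (min_le_left _ _)) r Z τ lam
      ⟨fun y a ha => (hL.lab y a ha).trans
        (mul_le_mul_of_nonneg_right (min_le_left _ _) (by positivity)), hL.span⟩
  set ξ := min ξ₁ (1 / (16 * (K : ℝ) ^ 2)) with hξdef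
  set δ := min δ₁ (1 / (16 * (K : ℝ) ^ 4)) with hδdef
  have hKd : K * δ ≤ 1 / (16 * (K : ℝ) ^ 3) := by
    have h1 := mul_le_mul_of_nonneg_left hδ2 hK0.le
    calc K * δ ≤ K * (1 / (16 * (K : ℝ) ^ 4)) := h1
      _ = 1 / (16 * (K : ℝ) ^ 3) := by field_simp
  have hKn : (K : ℝ) / n ≤ 1 / (16 * (K : ℝ) ^ 3) := by
    rw [div_le_div_iff₀ hn0 (by positivity)]
    calc (K : ℝ) * (16 * (K : ℝ) ^ 3) = 16 * (K : ℝ) ^ 4 := by ring
      _ ≤ (n : ℝ) := hn3
      _ = 1 * (n : ℝ) := (one_mul _).symm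
  have h32 : 1 / (16 * (K : ℝ) ^ 3) ≤ 1 / (16 * (K : ℝ) ^ 2) := by
    apply one_div_le_one_div_of_le (by positivity)
    have : (K : ℝ) ^ 2 ≤ (K : ℝ) ^ 3 := pow_le_pow_right₀ hK1 (by norm_num)
    linarith
  have herr : ξ + K / n + K * δ ≤ 3 / (16 * (K : ℝ) ^ 2) := by
    have : 3 / (16 * (K : ℝ) ^ 2) = 3 * (1 / (16 * (K : ℝ) ^ 2)) := by ring
    rw [this]
    linarith
  have hκ' : K * (1 / (16 * (K : ℝ) ^ 2)) + K * (ξ + K / n + K * δ) ≤ 1 / (4 * (K : ℝ)) := by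
    have h1 := mul_le_mul_of_nonneg_left herr hK0.le
    calc K * (1 / (16 * (K : ℝ) ^ 2)) + K * (ξ + K / n + K * δ) ≤
        K * (1 / (16 * (K : ℝ) ^ 2)) + K * (3 / (16 * (K : ℝ) ^ 2)) := by linarith
      _ = 1 / (4 * (K : ℝ)) := by field_simp; norm_num
  obtain ⟨t', h1, h2, h3, h4⟩ := hH K r Z τ (M B lam) (1 / (4 * (K : ℝ) ^ 3)) (1 / (4 * (K : ℝ)))
    hr (by positivity) (by positivity) (by field_simp; exact le_rfl)
    (by field_simp; exact le_rfl) (fun a t => M_nonneg hE a t)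
    (fun a _ => sum_M hnpos hK hE a)
    (fun t => abs_Z hnpos hK hE hL hδ0 hξ0 hcls hκ' t) s
  refine ⟨t', h1, ?_, h3, h4⟩
  intro a
  refine cnt_ge hnpos hK hE hδ0 ?_ ?_ a (t' a) ?_
  · calc K * δ ≤ 1 / (16 * (K : ℝ) ^ 3) := hKd
      _ = 1 / (4 * (K : ℝ) ^ 3) / 4 := by field_simp; norm_num
  · rw [div_mul_eq_mul_div, one_mul, le_div_iff₀ (by positivity)]
    calc 4 * (K : ℝ) * (4 * (K : ℝ) ^ 3) = 16 * (K : ℝ) ^ 4 := by ring
      _ ≤ (n : ℝ) := hn3
  · by_cases ha : a ∈ Z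
    · exact h2 a ha
    · rw [h1 a ha]
      have h5 := abs_M (lam := lam) hnpos hK hE hL hδ0 a ha (τ a)
      rw [if_pos rfl, abs_le] at h5
      have h6 : 1 / (4 * (K : ℝ) ^ 3) ≤ 1 / 4 := by
        apply one_div_le_one_div_of_le (by norm_num)
        have : (1 : ℝ) ≤ (K : ℝ) ^ 3 := one_le_pow₀ hK1
        linarith
      have h7 : 3 / (16 * (K : ℝ) ^ 2) ≤ 3 / 16 := by
        apply div_le_div_of_nonneg_left (by norm_num) (by norm_num)
        have : (1 : ℝ) ≤ (K : ℝ) ^ 2 := one_le_pow₀ hK1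
        linarith
      linarith [h5.1]

end Pool.Agent.Lib.MP_b1acb3_co.One
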