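import Pool.Agent.Lib.MP_b1acb3_co.One.Defs

/-!
Basic lemmas for the classification of graphs without a leaf.
-/

namespace Pool.Agent.Lib.MP_b1acb3_co.One

open Finset Uni Leaf

variable {n K : ℕ} {c : Sym2 (Fin n) → Fin K} {ϑ : ℝ}

theorem Rel.nonempty {Q : Finset (Fin K)} {x y : Fin n} (hϑ : 0 ≤ ϑ) (h : Rel c ϑ Q x y) :
    Q.Nonempty := by
  induction h with
  | single x y hxy => exact singleton_nonempty _
  | comp Q Q' x y S hd hS h1 h2 ih1 ih2 =>
    have hne : S.Nonempty := by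
      rw [nonempty_iff_ne_empty]
      rintro rfl
      simp only [mu, card_empty, Nat.cast_zero, zero_div] at hS
      linarith
    obtain ⟨z, hz⟩ := hne
    exact (ih1 z hz).mono subset_union_left

theorem Rel.symm {Q : Finset (Fin K)} {x y : Fin n} (h : Rel c ϑ Q x y) : Rel c ϑ Q y x := by
  induction h with
  | single x y hxy =>
    rw [Sym2.eq_swap]
    exact Rel.single y x hxy.symm
  | comp Q Q' x y S hd hS h1 h2 ih1 ih2 =>
    rw [union_comm]
    exact Rel.comp Q' Q y x S hd.symm hS (fun z hz => ih2 z hz) (fun z hz => ih1 z hz)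

theorem mem_RS {x y : Fin n} {Q : Finset (Fin K)} : y ∈ RS c ϑ x Q ↔ Rel c ϑ Q x y := by
  simp [RS]

theorem RS_symm {x y : Fin n} {Q : Finset (Fin K)} (h : y ∈ RS c ϑ x Q) : x ∈ RS c ϑ y Q :=
  mem_RS.2 (mem_RS.1 h).symm

theorem RS_comp {x y : Fin n} {Q Q' : Finset (Fin K)} (hd : Disjoint Q Q')
    (h : ϑ < mu (RS c ϑ x Q ∩ RS c ϑ y Q')) : y ∈ RS c ϑ x (Q ∪ Q') := by
  refine mem_RS.2 (Rel.comp Q Q' x y _ hd h ?_ ?_)
  · intro z hz
    exact mem_RS.1 (mem_inter.1 hz).1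
  · intro z hz
    exact (mem_RS.1 (mem_inter.1 hz).2).symm

theorem RS_empty (hϑ : 0 ≤ ϑ) (x : Fin n) : RS c ϑ x ∅ = ∅ := by
  apply eq_empty_of_forall_notMem
  intro y hy
  exact Finset.not_nonempty_empty ((mem_RS.1 hy).nonempty hϑ)

theorem Rel.single_iff (hϑ : 0 ≤ ϑ) {x y : Fin n} {a : Fin K} :
    Rel c ϑ {a} x y ↔ y ≠ x ∧ c s(x, y) = a := by
  constructor
  · intro h
    generalize hQ : ({a} : Finset (Fin K)) = Q at h
    cases h with
    | single x y hxy => exact ⟨hxy, (singleton_inj.1 hQ).symm⟩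
    | comp Q Q' x y S hd hS h1 h2 =>
      exfalso
      have hne : S.Nonempty := by
        rw [nonempty_iff_ne_empty]
        rintro rfl
        simp only [mu, card_empty, Nat.cast_zero, zero_div] at hS
        linarith
      obtain ⟨z, hz⟩ := hne
      have e1 := card_pos.2 ((h1 z hz).nonempty hϑ)
      have e2 := card_pos.2 ((h2 z hz).nonempty hϑ)
      have e3 := card_union_of_disjoint hd
      rw [← hQ, card_singleton] at e3
      omega
  · rintro ⟨hxy, rfl⟩
    exact Rel.single x y hxy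

theorem RS_single (hϑ : 0 ≤ ϑ) (x : Fin n) (a : Fin K) : RS c ϑ x {a} = nbr c x a := by
  ext y
  rw [mem_RS, Rel.single_iff hϑ, mem_nbr]

theorem Good.mono {R : Finset (Fin K) → Finset (Fin n)} {B : ℝ} {Q Q' : Finset (Fin K)}
    (h : Good R B Q') (hQ : Q ⊆ Q') : Good R B Q := fun Q'' h'' => h Q'' (h''.trans hQ)

theorem mem_Tv {R : Finset (Fin K) → Finset (Fin n)} {A : Finset (Fin K)}
    {V : Finset (Finset (Fin K))} {y : Fin n} : y ∈ Tv R A V ↔ ∀ v ∈ V, y ∈ R (A ∪ v) := by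
  simp [Tv]

theorem mem_Tv_sh {R : Finset (Fin K) → Finset (Fin n)} {A : Finset (Fin K)}
    {V : Finset (Finset (Fin K))} {u : Finset (Fin K)} {y : Fin n} :
    y ∈ Tv R A (sh V u) ↔ ∀ v ∈ V, y ∈ R (A ∪ (v ∪ u)) := by
  simp [Tv, sh]

theorem mem_un {V : Finset (Finset (Fin K))} {a : Fin K} : a ∈ un V ↔ ∃ v ∈ V, a ∈ v := by
  simp [un]

theorem mem_cls {n r : ℕ} {lam : Fin n → Fin r → ZMod 2} {t : Fin r → ZMod 2} {y : Fin n} :
    y ∈ cls lam t ↔ lam y = t := by
  simp [cls]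

/-- A rainbow copy in a part of the colouring. -/
theorem copy_of_restrict {V : Type} {G : SimpleGraph V} {n n₁ : ℕ} {c : Sym2 (Fin n) → Fin K}
    {g : Fin n₁ → Fin n} (hg : Function.Injective g)
    (h : HasRainbowCopy G (fun e : Sym2 (Fin n₁) => c (e.map g))) : HasRainbowCopy G c := by
  obtain ⟨f, hf, hc⟩ := h
  refine ⟨g ∘ f, hg.comp hf, ?_⟩
  intro e he e' he' hee
  apply hc he he'
  simpa [Sym2.map_map] using hee

end Pool.Agent.Lib.MP_b1acb3_co.One
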