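import Pool.Agent.Lib.MP_b1acb3_co.One.Stmts
import Pool.Agent.Lib.MP_b1acb3_co.Uni.R
import Pool.Agent.Lib.MP_b1acb3_co.Uni.Chain
import Pool.Agent.Lib.MP_b1acb3_co.Uni.L

/-!
Module (Beta): the mean of the relative decrease of `K mu (R Q)`.
-/

namespace Pool.Agent.Lib.MP_b1acb3_co.One

open Finset Uni Leaf

namespace ModBeta

variable {n K : ℕ} {P : Fin K → Matrix (Fin n) (Fin n) ℝ} {R : Finset (Fin K) → Finset (Fin n)}
  {θ : ℝ} {d : ℕ}

/-- `K mu (R Q)` is at least `1 / 2`. -/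
theorem half_le (h : Sys P R θ d) (hθ : 2 * K ^ 2 * θ ≤ 1) (Q : Finset (Fin K))
    (hQ : Q.Nonempty) : 1 / 2 ≤ K * mu (R Q) := by
  have h1 := (thmR1 n K P R θ d h).1 Q hQ
  linarith

/-- The relative decrease is at most the decrease of the logarithm. -/
theorem rel_le (h : Sys P R θ d) (hθ : 2 * K ^ 2 * θ ≤ 1) (Q : Finset (Fin K))
    (hQ : 2 ≤ Q.card) :
    dec R Q / (K * mu (R Q)) ≤
      ∑ a ∈ Q, (Real.log (K * mu (R Q)) - Real.log (K * mu (R (Q.erase a)))) := by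
  unfold dec
  rw [sum_div]
  apply sum_le_sum
  intro a ha
  have h1 := half_le h hθ Q (card_pos.1 (by omega))
  have h2 := half_le h hθ (Q.erase a) (card_pos.1 (by rw [card_erase_of_mem ha]; omega))
  have h3 : 0 < K * mu (R Q) := by linarith
  have h4 : 0 < K * mu (R (Q.erase a)) := by linarith
  have h5 := Real.log_le_sub_one_of_pos (div_pos h4 h3)
  rw [Real.log_div h4.ne' h3.ne'] at h5
  rw [sub_div, div_self h3.ne']
  linarith

end ModBeta

open ModBeta ModL in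
/-- (Beta) Mean of the relative decrease. -/
theorem thmBeta : StBeta := by
  intro n K P R θ d h hθ i hi hiK
  obtain ⟨j, rfl⟩ : ∃ j, i = j + 1 := ⟨i - 1, by omega⟩
  have hK0 : (0 : ℝ) < K := by exact_mod_cast h.markov.kpos
  have h1 : EQ K (j + 1) (fun Q => dec R Q / (K * mu (R Q))) ≤ EQ K (j + 1) (fun Q =>
      ∑ a ∈ Q, (Real.log (K * mu (R Q)) - Real.log (K * mu (R (Q.erase a))))) := by
    apply EQ_mono
    intro Q hQ
    exact rel_le h hθ Q (by omega)
  refine h1.trans (le_of_eq ?_)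
  have h2 : EQ K (j + 1) (fun Q =>
      ∑ a ∈ Q, (Real.log (K * mu (R Q)) - Real.log (K * mu (R (Q.erase a))))) =
      EQ K (j + 1) (fun Q => ((j : ℝ) + 1) * Real.log (K * mu (R Q)) -
        ∑ a ∈ Q, Real.log (K * mu (R (Q.erase a)))) := by
    apply EQ_congr
    intro Q hQ
    rw [sum_sub_distrib, sum_const, hQ, nsmul_eq_mul]
    push_cast
    ring
  rw [h2, EQ_sub, EQ_mul]
  have h3 := thmChain K j (fun Q _ => Real.log (K * mu (R Q))) (by omega)
  have h4 : EQ K j (fun Q => ∑ c ∈ Qᶜ, Real.log (K * mu (R Q))) =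
      ((K : ℝ) - j) * EQ K j (fun Q => Real.log (K * mu (R Q))) := by
    rw [← EQ_mul]
    apply EQ_congr
    intro Q hQ
    rw [sum_const, card_compl, Fintype.card_fin, hQ, nsmul_eq_mul, Nat.cast_sub (by omega)]
  rw [h4] at h3
  unfold gE
  rw [Nat.add_sub_cancel]
  have hjK : (j : ℝ) + 1 ≤ K := by exact_mod_cast hiK
  have h5 : (0 : ℝ) < (K : ℝ) - j := by linarith
  have h6 : (0 : ℝ) < (j : ℝ) + 1 := by positivity
  have h7 : EQ K (j + 1) (fun Q => ∑ a ∈ Q, Real.log (K * mu (R (Q.erase a)))) =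
      ((j : ℝ) + 1) * EQ K j (fun Q => Real.log (K * mu (R Q))) := by
    field_simp at h3
    linarith
  rw [h7]
  push_cast
  ring

end Pool.Agent.Lib.MP_b1acb3_co.One
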