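import Pool.Agent.Lib.MP_b1acb3_co.One.Stmts

/-!
Canonical optimal data: a lexicographic maximum.
-/

namespace Pool.Agent.Lib.MP_b1acb3_co.One

open Finset Uni Leaf

namespace Canon

variable {n K : ℕ}

/-- Data `(A, V, D)`. -/
abbrev Dat (K : ℕ) : Type := Finset (Fin K) × Finset (Finset (Fin K)) × Finset (Fin K)

/-- The number of an element of a finite type. -/
noncomputable def idx (α : Type) [Fintype α] (x : α) : ℕ := (Fintype.equivFin α x : ℕ)

theorem idx_inj {α : Type} [Fintype α] {x y : α} (h : idx α x = idx α y) : x = y :=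
  (Fintype.equivFin α).injective (Fin.ext h)

/-- The condition on the data which does not refer to a large set. -/
structure Valid (R : Finset (Fin K) → Finset (Fin n)) (ν : ℝ) (X : Dat K) : Prop where
  neA : X.1.Nonempty
  neV : X.2.1.Nonempty
  disjV : ∀ v ∈ X.2.1, Disjoint v X.1
  big : ν < mu (Tv R X.1 X.2.1)
  disjD : Disjoint X.2.2 (X.1 ∪ un X.2.1)
  ind : Ind R ν X.1 X.2.1 X.2.2

/-- The key. -/
noncomputable def key (R : Finset (Fin K) → Finset (Fin n)) (Y : ℕ) (X : Dat K) :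
    ℝ ×ₗ ℕ ×ₗ ℝ ×ₗ ℕ ×ₗ ℕ ×ₗ ℕ :=
  toLex (scA R Y X.1, toLex (idx (Finset (Fin K)) X.1,
    toLex (-scV R Y X.1 X.2.1, toLex (idx (Finset (Finset (Fin K))) X.2.1,
      toLex (X.2.2.card, idx (Finset (Fin K)) X.2.2)))))

theorem key_inj (R : Finset (Fin K) → Finset (Fin n)) (Y : ℕ) {X X' : Dat K}
    (h : key R Y X = key R Y X') : X = X' := by
  unfold key at h
  simp only [EmbeddingLike.apply_eq_iff_eq, Prod.mk.injEq] at h
  obtain ⟨-, h1, -, h2, -, h3⟩ := h
  obtain ⟨A, V, D⟩ := X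
  obtain ⟨A', V', D'⟩ := X'
  have e1 : A = A' := idx_inj h1
  have e2 : V = V' := idx_inj h2
  have e3 : D = D' := idx_inj h3
  rw [e1, e2, e3]

theorem key_le {R : Finset (Fin K) → Finset (Fin n)} {Y : ℕ} {A A' : Finset (Fin K)}
    {V V' : Finset (Finset (Fin K))} {D D' : Finset (Fin K)}
    (h : key R Y (A', V', D') ≤ key R Y (A, V, D)) : scA R Y A' ≤ scA R Y A := by
  unfold key at h
  rw [Prod.Lex.toLex_le_toLex] at h
  rcases h with h | h
  · exact le_of_lt h
  · exact le_of_eq h.1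

theorem key_le' {R : Finset (Fin K) → Finset (Fin n)} {Y : ℕ} {A : Finset (Fin K)}
    {V V' : Finset (Finset (Fin K))} {D D' : Finset (Fin K)}
    (h : key R Y (A, V', D') ≤ key R Y (A, V, D)) : scV R Y A V ≤ scV R Y A V' := by
  unfold key at h
  simp only [Prod.Lex.toLex_le_toLex, lt_self_iff_false, true_and, false_or] at h
  rcases h with h | h
  · linarith
  · linarith [h.1]

theorem key_le'' {R : Finset (Fin K) → Finset (Fin n)} {Y : ℕ} {A : Finset (Fin K)}
    {V : Finset (Finset (Fin K))} {D D' : Finset (Fin K)}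
    (h : key R Y (A, V, D') ≤ key R Y (A, V, D)) : D'.card ≤ D.card := by
  unfold key at h
  simp only [Prod.Lex.toLex_le_toLex, lt_self_iff_false, true_and, false_or] at h
  rcases h with h | h
  · exact le_of_lt h
  · exact le_of_eq h.1

open Classical in
/-- The candidates for `S`. -/
noncomputable def cand (R : Finset (Fin K) → Finset (Fin n)) (ν : ℝ) (S : Finset (Fin K)) :
    Finset (Dat K) := univ.filter (fun X => Valid R ν X ∧ supp X ⊆ S)

theorem mem_cand {R : Finset (Fin K) → Finset (Fin n)} {ν : ℝ} {S : Finset (Fin K)}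
    {X : Dat K} : X ∈ cand R ν S ↔ Valid R ν X ∧ supp X ⊆ S := by
  simp [cand]

theorem Tv_single (R : Finset (Fin K) → Finset (Fin n)) (A : Finset (Fin K)) :
    Tv R A {∅} = R A := by
  ext y
  simp [Tv]

theorem un_single : un ({∅} : Finset (Finset (Fin K))) = ∅ := by
  simp [un]

theorem subset_un {V : Finset (Finset (Fin K))} {v : Finset (Fin K)} (h : v ∈ V) : v ⊆ un V :=
  Finset.le_sup (f := id) h

theorem un_subset {V : Finset (Finset (Fin K))} {T : Finset (Fin K)} (h : ∀ v ∈ V, v ⊆ T) :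
    un V ⊆ T := Finset.sup_le (f := id) h

theorem ind_empty (R : Finset (Fin K) → Finset (Fin n)) (ν : ℝ) (A : Finset (Fin K))
    (V : Finset (Finset (Fin K))) : Ind R ν A V ∅ := by
  intro u hu w hw huw
  rw [subset_empty] at hu hw
  exact absurd (hu.trans hw.symm) huw

theorem mem_cand₁ {R : Finset (Fin K) → Finset (Fin n)} {ν : ℝ}
    (hν : ∀ A : Finset (Fin K), A.Nonempty → ν < mu (R A)) {S A : Finset (Fin K)} (hA : A ⊆ S)
    (hne : A.Nonempty) : ((A, {∅}, ∅) : Dat K) ∈ cand R ν S := by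
  rw [mem_cand]
  refine ⟨⟨hne, singleton_nonempty _, ?_, ?_, ?_, ?_⟩, ?_⟩
  · intro v hv
    rw [mem_singleton.1 hv]
    exact disjoint_empty_left _
  · change ν < mu (Tv R A {∅})
    rw [Tv_single]
    exact hν A hne
  · exact disjoint_empty_left _
  · exact ind_empty _ _ _ _
  · change A ∪ un {∅} ∪ ∅ ⊆ S
    rw [un_single, union_empty, union_empty]
    exact hA

theorem mem_cand₂ {R : Finset (Fin K) → Finset (Fin n)} {ν : ℝ} {S A : Finset (Fin K)}
    {V D : _} (hX : ((A, V, D) : Dat K) ∈ cand R ν S) {V' : Finset (Finset (Fin K))}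
    (hne : V'.Nonempty) (hsub : ∀ v ∈ V', v ⊆ S \ A) (hbig : ν < mu (Tv R A V')) :
    ((A, V', ∅) : Dat K) ∈ cand R ν S := by
  rw [mem_cand] at hX ⊢
  obtain ⟨hv, hs⟩ := hX
  have hA : A ⊆ S := (subset_union_left.trans subset_union_left).trans hs
  refine ⟨⟨hv.neA, hne, ?_, hbig, disjoint_empty_left _, ind_empty _ _ _ _⟩, ?_⟩
  · intro v hv
    exact (subset_sdiff.1 (hsub v hv)).2
  · change A ∪ un V' ∪ ∅ ⊆ S
    rw [union_empty]
    exact union_subset hA (un_subset fun v hv => (hsub v hv).trans sdiff_subset)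

theorem mem_cand₃ {R : Finset (Fin K) → Finset (Fin n)} {ν : ℝ} {S A : Finset (Fin K)}
    {V D : _} (hX : ((A, V, D) : Dat K) ∈ cand R ν S) {D' : Finset (Fin K)}
    (hsub : D' ⊆ S \ (A ∪ un V)) (hind : Ind R ν A V D') :
    ((A, V, D') : Dat K) ∈ cand R ν S := by
  rw [mem_cand] at hX ⊢
  obtain ⟨hv, hs⟩ := hX
  refine ⟨⟨hv.neA, hv.neV, hv.disjV, hv.big, (subset_sdiff.1 hsub).2, hind⟩, ?_⟩
  change A ∪ un V ∪ D' ⊆ S
  exact union_subset (subset_union_left.trans hs) (hsub.trans sdiff_subset)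

theorem exists_max {R : Finset (Fin K) → Finset (Fin n)} {ν : ℝ} (Y : ℕ)
    (hν : ∀ A : Finset (Fin K), A.Nonempty → ν < mu (R A)) {S : Finset (Fin K)}
    (hS : S.Nonempty) :
    ∃ X ∈ cand R ν S, ∀ X' ∈ cand R ν S, key R Y X' ≤ key R Y X :=
  Finset.exists_max_image _ _ ⟨_, mem_cand₁ hν Subset.rfl hS⟩

theorem opt_of_max {R : Finset (Fin K) → Finset (Fin n)} {ν : ℝ} {Y : ℕ}
    (hν : ∀ A : Finset (Fin K), A.Nonempty → ν < mu (R A)) {S A : Finset (Fin K)}
    {V : Finset (Finset (Fin K))} {D : Finset (Fin K)}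
    (hX : ((A, V, D) : Dat K) ∈ cand R ν S)
    (hmax : ∀ X' ∈ cand R ν S, key R Y X' ≤ key R Y (A, V, D)) : Opt R Y ν S A V D := by
  have hX' := mem_cand.1 hX
  obtain ⟨hv, hs⟩ := hX'
  have hA : A ⊆ S := (subset_union_left.trans subset_union_left).trans hs
  have hV : un V ⊆ S := (subset_union_right.trans subset_union_left).trans hs
  have hD : D ⊆ S := subset_union_right.trans hs
  refine ⟨hA, hv.neA, hv.neV, ?_, hv.big, subset_sdiff.2 ⟨hD, hv.disjD⟩, hv.ind, ?_, ?_, ?_⟩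
  · intro v hvV
    exact subset_sdiff.2 ⟨(subset_un hvV).trans hV, hv.disjV v hvV⟩
  · intro A' hA' hne
    exact key_le (hmax _ (mem_cand₁ hν hA' hne))
  · intro V' hne hsub hbig
    exact key_le' (hmax _ (mem_cand₂ hX hne hsub hbig))
  · intro D' hsub hind
    exact key_le'' (hmax _ (mem_cand₃ hX hsub hind))

end Canon

open Canon in
/-- (Canon) Canonical optimal data. -/
theorem thmCanon : StCanon := by
  intro n K Y R ν hν
  classical
  choose! dat hdat hmax using fun (S : Finset (Fin K)) (hS : S.Nonempty) =>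
    exists_max (R := R) (ν := ν) Y hν hS
  refine ⟨dat, fun S hS => opt_of_max hν (hdat S hS) (hmax S hS), ?_⟩
  intro S S' hS hSS hsup
  have hS' : S'.Nonempty := hS.mono hSS
  have h1 := mem_cand.1 (hdat S hS)
  have h2 := mem_cand.1 (hdat S' hS')
  refine key_inj R Y (le_antisymm ?_ ?_)
  · exact hmax S' hS' _ (mem_cand.2 ⟨h1.1, h1.2.trans hSS⟩)
  · exact hmax S hS _ (mem_cand.2 ⟨h2.1, hsup⟩)

end Pool.Agent.Lib.MP_b1acb3_co.One
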