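import Pool.Agent.Lib.MP_b1acb3_co.One.Stmts

/-!
All classes have nearly the same size.
-/

namespace Pool.Agent.Lib.MP_b1acb3_co.One

open Finset Uni Leaf

namespace ModClassN

variable {n K r : ℕ} {c : Sym2 (Fin n) → Fin K} {B : Fin K → Matrix (Fin n) (Fin n) ℝ}
  {Z : Finset (Fin K)} {τ : Fin K → Fin r → ZMod 2} {lam : Fin n → Fin r → ZMod 2} {ξ δ : ℝ}

theorem nbr_symm (c : Sym2 (Fin n) → Fin K) (x y : Fin n) (a : Fin K) :
    y ∈ nbr c x a ↔ x ∈ nbr c y a := by
  rw [mem_nbr, mem_nbr, Sym2.eq_swap, ne_comm]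

theorem step_card (hδ : 0 ≤ δ) (hE : Env c B δ) (hL : Lab c Z τ lam ξ) (a : Fin K) (ha : a ∉ Z)
    (t : Fin r → ZMod 2) :
    ((cls lam t).card : ℝ) * ((n : ℝ) / K - n * δ - 1 - ξ * ((n : ℝ) / K)) ≤
      ((cls lam (t + τ a)).card : ℝ) * ((n : ℝ) / K + n * (K * δ)) := by
  classical
  have hdc := sum_card_bipartiteAbove_eq_sum_card_bipartiteBelow (s := cls lam t)
    (t := cls lam (t + τ a)) (fun y z => z ∈ nbr c y a)
  have h1 : ∀ y ∈ cls lam t, (n : ℝ) / K - n * δ - 1 - ξ * ((n : ℝ) / K) ≤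
      ((bipartiteAbove (fun y z => z ∈ nbr c y a) (cls lam (t + τ a)) y).card : ℝ) := by
    intro y hy
    rw [mem_cls] at hy
    have e1 := hE.deg_ge y a
    have e2 := hL.lab y a ha
    have e3 : ((nbr c y a).filter (fun z => lam z = lam y + τ a)).card +
        ((nbr c y a).filter (fun z => ¬ lam z = lam y + τ a)).card = (nbr c y a).card :=
      card_filter_add_card_filter_not _
    have e4 : ((nbr c y a).filter (fun z => lam z = lam y + τ a)).card ≤
        (bipartiteAbove (fun y z => z ∈ nbr c y a) (cls lam (t + τ a)) y).card := by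
      apply card_le_card
      intro z hz
      rw [mem_filter] at hz
      rw [mem_bipartiteAbove, mem_cls]
      exact ⟨by rw [hz.2, hy], hz.1⟩
    rw [← card_nbr] at e1
    have e5 : (((nbr c y a).filter (fun z => lam z = lam y + τ a)).card : ℝ) +
        ((nbr c y a).filter (fun z => ¬ lam z = lam y + τ a)).card = (nbr c y a).card := by
      exact_mod_cast e3
    have e6 : (((nbr c y a).filter (fun z => lam z = lam y + τ a)).card : ℝ) ≤
        ((bipartiteAbove (fun y z => z ∈ nbr c y a) (cls lam (t + τ a)) y).card : ℝ) := by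
      exact_mod_cast e4
    linarith
  have h2 : ∀ z ∈ cls lam (t + τ a),
      ((bipartiteBelow (fun y z => z ∈ nbr c y a) (cls lam t) z).card : ℝ) ≤
        (n : ℝ) / K + n * (K * δ) := by
    intro z _
    have e1 := hE.deg_le hδ z a
    rw [← card_nbr] at e1
    have e4 : (bipartiteBelow (fun y z => z ∈ nbr c y a) (cls lam t) z).card ≤
        (nbr c z a).card := by
      apply card_le_card
      intro y hy
      rw [mem_bipartiteBelow] at hy
      exact (nbr_symm c y z a).1 hy.2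
    have e6 : ((bipartiteBelow (fun y z => z ∈ nbr c y a) (cls lam t) z).card : ℝ) ≤
        ((nbr c z a).card : ℝ) := by exact_mod_cast e4
    linarith
  have h3 := sum_le_sum h1
  have h4 := sum_le_sum h2
  rw [sum_const, nsmul_eq_mul] at h3 h4
  have h5 : ∑ y ∈ cls lam t,
      ((bipartiteAbove (fun y z => z ∈ nbr c y a) (cls lam (t + τ a)) y).card : ℝ) =
      ∑ z ∈ cls lam (t + τ a),
        ((bipartiteBelow (fun y z => z ∈ nbr c y a) (cls lam t) z).card : ℝ) := by
    exact_mod_cast hdc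
  linarith

theorem step (hn : 0 < n) (hK : 0 < K) (hδ : 0 ≤ δ) (hξ : 0 ≤ ξ) (hE : Env c B δ)
    (hL : Lab c Z τ lam ξ) (a : Fin K) (ha : a ∉ Z) (t : Fin r → ZMod 2) :
    mu (cls lam t) ≤ mu (cls lam (t + τ a)) + (K ^ 2 * δ + K * δ + K / n + ξ) := by
  have h := step_card hδ hE hL a ha t
  have hn' : (0 : ℝ) < n := by exact_mod_cast hn
  have hK' : (0 : ℝ) < K := by exact_mod_cast hK
  have e1 : ((cls lam t).card : ℝ) = n * mu (cls lam t) := by
    unfold mu; field_simp
  have e2 : ((cls lam (t + τ a)).card : ℝ) = n * mu (cls lam (t + τ a)) := by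
    unfold mu; field_simp
  rw [e1, e2] at h
  have h1 := mu_le_one (cls lam t)
  have h2 := mu_le_one (cls lam (t + τ a))
  have h3 := mu_nonneg (cls lam t)
  have h4 := mu_nonneg (cls lam (t + τ a))
  set x := mu (cls lam t)
  set y := mu (cls lam (t + τ a))
  have e3 : (n : ℝ) / K - n * δ - 1 - ξ * ((n : ℝ) / K) =
      (n / K) * (1 - (K * δ + K / n + ξ)) := by
    field_simp
    ring
  have e4 : (n : ℝ) / K + n * (K * δ) = (n / K) * (1 + K ^ 2 * δ) := by
    field_simp
  rw [e3, e4] at h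
  have h5 : x * (1 - (K * δ + K / n + ξ)) ≤ y * (1 + K ^ 2 * δ) := by
    have hpos : 0 < (n : ℝ) * (n / K) := by positivity
    refine le_of_mul_le_mul_left ?_ hpos
    calc (n : ℝ) * (n / K) * (x * (1 - (K * δ + K / n + ξ)))
        = n * x * ((n / K) * (1 - (K * δ + K / n + ξ))) := by ring
      _ ≤ n * y * ((n / K) * (1 + K ^ 2 * δ)) := h
      _ = (n : ℝ) * (n / K) * (y * (1 + K ^ 2 * δ)) := by ring
  have h6 : x * (K * δ + K / n + ξ) ≤ K * δ + K / n + ξ := by
    have : 0 ≤ K * δ + K / n + ξ := by positivity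
    nlinarith
  have h7 : y * (K ^ 2 * δ) ≤ K ^ 2 * δ := by
    have : 0 ≤ (K : ℝ) ^ 2 * δ := by positivity
    nlinarith
  linarith

theorem steps (hn : 0 < n) (hK : 0 < K) (hδ : 0 ≤ δ) (hξ : 0 ≤ ξ) (hE : Env c B δ)
    (hL : Lab c Z τ lam ξ) (Q : Finset (Fin K)) (hQ : Q ⊆ Zᶜ) (t : Fin r → ZMod 2) :
    mu (cls lam t) ≤ mu (cls lam (t + ∑ a ∈ Q, τ a)) +
      Q.card * (K ^ 2 * δ + K * δ + K / n + ξ) := by
  classical
  induction Q using Finset.induction_on with
  | empty => simp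
  | insert a Q haQ ih =>
    have h1 := ih ((subset_insert a Q).trans hQ)
    have haZ : a ∉ Z := mem_compl.1 (hQ (mem_insert_self a Q))
    have h2 := step hn hK hδ hξ hE hL a haZ (t + ∑ a ∈ Q, τ a)
    rw [sum_insert haQ, card_insert_of_notMem haQ]
    have e : t + (τ a + ∑ a ∈ Q, τ a) = t + ∑ a ∈ Q, τ a + τ a := by abel
    rw [e]
    push_cast
    linarith

theorem all (hn : 0 < n) (hK : 0 < K) (hδ : 0 ≤ δ) (hξ : 0 ≤ ξ) (hE : Env c B δ)
    (hL : Lab c Z τ lam ξ) (t t' : Fin r → ZMod 2) :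
    mu (cls lam t) ≤ mu (cls lam t') + K * (K ^ 2 * δ + K * δ + K / n + ξ) := by
  obtain ⟨Q, hQ, hs⟩ := hL.span (t' - t)
  have h := steps hn hK hδ hξ hE hL Q hQ t
  rw [hs, add_sub_cancel] at h
  have h1 : (Q.card : ℝ) ≤ K := by
    have := card_le_univ Q
    rw [Fintype.card_fin] at this
    exact_mod_cast this
  have h2 : 0 ≤ K ^ 2 * δ + K * δ + K / n + ξ := by positivity
  have h3 := mul_le_mul_of_nonneg_right h1 h2
  linarith

theorem sum_mu (hn : 0 < n) (lam : Fin n → Fin r → ZMod 2) : ∑ t, mu (cls lam t) = 1 := by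
  classical
  have hsum : ∑ t' : Fin r → ZMod 2, (cls lam t').card = n := by
    have := card_eq_sum_card_fiberwise (s := (univ : Finset (Fin n)))
      (t := (univ : Finset (Fin r → ZMod 2))) (f := lam) (fun _ _ => mem_univ _)
    rw [card_univ, Fintype.card_fin] at this
    exact this.symm
  unfold mu
  rw [← sum_div]
  have hn' : (n : ℝ) ≠ 0 := by exact_mod_cast hn.ne'
  rw [div_eq_one_iff_eq hn']
  exact_mod_cast hsum

end ModClassN

open ModClassN in
theorem thmClassN : StClassN := by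
  intro K κ hK hκ
  have hK' : (0 : ℝ) < K := by exact_mod_cast hK
  have hK1 : (1 : ℝ) ≤ K := by exact_mod_cast hK
  obtain ⟨n₀, hn₀⟩ := exists_nat_gt (4 * (K : ℝ) ^ 2 / κ)
  refine ⟨κ / (4 * K), by positivity, κ / (4 * K ^ 3), by positivity, max n₀ 1, ?_⟩
  intro n hn c B hE r Z τ lam hL t
  have hn1 : 0 < n := lt_of_lt_of_le one_pos ((le_max_right n₀ 1).trans hn)
  have hn' : (0 : ℝ) < n := by exact_mod_cast hn1
  have hnn : (n₀ : ℝ) ≤ n := by exact_mod_cast (le_max_left n₀ 1).trans hn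
  have hη : K * (K ^ 2 * (κ / (4 * K ^ 3)) + K * (κ / (4 * K ^ 3)) + K / n + κ / (4 * K)) ≤ κ := by
    have a1 : (K : ℝ) * (K ^ 2 * (κ / (4 * K ^ 3))) = κ / 4 := by field_simp
    have a2 : (K : ℝ) * (K * (κ / (4 * K ^ 3))) ≤ κ / 4 := by
      have : (K : ℝ) * (K * (κ / (4 * K ^ 3))) = (κ / 4) * (1 / K) := by field_simp
      rw [this]
      have h1 : (1 : ℝ) / K ≤ 1 := by
        rw [div_le_one hK']; exact hK1
      nlinarith
    have a3 : (K : ℝ) * (K / n) ≤ κ / 4 := by
      have h1 : 4 * (K : ℝ) ^ 2 / κ < n := lt_of_lt_of_le hn₀ hnn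
      rw [div_lt_iff₀ hκ] at h1
      have h2 : (K : ℝ) * (K / n) = K ^ 2 / n := by ring
      rw [h2, div_le_iff₀ hn']
      nlinarith
    have a4 : (K : ℝ) * (κ / (4 * K)) = κ / 4 := by field_simp
    linarith
  have hδ0 : (0 : ℝ) ≤ κ / (4 * K ^ 3) := by positivity
  have hξ0 : (0 : ℝ) ≤ κ / (4 * K) := by positivity
  have hall := fun t t' => all hn1 hK hδ0 hξ0 hE hL t t'
  have hsum := sum_mu hn1 lam
  have hcard : (Fintype.card (Fin r → ZMod 2) : ℝ) = 2 ^ r := by
    simp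
  have h2r : (0 : ℝ) < 2 ^ r := by positivity
  have up : ∀ t' : Fin r → ZMod 2, mu (cls lam t) ≤ mu (cls lam t') + κ := fun t' =>
    (hall t t').trans (by linarith)
  have lo : ∀ t' : Fin r → ZMod 2, mu (cls lam t') ≤ mu (cls lam t) + κ := fun t' =>
    (hall t' t).trans (by linarith)
  have s1 : (2 : ℝ) ^ r * mu (cls lam t) ≤ 1 + 2 ^ r * κ := by
    have := sum_le_sum fun (t' : Fin r → ZMod 2) (_ : t' ∈ univ) => up t'
    rw [sum_const, nsmul_eq_mul, sum_add_distrib, hsum, sum_const, nsmul_eq_mul, card_univ,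
      hcard] at this
    exact this
  have s2 : 1 ≤ (2 : ℝ) ^ r * (mu (cls lam t) + κ) := by
    have := sum_le_sum fun (t' : Fin r → ZMod 2) (_ : t' ∈ univ) => lo t'
    rw [hsum, sum_const, nsmul_eq_mul, card_univ, hcard] at this
    exact this
  rw [abs_le]
  constructor
  · have : (1 : ℝ) / 2 ^ r ≤ mu (cls lam t) + κ := by
      rw [div_le_iff₀ h2r]
      linarith
    linarith
  · have : mu (cls lam t) ≤ 1 / 2 ^ r + κ := by
      have h := s1
      have e : (2 : ℝ) ^ r * (1 / 2 ^ r + κ) = 1 + 2 ^ r * κ := by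
        field_simp
      rw [← e] at h
      exact le_of_mul_le_mul_left h h2r
    linarith

end Pool.Agent.Lib.MP_b1acb3_co.One
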