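import Pool.Agent.Lib.MP_b1acb3_co.One.Stmts

/-!
Module Clean: removing atypical vertices.
-/

namespace Pool.Agent.Lib.MP_b1acb3_co.One

open Finset Uni Leaf

namespace ModClean

/-- the exceptional measure at `x` for the colour `a` -/
noncomputable def w {n K r : ℕ} (B : Fin K → Matrix (Fin n) (Fin n) ℝ)
    (τ : Fin K → Fin r → ZMod 2) (lam : Fin n → Fin r → ZMod 2) (a : Fin K) (x : Fin n) : ℝ :=
  ∑ y ∈ univ.filter (fun y => lam y ≠ lam x + τ a), Cyc.nrm B a x y

theorem w_nonneg {n K r : ℕ} {B : Fin K → Matrix (Fin n) (Fin n) ℝ} (hB : Cyc.Exact B)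
    (τ : Fin K → Fin r → ZMod 2) (lam : Fin n → Fin r → ZMod 2) (a : Fin K) (x : Fin n) :
    0 ≤ w B τ lam a x := by
  apply sum_nonneg
  intro y _
  simp only [Cyc.nrm, Matrix.smul_apply, smul_eq_mul]
  have := hB.nonneg a x y
  positivity

/-- the vertices where a colour outside `Z` is exceptional -/
noncomputable def bad {n K r : ℕ} (B : Fin K → Matrix (Fin n) (Fin n) ℝ)
    (τ : Fin K → Fin r → ZMod 2) (lam : Fin n → Fin r → ZMod 2) (Z : Finset (Fin K)) (s : ℝ) :
    Finset (Fin n) := Zᶜ.biUnion (fun a => univ.filter (fun x => s < w B τ lam a x))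

theorem card_badC {n K r : ℕ} {B : Fin K → Matrix (Fin n) (Fin n) ℝ} (hB : Cyc.Exact B)
    (τ : Fin K → Fin r → ZMod 2) (lam : Fin n → Fin r → ZMod 2) (Z : Finset (Fin K)) (s : ℝ)
    (hn : 0 < n) (hs : 0 < s) (h : Ex (Cyc.nrm B) Z τ lam (s ^ 2)) :
    ((bad B τ lam Z s).card : ℝ) ≤ K * (s * n) := by
  have hn' : (0 : ℝ) < n := by exact_mod_cast hn
  have h1 : ∀ a ∈ Zᶜ, ((univ.filter (fun x => s < w B τ lam a x)).card : ℝ) ≤ s * n := by
    intro a ha
    have h2 : avg (fun x => w B τ lam a x) ≤ s ^ 2 := h.ex a (mem_compl.1 ha)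
    rw [avg, div_le_iff₀ hn'] at h2
    have h3 : s * ((univ.filter (fun x => s < w B τ lam a x)).card : ℝ) ≤
        ∑ x, w B τ lam a x := by
      calc s * ((univ.filter (fun x => s < w B τ lam a x)).card : ℝ)
          = ∑ _x ∈ univ.filter (fun x => s < w B τ lam a x), s := by
            rw [sum_const, nsmul_eq_mul, mul_comm]
        _ ≤ ∑ x ∈ univ.filter (fun x => s < w B τ lam a x), w B τ lam a x := by
            apply sum_le_sum
            intro x hx
            exact (mem_filter.1 hx).2.le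
        _ ≤ ∑ x, w B τ lam a x :=
            sum_le_sum_of_subset_of_nonneg (filter_subset _ _)
              fun x _ _ => w_nonneg hB τ lam a x
    have h4 := h3.trans h2
    have h5 : s * ((univ.filter (fun x => s < w B τ lam a x)).card : ℝ) ≤ s * (s * n) := by
      linarith [h4, sq s]
    exact le_of_mul_le_mul_left h5 hs
  have h6 : ((bad B τ lam Z s).card : ℝ) ≤
      ∑ a ∈ Zᶜ, ((univ.filter (fun x => s < w B τ lam a x)).card : ℝ) := by
    unfold bad
    exact_mod_cast card_biUnion_le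
  have h7 : ∑ a ∈ Zᶜ, ((univ.filter (fun x => s < w B τ lam a x)).card : ℝ) ≤
      ∑ _a ∈ Zᶜ, s * (n : ℝ) := sum_le_sum h1
  rw [sum_const, nsmul_eq_mul] at h7
  have h8 : ((Zᶜ : Finset (Fin K)).card : ℝ) ≤ K := by
    have := card_le_univ (Zᶜ : Finset (Fin K))
    rw [Fintype.card_fin] at this
    exact_mod_cast this
  have h9 := mul_le_mul_of_nonneg_right h8 (by positivity : (0 : ℝ) ≤ s * n)
  linarith

theorem count_le {n K r : ℕ} {c : Sym2 (Fin n) → Fin K} {B : Fin K → Matrix (Fin n) (Fin n) ℝ}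
    {δ : ℝ} (hE : Env c B δ) (hδ : 0 ≤ δ) (hK : 0 < K) (hn : 0 < n)
    (τ : Fin K → Fin r → ZMod 2) (lam : Fin n → Fin r → ZMod 2) (a : Fin K) (x : Fin n) :
    (((nbr c x a).filter (fun z => lam z ≠ lam x + τ a)).card : ℝ) ≤
      (n : ℝ) / K * (w B τ lam a x + K ^ 2 * δ) := by
  have hn' : (0 : ℝ) < n := by exact_mod_cast hn
  have hK' : (0 : ℝ) < K := by exact_mod_cast hK
  have h1 : (((nbr c x a).filter (fun z => lam z ≠ lam x + τ a)).card : ℝ) ≤
      ∑ z ∈ univ.filter (fun y => lam y ≠ lam x + τ a),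
        (if c s(x, z) = a then (1 : ℝ) else 0) := by
    rw [sum_boole]
    norm_cast
    apply card_le_card
    intro z hz
    rw [mem_filter, mem_nbr] at hz
    rw [mem_filter, mem_filter]
    exact ⟨⟨mem_univ _, hz.2⟩, hz.1.2⟩
  have h2 : ∑ z ∈ univ.filter (fun y => lam y ≠ lam x + τ a),
      (if c s(x, z) = a then (1 : ℝ) else 0) ≤
      ∑ z ∈ univ.filter (fun y => lam y ≠ lam x + τ a), (B a x z + K * δ) :=
    sum_le_sum fun z _ => hE.lower hδ a x z
  rw [sum_add_distrib, sum_const, nsmul_eq_mul] at h2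
  have h3 : ∑ z ∈ univ.filter (fun y => lam y ≠ lam x + τ a), B a x z =
      (n : ℝ) / K * w B τ lam a x := by
    rw [w, mul_sum]
    apply sum_congr rfl
    intro z _
    simp only [Cyc.nrm, Matrix.smul_apply, smul_eq_mul]
    field_simp
  have h4 : ((univ.filter (fun y => lam y ≠ lam x + τ a)).card : ℝ) ≤ n := by
    have := card_le_univ (univ.filter (fun y => lam y ≠ lam x + τ a))
    rw [Fintype.card_fin] at this
    exact_mod_cast this
  have h5 := mul_le_mul_of_nonneg_right h4 (by positivity : (0 : ℝ) ≤ K * δ)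
  have h6 : (n : ℝ) / K * (w B τ lam a x + K ^ 2 * δ) =
      (n : ℝ) / K * w B τ lam a x + n * (K * δ) := by
    field_simp
  rw [h6]
  linarith

end ModClean

open ModClean in
theorem thmClean : StClean := by
  intro K n' ξ ε hK hξ hε
  have hK' : (0 : ℝ) < K := by exact_mod_cast hK
  obtain ⟨s, hs, hs1, hs2, hs3⟩ : ∃ s : ℝ, 0 < s ∧ K * s ≤ 1 / 2 ∧ 6 * K ^ 2 * s ≤ ε ∧
      s ≤ ξ / 4 := by
    refine ⟨min (1 / (2 * K)) (min (ε / (6 * K ^ 2)) (ξ / 4)), ?_, ?_, ?_, ?_⟩
    · positivity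
    · have := min_le_left (1 / (2 * (K : ℝ))) (min (ε / (6 * K ^ 2)) (ξ / 4))
      calc (K : ℝ) * _ ≤ K * (1 / (2 * K)) := mul_le_mul_of_nonneg_left this hK'.le
        _ = 1 / 2 := by field_simp
    · have := (min_le_right (1 / (2 * (K : ℝ))) (min (ε / (6 * K ^ 2)) (ξ / 4))).trans
        (min_le_left _ _)
      calc 6 * (K : ℝ) ^ 2 * _ ≤ 6 * K ^ 2 * (ε / (6 * K ^ 2)) :=
            mul_le_mul_of_nonneg_left this (by positivity)
        _ = ε := by field_simp
    · exact (min_le_right _ _).trans (min_le_right _ _)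
  obtain ⟨δ, hδ, hδ1, hδ2⟩ : ∃ δ : ℝ, 0 < δ ∧ 6 * K * δ ≤ ε ∧ 4 * K ^ 2 * δ ≤ ξ := by
    refine ⟨min (ε / (6 * K)) (ξ / (4 * K ^ 2)), ?_, ?_, ?_⟩
    · positivity
    · calc 6 * (K : ℝ) * _ ≤ 6 * K * (ε / (6 * K)) :=
            mul_le_mul_of_nonneg_left (min_le_left _ _) (by positivity)
        _ = ε := by field_simp
    · calc 4 * (K : ℝ) ^ 2 * _ ≤ 4 * K ^ 2 * (ξ / (4 * K ^ 2)) :=
            mul_le_mul_of_nonneg_left (min_le_right _ _) (by positivity)
        _ = ξ := by field_simp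
  obtain ⟨m, hm⟩ := exists_nat_ge (6 * K / ε)
  refine ⟨s ^ 2, by positivity, δ, hδ, 2 * n' + m + 1, ?_⟩
  intro n hn c B hE r Z τ lam hX
  have hn0 : 0 < n := by omega
  have hn' : (0 : ℝ) < n := by exact_mod_cast hn0
  have hnm : 6 * K ≤ ε * n := by
    have h1 : (m : ℝ) ≤ n := by exact_mod_cast (by omega : m ≤ n)
    have h2 := hm.trans h1
    rw [div_le_iff₀ hε] at h2
    linarith
  have hbad := card_badC hE.exact τ lam Z s hn0 hs hX
  set D := bad B τ lam Z s with hD
  have hbad2 : (D.card : ℝ) ≤ n / 2 := by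
    have : (K : ℝ) * (s * n) = K * s * n := by ring
    rw [this] at hbad
    have := mul_le_mul_of_nonneg_right hs1 hn'.le
    linarith
  have hcard : (Dᶜ).card + D.card = n := by
    rw [card_compl, Fintype.card_fin]
    have := card_le_univ D
    rw [Fintype.card_fin] at this
    omega
  have hcard' : ((Dᶜ).card : ℝ) + D.card = n := by exact_mod_cast hcard
  set n₁ := (Dᶜ).card with hn₁
  have hn₁' : (n : ℝ) / 2 ≤ n₁ := by linarith
  have hn₁n : (n₁ : ℝ) ≤ n := by
    have : (0 : ℝ) ≤ D.card := Nat.cast_nonneg _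
    linarith
  let g : Fin n₁ → Fin n := fun i => (Dᶜ).orderEmbOfFin rfl i
  have hg : Function.Injective g := ((Dᶜ).orderEmbOfFin rfl).injective
  have hgD : ∀ i, g i ∉ D := by
    intro i
    have : g i ∈ Dᶜ := orderEmbOfFin_mem _ _ i
    exact mem_compl.1 this
  have hgr : ∀ z, z ∉ D → ∃ i, g i = z := by
    intro z hz
    have h1 : z ∈ Set.range ((Dᶜ).orderEmbOfFin rfl) := by
      rw [range_orderEmbOfFin]
      simpa using hz
    exact h1
  refine ⟨n₁, g, ?_, hg, ?_, ?_, hX.span⟩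
  · have h1 : (n : ℝ) ≤ 2 * n₁ := by linarith
    have h2 : n ≤ 2 * n₁ := by exact_mod_cast h1
    omega
  · intro i k
    have h1 := hE.deg_ge (g i) k
    have h2 : (colourDegree c (g i) k : ℝ) ≤
        (colourDegree (fun e : Sym2 (Fin n₁) => c (e.map g)) i k : ℝ) + D.card := by
      have h3 : univ.filter (fun j : Fin n => j ≠ g i ∧ c s(g i, j) = k) ⊆
          (univ.filter (fun j : Fin n₁ => j ≠ i ∧ c (s(i, j).map g) = k)).image g ∪ D := by
        intro j hj
        rw [mem_filter] at hj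
        rw [mem_union]
        by_cases hjD : j ∈ D
        · exact Or.inr hjD
        · left
          obtain ⟨j', rfl⟩ := hgr j hjD
          rw [mem_image]
          refine ⟨j', ?_, rfl⟩
          rw [mem_filter]
          refine ⟨mem_univ _, ?_, ?_⟩
          · intro h
            exact hj.2.1 (by rw [h])
          · rw [Sym2.map_mk]
            exact hj.2.2
      have h4 := (card_le_card h3).trans (card_union_le _ _)
      have h5 : ((univ.filter (fun j : Fin n₁ => j ≠ i ∧ c (s(i, j).map g) = k)).image g).card ≤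
          (univ.filter (fun j : Fin n₁ => j ≠ i ∧ c (s(i, j).map g) = k)).card := card_image_le
      have h6 := h4.trans (Nat.add_le_add_right h5 _)
      unfold colourDegree
      convert (Nat.cast_le (α := ℝ)).2 h6 using 1
      · congr
      · push_cast
        congr
    have h7 : (1 - ε) * (n₁ : ℝ) / K ≤ n / K - n * δ - 1 - D.card := by
      have e1 : (1 - ε) * (n₁ : ℝ) / K = n₁ / K - ε * n₁ / K := by ring
      have e2 : (n₁ : ℝ) / K ≤ n / K := by gcongr
      have e3 : ε * ((n : ℝ) / 2) / K ≤ ε * n₁ / K := by gcongr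
      have e4 : (n : ℝ) * δ + 1 + D.card ≤ ε * ((n : ℝ) / 2) / K := by
        rw [le_div_iff₀ hK']
        have f1 : (n : ℝ) * (6 * K * δ) ≤ n * ε := mul_le_mul_of_nonneg_left hδ1 hn'.le
        have f2 : (n : ℝ) * (6 * K ^ 2 * s) ≤ n * ε := mul_le_mul_of_nonneg_left hs2 hn'.le
        have f3 : (D.card : ℝ) * K ≤ K * (s * n) * K := mul_le_mul_of_nonneg_right hbad hK'.le
        nlinarith [f1, f2, f3, hnm]
      rw [e1]
      linarith
    have h8 : (1 - ε) * (n₁ : ℝ) / K ≤ (colourDegree c (g i) k : ℝ) - D.card := by linarith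
    linarith
  · intro y a ha
    have h1 : w B τ lam a (g y) ≤ s := by
      by_contra hcon
      apply hgD y
      rw [hD, ModClean.bad, mem_biUnion]
      exact ⟨a, mem_compl.2 ha, mem_filter.2 ⟨mem_univ _, not_le.1 hcon⟩⟩
    have h2 := count_le hE hδ.le hK hn0 τ lam a (g y)
    have h3 : (((nbr (fun e : Sym2 (Fin n₁) => c (e.map g)) y a).filter
        (fun z => lam (g z) ≠ lam (g y) + τ a)).card : ℝ) ≤
        (((nbr c (g y) a).filter (fun z => lam z ≠ lam (g y) + τ a)).card : ℝ) := by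
      norm_cast
      rw [← card_image_of_injective _ hg]
      apply card_le_card
      intro z hz
      rw [mem_image] at hz
      obtain ⟨z', hz', rfl⟩ := hz
      rw [mem_filter, mem_nbr] at hz'
      rw [mem_filter, mem_nbr]
      refine ⟨⟨fun h => hz'.1.1 (hg h), ?_⟩, hz'.2⟩
      have := hz'.1.2
      rwa [Sym2.map_mk] at this
    have h4 : (n : ℝ) / K * (w B τ lam a (g y) + K ^ 2 * δ) ≤ ξ * ((n₁ : ℝ) / K) := by
      have e1 : w B τ lam a (g y) + K ^ 2 * δ ≤ ξ / 2 := by linarith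
      calc (n : ℝ) / K * (w B τ lam a (g y) + K ^ 2 * δ) ≤ n / K * (ξ / 2) :=
            mul_le_mul_of_nonneg_left e1 (by positivity)
        _ = ξ * ((n / 2) / K) := by ring
        _ ≤ ξ * ((n₁ : ℝ) / K) := by gcongr
    exact h3.trans (h2.trans h4)

end Pool.Agent.Lib.MP_b1acb3_co.One
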