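import Pool.Agent.Lib.MP_b1acb3_co.One.Stmts
import Pool.Agent.Lib.MP_b1acb3_co.Uni.Basic

/-!
At most `m` colours have a given label.
-/

namespace Pool.Agent.Lib.MP_b1acb3_co.One

open Finset Uni Leaf

theorem thmCnt : StCnt := by
  classical
  intro n K P T θ ν ε m s C Cf D τ h t
  have hP := h.markov
  have hK : (0 : ℝ) < K := by exact_mod_cast hP.kpos
  obtain ⟨u, hu, hut⟩ := h.surj t
  set N := (C \ D ∪ Cf).filter (fun a => τ a = t) with hN
  obtain ⟨c0, hc0⟩ := h.ne
  have hs := h.card
  have hm : (1 : ℝ) ≤ m := by exact_mod_cast h.m1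
  have hucard : u.card ≤ D.card := card_le_card hu
  have hε1 := h.ε1
  have hε0 := h.ε0
  have hθ1 := h.θ1
  have hθ0 := h.θ0
  -- sizes
  have hu0 : |K * mu (T u) - m| ≤ ε :=
    (h.atoms c0 hc0).size u (hu.trans (h.subD.trans (subset_insert _ _))) (by omega)
  have he0 : |K * mu (T ∅) - m| ≤ ε :=
    (h.atoms c0 hc0).size ∅ (empty_subset _) (by simp)
  rw [abs_le] at hu0 he0
  -- the mass that each colour of `N` sends to `T u`
  have hmass : ∀ a ∈ N, mu (T ∅) - ε / K - θ ≤
      avg (fun y => if y ∈ T u then app P a (T ∅) y else 0) := by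
    intro a ha
    rw [hN, mem_filter, mem_union, mem_sdiff] at ha
    obtain ⟨ha1, hat⟩ := ha
    obtain ⟨c, hc, hac⟩ : ∃ c ∈ Cf, a ∈ insert c C := by
      rcases ha1 with h1 | h1
      · exact ⟨c0, hc0, mem_insert_of_mem h1.1⟩
      · exact ⟨a, h1, mem_insert_self _ _⟩
    have hA := h.atoms c hc
    have hsub : u ⊆ insert c C := hu.trans (h.subD.trans (subset_insert _ _))
    have h2 : ν < mu (T {a} ∩ T u) := by
      rw [← h.tau c hc {a} (singleton_subset_iff.2 hac) u hsub (by simp) (by omega),
        sum_singleton, hat, hut]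
    have h3 : K * mu (T {a} \ T u) ≤ ε := by
      rcases hA.dich {a} (singleton_subset_iff.2 hac) u hsub (by simp; omega) (by omega) with
        h4 | h4
      · exact absurd h2 (not_lt.2 h4)
      · exact h4
    have h5 : ∀ y, y ∉ T {a} → app P a (T ∅) y ≤ θ := by
      intro y hy
      exact hA.grow ∅ (empty_subset _) a hac (notMem_empty _) y (by simpa using hy)
    have h6 := avg_ite_add (T u) (fun y => app P a (T ∅) y)
    rw [avg_app hP] at h6
    have h7 : avg (fun y => if y ∈ T u then 0 else app P a (T ∅) y) ≤ ε / K + θ := by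
      have h8 : avg (fun y => if y ∈ T u then 0 else app P a (T ∅) y) ≤
          avg (fun y => (if y ∈ T {a} \ T u then 1 else 0) + θ) := by
        apply avg_mono
        intro y
        by_cases hy : y ∈ T u
        · rw [if_pos hy]
          split_ifs <;> linarith
        · rw [if_neg hy]
          by_cases hy' : y ∈ T {a}
          · rw [if_pos (mem_sdiff.2 ⟨hy', hy⟩)]
            have := app_le_one hP a (T ∅) y
            linarith
          · rw [if_neg (fun h' => hy' (mem_sdiff.1 h').1)]
            have := h5 y hy'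
            linarith
      rw [avg_add, avg_const hP.npos, avg_indicator] at h8
      have h9 : mu (T {a} \ T u) ≤ ε / K := by
        rw [le_div_iff₀ hK, mul_comm]
        exact h3
      linarith
    linarith
  -- summation
  have hsum : ∑ a ∈ N, avg (fun y => if y ∈ T u then app P a (T ∅) y else 0) ≤
      K * mu (T ∅) * mu (T u) := by
    rw [← avg_sum]
    have h1 : ∀ y, ∑ a ∈ N, (if y ∈ T u then app P a (T ∅) y else 0) ≤
        K * mu (T ∅) * (if y ∈ T u then 1 else 0) := by
      intro y
      by_cases hy : y ∈ T u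
      · simp only [if_pos hy, mul_one]
        exact sum_app_le hP N (T ∅) y
      · simp [if_neg hy]
    have h2 := avg_mono h1
    rwa [avg_mul_left, avg_indicator] at h2
  have h1 := sum_le_sum hmass
  rw [sum_const, nsmul_eq_mul] at h1
  have h2 : (N.card : ℝ) * (mu (T ∅) - ε / K - θ) ≤ K * mu (T ∅) * mu (T u) := h1.trans hsum
  have h3 : (N.card : ℝ) * (K * mu (T ∅) - ε - K * θ) ≤ (K * mu (T ∅)) * (K * mu (T u)) := by
    have h4 := mul_le_mul_of_nonneg_left h2 hK.le
    have e : (K : ℝ) * ((N.card : ℝ) * (mu (T ∅) - ε / K - θ)) =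
        (N.card : ℝ) * (K * mu (T ∅) - ε - K * θ) := by
      field_simp
    rw [e] at h4
    linarith
  by_contra hcon
  push Not at hcon
  have h5 : (m : ℝ) + 1 ≤ N.card := by exact_mod_cast hcon
  set x := (K : ℝ) * mu (T ∅) with hx
  set y := (K : ℝ) * mu (T u) with hy
  have h6 : (m : ℝ) - 3 / 1000 ≤ x - ε - K * θ := by linarith [he0.1]
  have h7 : ((m : ℝ) + 1) * (m - 3 / 1000) ≤ (N.card : ℝ) * (x - ε - K * θ) := by
    apply mul_le_mul h5 h6 (by linarith) (by linarith)
  have h8 : x * y ≤ (m + 1 / 1000) * (m + 1 / 1000) := by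
    apply mul_le_mul (by linarith [he0.2]) (by linarith [hu0.2]) (by linarith [hu0.1])
      (by linarith)
  nlinarith [h3, h7, h8]

end Pool.Agent.Lib.MP_b1acb3_co.One
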