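import Pool.Agent.Lib.MP_b1acb3_co.One.Stmts
import Pool.Agent.Lib.MP_b1acb3_co.Cyc.Final

/-!
Combination of the theorems for graphs with and without a leaf.
-/

namespace Pool.Agent.Lib.MP_b1acb3_co.One

open Finset Uni Leaf

namespace ModCombine

theorem num (C₁ : ℕ) : ∃ e₁ : ℕ, ∀ e : ℕ, e₁ ≤ e → C₁ ^ 2 * (Nat.log 2 e + 1) ^ 8 ≤ e := by
  have h1 := tendsto_pow_const_div_const_pow_of_one_lt 8 (show (1 : ℝ) < 2 by norm_num)
  have h2 : (0 : ℝ) < 1 / (2 * (C₁ : ℝ) ^ 2 + 1) := by positivity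
  have h3 := (h1.eventually (gt_mem_nhds h2)).exists_forall_of_atTop
  obtain ⟨L₀, hL₀⟩ := h3
  refine ⟨2 ^ L₀, ?_⟩
  intro e he
  set L := Nat.log 2 e with hL
  have he0 : e ≠ 0 := by
    have : 0 < 2 ^ L₀ := by positivity
    omega
  have h4 : L₀ ≤ L := by
    rw [hL]
    exact (Nat.le_log_iff_pow_le (by norm_num) he0).2 he
  have h5 := hL₀ (L + 1) (by omega)
  have h6 : 2 ^ L ≤ e := Nat.pow_log_le_self 2 he0
  have h7 : (0 : ℝ) < 2 ^ (L + 1) := by positivity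
  rw [div_lt_div_iff₀ h7 (by positivity)] at h5
  have h8 : ((C₁ ^ 2 * (L + 1) ^ 8 : ℕ) : ℝ) ≤ (2 : ℝ) ^ L := by
    push_cast
    push_cast at h5
    have h9 : (2 : ℝ) ^ (L + 1) = 2 * 2 ^ L := by ring
    rw [h9] at h5
    have h10 : (0 : ℝ) ≤ ((L : ℝ) + 1) ^ 8 := by positivity
    nlinarith
  have h9 : C₁ ^ 2 * (L + 1) ^ 8 ≤ 2 ^ L := by exact_mod_cast h8
  omega

end ModCombine

theorem combine (hL : Leaf.StFinal) (hF : StFinal1) : ∃ C : ℕ, 2 ≤ C ∧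
    ∀ (V : Type) [Fintype V] (G : SimpleGraph V) (b : ℕ), 1 ≤ b →
    (∃ S : Finset (Sym2 V), S.card ≤ b ∧ (G.deleteEdges (S : Set (Sym2 V))).IsAcyclic) →
    C * b ^ C ≤ numEdges G →
    (ForcesRainbow G ↔ ¬ ((∃ r : ℕ, numEdges G + 1 = 2 ^ r) ∧
      ∃ e₀ ∈ G.edgeSet, ∀ v, Even {u | G.Adj v u ∧ s(v, u) ≠ e₀}.ncard)) := by
  obtain ⟨C₁, h1⟩ := hL
  obtain ⟨C₂, h2⟩ := hF
  obtain ⟨e₁, h3⟩ := ModCombine.num C₁
  refine ⟨C₂ + e₁ + 4, by omega, ?_⟩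
  intro V _ G b hb hS he
  set C := C₂ + e₁ + 4 with hC
  have hpow : ∀ j, j ≤ C → b ^ j ≤ b ^ C := fun j hj => Nat.pow_le_pow_right hb hj
  have hb1 : 1 ≤ b ^ C := Nat.one_le_pow _ _ hb
  have hCe : C ≤ numEdges G := by nlinarith
  by_cases hleaf : ∃ v, {u | G.Adj v u}.ncard = 1
  · refine h1 V G b hb hS hleaf ?_
    have h4 := h3 (numEdges G) (by omega)
    have h5 : b ^ 4 ≤ numEdges G := by
      have h6 := hpow 4 (by omega)
      have h7 : b ^ C ≤ C * b ^ C := Nat.le_mul_of_pos_left _ (by omega)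
      omega
    have h6 : (C₁ * b ^ 2 * (Nat.log 2 (numEdges G) + 1) ^ 4) ^ 2 ≤ numEdges G ^ 2 := by
      calc (C₁ * b ^ 2 * (Nat.log 2 (numEdges G) + 1) ^ 4) ^ 2
          = (C₁ ^ 2 * (Nat.log 2 (numEdges G) + 1) ^ 8) * b ^ 4 := by ring
        _ ≤ numEdges G * numEdges G := Nat.mul_le_mul h4 h5
        _ = numEdges G ^ 2 := by ring
    exact (Nat.pow_le_pow_iff_left (by norm_num)).1 h6
  · have hC2 : C₂ * b ^ C₂ ≤ numEdges G := by
      calc C₂ * b ^ C₂ ≤ C * b ^ C := Nat.mul_le_mul (by omega) (hpow C₂ (by omega))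
        _ ≤ numEdges G := he
    constructor
    · rintro hfr ⟨⟨r, hr⟩, h⟩
      have h5 : 2 ≤ r := by
        by_contra hlt
        have h6 : 2 ^ r ≤ 2 ^ 1 := Nat.pow_le_pow_right (by norm_num) (by omega)
        omega
      exact (Cyc.main_neg G r h5 hr h).2 hfr
    · intro hexc
      exact h2 V G b hb hS hleaf hC2 hexc

end Pool.Agent.Lib.MP_b1acb3_co.One
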