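import Pool.Agent.Lib.MP_b1acb3_co.One.Stmts
import Pool.Agent.Lib.MP_b1acb3_co.Uni.Basic
import Pool.Agent.Lib.MP_b1acb3_co.Leaf.Basic

/-!
Sets of colours with labels lead to one class of vertices.
-/

namespace Pool.Agent.Lib.MP_b1acb3_co.One

open Finset Uni Leaf

namespace ModContain

theorem add_self_fun {r : ℕ} (t : Fin r → ZMod 2) : t + t = 0 := by
  funext i
  exact CharTwo.add_self_eq_zero (t i)

/-- Bad vertices of a set of vertices reached from `x` through `Q`. -/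
theorem card_bad {n K r : ℕ} {c : Sym2 (Fin n) → Fin K} {Z : Finset (Fin K)}
    {τ : Fin K → Fin r → ZMod 2} {lam : Fin n → Fin r → ZMod 2} {ξ ϑ : ℝ} (hϑ : 0 ≤ ϑ)
    (hξ : 0 ≤ ξ) (hK : 0 < K) (hL : Lab c Z τ lam ξ) {Q : Finset (Fin K)} (hQ : Disjoint Q Z)
    {x : Fin n} {S : Finset (Fin n)} (h1 : ∀ z ∈ S, Rel c ϑ Q x z)
    (h2 : 2 ≤ Q.card → ∀ z ∈ S, lam z = lam x + ∑ b ∈ Q, τ b) :
    ((S.filter (fun z => lam z ≠ lam x + ∑ b ∈ Q, τ b)).card : ℝ) ≤ ξ * n := by
  have hn : (0 : ℝ) ≤ ξ * n := by positivity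
  rcases Nat.lt_or_ge Q.card 2 with hc | hc
  · rcases S.eq_empty_or_nonempty with rfl | hne
    · simpa using hn
    · obtain ⟨z, hz⟩ := hne
      have h3 := card_pos.2 ((h1 z hz).nonempty hϑ)
      have h4 : Q.card = 1 := by omega
      obtain ⟨a, rfl⟩ := card_eq_one.1 h4
      have ha : a ∉ Z := by
        rw [disjoint_singleton_left] at hQ
        exact hQ
      have h5 := hL.lab x a ha
      have h6 : S.filter (fun z => lam z ≠ lam x + ∑ b ∈ {a}, τ b) ⊆
          (nbr c x a).filter (fun z => lam z ≠ lam x + τ a) := by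
        intro z hz
        rw [mem_filter] at hz ⊢
        rw [sum_singleton] at hz
        refine ⟨?_, hz.2⟩
        rw [mem_nbr]
        exact (Rel.single_iff hϑ).1 (h1 z hz.1)
      have h7 : ((S.filter (fun z => lam z ≠ lam x + ∑ b ∈ {a}, τ b)).card : ℝ) ≤
          ((nbr c x a).filter (fun z => lam z ≠ lam x + τ a)).card := by
        exact_mod_cast card_le_card h6
      have h8 : (n : ℝ) / K ≤ n := by
        apply div_le_self (Nat.cast_nonneg n)
        exact_mod_cast hK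
      have h9 : ξ * ((n : ℝ) / K) ≤ ξ * n := mul_le_mul_of_nonneg_left h8 hξ
      linarith
  · have h3 : S.filter (fun z => lam z ≠ lam x + ∑ b ∈ Q, τ b) = ∅ := by
      rw [filter_eq_empty_iff]
      intro z hz h
      exact h (h2 hc z hz)
    rw [h3]
    simpa using hn

theorem exact {n K r : ℕ} {c : Sym2 (Fin n) → Fin K} {Z : Finset (Fin K)}
    {τ : Fin K → Fin r → ZMod 2} {lam : Fin n → Fin r → ZMod 2} {ξ ϑ : ℝ} (hϑ : 0 < ϑ)
    (hξ : 0 ≤ ξ) (hξϑ : 2 * ξ ≤ ϑ) (hK : 0 < K) (hn : 0 < n) (hL : Lab c Z τ lam ξ)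
    {Q : Finset (Fin K)} {x y : Fin n} (h : Rel c ϑ Q x y) :
    Disjoint Q Z → 2 ≤ Q.card → lam y = lam x + ∑ b ∈ Q, τ b := by
  induction h with
  | single x y hxy =>
    intro _ hc
    rw [card_singleton] at hc
    omega
  | comp Q Q' x y S hd hS h1 h2 ih1 ih2 =>
    intro hZ _
    rw [disjoint_union_left] at hZ
    have b1 := card_bad hϑ.le hξ hK hL hZ.1 h1 (fun hc z hz => ih1 z hz hZ.1 hc)
    have b2 := card_bad (x := y) hϑ.le hξ hK hL hZ.2 (fun z hz => (h2 z hz).symm) (by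
      intro hc z hz
      have h3 := ih2 z hz hZ.2 hc
      rw [h3, add_assoc, add_self_fun, add_zero])
    have hn' : (0 : ℝ) < n := by exact_mod_cast hn
    have hS' : ϑ * n < S.card := by
      unfold mu at hS
      rwa [lt_div_iff₀ hn'] at hS
    by_contra hne
    have h4 : S ⊆ S.filter (fun z => lam z ≠ lam x + ∑ b ∈ Q, τ b) ∪
        S.filter (fun z => lam z ≠ lam y + ∑ b ∈ Q', τ b) := by
      intro z hz
      rw [mem_union, mem_filter, mem_filter]
      by_contra h5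
      push Not at h5
      have e1 := h5.1 hz
      have e2 := h5.2 hz
      apply hne
      rw [sum_union hd, ← add_assoc, ← e1, e2, add_assoc, add_self_fun, add_zero]
    have h6 := (card_le_card h4).trans (card_union_le _ _)
    have h7 : (S.card : ℝ) ≤ (S.filter (fun z => lam z ≠ lam x + ∑ b ∈ Q, τ b)).card +
        (S.filter (fun z => lam z ≠ lam y + ∑ b ∈ Q', τ b)).card := by exact_mod_cast h6
    have h8 : 2 * ξ * n ≤ ϑ * n := mul_le_mul_of_nonneg_right hξϑ hn'.le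
    linarith

end ModContain

theorem thmContain : StContain := by
  intro K ϑ κ hK hϑ hκ
  refine ⟨min κ (ϑ / 2), lt_min hκ (by linarith), ?_⟩
  intro n r c Z τ lam hn hL x Q hQ
  have hξ : 0 ≤ min κ (ϑ / 2) := (lt_min hκ (by linarith)).le
  have hξϑ : 2 * min κ (ϑ / 2) ≤ ϑ := by
    have := min_le_right κ (ϑ / 2)
    linarith
  have hn' : (0 : ℝ) < n := by exact_mod_cast hn
  have h1 : ∀ z ∈ RS c ϑ x Q, Rel c ϑ Q x z := fun z hz => mem_RS.1 hz
  have h2 := ModContain.card_bad hϑ.le hξ hK hL hQ h1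
    (fun hc z hz => ModContain.exact hϑ hξ hξϑ hK hn hL (h1 z hz) hQ hc)
  have h3 : RS c ϑ x Q \ cls lam (lam x + ∑ b ∈ Q, τ b) =
      (RS c ϑ x Q).filter (fun z => lam z ≠ lam x + ∑ b ∈ Q, τ b) := by
    ext z
    rw [mem_sdiff, mem_filter, mem_cls]
  rw [h3]
  unfold mu
  rw [div_le_iff₀ hn']
  exact h2.trans (mul_le_mul_of_nonneg_right (min_le_left _ _) hn'.le)

end Pool.Agent.Lib.MP_b1acb3_co.One
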