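import Pool.Agent.Lib.MP_b1acb3_co.One.Stmts
import Pool.Agent.Lib.MP_b1acb3_co.Leaf.CoreX

/-!
(CoreP) First moment: embedding of a small part with one prescribed edge.
-/

namespace Pool.Agent.Lib.MP_b1acb3_co.One

open Finset Uni Leaf

namespace ModCoreP

variable {V : Type} [Fintype V] [DecidableEq V] {n K : ℕ}

/-- The map `g` with the values at `u₀` and `v₀` replaced. -/
def mod (u₀ v₀ : V) (p q : Fin n) (g : V → Fin n) : V → Fin n :=
  Function.update (Function.update g u₀ p) v₀ q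

omit [Fintype V] in
theorem mod_update (u₀ v₀ : V) (p q : Fin n) (g : V → Fin n) (y : V) (hu : y ≠ u₀)
    (hv : y ≠ v₀) (a : Fin n) :
    mod u₀ v₀ p q (Function.update g y a) = Function.update (mod u₀ v₀ p q g) y a := by
  unfold mod
  rw [Function.update_comm hu, Function.update_comm hv]

theorem ev_bound (u₀ v₀ : V) (p q : Fin n) (y : V) (hu : y ≠ u₀) (hv : y ≠ v₀)
    (E : (V → Fin n) → Prop) [DecidablePred E] (B : ℝ)
    (h : ∀ f : V → Fin n,
      ((univ.filter (fun a : Fin n => E (Function.update f y a))).card : ℝ) ≤ B) :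
    ((univ.filter (fun g : V → Fin n => E (mod u₀ v₀ p q g))).card : ℝ) * n ≤
      B * ((univ : Finset (V → Fin n)).card : ℝ) := by
  apply update_bound _ y
  intro g
  refine le_trans ?_ (h (mod u₀ v₀ p q g))
  norm_cast
  apply card_le_card
  intro a ha
  rw [mem_filter, mem_filter] at ha
  rw [mem_filter]
  refine ⟨mem_univ _, ?_⟩
  rw [← mod_update u₀ v₀ p q g y hu hv]
  exact ha.2.2

/-- Two edges get the same colour. -/
theorem same_bound (c : Sym2 (Fin n) → Fin K) (D : ℝ)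
    (hD : ∀ i k, (colourDegree c i k : ℝ) + 1 ≤ D) (u₀ v₀ : V) (p q : Fin n) {e₁ e₂ : Sym2 V}
    (u y : V) (he : e₂ = s(u, y)) (huy : u ≠ y) (hy : y ∉ e₁) (hu : y ≠ u₀) (hv : y ≠ v₀) :
    ((univ.filter (fun g : V → Fin n => c (e₁.map (mod u₀ v₀ p q g)) =
      c (e₂.map (mod u₀ v₀ p q g)))).card : ℝ) * n ≤
      D * ((univ : Finset (V → Fin n)).card : ℝ) := by
  apply ev_bound u₀ v₀ p q y hu hv (fun f => c (e₁.map f) = c (e₂.map f))
  intro f
  refine le_trans ?_ ((ModCoreX.card_col c (f u) (c (e₁.map f))).trans (hD _ _))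
  norm_cast
  apply card_le_card
  intro a ha
  rw [mem_filter] at ha ⊢
  refine ⟨mem_univ _, ?_⟩
  have h1 := ha.2
  rw [he, Sym2.map_mk, Function.update_of_ne huy, Function.update_self,
    map_congr_of e₁ (Function.update f y a) f
      (fun z hz => Function.update_of_ne (fun h : z = y => hy (by rw [← h]; exact hz)) _ _)] at h1
  exact h1.symm

/-- An edge gets a given colour. -/
theorem col_bound (c : Sym2 (Fin n) → Fin K) (D : ℝ)
    (hD : ∀ i k, (colourDegree c i k : ℝ) + 1 ≤ D) (u₀ v₀ : V) (p q : Fin n) {e : Sym2 V}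
    (u y : V) (he : e = s(u, y)) (huy : u ≠ y) (hu : y ≠ u₀) (hv : y ≠ v₀) (k : Fin K) :
    ((univ.filter (fun g : V → Fin n => c (e.map (mod u₀ v₀ p q g)) = k)).card : ℝ) * n ≤
      D * ((univ : Finset (V → Fin n)).card : ℝ) := by
  apply ev_bound u₀ v₀ p q y hu hv (fun f => c (e.map f) = k)
  intro f
  refine le_trans ?_ ((ModCoreX.card_col c (f u) k).trans (hD _ _))
  norm_cast
  apply card_le_card
  intro a ha
  rw [mem_filter] at ha ⊢
  refine ⟨mem_univ _, ?_⟩
  have h1 := ha.2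
  rw [he, Sym2.map_mk, Function.update_of_ne huy, Function.update_self] at h1
  exact h1

theorem inj_bound (u₀ v₀ : V) (p q : Fin n) (u y : V) (huy : u ≠ y) (hu : y ≠ u₀)
    (hv : y ≠ v₀) :
    ((univ.filter (fun g : V → Fin n => mod u₀ v₀ p q g u = mod u₀ v₀ p q g y)).card : ℝ) * n ≤
      1 * ((univ : Finset (V → Fin n)).card : ℝ) := by
  apply ev_bound u₀ v₀ p q y hu hv (fun f => f u = f y)
  intro f
  have h3 : univ.filter (fun a : Fin n => Function.update f y a u = Function.update f y a y) ⊆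
      {f u} := by
    intro a ha
    rw [mem_filter, Function.update_of_ne huy, Function.update_self] at ha
    rw [mem_singleton]
    exact ha.2.symm
  have h4 := card_le_card h3
  rw [card_singleton] at h4
  exact_mod_cast h4

/-- An edge whose colour is not in `Z` gets the wrong label. -/
theorem lab_bound {r : ℕ} {c : Sym2 (Fin n) → Fin K} {Z : Finset (Fin K)}
    {τ : Fin K → Fin r → ZMod 2} {lam : Fin n → Fin r → ZMod 2} {ξ : ℝ} (hξ : 0 ≤ ξ)
    (h : Lab c Z τ lam ξ) (hK : 0 < K) (u₀ v₀ : V) (p q : Fin n) {e : Sym2 V}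
    (u y : V) (he : e = s(u, y)) (huy : u ≠ y) (hu : y ≠ u₀) (hv : y ≠ v₀) :
    ((univ.filter (fun g : V → Fin n => c (e.map (mod u₀ v₀ p q g)) ∉ Z ∧
      esum (fun v => lam (mod u₀ v₀ p q g v)) e ≠ τ (c (e.map (mod u₀ v₀ p q g))))).card : ℝ) * n ≤
      (1 + ξ * n) * ((univ : Finset (V → Fin n)).card : ℝ) := by
  classical
  apply ev_bound u₀ v₀ p q y hu hv
    (fun f => c (e.map f) ∉ Z ∧ esum (fun v => lam (f v)) e ≠ τ (c (e.map f)))
  intro f
  set x := f u with hx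
  have h1 : univ.filter (fun a : Fin n => c (e.map (Function.update f y a)) ∉ Z ∧
      esum (fun v => lam (Function.update f y a v)) e ≠ τ (c (e.map (Function.update f y a)))) ⊆
      insert x (Zᶜ.biUnion (fun k => (nbr c x k).filter (fun z => lam z ≠ lam x + τ k))) := by
    intro a ha
    rw [mem_filter] at ha
    obtain ⟨h3, h4⟩ := ha.2
    rw [he, esum_mk, Sym2.map_mk, Function.update_of_ne huy, Function.update_self] at h4
    rw [he, Sym2.map_mk, Function.update_of_ne huy, Function.update_self] at h3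
    rw [mem_insert]
    by_cases hax : a = x
    · exact Or.inl hax
    · right
      rw [mem_biUnion]
      refine ⟨c s(x, a), mem_compl.2 h3, ?_⟩
      rw [mem_filter, mem_nbr]
      refine ⟨⟨hax, rfl⟩, fun h5 => h4 ?_⟩
      rw [← hx, h5]
      funext i
      simp only [Pi.add_apply]
      rw [← add_assoc, CharTwo.add_self_eq_zero, zero_add]
  have h3 := (card_insert_le x
    (Zᶜ.biUnion (fun k => (nbr c x k).filter (fun z => lam z ≠ lam x + τ k))))
  have h4 : (Zᶜ.biUnion (fun k => (nbr c x k).filter (fun z => lam z ≠ lam x + τ k))).card ≤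
      ∑ k ∈ Zᶜ, ((nbr c x k).filter (fun z => lam z ≠ lam x + τ k)).card := card_biUnion_le
  have h5 : (∑ k ∈ Zᶜ, (((nbr c x k).filter (fun z => lam z ≠ lam x + τ k)).card : ℝ)) ≤
      ∑ _k ∈ Zᶜ, ξ * ((n : ℝ) / K) := sum_le_sum fun k hk => h.lab x k (mem_compl.1 hk)
  rw [sum_const, nsmul_eq_mul] at h5
  have h7 : ((Zᶜ.card : ℕ) : ℝ) * (ξ * ((n : ℝ) / K)) ≤ ξ * n := by
    have hKR : (0 : ℝ) < K := by exact_mod_cast hK
    have h8 : ((Zᶜ.card : ℕ) : ℝ) ≤ K := by
      have := card_le_univ Zᶜ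
      rw [Fintype.card_fin] at this
      exact_mod_cast this
    calc ((Zᶜ.card : ℕ) : ℝ) * (ξ * ((n : ℝ) / K)) ≤ K * (ξ * ((n : ℝ) / K)) :=
          mul_le_mul_of_nonneg_right h8 (by positivity)
      _ = ξ * n := by field_simp
  have h6 : ((insert x (Zᶜ.biUnion (fun k =>
      (nbr c x k).filter (fun z => lam z ≠ lam x + τ k)))).card : ℝ) ≤
      (∑ k ∈ Zᶜ, (((nbr c x k).filter (fun z => lam z ≠ lam x + τ k)).card : ℝ)) + 1 := by
    exact_mod_cast h3.trans (Nat.add_le_add_right h4 1)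
  have h9 : ((univ.filter (fun a : Fin n => c (e.map (Function.update f y a)) ∉ Z ∧
      esum (fun v => lam (Function.update f y a v)) e ≠
        τ (c (e.map (Function.update f y a))))).card : ℝ) ≤
      ((insert x (Zᶜ.biUnion (fun k =>
        (nbr c x k).filter (fun z => lam z ≠ lam x + τ k)))).card : ℝ) := by
    exact_mod_cast card_le_card h1
  linarith

omit [Fintype V] in
/-- An edge other than `s(u₀, v₀)` has a free end. -/
theorem exists_free {G : SimpleGraph V} {u₀ v₀ : V} {e : Sym2 V} (he : e ∈ G.edgeSet)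
    (hne : e ≠ s(u₀, v₀)) : ∃ u y, e = s(u, y) ∧ u ≠ y ∧ y ≠ u₀ ∧ y ≠ v₀ := by
  induction e using Sym2.ind with
  | _ a b =>
    have hab : a ≠ b := G.ne_of_adj he
    by_cases hb : b = u₀ ∨ b = v₀
    · by_cases ha : a = u₀ ∨ a = v₀
      · exfalso
        apply hne
        rcases hb with rfl | rfl <;> rcases ha with rfl | rfl
        · exact absurd rfl hab
        · exact Sym2.eq_swap
        · rfl
        · exact absurd rfl hab
      · push Not at ha
        exact ⟨b, a, Sym2.eq_swap, hab.symm, ha.1, ha.2⟩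
    · push Not at hb
      exact ⟨a, b, rfl, hab, hb.1, hb.2⟩

/-- Two edges without a free difference have the third vertex in common. -/
theorem special {G : SimpleGraph V} {u₀ v₀ : V} {e₁ e₂ : Sym2 V} (h1 : e₁ ∈ G.edgeSet)
    (h2 : e₂ ∈ G.edgeSet) (hne : e₁ ≠ e₂) (n1 : e₁ ≠ s(u₀, v₀)) (n2 : e₂ ≠ s(u₀, v₀))
    (k1 : ¬ ∃ u y, e₂ = s(u, y) ∧ u ≠ y ∧ y ∉ e₁ ∧ y ≠ u₀ ∧ y ≠ v₀)
    (k2 : ¬ ∃ u y, e₁ = s(u, y) ∧ u ≠ y ∧ y ∉ e₂ ∧ y ≠ u₀ ∧ y ≠ v₀) :
    ∃ w, (e₁ = s(w, u₀) ∧ e₂ = s(w, v₀)) ∨ (e₁ = s(w, v₀) ∧ e₂ = s(w, u₀)) := by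
  obtain ⟨u, y, he2, huy, hy⟩ := exists_diff h1 h2 hne
  obtain ⟨u', y', he1, huy', hy'⟩ := exists_diff h2 h1 hne.symm
  have a1 : y = u₀ ∨ y = v₀ := by
    by_contra hcon
    push Not at hcon
    exact k1 ⟨u, y, he2, huy, hy, hcon.1, hcon.2⟩
  have a2 : y' = u₀ ∨ y' = v₀ := by
    by_contra hcon
    push Not at hcon
    exact k2 ⟨u', y', he1, huy', hy', hcon.1, hcon.2⟩
  have hyy : y ≠ y' := by
    rintro rfl
    apply hy
    rw [he1]
    exact Sym2.mem_mk_right _ _
  have hue : u ∈ e₁ := by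
    by_contra hcon
    have a3 : u = u₀ ∨ u = v₀ := by
      by_contra hcon2
      push Not at hcon2
      exact k1 ⟨y, u, by rw [he2]; exact Sym2.eq_swap, huy.symm, hcon, hcon2.1, hcon2.2⟩
    have a4 : u = y' := by
      rcases a1 with rfl | rfl <;> rcases a2 with rfl | rfl <;> rcases a3 with rfl | rfl
      · exact absurd rfl huy
      · exact absurd rfl hyy
      · exact absurd rfl huy
      · rfl
      · rfl
      · exact absurd rfl huy
      · exact absurd rfl hyy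
      · exact absurd rfl huy
    apply hcon
    rw [a4, he1]
    exact Sym2.mem_mk_right _ _
  rw [he1, Sym2.mem_iff] at hue
  rcases hue with rfl | rfl
  · rcases a1 with rfl | rfl <;> rcases a2 with rfl | rfl
    · exact absurd rfl hyy
    · exact ⟨u, Or.inr ⟨he1, he2⟩⟩
    · exact ⟨u, Or.inl ⟨he1, he2⟩⟩
    · exact absurd rfl hyy
  · exfalso
    apply n2
    rw [he2]
    rcases a1 with rfl | rfl <;> rcases a2 with rfl | rfl
    · exact absurd rfl hyy
    · exact Sym2.eq_swap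
    · rfl
    · exact absurd rfl hyy

end ModCoreP

open ModCoreP in
theorem thmCoreP : StCoreP := by
  classical
  intro V _ G W K N hK h1 h2
  set h := numEdgesIn G W with hh
  refine ⟨1 / (16 * (h + 1)), by positivity, 2 * (K + h + Fintype.card V ^ 2) + 1, ?_⟩
  intro n hn c hc r Z τ lam hL F hZF hF u₀ v₀ he₀ p q hpq hlam hcF
  have hn0 : 0 < n := by omega
  have hnR : (0 : ℝ) < n := by exact_mod_cast hn0
  have hKR : (0 : ℝ) < K := by exact_mod_cast hK
  set ξ : ℝ := 1 / (16 * (h + 1)) with hξ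
  have hξ0 : 0 ≤ ξ := by positivity
  have hedge : ∀ e ∈ edgesIn G W, e ∈ G.edgeSet := fun e he => ((mem_edgesIn G W e).1 he).1
  have huv : u₀ ≠ v₀ := G.ne_of_adj (hedge _ he₀)
  set T : ℝ := ((univ : Finset (V → Fin n)).card : ℝ) with hT
  have hTpos : 0 < T := by
    have : (univ : Finset (V → Fin n)).Nonempty := ⟨fun _ => p, mem_univ _⟩
    rw [hT]
    exact_mod_cast card_pos.2 this
  set D : ℝ := 2 * ((n : ℝ) / K) + 1 with hDdef
  have hD : ∀ i k, (colourDegree c i k : ℝ) + 1 ≤ D := fun i k => by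
    have := hc i k
    rw [hDdef]
    linarith
  -- the bad events
  set S₁ : Finset (Sym2 V × Sym2 V) := ((edgesIn G W).offDiag).filter
    (fun x => ∃ u y, x.2 = s(u, y) ∧ u ≠ y ∧ y ∉ x.1 ∧ y ≠ u₀ ∧ y ≠ v₀) with hS₁
  set S₃ : Finset (V × V) := ((univ : Finset V).offDiag).filter
    (fun x => x.2 ≠ u₀ ∧ x.2 ≠ v₀) with hS₃
  set A₁ : Finset (V → Fin n) := S₁.biUnion (fun x =>
    univ.filter (fun g : V → Fin n => c (x.1.map (mod u₀ v₀ p q g)) =
      c (x.2.map (mod u₀ v₀ p q g)))) with hA₁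
  set A₂ : Finset (V → Fin n) := ((edgesIn G W).erase s(u₀, v₀) ×ˢ F).biUnion (fun x =>
    univ.filter (fun g : V → Fin n => c (x.1.map (mod u₀ v₀ p q g)) = x.2)) with hA₂
  set A₃ : Finset (V → Fin n) := S₃.biUnion (fun x =>
    univ.filter (fun g : V → Fin n => mod u₀ v₀ p q g x.1 = mod u₀ v₀ p q g x.2)) with hA₃
  set A₄ : Finset (V → Fin n) := ((edgesIn G W).erase s(u₀, v₀)).biUnion (fun e =>
    univ.filter (fun g : V → Fin n => c (e.map (mod u₀ v₀ p q g)) ∉ Z ∧
      esum (fun v => lam (mod u₀ v₀ p q g v)) e ≠ τ (c (e.map (mod u₀ v₀ p q g))))) with hA₄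
  have b1 : (A₁.card : ℝ) * n ≤ (S₁.card : ℝ) * D * T := by
    apply ModCoreX.union_bound
    intro x hx
    rw [hS₁, mem_filter] at hx
    obtain ⟨-, u, y, e1, e2, e3, e4, e5⟩ := hx
    exact same_bound c D hD u₀ v₀ p q u y e1 e2 e3 e4 e5
  have b2 : (A₂.card : ℝ) * n ≤ (((edgesIn G W).erase s(u₀, v₀) ×ˢ F).card : ℝ) * D * T := by
    apply ModCoreX.union_bound
    intro x hx
    rw [mem_product, mem_erase] at hx
    obtain ⟨u, y, e1, e2, e3, e4⟩ := exists_free (hedge _ hx.1.2) hx.1.1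
    exact col_bound c D hD u₀ v₀ p q u y e1 e2 e3 e4 x.2
  have b3 : (A₃.card : ℝ) * n ≤ (S₃.card : ℝ) * 1 * T := by
    apply ModCoreX.union_bound
    intro x hx
    rw [hS₃, mem_filter, mem_offDiag] at hx
    exact inj_bound u₀ v₀ p q x.1 x.2 hx.1.2.2 hx.2.1 hx.2.2
  have b4 : (A₄.card : ℝ) * n ≤ (((edgesIn G W).erase s(u₀, v₀)).card : ℝ) * (1 + ξ * n) * T := by
    apply ModCoreX.union_bound
    intro e he
    rw [mem_erase] at he
    obtain ⟨u, y, e1, e2, e3, e4⟩ := exists_free (hedge _ he.2) he.1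
    exact lab_bound hξ0 hL hK u₀ v₀ p q u y e1 e2 e3 e4
  have c1 : (S₁.card : ℝ) ≤ (h : ℝ) ^ 2 := by
    have e1 : S₁.card ≤ ((edgesIn G W).offDiag).card := card_filter_le _ _
    rw [offDiag_card, card_edgesIn] at e1
    have : h * h - h ≤ h ^ 2 := by
      rw [sq]
      exact Nat.sub_le _ _
    exact_mod_cast e1.trans this
  have c0 : ((edgesIn G W).erase s(u₀, v₀)).card ≤ h := by
    have := card_erase_le (s := edgesIn G W) (a := s(u₀, v₀))
    rwa [card_edgesIn] at this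
  have c2 : (((edgesIn G W).erase s(u₀, v₀) ×ˢ F).card : ℝ) ≤ (h : ℝ) * N := by
    rw [card_product]
    exact_mod_cast Nat.mul_le_mul c0 hF
  have c3 : (S₃.card : ℝ) ≤ (Fintype.card V : ℝ) ^ 2 := by
    have e1 : S₃.card ≤ ((univ : Finset V).offDiag).card := card_filter_le _ _
    rw [offDiag_card, card_univ] at e1
    have : Fintype.card V * Fintype.card V - Fintype.card V ≤ Fintype.card V ^ 2 := by
      rw [sq]
      exact Nat.sub_le _ _
    exact_mod_cast e1.trans this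
  have h1R : 16 * (h : ℝ) ^ 2 ≤ K := by exact_mod_cast h1
  have h2R : 16 * ((h : ℝ) * N) ≤ K := by
    have : ((16 * h * N : ℕ) : ℝ) ≤ (K : ℝ) := by exact_mod_cast h2
    push_cast at this
    linarith
  have hnR2 : 2 * ((K : ℝ) + h + (Fintype.card V : ℝ) ^ 2) + 1 ≤ n := by exact_mod_cast hn
  have hDpos : 0 < D := by positivity
  have hKD : (K : ℝ) / 16 * D = (n : ℝ) / 8 + K / 16 := by
    rw [hDdef]
    field_simp
    ring
  have hhξ : (h : ℝ) * ξ ≤ 1 / 16 := by
    rw [hξ, mul_one_div, div_le_div_iff₀ (by positivity) (by norm_num)]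
    linarith
  have hsum : ((A₁ ∪ A₂ ∪ A₃ ∪ A₄).card : ℝ) * n < n * T := by
    have u1 : ((A₁ ∪ A₂ ∪ A₃ ∪ A₄).card : ℝ) ≤ A₁.card + A₂.card + A₃.card + A₄.card := by
      have := (card_union_le (A₁ ∪ A₂ ∪ A₃) A₄).trans (Nat.add_le_add_right
        ((card_union_le (A₁ ∪ A₂) A₃).trans
        (Nat.add_le_add_right (card_union_le A₁ A₂) A₃.card)) A₄.card)
      exact_mod_cast this
    have u2 : ((A₁ ∪ A₂ ∪ A₃ ∪ A₄).card : ℝ) * n ≤
        (A₁.card : ℝ) * n + (A₂.card : ℝ) * n + (A₃.card : ℝ) * n + (A₄.card : ℝ) * n := by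
      have := mul_le_mul_of_nonneg_right u1 hnR.le
      linarith
    have d1 : (S₁.card : ℝ) * D * T ≤ (K / 16 * D) * T := by
      apply mul_le_mul_of_nonneg_right _ hTpos.le
      apply mul_le_mul_of_nonneg_right _ hDpos.le
      linarith
    have d2 : (((edgesIn G W).erase s(u₀, v₀) ×ˢ F).card : ℝ) * D * T ≤ (K / 16 * D) * T := by
      apply mul_le_mul_of_nonneg_right _ hTpos.le
      apply mul_le_mul_of_nonneg_right _ hDpos.le
      linarith
    have d3 : (S₃.card : ℝ) * 1 * T ≤ (Fintype.card V : ℝ) ^ 2 * T := by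
      rw [mul_one]
      exact mul_le_mul_of_nonneg_right c3 hTpos.le
    have d5 : (((edgesIn G W).erase s(u₀, v₀)).card : ℝ) * (1 + ξ * n) * T ≤
        (h + n / 16) * T := by
      apply mul_le_mul_of_nonneg_right _ hTpos.le
      have e1 : (((edgesIn G W).erase s(u₀, v₀)).card : ℝ) ≤ h := by exact_mod_cast c0
      have e2 : (((edgesIn G W).erase s(u₀, v₀)).card : ℝ) * (1 + ξ * n) ≤ h * (1 + ξ * n) :=
        mul_le_mul_of_nonneg_right e1 (by positivity)
      have e3 : ((h : ℝ) * ξ) * n ≤ 1 / 16 * n := mul_le_mul_of_nonneg_right hhξ hnR.le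
      linarith
    rw [hKD] at d1 d2
    have d4 : ((n : ℝ) / 8 + K / 16) * T + ((n : ℝ) / 8 + K / 16) * T +
        (Fintype.card V : ℝ) ^ 2 * T + (h + n / 16) * T < n * T := by
      rw [← add_mul, ← add_mul, ← add_mul]
      apply mul_lt_mul_of_pos_right _ hTpos
      have : (0 : ℝ) ≤ (Fintype.card V : ℝ) ^ 2 := by positivity
      have : (0 : ℝ) ≤ (h : ℝ) := Nat.cast_nonneg _
      linarith
    linarith
  obtain ⟨g, hg⟩ : ∃ g : V → Fin n, g ∉ A₁ ∪ A₂ ∪ A₃ ∪ A₄ := by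
    by_contra hcon
    push Not at hcon
    have : (univ : Finset (V → Fin n)) = A₁ ∪ A₂ ∪ A₃ ∪ A₄ :=
      (eq_univ_iff_forall.2 hcon).symm
    rw [← this, ← hT, mul_comm] at hsum
    exact lt_irrefl _ hsum
  rw [notMem_union, notMem_union, notMem_union] at hg
  obtain ⟨⟨⟨g1, g2⟩, g3⟩, g4⟩ := hg
  set f := mod u₀ v₀ p q g with hf
  have fv : f v₀ = q := Function.update_self _ _ _
  have fu : f u₀ = p := by
    rw [hf]
    unfold mod
    rw [Function.update_of_ne huv, Function.update_self]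
  have hcol : ∀ e ∈ edgesIn G W, e ≠ s(u₀, v₀) → c (e.map f) ∉ F := by
    intro e he hne hFe
    apply g2
    rw [hA₂, mem_biUnion]
    exact ⟨(e, c (e.map f)), mem_product.2 ⟨mem_erase.2 ⟨hne, he⟩, hFe⟩,
      mem_filter.2 ⟨mem_univ _, rfl⟩⟩
  have hlab : ∀ u v, s(u, v) ∈ edgesIn G W → s(u, v) ≠ s(u₀, v₀) →
      lam (f u) + lam (f v) = τ (c s(f u, f v)) := by
    intro u v he hne
    by_contra hcon
    apply g4
    rw [hA₄, mem_biUnion]
    exact ⟨s(u, v), mem_erase.2 ⟨hne, he⟩, mem_filter.2 ⟨mem_univ _,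
      fun hz => hcol _ he hne (hZF hz), hcon⟩⟩
  refine ⟨f, ?_, fu, fv, ?_, hcol, hlab⟩
  · have key : ∀ a b, a ≠ b → b ≠ u₀ → b ≠ v₀ → f a ≠ f b := by
      intro a b hab hb hb' heq
      apply g3
      rw [hA₃, mem_biUnion]
      exact ⟨(a, b), mem_filter.2 ⟨mem_offDiag.2 ⟨mem_univ _, mem_univ _, hab⟩, hb, hb'⟩,
        mem_filter.2 ⟨mem_univ _, heq⟩⟩
    intro a b hab
    by_contra hne
    by_cases hb : b = u₀ ∨ b = v₀
    · by_cases ha : a = u₀ ∨ a = v₀
      · rcases hb with rfl | rfl <;> rcases ha with rfl | rfl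
        · exact hne rfl
        · rw [fu, fv] at hab
          exact hpq hab.symm
        · rw [fu, fv] at hab
          exact hpq hab
        · exact hne rfl
      · push Not at ha
        exact key b a (Ne.symm hne) ha.1 ha.2 hab.symm
    · push Not at hb
      exact key a b hne hb.1 hb.2 hab
  · intro e₁ m1 e₂ m2 heq
    by_contra hne
    have m1' : e₁ ∈ edgesIn G W := m1
    have m2' : e₂ ∈ edgesIn G W := m2
    have heq' : c (e₁.map f) = c (e₂.map f) := heq
    have n1 : e₁ ≠ s(u₀, v₀) := by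
      intro h0
      have n2 : e₂ ≠ s(u₀, v₀) := fun h0' => hne (h0.trans h0'.symm)
      apply hcol e₂ m2' n2
      rw [← heq', h0, Sym2.map_mk, fu, fv]
      exact hcF
    have n2 : e₂ ≠ s(u₀, v₀) := by
      intro h0
      apply hcol e₁ m1' n1
      rw [heq', h0, Sym2.map_mk, fu, fv]
      exact hcF
    have key : ∀ e e', e ∈ edgesIn G W → e' ∈ edgesIn G W → e ≠ e' →
        c (e.map f) = c (e'.map f) →
        ¬ ∃ u y, e' = s(u, y) ∧ u ≠ y ∧ y ∉ e ∧ y ≠ u₀ ∧ y ≠ v₀ := by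
      intro e e' he he' hee hc' hex
      apply g1
      rw [hA₁, mem_biUnion]
      exact ⟨(e, e'), mem_filter.2 ⟨mem_offDiag.2 ⟨he, he', hee⟩, hex⟩,
        mem_filter.2 ⟨mem_univ _, hc'⟩⟩
    obtain ⟨w, hw⟩ := special (hedge _ m1') (hedge _ m2') hne n1 n2
      (key _ _ m1' m2' hne heq') (key _ _ m2' m1' (Ne.symm hne) heq'.symm)
    rcases hw with ⟨w1, w2⟩ | ⟨w1, w2⟩
    · rw [w1] at m1' n1 heq'
      rw [w2] at m2' n2 heq'
      have l1 := hlab _ _ m1' n1
      have l2 := hlab _ _ m2' n2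
      rw [Sym2.map_mk, Sym2.map_mk] at heq'
      rw [heq', ← l2, fu, fv] at l1
      exact hlam (add_left_cancel l1)
    · rw [w1] at m1' n1 heq'
      rw [w2] at m2' n2 heq'
      have l1 := hlab _ _ m1' n1
      have l2 := hlab _ _ m2' n2
      rw [Sym2.map_mk, Sym2.map_mk] at heq'
      rw [heq', ← l2, fu, fv] at l1
      exact hlam (add_left_cancel l1).symm

end Pool.Agent.Lib.MP_b1acb3_co.One
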