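import Pool.Agent.Lib.MP_b1acb3_co.One.Stmts
import Pool.Agent.Lib.MP_b1acb3_co.Pos

/-!
(CoreR) Random embedding of the small part: a first moment argument.
-/

namespace Pool.Agent.Lib.MP_b1acb3_co.One

open Finset Uni Leaf

namespace ModCoreR

variable {V : Type} [Fintype V] {n K : ℕ}

theorem card_col (c : Sym2 (Fin n) → Fin K) (i : Fin n) (k : Fin K) :
    ((univ.filter (fun a : Fin n => c s(i, a) = k)).card : ℝ) ≤ (colourDegree c i k : ℝ) + 1 := by
  unfold colourDegree
  norm_cast
  have h2 : univ.filter (fun j => c s(i, j) = k) ⊆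
      insert i (univ.filter (fun j : Fin n => j ≠ i ∧ c s(i, j) = k)) := by
    intro j hj
    rw [mem_filter] at hj
    rw [mem_insert, mem_filter]
    by_cases hji : j = i
    · exact Or.inl hji
    · exact Or.inr ⟨mem_univ _, hji, hj.2⟩
  exact (card_le_card h2).trans (card_insert_le _ _)

/-- An edge gets a given colour. -/
theorem col_bound [DecidableEq V] {G : SimpleGraph V} (c : Sym2 (Fin n) → Fin K) (D : ℝ)
    (hD : ∀ i k, (colourDegree c i k : ℝ) + 1 ≤ D) {e : Sym2 V}
    (h1 : e ∈ G.edgeSet) (k : Fin K) :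
    ((univ.filter (fun g : V → Fin n => c (e.map g) = k)).card : ℝ) * n ≤
      D * ((univ : Finset (V → Fin n)).card : ℝ) := by
  induction e using Sym2.ind with
  | _ u v =>
    have huv : u ≠ v := G.ne_of_adj h1
    apply update_bound _ v
    intro f
    refine le_trans ?_ ((card_col c (f u) k).trans (hD _ _))
    norm_cast
    apply card_le_card
    intro a ha
    rw [mem_filter, mem_filter] at ha
    rw [mem_filter]
    refine ⟨mem_univ _, ?_⟩
    have h1 := ha.2.2
    rw [Sym2.map_mk, Function.update_of_ne huv, Function.update_self] at h1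
    exact h1

/-- Few embeddings have an edge with a wrong label. -/
theorem card_typ [DecidableEq V] {r : ℕ} {c : Sym2 (Fin n) → Fin K} {Z : Finset (Fin K)}
    {τ : Fin K → Fin r → ZMod 2} {lam : Fin n → Fin r → ZMod 2} {ξ : ℝ} (h : Lab c Z τ lam ξ)
    (hK : 0 < K) (hξ : 0 ≤ ξ) (G : SimpleGraph V) (e : Sym2 V) (he : e ∈ G.edgeSet) :
    ((univ.filter (fun f : V → Fin n => c (e.map f) ∉ Z ∧
      esum (fun v => lam (f v)) e ≠ τ (c (e.map f)))).card : ℝ) *
      n ≤ (1 + ξ * n) * ((univ : Finset (V → Fin n)).card : ℝ) := by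
  induction e using Sym2.ind with
  | _ u v =>
    have huv : u ≠ v := G.ne_of_adj he
    apply update_bound _ v
    intro g₀
    set x := g₀ u with hx
    have h1 : univ.filter (fun a : Fin n => Function.update g₀ v a ∈ univ.filter
        (fun f : V → Fin n => c (s(u, v).map f) ∉ Z ∧
          esum (fun v => lam (f v)) s(u, v) ≠ τ (c (s(u, v).map f)))) ⊆
        insert x ((Zᶜ : Finset (Fin K)).biUnion
          (fun k => (nbr c x k).filter (fun z => lam z ≠ lam x + τ k))) := by
      intro a ha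
      rw [mem_filter, mem_filter] at ha
      have h4 := ha.2.2
      rw [esum_mk, Sym2.map_mk, Function.update_of_ne huv, Function.update_self] at h4
      rw [mem_insert]
      by_cases hax : a = x
      · exact Or.inl hax
      · right
        rw [mem_biUnion]
        refine ⟨c s(x, a), mem_compl.2 h4.1, ?_⟩
        rw [mem_filter, mem_nbr]
        refine ⟨⟨hax, rfl⟩, fun h5 => h4.2 ?_⟩
        rw [← hx, h5]
        funext i
        simp only [Pi.add_apply]
        rw [← add_assoc, CharTwo.add_self_eq_zero, zero_add]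
    have h2 : ((insert x ((Zᶜ : Finset (Fin K)).biUnion
          (fun k => (nbr c x k).filter (fun z => lam z ≠ lam x + τ k)))).card : ℝ) ≤
        1 + ξ * n := by
      have h3 := (card_insert_le x ((Zᶜ : Finset (Fin K)).biUnion
          (fun k => (nbr c x k).filter (fun z => lam z ≠ lam x + τ k))))
      have h4 : ((Zᶜ : Finset (Fin K)).biUnion
          (fun k => (nbr c x k).filter (fun z => lam z ≠ lam x + τ k))).card ≤
          ∑ k ∈ (Zᶜ : Finset (Fin K)),
            ((nbr c x k).filter (fun z => lam z ≠ lam x + τ k)).card := card_biUnion_le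
      have h5 : (∑ k ∈ (Zᶜ : Finset (Fin K)),
          (((nbr c x k).filter (fun z => lam z ≠ lam x + τ k)).card : ℝ)) ≤
          ∑ _k ∈ (Zᶜ : Finset (Fin K)), ξ * ((n : ℝ) / K) :=
        sum_le_sum fun k hk => h.lab x k (mem_compl.1 hk)
      rw [sum_const, nsmul_eq_mul] at h5
      have hKR : (0 : ℝ) < K := by exact_mod_cast hK
      have hc : (((Zᶜ : Finset (Fin K))).card : ℝ) ≤ K := by
        have := card_le_univ (Zᶜ : Finset (Fin K))
        rw [Fintype.card_fin] at this
        exact_mod_cast this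
      have e1 : (((Zᶜ : Finset (Fin K))).card : ℝ) * (ξ * ((n : ℝ) / K)) ≤ ξ * n := by
        calc (((Zᶜ : Finset (Fin K))).card : ℝ) * (ξ * ((n : ℝ) / K)) ≤
              K * (ξ * ((n : ℝ) / K)) := mul_le_mul_of_nonneg_right hc (by positivity)
          _ = ξ * n := by field_simp
      have h6 : ((insert x ((Zᶜ : Finset (Fin K)).biUnion
          (fun k => (nbr c x k).filter (fun z => lam z ≠ lam x + τ k)))).card : ℝ) ≤
          (∑ k ∈ (Zᶜ : Finset (Fin K)),
            (((nbr c x k).filter (fun z => lam z ≠ lam x + τ k)).card : ℝ)) + 1 := by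
        exact_mod_cast h3.trans (Nat.add_le_add_right h4 1)
      linarith
    exact le_trans (by exact_mod_cast card_le_card h1) h2

/-- A sum over `O` and an edge in which a vertex occurs exactly once. -/
theorem card_sum_aux [DecidableEq V] {r : ℕ} {lam : Fin n → Fin r → ZMod 2} (D : ℝ)
    (hD : ∀ t : Fin r → ZMod 2, ((cls lam t).card : ℝ) ≤ D)
    (O : Finset V) (e : Sym2 V) (y : V) (σ : Fin r → ZMod 2)
    (φ : (V → Fin n) → Fin r → ZMod 2)
    (hφ : ∀ f : V → Fin n, ∀ a, φ (Function.update f y a) = φ f)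
    (hs : ∀ f : V → Fin n, ∑ x ∈ O, lam (f x) + esum (fun v => lam (f v)) e =
      lam (f y) + φ f) :
    ((univ.filter (fun f : V → Fin n => ∑ x ∈ O, lam (f x) +
      esum (fun v => lam (f v)) e = σ)).card : ℝ) * n ≤
      D * ((univ : Finset (V → Fin n)).card : ℝ) := by
  apply update_bound _ y
  intro g₀
  refine le_trans ?_ (hD (σ - φ g₀))
  norm_cast
  apply card_le_card
  intro a ha
  rw [mem_filter, mem_filter] at ha
  have h4 := ha.2.2
  rw [hs, hφ, Function.update_self] at h4
  rw [mem_cls]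
  exact eq_sub_of_add_eq h4

/-- Few embeddings have a given sum over `O` and an edge which is not `O`. -/
theorem card_sum [DecidableEq V] {r : ℕ} {lam : Fin n → Fin r → ZMod 2} (D : ℝ)
    (hD : ∀ t : Fin r → ZMod 2, ((cls lam t).card : ℝ) ≤ D)
    (O : Finset V) (u v : V) (huv : u ≠ v) (hO : ¬ ∀ x, x ∈ O ↔ x = u ∨ x = v)
    (σ : Fin r → ZMod 2) :
    ((univ.filter (fun f : V → Fin n => ∑ x ∈ O, lam (f x) +
      esum (fun v => lam (f v)) s(u, v) = σ)).card : ℝ) * n ≤
      D * ((univ : Finset (V → Fin n)).card : ℝ) := by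
  by_cases hu : u ∈ O
  · by_cases hv : v ∈ O
    · -- a further element of `O`
      obtain ⟨y, hy, hyu, hyv⟩ : ∃ y ∈ O, y ≠ u ∧ y ≠ v := by
        by_contra hcon
        push Not at hcon
        apply hO
        intro x
        constructor
        · intro hx
          by_cases hxu : x = u
          · exact Or.inl hxu
          · exact Or.inr (hcon x hx hxu)
        · rintro (rfl | rfl)
          · exact hu
          · exact hv
      refine card_sum_aux D hD O s(u, v) y σ
        (fun f => ∑ x ∈ O.erase y, lam (f x) + (lam (f u) + lam (f v))) ?_ ?_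
      · intro f a
        rw [Function.update_of_ne hyu.symm, Function.update_of_ne hyv.symm]
        congr 1
        exact sum_congr rfl fun x hx => by rw [Function.update_of_ne (ne_of_mem_erase hx)]
      · intro f
        rw [← add_sum_erase O _ hy, esum_mk, add_assoc]
    · refine card_sum_aux D hD O s(u, v) v σ (fun f => ∑ x ∈ O, lam (f x) + lam (f u)) ?_ ?_
      · intro f a
        rw [Function.update_of_ne huv]
        congr 1
        exact sum_congr rfl fun x hx => by
          rw [Function.update_of_ne (fun h : x = v => hv (h ▸ hx))]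
      · intro f
        rw [esum_mk]
        abel
  · refine card_sum_aux D hD O s(u, v) u σ (fun f => ∑ x ∈ O, lam (f x) + lam (f v)) ?_ ?_
    · intro f a
      rw [Function.update_of_ne huv.symm]
      congr 1
      exact sum_congr rfl fun x hx => by
        rw [Function.update_of_ne (fun h : x = u => hu (h ▸ hx))]
    · intro f
      rw [esum_mk]
      abel

/-- Union bound. -/
theorem union_bound {ι : Type} [DecidableEq V] (S : Finset ι) (A : ι → Finset (V → Fin n)) (D : ℝ)
    (h : ∀ i ∈ S, ((A i).card : ℝ) * n ≤ D * ((univ : Finset (V → Fin n)).card : ℝ)) :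
    ((S.biUnion A).card : ℝ) * n ≤ S.card * D * ((univ : Finset (V → Fin n)).card : ℝ) := by
  have h1 : ((S.biUnion A).card : ℝ) ≤ ∑ i ∈ S, ((A i).card : ℝ) := by
    exact_mod_cast card_biUnion_le
  calc ((S.biUnion A).card : ℝ) * n ≤ (∑ i ∈ S, ((A i).card : ℝ)) * n :=
        mul_le_mul_of_nonneg_right h1 (Nat.cast_nonneg _)
    _ = ∑ i ∈ S, ((A i).card : ℝ) * n := by rw [sum_mul]
    _ ≤ ∑ _i ∈ S, D * ((univ : Finset (V → Fin n)).card : ℝ) := sum_le_sum h
    _ = _ := by rw [sum_const, nsmul_eq_mul]; ring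

end ModCoreR

open ModCoreR in
/-- (CoreR) -/
theorem thmCoreR : StCoreR := by
  classical
  intro V _ G W O K N hK h1 h2
  set h := numEdgesIn G W with hhdef
  refine ⟨1 / (8 * ((h : ℝ) + 1)), by positivity, 2 * (K + h + Fintype.card V ^ 2) + 1, ?_⟩
  intro n hn c hc r Z τ lam hL hcls F hZF hFN σ
  set ξ : ℝ := 1 / (8 * ((h : ℝ) + 1)) with hξdef
  have hξ0 : 0 ≤ ξ := by rw [hξdef]; positivity
  have hhξ : (h : ℝ) * ξ ≤ 1 / 8 := by
    rw [hξdef, mul_one_div, div_le_div_iff₀ (by positivity) (by norm_num)]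
    linarith
  have hn0 : 0 < n := by omega
  have hnR : (0 : ℝ) < n := by exact_mod_cast hn0
  have hKR : (0 : ℝ) < K := by exact_mod_cast hK
  set T : ℝ := ((univ : Finset (V → Fin n)).card : ℝ) with hT
  have hTpos : 0 < T := by
    have : (univ : Finset (V → Fin n)).Nonempty := ⟨fun _ => ⟨0, hn0⟩, mem_univ _⟩
    rw [hT]
    exact_mod_cast card_pos.2 this
  set D : ℝ := 2 * ((n : ℝ) / K) + 1 with hDdef
  have hD : ∀ i k, (colourDegree c i k : ℝ) + 1 ≤ D := fun i k => by
    have := hc i k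
    rw [hDdef]
    linarith
  have hedge : ∀ e ∈ edgesIn G W, e ∈ G.edgeSet := fun e he => ((mem_edgesIn G W e).1 he).1
  -- the bad events
  set A₁ : Finset (V → Fin n) := ((edgesIn G W).offDiag).biUnion (fun p =>
    univ.filter (fun g : V → Fin n => c (p.1.map g) = c (p.2.map g))) with hA₁
  set A₂ : Finset (V → Fin n) := (edgesIn G W ×ˢ F).biUnion (fun p =>
    univ.filter (fun g : V → Fin n => c (p.1.map g) = p.2)) with hA₂
  set A₃ : Finset (V → Fin n) := univ.filter (fun f : V → Fin n => ¬ Function.Injective f)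
    with hA₃
  set A₄ : Finset (V → Fin n) := (edgesIn G W).biUnion (fun e => univ.filter
    (fun f : V → Fin n => c (e.map f) ∉ Z ∧
      esum (fun v => lam (f v)) e ≠ τ (c (e.map f)))) with hA₄
  set A₅ : Finset (V → Fin n) := (edgesIn G W).biUnion (fun e => univ.filter
    (fun f : V → Fin n => (16 * h ≤ 2 ^ r ∧ ∀ u v, s(u, v) ∈ edgesIn G W →
      ¬ ∀ x, x ∈ O ↔ x = u ∨ x = v) ∧ ∑ x ∈ O, lam (f x) +
      esum (fun v => lam (f v)) e = σ)) with hA₅
  have b1 : (A₁.card : ℝ) * n ≤ (((edgesIn G W).offDiag).card : ℝ) * D * T := by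
    apply union_bound
    intro p hp
    rw [mem_offDiag] at hp
    exact card_same (G := G) c D hD (hedge _ hp.1) (hedge _ hp.2.1) hp.2.2
  have b2 : (A₂.card : ℝ) * n ≤ ((edgesIn G W ×ˢ F).card : ℝ) * D * T := by
    apply union_bound
    intro p hp
    rw [mem_product] at hp
    exact col_bound c D hD (hedge _ hp.1) p.2
  have b3 : (A₃.card : ℝ) * n ≤ (Fintype.card V : ℝ) ^ 2 * T := card_noninj
  have b4 : (A₄.card : ℝ) * n ≤ ((edgesIn G W).card : ℝ) * (1 + ξ * n) * T := by
    apply union_bound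
    intro e he
    exact card_typ hL hK hξ0 G e (hedge _ he)
  have b5 : (A₅.card : ℝ) * n ≤ n / 8 * T := by
    by_cases hcase : 16 * h ≤ 2 ^ r ∧ ∀ u v, s(u, v) ∈ edgesIn G W →
        ¬ ∀ x, x ∈ O ↔ x = u ∨ x = v
    · have hclsD : ∀ t : Fin r → ZMod 2, ((cls lam t).card : ℝ) ≤ 2 / 2 ^ r * n := by
        intro t
        have := hcls t
        unfold mu at this
        rwa [div_le_iff₀ hnR] at this
      have b5' : (A₅.card : ℝ) * n ≤ ((edgesIn G W).card : ℝ) * (2 / 2 ^ r * n) * T := by
        apply union_bound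
        intro e he
        have h3 : ((univ.filter (fun f : V → Fin n => ∑ x ∈ O, lam (f x) +
            esum (fun v => lam (f v)) e = σ)).card : ℝ) * n ≤ (2 / 2 ^ r * n) * T := by
          induction e using Sym2.ind with
          | _ u v =>
            exact card_sum _ hclsD O u v (G.ne_of_adj (hedge _ he)) (hcase.2 u v he) σ
        refine le_trans (mul_le_mul_of_nonneg_right ?_ hnR.le) h3
        norm_cast
        apply card_le_card
        intro f hf
        rw [mem_filter] at hf ⊢
        exact ⟨mem_univ _, hf.2.2⟩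
      refine b5'.trans (mul_le_mul_of_nonneg_right ?_ hTpos.le)
      rw [card_edgesIn, ← hhdef]
      have hr : (16 * h : ℝ) ≤ 2 ^ r := by exact_mod_cast hcase.1
      have hr2 : (0 : ℝ) < 2 ^ r := by positivity
      rw [show (h : ℝ) * (2 / 2 ^ r * n) = (n / 8) * (16 * h) / 2 ^ r by ring,
        div_le_iff₀ hr2]
      exact mul_le_mul_of_nonneg_left hr (by positivity)
    · have hemp : A₅ = ∅ := by
        rw [hA₅]
        apply eq_empty_of_forall_notMem
        intro f hf
        rw [mem_biUnion] at hf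
        obtain ⟨e, -, he⟩ := hf
        rw [mem_filter] at he
        exact hcase he.2.1
      rw [hemp, card_empty, Nat.cast_zero, zero_mul]
      positivity
  have c1 : (((edgesIn G W).offDiag).card : ℝ) ≤ (h : ℝ) ^ 2 := by
    rw [offDiag_card, card_edgesIn, ← hhdef]
    have : h * h - h ≤ h ^ 2 := by
      rw [sq]
      exact Nat.sub_le _ _
    exact_mod_cast this
  have c2 : ((edgesIn G W ×ˢ F).card : ℝ) ≤ (h : ℝ) * N := by
    rw [card_product, card_edgesIn, ← hhdef]
    exact_mod_cast Nat.mul_le_mul_left _ hFN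
  have h1R : 16 * (h : ℝ) ^ 2 ≤ K := by exact_mod_cast h1
  have h2R : 16 * ((h : ℝ) * N) ≤ K := by
    have : ((16 * h * N : ℕ) : ℝ) ≤ (K : ℝ) := by exact_mod_cast h2
    push_cast at this
    linarith
  have hnR2 : 2 * ((K : ℝ) + h + (Fintype.card V : ℝ) ^ 2) + 1 ≤ n := by exact_mod_cast hn
  have hDpos : 0 < D := by positivity
  have hKD : (K : ℝ) / 16 * D = (n : ℝ) / 8 + K / 16 := by
    rw [hDdef]
    field_simp
    ring
  have hh0 : (0 : ℝ) ≤ h := Nat.cast_nonneg h
  have hsum : ((A₁ ∪ A₂ ∪ A₃ ∪ A₄ ∪ A₅).card : ℝ) * n < n * T := by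
    have u1 : ((A₁ ∪ A₂ ∪ A₃ ∪ A₄ ∪ A₅).card : ℝ) ≤
        A₁.card + A₂.card + A₃.card + A₄.card + A₅.card := by
      have := (card_union_le (A₁ ∪ A₂ ∪ A₃ ∪ A₄) A₅).trans (Nat.add_le_add_right
        ((card_union_le (A₁ ∪ A₂ ∪ A₃) A₄).trans (Nat.add_le_add_right
        ((card_union_le (A₁ ∪ A₂) A₃).trans
        (Nat.add_le_add_right (card_union_le A₁ A₂) A₃.card)) A₄.card)) A₅.card)
      exact_mod_cast this
    have u2 : ((A₁ ∪ A₂ ∪ A₃ ∪ A₄ ∪ A₅).card : ℝ) * n ≤
        (A₁.card : ℝ) * n + (A₂.card : ℝ) * n + (A₃.card : ℝ) * n + (A₄.card : ℝ) * n +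
          (A₅.card : ℝ) * n := by
      have := mul_le_mul_of_nonneg_right u1 hnR.le
      linarith
    have d1 : (((edgesIn G W).offDiag).card : ℝ) * D * T ≤ (K / 16 * D) * T := by
      apply mul_le_mul_of_nonneg_right _ hTpos.le
      apply mul_le_mul_of_nonneg_right _ hDpos.le
      linarith
    have d2 : ((edgesIn G W ×ˢ F).card : ℝ) * D * T ≤ (K / 16 * D) * T := by
      apply mul_le_mul_of_nonneg_right _ hTpos.le
      apply mul_le_mul_of_nonneg_right _ hDpos.le
      linarith
    have d4 : ((edgesIn G W).card : ℝ) * (1 + ξ * n) * T ≤ (h + n / 8) * T := by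
      apply mul_le_mul_of_nonneg_right _ hTpos.le
      rw [card_edgesIn, ← hhdef]
      have := mul_le_mul_of_nonneg_right hhξ hnR.le
      nlinarith
    rw [hKD] at d1 d2
    have d6 : ((n : ℝ) / 8 + K / 16) * T + ((n : ℝ) / 8 + K / 16) * T +
        (Fintype.card V : ℝ) ^ 2 * T + (h + n / 8) * T + n / 8 * T < n * T := by
      rw [← add_mul, ← add_mul, ← add_mul, ← add_mul]
      apply mul_lt_mul_of_pos_right _ hTpos
      have : (0 : ℝ) ≤ (Fintype.card V : ℝ) ^ 2 := by positivity
      linarith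
    linarith
  obtain ⟨g, hg⟩ : ∃ g : V → Fin n, g ∉ A₁ ∪ A₂ ∪ A₃ ∪ A₄ ∪ A₅ := by
    by_contra hcon
    push Not at hcon
    have : (univ : Finset (V → Fin n)) = A₁ ∪ A₂ ∪ A₃ ∪ A₄ ∪ A₅ :=
      (eq_univ_iff_forall.2 hcon).symm
    rw [← this, ← hT, mul_comm] at hsum
    exact lt_irrefl _ hsum
  rw [notMem_union, notMem_union, notMem_union, notMem_union] at hg
  obtain ⟨⟨⟨⟨g1, g2⟩, g3⟩, g4⟩, g5⟩ := hg
  have havoid : ∀ e ∈ edgesIn G W, c (e.map g) ∉ F := by
    intro e he hQe
    apply g2
    rw [hA₂, mem_biUnion]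
    exact ⟨(e, c (e.map g)), mem_product.2 ⟨he, hQe⟩, mem_filter.2 ⟨mem_univ _, rfl⟩⟩
  refine ⟨g, ?_, ?_, havoid, ?_, ?_⟩
  · by_contra hcon
    exact g3 (mem_filter.2 ⟨mem_univ _, hcon⟩)
  · intro a ha b hb hab
    by_contra hne
    apply g1
    rw [hA₁, mem_biUnion]
    exact ⟨(a, b), mem_offDiag.2 ⟨ha, hb, hne⟩, mem_filter.2 ⟨mem_univ _, hab⟩⟩
  · intro u v huv
    by_contra hne
    apply g4
    rw [hA₄, mem_biUnion]
    refine ⟨s(u, v), huv, mem_filter.2 ⟨mem_univ _, ?_, hne⟩⟩
    exact fun hz => havoid _ huv (hZF hz)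
  · intro _ hr hOe u v huv hs
    apply g5
    rw [hA₅, mem_biUnion]
    exact ⟨s(u, v), huv, mem_filter.2 ⟨mem_univ _, ⟨hr, hOe⟩, hs⟩⟩

end Pool.Agent.Lib.MP_b1acb3_co.One
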