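import Pool.Agent.Lib.MP_b1acb3_co.One.Stmts
import Pool.Agent.Lib.MP_b1acb3_co.Uni.Basic

/-!
(Cov) Every vertex is covered by many sets.
-/

namespace Pool.Agent.Lib.MP_b1acb3_co.One

open Finset Uni Leaf

namespace ModCov

/-- Bonferroni inequality. -/
theorem mu_biUnion_ge {n : ℕ} {ι : Type} [DecidableEq ι] (T : ι → Finset (Fin n)) (ν : ℝ)
    (s : Finset ι) :
    (∀ u ∈ s, ∀ w ∈ s, u ≠ w → mu (T u ∩ T w) ≤ ν) → 0 ≤ ν →
    ∑ u ∈ s, mu (T u) - (s.card : ℝ) ^ 2 * ν ≤ mu (s.biUnion T) := by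
  intro h hν
  induction s using Finset.induction_on with
  | empty => simp [mu_empty]
  | insert a s ha ih =>
    have ih' := ih fun u hu w hw huw => h u (mem_insert_of_mem hu) w (mem_insert_of_mem hw) huw
    have h1 : mu (T a ∩ s.biUnion T) ≤ s.card * ν := by
      rw [inter_biUnion]
      refine (mu_biUnion_le s fun w => T a ∩ T w).trans ?_
      rw [← nsmul_eq_mul, ← sum_const]
      refine sum_le_sum fun w hw => h a (mem_insert_self _ _) w (mem_insert_of_mem hw) ?_
      rintro rfl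
      exact ha hw
    have h2 := mu_union_add_inter (T a) (s.biUnion T)
    rw [biUnion_insert, sum_insert ha, card_insert_of_notMem ha]
    push_cast
    have h3 : (0 : ℝ) ≤ s.card := Nat.cast_nonneg _
    nlinarith [mul_nonneg h3 hν]

theorem card_le_labels {K r m : ℕ} (S : Finset (Fin K)) (τ : Fin K → Fin r → ZMod 2)
    (h : ∀ t, (S.filter (fun a => τ a = t)).card ≤ m) : S.card ≤ 2 ^ r * m := by
  have h1 := card_eq_sum_card_fiberwise (s := S) (t := univ) (f := τ) fun a _ => by simp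
  rw [h1]
  refine (sum_le_sum fun t _ => h t).trans ?_
  rw [sum_const, smul_eq_mul, card_univ, Fintype.card_fun, ZMod.card, Fintype.card_fin]

end ModCov

theorem thmCov : StCov := by
  classical
  intro n K P T θ ν ε m s C Cf D τ hL hlab hnum hθ p c₀
  obtain ⟨c, hc⟩ := hL.ne
  have hA := hL.atoms c hc
  have hM := hL.markov
  by_contra hcon
  push Not at hcon
  have hDC : D ⊆ insert c C := hL.subD.trans (subset_insert _ _)
  have hν := hL.ν0
  have hθ0 := hL.θ0
  have hε0 := hL.ε0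
  have hcards : D.card ≤ s := by
    have := hL.card
    omega
  have hKpos : (0 : ℝ) < K := by exact_mod_cast hM.kpos
  have hm1 : (1 : ℝ) ≤ m := by exact_mod_cast hL.m1
  -- the union
  have hU := ModCov.mu_biUnion_ge T ν D.powerset (by
    intro u hu w hw huw
    exact hA.ind u (mem_powerset.1 hu) w (mem_powerset.1 hw) huw) hν
  have hsize : ∀ u ∈ D.powerset, ((m : ℝ) - ε) / K ≤ mu (T u) := by
    intro u hu
    have hu' := mem_powerset.1 hu
    have h1 := hA.size u (hu'.trans hDC) ((card_le_card hu').trans hcards)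
    rw [abs_le] at h1
    rw [div_le_iff₀ hKpos]
    linarith [h1.1, mul_comm (mu (T u)) (K : ℝ)]
  have hsum : (2 ^ D.card : ℝ) * (((m : ℝ) - ε) / K) ≤ ∑ u ∈ D.powerset, mu (T u) := by
    have h1 := card_nsmul_le_sum D.powerset (fun u => mu (T u)) _ hsize
    rw [card_powerset, nsmul_eq_mul] at h1
    exact_mod_cast h1
  have h4 : ((D.powerset.card : ℝ)) ^ 2 = 4 ^ D.card := by
    rw [card_powerset]
    push_cast
    rw [← pow_mul, mul_comm, pow_mul]
    norm_num
  rw [h4] at hU
  have hNm : (K : ℝ) - ((C \ D ∪ Cf)ᶜ.card : ℝ) - K * ε ≤ (2 ^ D.card : ℝ) * ((m : ℝ) - ε) := by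
    rcases le_or_gt (2 ^ D.card : ℝ) K with hN | hN
    · have h5 := ModCov.card_le_labels (C \ D ∪ Cf) τ hlab
      have h6 : (C \ D ∪ Cf).card + (C \ D ∪ Cf)ᶜ.card = K := by
        rw [card_add_card_compl, Fintype.card_fin]
      have h5' : ((C \ D ∪ Cf).card : ℝ) ≤ 2 ^ D.card * m := by exact_mod_cast h5
      have h6' : ((C \ D ∪ Cf).card : ℝ) + ((C \ D ∪ Cf)ᶜ.card : ℝ) = K := by exact_mod_cast h6
      have h7 : (2 ^ D.card : ℝ) * ε ≤ K * ε := mul_le_mul_of_nonneg_right hN hε0
      linarith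
    · have h8 : (K : ℝ) * (1 - ε) ≤ (2 ^ D.card : ℝ) * ((m : ℝ) - ε) := by
        have h9 : (0 : ℝ) ≤ 1 - ε := by linarith [hL.ε1]
        have h10 : (1 : ℝ) - ε ≤ (m : ℝ) - ε := by linarith
        exact mul_le_mul hN.le h10 h9 (by positivity)
      have h11 : (0 : ℝ) ≤ ((C \ D ∪ Cf)ᶜ.card : ℝ) := Nat.cast_nonneg _
      linarith
  have hmuU : (K : ℝ) + 3 - ((C \ D).card : ℝ) ≤ K * mu (D.powerset.biUnion T) := by
    have h12 : (K : ℝ) * ((2 ^ D.card : ℝ) * (((m : ℝ) - ε) / K)) =
        (2 ^ D.card : ℝ) * ((m : ℝ) - ε) := by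
      field_simp
    have h13 : (K : ℝ) * ((2 ^ D.card : ℝ) * (((m : ℝ) - ε) / K) - 4 ^ D.card * ν) ≤
        K * mu (D.powerset.biUnion T) := by
      refine mul_le_mul_of_nonneg_left ?_ hKpos.le
      linarith
    rw [mul_sub, h12] at h13
    linarith
  -- the sum over the colours in `C \ D`
  have hsplit : ∑ a ∈ (C \ D).erase c₀, app P a (D.powerset.biUnion T) p +
      ∑ a ∈ ((C \ D).erase c₀)ᶜ, app P a (D.powerset.biUnion T) p =
      K * mu (D.powerset.biUnion T) := by
    rw [← sum_app hM (D.powerset.biUnion T) p]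
    exact sum_add_sum_compl _ _
  have hcompl : ∑ a ∈ ((C \ D).erase c₀)ᶜ, app P a (D.powerset.biUnion T) p ≤
      (K : ℝ) - (C \ D).card + 1 := by
    have h1 : ∑ a ∈ ((C \ D).erase c₀)ᶜ, app P a (D.powerset.biUnion T) p ≤
        (((C \ D).erase c₀)ᶜ.card : ℝ) := by
      have h2 := sum_le_card_nsmul ((C \ D).erase c₀)ᶜ
        (fun a => app P a (D.powerset.biUnion T) p) 1 fun a _ => app_le_one hM a _ _
      rwa [nsmul_eq_mul, mul_one] at h2
    have h3 : ((C \ D).erase c₀).card + ((C \ D).erase c₀)ᶜ.card = K := by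
      rw [card_add_card_compl, Fintype.card_fin]
    have h4 : (C \ D).card ≤ ((C \ D).erase c₀).card + 1 := by
      have := pred_card_le_card_erase (s := C \ D) (a := c₀)
      omega
    have h3' : (((C \ D).erase c₀).card : ℝ) + (((C \ D).erase c₀)ᶜ.card : ℝ) = K := by
      exact_mod_cast h3
    have h4' : ((C \ D).card : ℝ) ≤ (((C \ D).erase c₀).card : ℝ) + 1 := by exact_mod_cast h4
    linarith
  have hupper : ∑ a ∈ (C \ D).erase c₀, app P a (D.powerset.biUnion T) p ≤
      K * 2 ^ D.card * θ := by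
    have h1 : ∀ a ∈ (C \ D).erase c₀, app P a (D.powerset.biUnion T) p ≤ 2 ^ D.card * θ := by
      intro a ha
      obtain ⟨hac, haCD⟩ := mem_erase.1 ha
      obtain ⟨haC, haD⟩ := mem_sdiff.1 haCD
      refine (app_biUnion_le hM a D.powerset T p).trans ?_
      have h2 := sum_le_card_nsmul D.powerset (fun u => app P a (T u) p) θ fun u hu => by
        have hu' := mem_powerset.1 hu
        exact hA.grow u (hu'.trans hDC) a (mem_insert_of_mem haC) (fun h => haD (hu' h)) p
          (hcon a haCD hac u hu')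
      rw [card_powerset, nsmul_eq_mul] at h2
      push_cast at h2
      exact h2
    have h2 := sum_le_card_nsmul ((C \ D).erase c₀) _ _ h1
    rw [nsmul_eq_mul] at h2
    have h3 : (((C \ D).erase c₀).card : ℝ) ≤ K := by
      have := card_le_univ ((C \ D).erase c₀)
      rw [Fintype.card_fin] at this
      exact_mod_cast this
    calc ∑ a ∈ (C \ D).erase c₀, app P a (D.powerset.biUnion T) p
        ≤ (((C \ D).erase c₀).card : ℝ) * (2 ^ D.card * θ) := h2
      _ ≤ K * (2 ^ D.card * θ) := mul_le_mul_of_nonneg_right h3 (by positivity)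
      _ = K * 2 ^ D.card * θ := by ring
  linarith

end Pool.Agent.Lib.MP_b1acb3_co.One
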