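import Pool.Agent.Lib.MP_b1acb3_co.One.Stmts
import Pool.Agent.Lib.MP_b1acb3_co.Leaf.OddNe

/-!
(Cut) A vertex or an edge of the last ear is moved to the small part.
-/

namespace Pool.Agent.Lib.MP_b1acb3_co.One

open Finset Uni Leaf

theorem thmCut : StCut := by
  classical
  intro V _ G W W₂ W₁ q k m P m' P' s hk hs hm hS
  have hL := hS.last
  have hE := hS.ears
  have hin : ∀ j, 1 ≤ j → j ≤ m' → P' j ∈ W ∧ P' j ∉ W₂ := fun j h1 h2 => hL.inner 0 j h1 h2
  have hinj : ∀ j j', 1 ≤ j → j ≤ m' → 1 ≤ j' → j' ≤ m' → P' j = P' j' → j = j' :=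
    fun j j' h1 h2 h3 h4 h => (hL.inj 0 j 0 j' h1 h2 h3 h4 h).2
  have hn1 : ∀ j, 1 ≤ j → j ≤ m' → P' j ∉ W₁ := fun j h1 h2 h => (hin j h1 h2).2 (hE.sub h)
  have hadj : ∀ j, j ≤ m' → G.Adj (P' j) (P' (j + 1)) := fun j h => hL.adj 0 j h
  have honly : ∀ j u, 1 ≤ j → j ≤ m' → u ∈ W → G.Adj (P' j) u → u = P' (j - 1) ∨ u = P' (j + 1) :=
    fun j u h1 h2 hu h => hL.only 0 j u h1 h2 hu h
  obtain ⟨W₂', hW2⟩ : ∃ W₂' : Finset V, ∀ v, v ∈ W₂' ↔ v ∈ W₂ ∨
      ∃ j, 1 ≤ j ∧ j ≤ k + 1 + s ∧ P' j = v := by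
    refine ⟨W₂ ∪ (Finset.Icc 1 (k + 1 + s)).image P', fun v => ?_⟩
    rw [mem_union, mem_image]
    refine or_congr Iff.rfl ?_
    constructor
    · rintro ⟨j, hj, h⟩
      rw [Finset.mem_Icc] at hj
      exact ⟨j, hj.1, hj.2, h⟩
    · rintro ⟨j, h1, h2, h⟩
      exact ⟨j, Finset.mem_Icc.2 ⟨h1, h2⟩, h⟩
  obtain ⟨W₁', hW1⟩ : ∃ W₁' : Finset V, ∀ v, v ∈ W₁' ↔ v ∈ W₁ ∨ v = P' (k + 1) ∨
      v = P' (k + 1 + s) := by
    refine ⟨W₁ ∪ {P' (k + 1), P' (k + 1 + s)}, fun v => ?_⟩
    rw [mem_union, mem_insert, mem_singleton]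
  obtain ⟨m₁, hmc, hml⟩ : ∃ m₁ : Fin (q + 1) → ℕ, (∀ i : Fin q, m₁ i.castSucc = m i) ∧
      m₁ (Fin.last q) = k :=
    ⟨Fin.snoc (α := fun _ => ℕ) m k, fun i => Fin.snoc_castSucc (α := fun _ => ℕ) _ _ i,
      Fin.snoc_last (α := fun _ => ℕ) _ _⟩
  obtain ⟨P₁, hPc, hPl⟩ : ∃ P₁ : Fin (q + 1) → ℕ → V, (∀ i : Fin q, P₁ i.castSucc = P i) ∧
      P₁ (Fin.last q) = P' :=
    ⟨Fin.snoc (α := fun _ => ℕ → V) P P', fun i => Fin.snoc_castSucc (α := fun _ => ℕ → V) _ _ i,
      Fin.snoc_last (α := fun _ => ℕ → V) _ _⟩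
  have hsub1 : W₁ ⊆ W₁' := fun v hv => (hW1 v).2 (Or.inl hv)
  have hsub2 : W₂ ⊆ W₂' := fun v hv => (hW2 v).2 (Or.inl hv)
  have hin1 : ∀ j, 1 ≤ j → j ≤ m' → j ≠ k + 1 → j ≠ k + 1 + s → P' j ∉ W₁' := by
    intro j h1 h2 h3 h4 h
    rcases (hW1 _).1 h with h5 | h5 | h5
    · exact hn1 j h1 h2 h5
    · exact h3 (hinj j (k + 1) h1 h2 (by omega) (by omega) h5)
    · exact h4 (hinj j (k + 1 + s) h1 h2 (by omega) (by omega) h5)
  have hold : ∀ v ∈ W₂, v ∉ W₁ → v ∉ W₁' := by
    intro v h1 h2 h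
    rcases (hW1 _).1 h with h5 | h5 | h5
    · exact h2 h5
    · rw [h5] at h1
      exact (hin (k + 1) (by omega) (by omega)).2 h1
    · rw [h5] at h1
      exact (hin (k + 1 + s) (by omega) (by omega)).2 h1
  have hW2W : W₂' ⊆ W := by
    intro v hv
    rcases (hW2 v).1 hv with h | ⟨j, h1, h2, rfl⟩
    · exact hL.sub h
    · exact (hin j h1 (by omega)).1
  have hW12 : W₁' ⊆ W₂' := by
    intro v hv
    rcases (hW1 v).1 hv with h | rfl | rfl
    · exact hsub2 (hE.sub h)
    · exact (hW2 _).2 (Or.inr ⟨k + 1, by omega, by omega, rfl⟩)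
    · exact (hW2 _).2 (Or.inr ⟨k + 1 + s, by omega, by omega, rfl⟩)
  -- the ears of the enlarged small part
  have hears : Cyc.Ears G W₂' W₁' (q + 1) k m₁ P₁ := by
    refine ⟨hW12, ?_, ?_, ?_, ?_, ?_, ?_, ?_, ?_, ?_⟩
    · intro i
      rcases Fin.eq_castSucc_or_eq_last i with ⟨i, rfl⟩ | rfl
      · rw [hmc]
        exact hE.long i
      · rw [hml]
    · intro i
      rcases Fin.eq_castSucc_or_eq_last i with ⟨i, rfl⟩ | rfl
      · rw [hPc]
        exact hsub1 (hE.start i)
      · rw [hPl]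
        exact hsub1 hS.start
    · intro i
      rcases Fin.eq_castSucc_or_eq_last i with ⟨i, rfl⟩ | rfl
      · rw [hPc, hmc]
        exact hsub1 (hE.stop i)
      · rw [hPl, hml]
        exact (hW1 _).2 (Or.inr (Or.inl rfl))
    · intro i j h1 h2
      rcases Fin.eq_castSucc_or_eq_last i with ⟨i, rfl⟩ | rfl
      · rw [hmc] at h2
        rw [hPc]
        have h3 := hE.inner i j h1 h2
        exact ⟨hsub2 h3.1, hold _ h3.1 h3.2⟩
      · rw [hml] at h2
        rw [hPl]
        exact ⟨(hW2 _).2 (Or.inr ⟨j, h1, by omega, rfl⟩), hin1 j h1 (by omega) (by omega)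
          (by omega)⟩
    · intro i j i' j' h1 h2 h3 h4 h
      rcases Fin.eq_castSucc_or_eq_last i with ⟨i, rfl⟩ | rfl
      · rw [hmc] at h2
        rw [hPc] at h
        rcases Fin.eq_castSucc_or_eq_last i' with ⟨i', rfl⟩ | rfl
        · rw [hmc] at h4
          rw [hPc] at h
          obtain ⟨h5, h6⟩ := hE.inj i j i' j' h1 h2 h3 h4 h
          exact ⟨by rw [h5], h6⟩
        · rw [hml] at h4
          rw [hPl] at h
          have h5 := (hE.inner i j h1 h2).1
          rw [h] at h5
          exact absurd h5 (hin j' h3 (by omega)).2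
      · rw [hml] at h2
        rw [hPl] at h
        rcases Fin.eq_castSucc_or_eq_last i' with ⟨i', rfl⟩ | rfl
        · rw [hmc] at h4
          rw [hPc] at h
          have h5 := (hE.inner i' j' h3 h4).1
          rw [← h] at h5
          exact absurd h5 (hin j h1 (by omega)).2
        · rw [hml] at h4
          rw [hPl] at h
          exact ⟨rfl, hinj j j' h1 (by omega) h3 (by omega) h⟩
    · intro v hv hv1
      rcases (hW2 v).1 hv with h | ⟨j, h1, h2, rfl⟩
      · obtain ⟨i, j, h1, h2, h3⟩ := hE.cover v h fun h' => hv1 (hsub1 h')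
        exact ⟨i.castSucc, j, h1, by rw [hmc]; exact h2, by rw [hPc]; exact h3⟩
      · have h3 : j ≠ k + 1 := by
          rintro rfl
          exact hv1 ((hW1 _).2 (Or.inr (Or.inl rfl)))
        have h4 : j ≠ k + 1 + s := by
          rintro rfl
          exact hv1 ((hW1 _).2 (Or.inr (Or.inr rfl)))
        exact ⟨Fin.last q, j, h1, by rw [hml]; omega, by rw [hPl]⟩
    · intro i j h2
      rcases Fin.eq_castSucc_or_eq_last i with ⟨i, rfl⟩ | rfl
      · rw [hmc] at h2
        rw [hPc]
        exact hE.adj i j h2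
      · rw [hml] at h2
        rw [hPl]
        exact hadj j (by omega)
    · intro i j u h1 h2 hu hadj'
      rcases Fin.eq_castSucc_or_eq_last i with ⟨i, rfl⟩ | rfl
      · rw [hmc] at h2
        rw [hPc] at hadj' ⊢
        rcases (hW2 u).1 hu with h | ⟨j', h3, h4, rfl⟩
        · exact hE.only i j u h1 h2 h hadj'
        · exfalso
          have h5 := hE.inner i j h1 h2
          rcases honly j' (P i j) h3 (by omega) (hL.sub h5.1) hadj'.symm with h | h
          · rcases Nat.eq_or_lt_of_le h3 with h6 | h6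
            · rw [← h6, Nat.sub_self] at h
              rw [h] at h5
              exact h5.2 hS.start
            · rw [h] at h5
              exact (hin (j' - 1) (by omega) (by omega)).2 h5.1
          · rw [h] at h5
            exact (hin (j' + 1) (by omega) (by omega)).2 h5.1
      · rw [hml] at h2
        rw [hPl] at hadj' ⊢
        exact honly j u h1 (by omega) (hW2W hu) hadj'
    · intro i j h1 h2
      rcases Fin.eq_castSucc_or_eq_last i with ⟨i, rfl⟩ | rfl
      · rw [hmc] at h2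
        rw [hPc]
        exact hE.ne i j h1 h2
      · rw [hml] at h2
        rw [hPl]
        exact hL.ne 0 j h1 (by omega)
  -- the new last ear
  have hlast : Cyc.Ears G W W₂' 1 k (fun _ => m' - (k + 1 + s))
      (fun _ => fun j => P' (k + 1 + s + j)) := by
    refine ⟨hW2W, fun _ => by omega, fun _ => ?_, fun _ => ?_, fun _ j h1 h2 => ?_, ?_, ?_, ?_,
      ?_, ?_⟩
    · exact (hW2 _).2 (Or.inr ⟨k + 1 + s, by omega, le_rfl, rfl⟩)
    · have h1 : k + 1 + s + (m' - (k + 1 + s) + 1) = m' + 1 := by omega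
      change P' (k + 1 + s + (m' - (k + 1 + s) + 1)) ∈ W₂'
      rw [h1]
      exact hsub2 (hE.sub hS.stop)
    · have h3 := hin (k + 1 + s + j) (by omega) (by omega)
      refine ⟨h3.1, fun h4 => ?_⟩
      rcases (hW2 _).1 h4 with h5 | ⟨j', h5, h6, h7⟩
      · exact h3.2 h5
      · have h8 := hinj _ _ h5 (by omega) (by omega) (by omega) h7
        omega
    · intro i j i' j' h1 h2 h3 h4 h
      have h5 := hinj (k + 1 + s + j) (k + 1 + s + j') (by omega) (by omega) (by omega) (by omega) h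
      exact ⟨Subsingleton.elim _ _, by omega⟩
    · intro v hv hv2
      obtain ⟨_, j, h1, h2, h3⟩ := hL.cover v hv fun h => hv2 (hsub2 h)
      have h4 : ¬ j ≤ k + 1 + s := fun h4 => hv2 ((hW2 v).2 (Or.inr ⟨j, h1, h4, h3⟩))
      refine ⟨0, j - (k + 1 + s), by omega, ?_, ?_⟩
      · change j - (k + 1 + s) ≤ m' - (k + 1 + s)
        exact Nat.sub_le_sub_right h2 _
      · have h5 : k + 1 + s + (j - (k + 1 + s)) = j := by omega
        change P' (k + 1 + s + (j - (k + 1 + s))) = v
        rw [h5]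
        exact h3
    · intro i j h
      exact hadj (k + 1 + s + j) (by omega)
    · intro i j u h1 h2 hu hadj'
      have h3 := honly (k + 1 + s + j) u (by omega) (by omega) hu hadj'
      have h4 : k + 1 + s + j - 1 = k + 1 + s + (j - 1) := by omega
      rw [h4] at h3
      exact h3
    · intro i j h1 h2
      have h3 := hL.ne 0 (k + 1 + s + j) (by omega) (by change k + 1 + s + j ≤ m'; omega)
      have h4 : k + 1 + s + j - 1 = k + 1 + s + (j - 1) := by omega
      rw [h4] at h3
      exact h3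
  -- edges of the enlarged small part
  have hedge : ∀ u v, s(u, v) ∈ edgesIn G W₁' → s(u, v) ∈ edgesIn G W₁ ∨
      (s = 1 ∧ s(u, v) = s(P' (k + 1), P' (k + 2))) := by
    have key : ∀ u v, u ∈ W₁' → v ∈ W₁' → G.Adj u v → u ∉ W₁ →
        s = 1 ∧ s(u, v) = s(P' (k + 1), P' (k + 2)) := by
      intro u v hu hv huv hu1
      have hvW : v ∈ W := hW2W (hW12 hv)
      rcases (hW1 u).1 hu with h | rfl | rfl
      · exact absurd h hu1
      · rcases honly (k + 1) v (by omega) (by omega) hvW huv with h | h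
        · rw [h] at hv
          exact absurd hv (hin1 (k + 1 - 1) (by omega) (by omega) (by omega) (by omega))
        · have hs1 : s = 1 := by
            by_contra hs1
            rw [h] at hv
            exact absurd hv (hin1 (k + 1 + 1) (by omega) (by omega) (by omega) (by omega))
          exact ⟨hs1, by rw [h]⟩
      · rcases Nat.eq_or_lt_of_le (Nat.zero_le s) with h0 | h0
        · subst h0
          rcases honly (k + 1 + 0) v (by omega) (by omega) hvW huv with h | h
          · rw [h] at hv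
            exact absurd hv (hin1 (k + 1 + 0 - 1) (by omega) (by omega) (by omega) (by omega))
          · rw [h] at hv
            exact absurd hv (hin1 (k + 1 + 0 + 1) (by omega) (by omega) (by omega) (by omega))
        · have hs1 : s = 1 := by omega
          subst hs1
          rcases honly (k + 1 + 1) v (by omega) (by omega) hvW huv with h | h
          · rw [h, Nat.add_sub_cancel]
            exact ⟨rfl, Sym2.eq_swap⟩
          · rw [h] at hv
            exact absurd hv (hin1 (k + 1 + 1 + 1) (by omega) (by omega) (by omega) (by omega))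
    intro u v h
    rw [mem_edgesIn] at h
    have hu : u ∈ W₁' := h.2 u (Sym2.mem_mk_left _ _)
    have hv : v ∈ W₁' := h.2 v (Sym2.mem_mk_right _ _)
    have huv : G.Adj u v := h.1
    by_cases hu1 : u ∈ W₁
    · by_cases hv1 : v ∈ W₁
      · left
        rw [mem_edgesIn]
        refine ⟨h.1, fun x hx => ?_⟩
        rw [Sym2.mem_iff] at hx
        rcases hx with rfl | rfl
        · exact hu1
        · exact hv1
      · right
        have h3 := key v u hv hu huv.symm hv1
        exact ⟨h3.1, by rw [Sym2.eq_swap]; exact h3.2⟩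
    · right
      exact key u v hu hv huv hu1
  have hedge' : ∀ e, e ∈ edgesIn G W₁ → e ∈ edgesIn G W₁' := by
    intro e he
    rw [mem_edgesIn] at he ⊢
    exact ⟨he.1, fun x hx => hsub1 (he.2 x hx)⟩
  refine ⟨W₂', W₁', m₁, P₁, ⟨hears, hlast, (hW1 _).2 (Or.inr (Or.inr rfl)), ?_⟩,
    hn1 _ (by omega) (by omega), hn1 _ (by omega) (by omega), hsub1, fun v hv => (hW1 v).1 hv,
    ?_, ?_, ?_⟩
  · have h1 : k + 1 + s + (m' - (k + 1 + s) + 1) = m' + 1 := by omega
    change P' (k + 1 + s + (m' - (k + 1 + s) + 1)) ∈ W₁'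
    rw [h1]
    exact hsub1 hS.stop
  · intro hs0
    ext e
    induction e using Sym2.ind with
    | _ u v =>
      refine ⟨fun h => ?_, hedge' _⟩
      rcases hedge u v h with h1 | ⟨h1, _⟩
      · exact h1
      · omega
  · intro hs1
    subst hs1
    have hadj1 := hadj (k + 1) (by omega)
    refine ⟨hadj1.ne, fun h => ?_, fun e => ?_⟩
    · rw [mem_edgesIn] at h
      exact hn1 (k + 1) (by omega) (by omega) (h.2 _ (Sym2.mem_mk_left _ _))
    · induction e using Sym2.ind with
      | _ u v =>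
        constructor
        · intro h
          rcases hedge u v h with h1 | ⟨_, h1⟩
          · exact Or.inl h1
          · exact Or.inr h1
        · rintro (h | h)
          · exact hedge' _ h
          · rw [h, mem_edgesIn]
            refine ⟨hadj1, fun x hx => ?_⟩
            rw [Sym2.mem_iff] at hx
            rw [hW1]
            rcases hx with rfl | rfl
            · exact Or.inr (Or.inl rfl)
            · exact Or.inr (Or.inr rfl)
  · ext v
    rw [mem_oddIn, mem_oddIn, hW1]
    constructor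
    · rintro ⟨h | rfl | rfl, hodd⟩
      · exact ⟨h, hodd⟩
      · have h1 := ModOddNe.inner_nbrs hL 0 (k + 1) (by omega) (by change k + 1 ≤ m'; omega)
        rw [h1] at hodd
        exact absurd hodd (by decide)
      · have h1 := ModOddNe.inner_nbrs hL 0 (k + 1 + s) (by omega)
          (by change k + 1 + s ≤ m'; omega)
        rw [h1] at hodd
        exact absurd hodd (by decide)
    · rintro ⟨h, hodd⟩
      exact ⟨Or.inl h, hodd⟩

end Pool.Agent.Lib.MP_b1acb3_co.One
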