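import Pool.Agent.Lib.MP_b1acb3_co.Leaf.Stmts

/-!
Definitions for the classification of graphs without a leaf and with small cyclomatic number
(problem MP_b1acb3_co).
-/

namespace Pool.Agent.Lib.MP_b1acb3_co.One

open Finset Uni Leaf

/-- `Rel c ϑ Q x y`: there are many walks from `x` to `y` that use each colour of `Q` exactly
once and no other colour. -/
inductive Rel {n K : ℕ} (c : Sym2 (Fin n) → Fin K) (ϑ : ℝ) :
    Finset (Fin K) → Fin n → Fin n → Prop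
  | single (x y : Fin n) : y ≠ x → Rel c ϑ {c s(x, y)} x y
  | comp (Q Q' : Finset (Fin K)) (x y : Fin n) (S : Finset (Fin n)) : Disjoint Q Q' →
      ϑ < mu S → (∀ z ∈ S, Rel c ϑ Q x z) → (∀ z ∈ S, Rel c ϑ Q' z y) → Rel c ϑ (Q ∪ Q') x y

open Classical in
/-- The vertices `y` with `Rel c ϑ Q x y`. -/
noncomputable def RS {n K : ℕ} (c : Sym2 (Fin n) → Fin K) (ϑ : ℝ) (x : Fin n)
    (Q : Finset (Fin K)) : Finset (Fin n) := univ.filter (fun y => Rel c ϑ Q x y)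

/-- A symmetric system of sets `R x Q` that can be composed. -/
structure RelSys {n K : ℕ} (P : Fin K → Matrix (Fin n) (Fin n) ℝ)
    (R : Fin n → Finset (Fin K) → Finset (Fin n)) (θ : ℝ) : Prop where
  sys : ∀ x, Sys P (R x) θ (K + 1)
  symm : ∀ x y Q, y ∈ R x Q → x ∈ R y Q
  comp : ∀ x y (Q Q' : Finset (Fin K)), Disjoint Q Q' → θ < mu (R x Q ∩ R y Q') →
    y ∈ R x (Q ∪ Q')
  cover : ∀ x y, y ≠ x → ∃ a, y ∈ R x {a}

/-- All subsets of `Q` reach sets of density at most `B / K`. -/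
def Good {n K : ℕ} (R : Finset (Fin K) → Finset (Fin n)) (B : ℝ) (Q : Finset (Fin K)) : Prop :=
  ∀ Q' ⊆ Q, (K : ℝ) * mu (R Q') ≤ B

/-- Total decrease of `K mu (R Q)` when a colour is removed. -/
noncomputable def dec {n K : ℕ} (R : Finset (Fin K) → Finset (Fin n)) (Q : Finset (Fin K)) : ℝ :=
  ∑ a ∈ Q, (K * mu (R Q) - K * mu (R (Q.erase a)))

/-- The mean of the logarithm of `K mu (R Q)`. -/
noncomputable def gE {n K : ℕ} (R : Finset (Fin K) → Finset (Fin n)) (i : ℕ) : ℝ :=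
  EQ K i (fun Q => Real.log (K * mu (R Q)))

open Classical in
/-- Number of the `i`-element subsets of `S` with the property `p`. -/
noncomputable def num {K : ℕ} (S : Finset (Fin K)) (i : ℕ) (p : Finset (Fin K) → Prop) : ℕ :=
  ((powersetCard i S).filter p).card

/-! ### The local structure -/

/-- Union of a family of sets of colours. -/
def un {K : ℕ} (V : Finset (Finset (Fin K))) : Finset (Fin K) := V.sup id

/-- All sets of the family enlarged by `u`. -/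
def sh {K : ℕ} (V : Finset (Finset (Fin K))) (u : Finset (Fin K)) : Finset (Finset (Fin K)) :=
  V.image (fun v => v ∪ u)

/-- Intersection of the sets `R (A ∪ v)`, `v ∈ V`. -/
def Tv {n K : ℕ} (R : Finset (Fin K) → Finset (Fin n)) (A : Finset (Fin K))
    (V : Finset (Finset (Fin K))) : Finset (Fin n) := univ.filter (fun y => ∀ v ∈ V, y ∈ R (A ∪ v))

/-- The quantity maximised by `A`. -/
noncomputable def scA {n K : ℕ} (R : Finset (Fin K) → Finset (Fin n)) (Y : ℕ)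
    (A : Finset (Fin K)) : ℝ := K * mu (R A) - (A.card : ℝ) / (Y : ℝ) ^ 16

/-- The quantity minimised by `V`. -/
noncomputable def scV {n K : ℕ} (R : Finset (Fin K) → Finset (Fin n)) (Y : ℕ)
    (A : Finset (Fin K)) (V : Finset (Finset (Fin K))) : ℝ :=
  K * mu (Tv R A V) + ((V.card : ℝ) + ((un V).card : ℝ)) / (24 * Y)

/-- The sets belonging to different subsets of `D` have negligible intersection. -/
def Ind {n K : ℕ} (R : Finset (Fin K) → Finset (Fin n)) (ν : ℝ) (A : Finset (Fin K))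
    (V : Finset (Finset (Fin K))) (D : Finset (Fin K)) : Prop :=
  ∀ u ⊆ D, ∀ w ⊆ D, u ≠ w → mu (Tv R A (sh V u) ∩ Tv R A (sh V w)) ≤ ν

/-- `(A, V, D)` is optimal among the data contained in `S`. -/
structure Opt {n K : ℕ} (R : Finset (Fin K) → Finset (Fin n)) (Y : ℕ) (ν : ℝ)
    (S A : Finset (Fin K)) (V : Finset (Finset (Fin K))) (D : Finset (Fin K)) : Prop where
  subA : A ⊆ S
  neA : A.Nonempty
  neV : V.Nonempty
  subV : ∀ v ∈ V, v ⊆ S \ A
  big : ν < mu (Tv R A V)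
  subD : D ⊆ S \ (A ∪ un V)
  ind : Ind R ν A V D
  maxA : ∀ A' ⊆ S, A'.Nonempty → scA R Y A' ≤ scA R Y A
  minV : ∀ V' : Finset (Finset (Fin K)), V'.Nonempty → (∀ v ∈ V', v ⊆ S \ A) →
    ν < mu (Tv R A V') → scV R Y A V ≤ scV R Y A V'
  maxD : ∀ D' ⊆ S \ (A ∪ un V), Ind R ν A V D' → D'.card ≤ D.card

/-- A system of sets `T u`, `u ⊆ C` small, of density about `m / K`, any two of which nearly
agree or have negligible intersection, where the colours act as translations; `D` is a maximal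
independent set of colours. -/
structure Atoms {n K : ℕ} (P : Fin K → Matrix (Fin n) (Fin n) ℝ)
    (T : Finset (Fin K) → Finset (Fin n)) (θ ν ε : ℝ) (m s : ℕ) (C D : Finset (Fin K)) :
    Prop where
  grow : ∀ u ⊆ C, ∀ c ∈ C, c ∉ u → ∀ y, y ∉ T (insert c u) → app P c (T u) y ≤ θ
  size : ∀ u ⊆ C, u.card ≤ s → |K * mu (T u) - m| ≤ ε
  dich : ∀ u ⊆ C, ∀ w ⊆ C, u.card ≤ s → w.card ≤ s →
    mu (T u ∩ T w) ≤ ν ∨ K * mu (T u \ T w) ≤ ε
  subD : D ⊆ C
  ind : ∀ u ⊆ D, ∀ w ⊆ D, u ≠ w → mu (T u ∩ T w) ≤ ν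
  dep : ∀ c ∈ C, c ∉ D → ∃ u ⊆ D, ∃ w ⊆ D, ν < mu (T (insert c u) ∩ T w) ∨
    (u ≠ w ∧ ν < mu (T (insert c u) ∩ T (insert c w)))

/-- All colours occurring in the data `(A, V, D)`. -/
def supp {K : ℕ} (X : Finset (Fin K) × Finset (Finset (Fin K)) × Finset (Fin K)) :
    Finset (Fin K) := X.1 ∪ un X.2.1 ∪ X.2.2

/-- The local structure around a maximal independent set `D` of colours in `C`, for all
extensions of `C` by one colour of `Cf`, with labels `τ` of the colours. -/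
structure Loc {n K : ℕ} (P : Fin K → Matrix (Fin n) (Fin n) ℝ)
    (T : Finset (Fin K) → Finset (Fin n)) (θ ν ε : ℝ) (m s : ℕ) (C Cf D : Finset (Fin K))
    (τ : Fin K → Fin D.card → ZMod 2) : Prop where
  markov : Markov P
  θ0 : 0 ≤ θ
  θ1 : K * θ ≤ 1 / 1000
  ν0 : 0 ≤ ν
  ν1 : K * ν ≤ 1 / 1000
  ε0 : 0 ≤ ε
  ε1 : ε ≤ 1 / 1000
  m1 : 1 ≤ m
  card : 4 * (D.card + 4) ≤ s
  subD : D ⊆ C
  disj : Disjoint Cf C
  ne : Cf.Nonempty
  atoms : ∀ c ∈ Cf, Atoms P T θ ν ε m s (insert c C) D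
  surj : ∀ t : Fin D.card → ZMod 2, ∃ u ⊆ D, ∑ a ∈ u, τ a = t
  tau : ∀ c ∈ Cf, ∀ w ⊆ insert c C, ∀ w' ⊆ insert c C, w.card ≤ D.card + 3 →
    w'.card ≤ D.card + 3 → (∑ a ∈ w, τ a = ∑ a ∈ w', τ a ↔ ν < mu (T w ∩ T w'))

/-- Labels of vertices and colours such that, up to a set of small measure, every edge with
colour `a ∉ Z` joins vertices whose labels differ by `τ a`. -/
structure Ex {n K r : ℕ} (P : Fin K → Matrix (Fin n) (Fin n) ℝ) (Z : Finset (Fin K))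
    (τ : Fin K → Fin r → ZMod 2) (lam : Fin n → Fin r → ZMod 2) (ζ : ℝ) : Prop where
  ex : ∀ a, a ∉ Z →
    avg (fun x => ∑ y ∈ univ.filter (fun y => lam y ≠ lam x + τ a), P a x y) ≤ ζ
  span : ∀ t : Fin r → ZMod 2, ∃ Q ⊆ Zᶜ, ∑ a ∈ Q, τ a = t

/-- The same at every vertex, for the colouring. -/
structure Lab {n K r : ℕ} (c : Sym2 (Fin n) → Fin K) (Z : Finset (Fin K))
    (τ : Fin K → Fin r → ZMod 2) (lam : Fin n → Fin r → ZMod 2) (ξ : ℝ) : Prop where
  lab : ∀ y, ∀ a, a ∉ Z →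
    (((nbr c y a).filter (fun z => lam z ≠ lam y + τ a)).card : ℝ) ≤ ξ * ((n : ℝ) / K)
  span : ∀ t : Fin r → ZMod 2, ∃ Q ⊆ Zᶜ, ∑ a ∈ Q, τ a = t

/-- The vertices with label `t`. -/
def cls {n r : ℕ} (lam : Fin n → Fin r → ZMod 2) (t : Fin r → ZMod 2) : Finset (Fin n) :=
  univ.filter (fun y => lam y = t)

/-- For most vertices `a` there are small sets of colours, avoiding given colours, that reach
nearly all vertices of a class from `a`. -/
def FillAll {n K r : ℕ} (c : Sym2 (Fin n) → Fin K) (Z : Finset (Fin K))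
    (τ : Fin K → Fin r → ZMod 2) (lam : Fin n → Fin r → ZMod 2) (ϑ : ℝ) (w w₁ : ℕ) : Prop :=
  ∃ Bad : Finset (Fin n), 10 * Bad.card ≤ n ∧ ∀ a, a ∉ Bad → ∀ F : Finset (Fin K), Z ⊆ F →
    (F \ Z).card ≤ w₁ → ∃ Q : Finset (Fin K), Q.Nonempty ∧ Disjoint Q F ∧ Q.card ≤ w ∧
      24 / 25 ≤ 2 ^ r * mu (RS c ϑ a Q ∩ cls lam (lam a + ∑ b ∈ Q, τ b))

/-- Number of ordered pairs of colour `a` whose labels have the sum `t`. -/
def cnt {n K r : ℕ} (c : Sym2 (Fin n) → Fin K) (lam : Fin n → Fin r → ZMod 2) (a : Fin K)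
    (t : Fin r → ZMod 2) : ℕ :=
  ((univ : Finset (Fin n × Fin n)).filter
    (fun p => p.1 ≠ p.2 ∧ c s(p.1, p.2) = a ∧ lam p.1 + lam p.2 = t)).card

/-! ### Graphs -/

/-- `G[W]` is built from `G[W₁]` by ears, the last of which (with both ends in `W₁`) is singled
out. -/
structure Stt {V : Type} (G : SimpleGraph V) (W W₂ W₁ : Finset V) (q k : ℕ) (m : Fin q → ℕ)
    (P : Fin q → ℕ → V) (m' : ℕ) (P' : ℕ → V) : Prop where
  ears : Cyc.Ears G W₂ W₁ q k m P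
  last : Cyc.Ears G W W₂ 1 k (fun _ => m') (fun _ => P')
  start : P' 0 ∈ W₁
  stop : P' (m' + 1) ∈ W₁

/-- The exceptional graphs. -/
def Exc {V : Type} (G : SimpleGraph V) : Prop :=
  (∃ r : ℕ, numEdges G + 1 = 2 ^ r) ∧
    ∃ e₀ ∈ G.edgeSet, ∀ v, Even {u | G.Adj v u ∧ s(v, u) ≠ e₀}.ncard

/-- Balanced colourings with labels of rank `r` contain rainbow copies of `G`. -/
def Claim {V : Type} (G : SimpleGraph V) (r z : ℕ) : Prop :=
  ∃ ξ : ℝ, 0 < ξ ∧ ∃ ε : ℝ, 0 < ε ∧ ∃ n₀ : ℕ, ∀ n : ℕ, n₀ ≤ n →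
    ∀ c : Sym2 (Fin n) → Fin (numEdges G + 1), IsBalanced ε c →
    ∀ (Z : Finset (Fin (numEdges G + 1))) (τ : Fin (numEdges G + 1) → Fin r → ZMod 2)
      (lam : Fin n → Fin r → ZMod 2), Z.card ≤ z → Lab c Z τ lam ξ → HasRainbowCopy G c

/-- Numerical conditions: `K` colours, `h` edges of the small part, `q` further ears, ears have at
least `k` inner vertices, words with `d'` deletions, sets of at most `N` colours, the last ear
has `l` edges, and everything is small compared with `Y`, while `Y ^ 60 ≤ K`. -/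
structure Nums (K h q k d' N Y l : ℕ) : Prop where
  y1 : 10000 ≤ Y
  y2 : 8 * (Nat.log 2 K + 2) ≤ Y
  y3 : Y ^ 60 ≤ K
  ch : 16 * K ^ 2 ≤ k.choose d'
  hk : k ≤ Y
  hd : d' ≤ Y
  hq : q ≤ Y
  hh : h ≤ Y ^ 2
  n1 : 100000 ≤ N
  n2 : 16 * h * N ≤ K
  n3 : 2 * k * (h + N + q * k) ≤ K
  n4 : 4 * N ≤ K
  n5 : N + q * d' + 2 ≤ l
  n6 : 400 * (K : ℝ) * (Real.log K + 1) + 3 * N ≤ (Y : ℝ) * N
  n7 : K ≤ Y * l

end Pool.Agent.Lib.MP_b1acb3_co.One
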