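import Pool.Agent.Lib.MP_b1acb3_co.One.Stmts
import Pool.Agent.Lib.MP_b1acb3_co.Cyc.Final

/-!
Module Ears3: embedding of the ears with forbidden colours, uniform version.
-/

namespace Pool.Agent.Lib.MP_b1acb3_co.One

open Finset Uni Leaf

theorem thmEars3 : StEars3 := by
  classical
  intro V _ G k d K hK hch
  have hdk : d < k := by
    by_contra hcon
    push Not at hcon
    have h6 : k.choose d ≤ 1 := by
      rcases Nat.eq_or_lt_of_le hcon with h | h
      · rw [h, Nat.choose_self]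
      · rw [Nat.choose_eq_zero_of_lt h]
        exact Nat.zero_le _
    have h7 : 1 ≤ K ^ 2 := Nat.one_le_pow _ _ hK
    omega
  choose δ' hδ' N' hN' using fun i : Fin (K + 1) => Cyc.path K i (Fintype.card V) hK
  obtain ⟨δ, hδ, hδle⟩ := Cyc.exists_small δ' hδ'
  refine ⟨δ, hδ, ∑ i, N' i, ?_⟩
  intro n hn c B hE W₂ W₁ q m P hP f₀ hf₀ hf₀' F hF h2k hsp
  have hn' : ∀ i, N' i ≤ n := by
    intro i
    have : N' i ≤ ∑ i, N' i := single_le_sum (fun _ _ => Nat.zero_le _) (mem_univ i)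
    omega
  have hmK : ∀ i, m i + 1 < K + 1 := by
    intro i
    have : m i + 1 ≤ ∑ i, (m i + 1) :=
      single_le_sum (f := fun i => m i + 1) (fun _ _ => Nat.zero_le _) (mem_univ i)
    omega
  obtain ⟨w, hw1, hw2, hw3, hw4⟩ := Cyc.words (Cyc.blocks Cyc.ear) n K B hE.exact hK q k d m F
    (fun i => f₀ (P i 0)) (fun i => f₀ (P i (m i + 1))) hdk hP.long h2k hch hsp
  have hwne : ∀ i, w i ≠ [] := by
    intro i h
    have := hw1 i
    rw [h, List.length_nil] at this
    omega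
  obtain ⟨f, hf, hfW, hfc⟩ := Cyc.embed_ears G W₂ W₁ q k m P hP c f₀ hf₀ w hw1
    (by
      intro i Z hZ
      exact hN' ⟨m i + 1, hmK i⟩ n (hn' ⟨m i + 1, hmK i⟩) c B hE.exact.nonneg
        (fun k a b => (hE.upper k a b).trans (by have := hδle ⟨m i + 1, hmK i⟩; linarith))
        (w i) _ _ Z (hw1 i) (hwne i) hZ (hw2 i)) q le_rfl
  have hfW0 : ∀ e ∈ edgesIn G W₁, e.map f = e.map f₀ := by
    intro e he
    exact map_congr_of e f f₀ (fun x hx => hfW x (((mem_edgesIn G W₁ e).1 he).2 x hx))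
  have hear : ∀ (i : Fin q) (j : ℕ), j ≤ m i → ∃ hj : j < (w i).length,
      c ((s(P i j, P i (j + 1)) : Sym2 V).map f) = (w i)[j] := by
    intro i j hj
    have hj' : j < (w i).length := by rw [hw1]; omega
    refine ⟨hj', ?_⟩
    rw [Sym2.map_mk]
    exact hfc i i.isLt j hj'
  have hinj : Set.InjOn (fun e : Sym2 V => c (e.map f)) (edgesIn G W₂ : Set (Sym2 V)) := by
    intro a ha b hb hab
    simp only at hab
    rcases Cyc.edge_cases G W₂ W₁ q k m P hP a ha with ha' | ⟨i, j, hj, rfl⟩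
    · rcases Cyc.edge_cases G W₂ W₁ q k m P hP b hb with hb' | ⟨i', j', hj', rfl⟩
      · rw [hfW0 a ha', hfW0 b hb'] at hab
        exact hf₀' ha' hb' hab
      · exfalso
        obtain ⟨hl, hcol⟩ := hear i' j' hj'
        rw [hcol, hfW0 a ha'] at hab
        apply hw4 i' j' hl
        rw [← hab]
        exact hF a ha'
    · obtain ⟨hl, hcol⟩ := hear i j hj
      rcases Cyc.edge_cases G W₂ W₁ q k m P hP b hb with hb' | ⟨i', j', hj', rfl⟩
      · exfalso
        rw [hcol, hfW0 b hb'] at hab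
        apply hw4 i j hl
        rw [hab]
        exact hF b hb'
      · obtain ⟨hl', hcol'⟩ := hear i' j' hj'
        rw [hcol, hcol'] at hab
        obtain ⟨rfl, rfl⟩ := hw3 i j hl i' j' hl' hab
        rfl
  refine ⟨f, w, hf, hfW, hinj, ?_, hw1, ?_, fun i j hj => hfc i i.isLt j hj⟩
  · intro e he he'
    rcases Cyc.edge_cases G W₂ W₁ q k m P hP e he with h | ⟨i, j, hj, rfl⟩
    · exact absurd h he'
    · obtain ⟨hl, hcol⟩ := hear i j hj
      rw [hcol]
      exact hw4 i j hl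
  · intro i
    rw [hfW _ (hP.start i), hfW _ (hP.stop i)]
    exact hw2 i

end Pool.Agent.Lib.MP_b1acb3_co.One
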