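import Pool.Agent.Lib.MP_b1acb3_co.One.Stmts
import Pool.Agent.Lib.MP_b1acb3_co.Leaf.Split
import Pool.Agent.Lib.MP_b1acb3_co.Leaf.HandV
import Pool.Agent.Lib.MP_b1acb3_co.Leaf.Even

/-!
Module End: rainbow copies in labelled colourings.
-/

namespace Pool.Agent.Lib.MP_b1acb3_co.One

open Finset Uni Leaf

namespace ModEnd

theorem upd_inj {V X : Type} [DecidableEq V] {f : V → X} (hf : Function.Injective f) (b : V)
    (a : X) (ha : ∀ v, f v ≠ a) : Function.Injective (Function.update f b a) := by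
  intro x y hxy
  by_cases hx : x = b <;> by_cases hy : y = b
  · rw [hx, hy]
  · subst hx
    rw [Function.update_self, Function.update_of_ne hy] at hxy
    exact absurd hxy.symm (ha y)
  · subst hy
    rw [Function.update_self, Function.update_of_ne hx] at hxy
    exact absurd hxy (ha x)
  · rw [Function.update_of_ne hx, Function.update_of_ne hy] at hxy
    exact hf hxy

theorem exists_free {V : Type} [Fintype V] {n : ℕ} (Bad : Finset (Fin n))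
    (hBad : 10 * Bad.card ≤ n) (hn : 2 * Fintype.card V + 1 ≤ n) (f : V → Fin n) :
    ∃ a, a ∉ Bad ∧ ∀ v, f v ≠ a := by
  classical
  have h1 : (Bad ∪ univ.image f).card < (univ : Finset (Fin n)).card := by
    rw [card_univ, Fintype.card_fin]
    have h2 := card_union_le Bad (univ.image f)
    have h3 : (univ.image f).card ≤ Fintype.card V := card_image_le
    omega
  obtain ⟨a, _, ha⟩ := exists_mem_notMem_of_card_lt_card h1
  rw [mem_union, not_or] at ha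
  exact ⟨a, ha.1, fun v hv => ha.2 (mem_image.2 ⟨v, mem_univ _, hv⟩)⟩

theorem Lab_mono {n K r : ℕ} {c : Sym2 (Fin n) → Fin K} {Z : Finset (Fin K)}
    {τ : Fin K → Fin r → ZMod 2} {lam : Fin n → Fin r → ZMod 2} {ξ ξ' : ℝ}
    (h : Lab c Z τ lam ξ) (hξ : ξ ≤ ξ') : Lab c Z τ lam ξ' :=
  ⟨fun y a ha => (h.lab y a ha).trans (mul_le_mul_of_nonneg_right hξ (by positivity)), h.span⟩

/-- The state of the construction. -/
structure Sta {V : Type} [Fintype V] {n K r : ℕ} (c : Sym2 (Fin n) → Fin K) (lam : Fin n → Fin r → ZMod 2)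
    (t' : Fin K → Fin r → ZMod 2) (G : SimpleGraph V) (W : Finset V) (C : Finset (Fin K))
    (O : Finset V) (f₀ : V → Fin n) (W₂ W₁ : Finset V) (q k : ℕ) (m : Fin q → ℕ)
    (P : Fin q → ℕ → V) (m' : ℕ) (P' : ℕ → V) (f : V → Fin n) : Prop where
  stt : Stt G W W₂ W₁ q k m P m' P'
  inj : Function.Injective f
  injOn : Set.InjOn (fun e : Sym2 V => c (e.map f)) (edgesIn G W₁ : Set (Sym2 V))
  lab : ∀ u v, s(u, v) ∈ edgesIn G W₁ → lam (f u) + lam (f v) = t' (c s(f u, f v))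
  col : ∀ a, (∃ e ∈ edgesIn G W₁, c (e.map f) = a) ↔ a ∈ C
  odd : oddIn G W W₁ = O
  fO : ∀ v ∈ O, f v = f₀ v

section

variable {V : Type} [Fintype V] {n K r : ℕ} {c : Sym2 (Fin n) → Fin K}
  {lam : Fin n → Fin r → ZMod 2} {t' : Fin K → Fin r → ZMod 2} {G : SimpleGraph V}
  {W : Finset V} {C : Finset (Fin K)} {O : Finset V} {f₀ : V → Fin n} {W₂ W₁ : Finset V}
  {q k : ℕ} {m : Fin q → ℕ} {P : Fin q → ℕ → V} {m' : ℕ} {P' : ℕ → V} {f : V → Fin n}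

theorem map_eq {f g : V → Fin n} (h : ∀ v ∈ W₁, g v = f v) {e : Sym2 V}
    (he : e ∈ edgesIn G W₁) : e.map g = e.map f :=
  map_congr_of e g f (fun x hx => h x (((mem_edgesIn G W₁ e).1 he).2 x hx))

theorem Sta.cut (hCut : StCut) (hk : 1 ≤ k)
    (h : Sta c lam t' G W C O f₀ W₂ W₁ q k m P m' P' f) (hm : 2 * k + 1 ≤ m') (a : Fin n)
    (ha : ∀ v, f v ≠ a) :
    ∃ (W₂' W₁' : Finset V) (m₁ : Fin (q + 1) → ℕ) (P₁ : Fin (q + 1) → ℕ → V) (f' : V → Fin n),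
      Sta c lam t' G W C O f₀ W₂' W₁' (q + 1) k m₁ P₁ (m' - (k + 1)) (fun j => P' (k + 1 + j))
        f' ∧ f' (P' (k + 1)) = a ∧ f' (P' (k + 1 + (m' - (k + 1) + 1))) = f (P' (m' + 1)) := by
  classical
  obtain ⟨W₂', W₁', m₁, P₁, hS, hb, -, hsub, -, hE, -, hodd⟩ :=
    hCut V G W W₂ W₁ q k m P m' P' 0 hk (Nat.zero_le _) hm h.stt
  have hE' := hE rfl
  have hfW : ∀ v ∈ W₁, Function.update f (P' (k + 1)) a v = f v := by
    intro v hv
    apply Function.update_of_ne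
    rintro rfl
    exact hb hv
  refine ⟨W₂', W₁', m₁, P₁, Function.update f (P' (k + 1)) a, ⟨hS, upd_inj h.inj _ _ ha, ?_, ?_,
    ?_, hodd.trans h.odd, ?_⟩, Function.update_self _ _ _, ?_⟩
  · rw [hE']
    intro e he e' he' hee
    simp only at hee
    rw [map_eq hfW (mem_coe.1 he), map_eq hfW (mem_coe.1 he')] at hee
    exact h.injOn he he' hee
  · intro u v huv
    rw [hE'] at huv
    have h1 := ((mem_edgesIn G W₁ _).1 huv).2
    rw [hfW u (h1 u (Sym2.mem_mk_left _ _)), hfW v (h1 v (Sym2.mem_mk_right _ _))]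
    exact h.lab u v huv
  · intro b
    rw [hE', ← h.col b]
    constructor
    · rintro ⟨e, he, hee⟩
      rw [map_eq hfW he] at hee
      exact ⟨e, he, hee⟩
    · rintro ⟨e, he, hee⟩
      rw [← map_eq hfW he] at hee
      exact ⟨e, he, hee⟩
  · intro v hv
    have h1 : v ∈ W₁ := by
      rw [← h.odd, mem_oddIn] at hv
      exact hv.1
    rw [hfW v h1, h.fO v hv]
  · have e1 : k + 1 + (m' - (k + 1) + 1) = m' + 1 := by omega
    rw [e1]
    exact hfW _ h.stt.stop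

theorem Sta.rev (hRev : StRev) (hk : 1 ≤ k)
    (h : Sta c lam t' G W C O f₀ W₂ W₁ q k m P m' P' f) :
    Sta c lam t' G W C O f₀ W₂ W₁ q k m P m' (fun j => P' (m' + 1 - j)) f :=
  ⟨hRev V G W W₂ W₁ q k m P m' P' hk h.stt, h.inj, h.injOn, h.lab, h.col, h.odd, h.fO⟩

/-- The handshake identity. -/
theorem ident (hJ : StJoin) (hk : 1 ≤ k) {g : V → Fin n}
    (h : Sta c lam t' G W C O f₀ W₂ W₁ q k m P m' P' g)
    (hfg : ∀ v ∈ W₁, f v = g v)
    (hinj : Set.InjOn (fun e : Sym2 V => c (e.map f)) (edgesIn G W₂ : Set (Sym2 V)))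
    (w : Fin q → List (Fin K)) (hlen : ∀ i, (w i).length = m i + 1)
    (hcol : ∀ (i : Fin q) (j : ℕ) (hj : j < (w i).length),
      c s(f (P i j), f (P i (j + 1))) = (w i)[j])
    (hker : ∀ i, lam (f (P i (m i + 1))) = lam (f (P i 0)) + ((w i).map t').sum) :
    ∑ a ∈ (edgesIn G W₂).image (fun e => c (e.map f)), t' a +
      (lam (f (P' 0)) + lam (f (P' (m' + 1)))) = ∑ v ∈ O, lam (f₀ v) := by
  classical
  have hS := h.stt
  have h1 : ∑ a ∈ (edgesIn G W₂).image (fun e => c (e.map f)), t' a =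
      ∑ e ∈ edgesIn G W₁, esum (fun v => lam (f v)) e +
        ∑ j : Fin q, (lam (f (P j 0)) + lam (f (P j (m j + 1)))) := by
    rw [sum_image hinj, ModEven.sum_split hk hS.ears]
    congr 1
    · refine sum_congr rfl fun e he => ?_
      rw [map_eq hfg he]
      induction e using Sym2.inductionOn with
      | hf a b =>
        have e1 := h.lab a b he
        rw [esum_mk]
        have e2 := ((mem_edgesIn G W₁ _).1 he).2
        change t' (c s(g a, g b)) = lam (f a) + lam (f b)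
        rw [hfg a (e2 a (Sym2.mem_mk_left _ _)), hfg b (e2 b (Sym2.mem_mk_right _ _)), e1]
    · refine sum_congr rfl fun j _ => ?_
      rw [hker j, ← add_assoc, ModEven.dbl, zero_add]
      rw [← ModEven.sum_list t' (w j) (fun t => t' (c ((s(P j t,
        P j (t + 1)) : Sym2 V).map f)))]
      · rw [hlen j]
      · intro t ht
        have e4 := hcol j t ht
        rw [← e4]
        rfl
  obtain ⟨m₁, P₁, hEars, hcast, hm₁, hP₁⟩ := hJ V G W W₂ W₁ q k m P m' P' hk hS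
  have h2 := thmHandV V G W W₁ (q + 1) k m₁ P₁ r (fun v => lam (f v)) hk hEars
  rw [Fin.sum_univ_castSucc, hm₁, hP₁] at h2
  have h3 : ∑ j : Fin q, (lam (f (P₁ j.castSucc 0)) +
      lam (f (P₁ j.castSucc (m₁ j.castSucc + 1)))) =
      ∑ j : Fin q, (lam (f (P j 0)) + lam (f (P j (m j + 1)))) := by
    refine sum_congr rfl fun j _ => ?_
    rw [(hcast j).1, (hcast j).2]
  rw [h3, h.odd] at h2
  rw [h1, add_assoc, h2]
  refine sum_congr rfl fun v hv => ?_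
  have h4 : v ∈ W₁ := by
    have hv' := hv
    rw [← h.odd, mem_oddIn] at hv'
    exact hv'.1
  rw [hfg v h4, h.fO v hv]

/-- Threading. -/
theorem Sta.thread {z : ℕ}
    (hT : ∀ (W W₂ W₁ : Finset V) (q : ℕ) (m : Fin q → ℕ) (P : Fin q → ℕ → V) (m' : ℕ)
      (P' : ℕ → V), Stt G W W₂ W₁ q k m P m' P' → ∀ f : V → Fin n, Function.Injective f →
      Set.InjOn (fun e : Sym2 V => c (e.map f)) (edgesIn G W₁ : Set (Sym2 V)) →
      (∀ u v, s(u, v) ∈ edgesIn G W₁ → lam (f u) + lam (f v) = t' (c s(f u, f v))) →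
      ∀ Z' : Finset (Fin K), Z'.card ≤ z → (∀ e ∈ edgesIn G W₁, c (e.map f) ∉ Z') →
      Z'.card * (k + 2) + 2 * k + 2 ≤ m' →
      ∃ (W₂' W₁' : Finset V) (m₁ : Fin (q + Z'.card) → ℕ) (P₁ : Fin (q + Z'.card) → ℕ → V)
        (g : V → Fin n),
        Stt G W W₂' W₁' (q + Z'.card) k m₁ P₁ (m' - Z'.card * (k + 2))
          (fun j => P' (Z'.card * (k + 2) + j)) ∧
        Function.Injective g ∧
        Set.InjOn (fun e : Sym2 V => c (e.map g)) (edgesIn G W₁' : Set (Sym2 V)) ∧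
        (∀ u v, s(u, v) ∈ edgesIn G W₁' → lam (g u) + lam (g v) = t' (c s(g u, g v))) ∧
        (∀ a, (∃ e ∈ edgesIn G W₁', c (e.map g) = a) ↔
          (∃ e ∈ edgesIn G W₁, c (e.map f) = a) ∨ a ∈ Z') ∧
        W₁ ⊆ W₁' ∧ (∀ v ∈ W₁, g v = f v) ∧ oddIn G W W₁' = oddIn G W W₁)
    (h : Sta c lam t' G W C O f₀ W₂ W₁ q k m P m' P' f) (Z' : Finset (Fin K))
    (hZ : Z'.card ≤ z) (hZC : Disjoint C Z') (hm : Z'.card * (k + 2) + 2 * k + 2 ≤ m') :
    ∃ (W₂' W₁' : Finset V) (m₁ : Fin (q + Z'.card) → ℕ) (P₁ : Fin (q + Z'.card) → ℕ → V)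
      (g : V → Fin n),
      Sta c lam t' G W (C ∪ Z') O f₀ W₂' W₁' (q + Z'.card) k m₁ P₁ (m' - Z'.card * (k + 2))
        (fun j => P' (Z'.card * (k + 2) + j)) g ∧
      g (P' (Z'.card * (k + 2) + (m' - Z'.card * (k + 2) + 1))) = f (P' (m' + 1)) := by
  obtain ⟨W₂', W₁', m₁, P₁, g, hS, hg, hgi, hgl, hgc, -, hgf, hodd⟩ :=
    hT W W₂ W₁ q m P m' P' h.stt f h.inj h.injOn h.lab Z' hZ (by
      intro e he hc
      exact (Finset.disjoint_left.1 hZC) ((h.col _).1 ⟨e, he, rfl⟩) hc) hm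
  refine ⟨W₂', W₁', m₁, P₁, g, ⟨hS, hg, hgi, hgl, ?_, hodd.trans h.odd, ?_⟩, ?_⟩
  · intro a
    rw [hgc a, h.col a, mem_union]
  · intro v hv
    have h1 : v ∈ W₁ := by
      have hv' := hv
      rw [← h.odd, mem_oddIn] at hv'
      exact hv'.1
    rw [hgf v h1, h.fO v hv]
  · have e1 : Z'.card * (k + 2) + (m' - Z'.card * (k + 2) + 1) = m' + 1 := by omega
    rw [e1]
    exact hgf _ h.stt.stop

/-- The number of edges of the small part. -/
theorem Sta.card (h : Sta c lam t' G W C O f₀ W₂ W₁ q k m P m' P' f) :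
    numEdgesIn G W₁ = C.card := by
  classical
  have h1 : (edgesIn G W₁).image (fun e => c (e.map f)) = C := by
    ext a
    rw [mem_image]
    exact h.col a
  rw [← h1, card_image_of_injOn h.injOn, card_edgesIn]

end

/-- Numerical facts. -/
theorem nums {K h q k d' N Y l : ℕ} (hN : Nums K h q k d' N Y l) :
    1000 * (h + 1) ^ 2 ≤ K ∧ 16 * h * (Y ^ 36 + 2) ≤ K ∧ Y ^ 36 < K ∧
    h + 1 + Y ^ 18 ≤ Y ^ 19 ∧
    (∀ z : ℕ, z ≤ Y ^ 36 → ∀ F : ℕ, F ≤ h + z + 1 + 2 * Y ^ 18 →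
      2 * k * (F + (q + 1 + z + 1) * k) ≤ K ∧
      2 * Y ^ 18 + (q + 1 + z + 1) * d' + z * (k + 2) + 10 * k + 10 ≤ l) := by
  have y1 := hN.y1
  have hY0 : 0 < Y := by omega
  have e0 : Y ≤ Y ^ 2 := Nat.le_self_pow (by norm_num) Y
  have p : ∀ a b : ℕ, a ≤ b → Y ^ a ≤ Y ^ b := fun a b h => Nat.pow_le_pow_right hY0 h
  have s : ∀ a b : ℕ, b = a + 1 → 10000 * Y ^ a ≤ Y ^ b := by
    rintro a b rfl
    rw [pow_succ, mul_comm]
    exact Nat.mul_le_mul_left _ y1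
  have hh := hN.hh
  have hk := hN.hk
  have hd := hN.hd
  have hq := hN.hq
  have y3 := hN.y3
  have n7 := hN.n7
  have hl : Y ^ 59 ≤ l := by
    have h1 : Y * Y ^ 59 ≤ Y * l := by
      rw [← pow_succ']
      exact y3.trans n7
    exact Nat.le_of_mul_le_mul_left h1 hY0
  have one : ∀ a : ℕ, 1 ≤ Y ^ a := fun a => Nat.one_le_pow _ _ hY0
  refine ⟨?_, ?_, ?_, ?_, ?_⟩
  · have h1 : (h + 1) ^ 2 ≤ (2 * Y ^ 2) ^ 2 := by
      apply Nat.pow_le_pow_left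
      have := one 2
      omega
    have h2 : (2 * Y ^ 2) ^ 2 = 4 * Y ^ 4 := by ring
    have h3 := s 4 5 rfl
    have h4 := p 5 60 (by norm_num)
    omega
  · have h1 : h * (Y ^ 36 + 2) ≤ Y ^ 2 * (2 * Y ^ 36) := by
      apply Nat.mul_le_mul hh
      have := s 35 36 rfl
      have := one 35
      omega
    have h2 : Y ^ 2 * (2 * Y ^ 36) = 2 * Y ^ 38 := by ring
    have h3 := s 38 39 rfl
    have h4 := p 39 60 (by norm_num)
    have h5 : 16 * h * (Y ^ 36 + 2) = 16 * (h * (Y ^ 36 + 2)) := by ring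
    omega
  · have h3 := s 36 37 rfl
    have h4 := p 37 60 (by norm_num)
    have := one 36
    omega
  · have h1 := p 2 18 (by norm_num)
    have h3 := s 18 19 rfl
    have := one 18
    omega
  · intro z hz F hF
    have a1 : z * (k + 2) ≤ 2 * Y ^ 37 := by
      have h1 : z * (k + 2) ≤ Y ^ 36 * (2 * Y) := Nat.mul_le_mul hz (by omega)
      have h2 : Y ^ 36 * (2 * Y) = 2 * Y ^ 37 := by ring
      omega
    have a2 : q + 1 + z + 1 ≤ 2 * Y ^ 36 := by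
      have h1 := s 1 2 rfl
      have h2 := p 2 36 (by norm_num)
      rw [pow_one] at h1
      omega
    have a3 : (q + 1 + z + 1) * d' ≤ 2 * Y ^ 37 := by
      have h1 : (q + 1 + z + 1) * d' ≤ 2 * Y ^ 36 * Y := Nat.mul_le_mul a2 hd
      have h2 : 2 * Y ^ 36 * Y = 2 * Y ^ 37 := by ring
      omega
    have a4 : (q + 1 + z + 1) * k ≤ 2 * Y ^ 37 := by
      have h1 : (q + 1 + z + 1) * k ≤ 2 * Y ^ 36 * Y := Nat.mul_le_mul a2 hk
      have h2 : 2 * Y ^ 36 * Y = 2 * Y ^ 37 := by ring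
      omega
    have b1 := p 18 37 (by norm_num)
    have b2 := p 2 37 (by norm_num)
    have b3 := p 36 37 (by norm_num)
    have b4 := one 37
    have b5 := p 1 37 (by norm_num)
    rw [pow_one] at b5
    have b6 := s 37 38 rfl
    have b7 := p 38 59 (by norm_num)
    constructor
    · have h1 : F + (q + 1 + z + 1) * k ≤ 10 * Y ^ 37 := by omega
      have h2 : 2 * k * (F + (q + 1 + z + 1) * k) ≤ 2 * Y * (10 * Y ^ 37) :=
        Nat.mul_le_mul (Nat.mul_le_mul_left _ hk) h1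
      have h3 : 2 * Y * (10 * Y ^ 37) = 20 * Y ^ 38 := by ring
      have h4 := s 38 39 rfl
      have h5 := p 39 60 (by norm_num)
      omega
    · omega

/-- Two sets that fill most of the same class meet. -/
theorem overlap {n K r : ℕ} (hK : 0 < K) {lam : Fin n → Fin r → ZMod 2} {κ ϑ : ℝ}
    (hκ : κ = 1 / (200 * K)) (hϑ : ϑ ≤ 1 / (4 * K)) (h2r : 2 ^ r ≤ K) {t : Fin r → ZMod 2}
    {R R₁ S : Finset (Fin n)} {t₀ : Fin r → ZMod 2}
    (hcls : |mu (cls lam t) - 1 / 2 ^ r| ≤ κ)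
    (h1 : 24 / 25 ≤ 2 ^ r * mu (R₁ ∩ cls lam t₀))
    (hG : mu (R₁ ∩ cls lam t₀) ≤ mu (R ∩ cls lam t) + κ)
    (h2 : 24 / 25 ≤ 2 ^ r * mu (S ∩ cls lam t)) : ϑ < mu (R ∩ S) := by
  have hKR : (0 : ℝ) < K := by exact_mod_cast hK
  have hp : (0 : ℝ) < 2 ^ r := by positivity
  have hx : 1 / (K : ℝ) ≤ 1 / 2 ^ r := by
    apply one_div_le_one_div_of_le hp
    exact_mod_cast h2r
  have e1 : 24 / 25 * (1 / (2 : ℝ) ^ r) ≤ mu (R₁ ∩ cls lam t₀) := by
    rw [mul_one_div, div_le_iff₀ hp]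
    linarith
  have e2 : 24 / 25 * (1 / (2 : ℝ) ^ r) ≤ mu (S ∩ cls lam t) := by
    rw [mul_one_div, div_le_iff₀ hp]
    linarith
  have e3 := mu_union_add_inter (R ∩ cls lam t) (S ∩ cls lam t)
  have e4 : mu ((R ∩ cls lam t) ∪ (S ∩ cls lam t)) ≤ mu (cls lam t) :=
    mu_mono (union_subset inter_subset_right inter_subset_right)
  have e5 : mu ((R ∩ cls lam t) ∩ (S ∩ cls lam t)) ≤ mu (R ∩ S) := by
    apply mu_mono
    intro y hy
    rw [mem_inter, mem_inter, mem_inter] at hy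
    exact mem_inter.2 ⟨hy.1.1, hy.2.1⟩
  have e6 := (abs_le.1 hcls).2
  have e7 : κ = 1 / 200 * (1 / K) := by rw [hκ]; field_simp
  have e8 : 1 / (4 * (K : ℝ)) = 1 / 4 * (1 / K) := by field_simp
  have e9 : 0 < 1 / (K : ℝ) := by positivity
  rw [e8] at hϑ
  rw [e7] at e6 hG
  linarith

/-- The last step. -/
theorem finish (hJ : StJoin) {V : Type} [Fintype V] {G : SimpleGraph V} {n K r : ℕ}
    (hKK : K = numEdges G + 1)
    {c : Sym2 (Fin n) → Fin K} {lam : Fin n → Fin r → ZMod 2} {t' : Fin K → Fin r → ZMod 2}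
    {W : Finset V} {C : Finset (Fin K)} {W₂ W₁ : Finset V} {O : Finset V} {f₀ : V → Fin n}
    {q k : ℕ} {m : Fin q → ℕ} {P : Fin q → ℕ → V} {m' : ℕ} {P' : ℕ → V} {g : V → Fin n}
    (hk : 1 ≤ k) (hWe : numEdgesIn G W = numEdges G)
    (h : Sta c lam t' G W C O f₀ W₂ W₁ q k m P m' P' g)
    {ϑ κ : ℝ} {Z : Finset (Fin K)} {τ : Fin K → Fin r → ZMod 2}
    (hκ : κ = 1 / (200 * K)) (hϑ4 : ϑ ≤ 1 / (4 * K)) (h2r : 2 ^ r ≤ K)
    (ht' : ∀ a, a ∉ Z → t' a = τ a) {j₀ : Fin K} (hZC : Z ⊆ insert j₀ C) (hj₀ : j₀ ∉ C)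
    (hpick : t' j₀ + ∑ v ∈ O, lam (f₀ v) = ∑ a, t' a)
    (hcls : ∀ t, |mu (cls lam t) - 1 / 2 ^ r| ≤ κ)
    (hgrow : ∀ (x : Fin n) (Q Q' : Finset (Fin K)) (t : Fin r → ZMod 2), Disjoint Q Q' →
      Disjoint Q' Z →
      mu (RS c ϑ x Q ∩ cls lam t) ≤ mu (RS c ϑ x (Q ∪ Q') ∩ cls lam (t + ∑ b ∈ Q', τ b)) + κ)
    {a₁ a₂ : Fin n} (ha₁ : g (P' 0) = a₁) (ha₂ : g (P' (m' + 1)) = a₂)
    {Q₁ Q₂ F : Finset (Fin K)} (hF : F = insert j₀ (C ∪ (Q₁ ∪ Q₂)))
    (hQ₁ : Disjoint Q₁ (insert j₀ C)) (hQ₂ : Disjoint Q₂ (insert j₀ C ∪ Q₁))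
    (hQ₁c : 24 / 25 ≤ 2 ^ r * mu (RS c ϑ a₁ Q₁ ∩ cls lam (lam a₁ + ∑ b ∈ Q₁, τ b)))
    (hQ₂c : 24 / 25 ≤ 2 ^ r * mu (RS c ϑ a₂ Q₂ ∩ cls lam (lam a₂ + ∑ b ∈ Q₂, τ b)))
    {f : V → Fin n} {w : Fin q → List (Fin K)} (hfg : ∀ v ∈ W₁, f v = g v)
    (hinj : Set.InjOn (fun e : Sym2 V => c (e.map f)) (edgesIn G W₂ : Set (Sym2 V)))
    (hnew : ∀ e ∈ edgesIn G W₂, e ∉ edgesIn G W₁ → c (e.map f) ∉ F)
    (hlen : ∀ i, (w i).length = m i + 1)
    (hcol : ∀ (i : Fin q) (j : ℕ) (hj : j < (w i).length),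
      c s(f (P i j), f (P i (j + 1))) = (w i)[j])
    (hker : ∀ i, (∀ a ∈ w i, a ∉ Z) → 2 ≤ (w i).length → (w i).length ≤ K →
      lam (f (P i (m i + 1))) = lam (f (P i 0)) + ((w i).map τ).sum) :
    ∃ Q : Finset (Fin K), Q.card = m' + 1 ∧ (∀ e ∈ edgesIn G W₂, c (e.map f) ∉ Q) ∧
      f (P' (m' + 1)) ∈ RS c ϑ (f (P' 0)) Q := by
  classical
  have hS := h.stt
  have hsub : edgesIn G W₁ ⊆ edgesIn G W₂ := by
    intro e he
    rw [mem_edgesIn] at he ⊢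
    exact ⟨he.1, fun x hx => hS.ears.sub (he.2 x hx)⟩
  set E : Finset (Fin K) := (edgesIn G W₂).image (fun e => c (e.map f)) with hE
  have hEcard : E.card = numEdgesIn G W₂ := by
    rw [hE, card_image_of_injOn hinj, card_edgesIn]
  have hc₂ := (Cyc.count_ears V G W₂ W₁ q k _ _ hk hS.ears).1
  have hc₁ := (Cyc.count_ears V G W W₂ 1 k _ _ hk hS.last).1
  rw [Fin.sum_univ_one, hWe] at hc₁
  -- colours
  have hCE : C ⊆ E := by
    intro a ha
    obtain ⟨e, he, hee⟩ := (h.col a).2 ha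
    rw [hE, mem_image]
    refine ⟨e, hsub he, ?_⟩
    rw [map_eq hfg he]
    exact hee
  have hFE : ∀ a ∈ F, a ∉ C → a ∉ E := by
    intro a haF haC haE
    rw [hE, mem_image] at haE
    obtain ⟨e, he, hee⟩ := haE
    by_cases he₁ : e ∈ edgesIn G W₁
    · apply haC
      rw [← h.col a]
      refine ⟨e, he₁, ?_⟩
      rw [← map_eq hfg he₁]
      exact hee
    · apply hnew e he he₁
      have e2 : c (e.map f) = a := hee
      rw [e2]
      exact haF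
  have hZF : Z ⊆ F := by
    intro a ha
    rw [hF, mem_insert, mem_union]
    rcases mem_insert.1 (hZC ha) with h1 | h1
    · exact Or.inl h1
    · exact Or.inr (Or.inl h1)
  have hj₀E : j₀ ∉ E := hFE j₀ (by rw [hF]; exact mem_insert_self _ _) hj₀
  set Q : Finset (Fin K) := Eᶜ.erase j₀ with hQ
  have hQcard : Q.card = m' + 1 := by
    rw [hQ, card_erase_of_mem (mem_compl.2 hj₀E), card_compl, Fintype.card_fin, hEcard]
    omega
  have hQmem : ∀ a, a ∈ Q ↔ a ≠ j₀ ∧ a ∉ E := by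
    intro a
    rw [hQ, mem_erase, mem_compl]
  have hQ₁Q : Q₁ ⊆ Q := by
    intro a ha
    have h1 := Finset.disjoint_left.1 hQ₁ ha
    rw [mem_insert, not_or] at h1
    rw [hQmem]
    refine ⟨h1.1, hFE a ?_ h1.2⟩
    rw [hF]
    exact mem_insert_of_mem (mem_union_right _ (mem_union_left _ ha))
  have hQ₂Q : Q₂ ⊆ Q := by
    intro a ha
    have h1 := Finset.disjoint_left.1 hQ₂ ha
    rw [mem_union, not_or, mem_insert, not_or] at h1
    rw [hQmem]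
    refine ⟨h1.1.1, hFE a ?_ h1.1.2⟩
    rw [hF]
    exact mem_insert_of_mem (mem_union_right _ (mem_union_right _ ha))
  have hQ₁₂ : Disjoint Q₁ Q₂ := by
    rw [Finset.disjoint_right]
    intro a ha ha'
    exact Finset.disjoint_left.1 hQ₂ ha (mem_union_right _ ha')
  set G' : Finset (Fin K) := Q \ (Q₁ ∪ Q₂) with hG'
  have hQZ : ∀ a ∈ Q, a ∉ Z := by
    intro a ha haZ
    rw [hQmem] at ha
    rcases mem_insert.1 (hZC haZ) with h1 | h1
    · exact ha.1 h1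
    · exact ha.2 (hCE h1)
  have hG'Z : Disjoint G' Z := by
    rw [Finset.disjoint_left]
    intro a ha
    exact hQZ a (mem_sdiff.1 ha).1
  have hQ₁G' : Disjoint Q₁ G' := by
    rw [Finset.disjoint_left]
    intro a ha ha'
    exact (mem_sdiff.1 ha').2 (mem_union_left _ ha)
  have hQ₂G' : Disjoint Q₂ G' := by
    rw [Finset.disjoint_left]
    intro a ha ha'
    exact (mem_sdiff.1 ha').2 (mem_union_right _ ha)
  have hQeq : Q = (Q₁ ∪ G') ∪ Q₂ := by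
    ext a
    rw [mem_union, mem_union, hG', mem_sdiff, mem_union]
    constructor
    · intro ha
      by_cases h1 : a ∈ Q₁
      · exact Or.inl (Or.inl h1)
      · by_cases h2 : a ∈ Q₂
        · exact Or.inr h2
        · exact Or.inl (Or.inr ⟨ha, by rw [not_or]; exact ⟨h1, h2⟩⟩)
    · rintro ((h1 | h1) | h1)
      · exact hQ₁Q h1
      · exact h1.1
      · exact hQ₂Q h1
  have hdisj : Disjoint (Q₁ ∪ G') Q₂ := by
    rw [disjoint_union_left]
    exact ⟨hQ₁₂, hQ₂G'.symm⟩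
  -- the identity
  have hedge : ∀ (i : Fin q) (j : ℕ), j ≤ m i → s(P i j, P i (j + 1)) ∈ edgesIn G W₂ ∧
      s(P i j, P i (j + 1)) ∉ edgesIn G W₁ := by
    intro i j hj
    have hmi := hS.ears.long i
    constructor
    · rw [mem_edgesIn]
      refine ⟨hS.ears.adj i j hj, ?_⟩
      intro x hx
      rw [Sym2.mem_iff] at hx
      rcases hx with rfl | rfl
      · exact Cyc.ears_mem hS.ears i j (by omega)
      · exact Cyc.ears_mem hS.ears i (j + 1) (by omega)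
    · intro he
      rw [mem_edgesIn] at he
      rcases Nat.eq_zero_or_pos j with h0 | h0
      · have h1 := he.2 (P i (j + 1)) (Sym2.mem_mk_right _ _)
        exact (hS.ears.inner i (j + 1) (by omega) (by omega)).2 h1
      · have h1 := he.2 (P i j) (Sym2.mem_mk_left _ _)
        exact (hS.ears.inner i j h0 hj).2 h1
  have hwZ : ∀ i, ∀ a ∈ w i, a ∉ Z := by
    intro i a ha haZ
    obtain ⟨j, hj, rfl⟩ := List.getElem_of_mem ha
    have hj' : j ≤ m i := by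
      rw [hlen i] at hj
      omega
    have h1 := hnew _ (hedge i j hj').1 (hedge i j hj').2
    apply h1
    apply hZF
    have h2 := hcol i j hj
    rw [← h2] at haZ
    exact haZ
  have hident := ident hJ hk h hfg hinj w hlen hcol (by
    intro i
    have hmi := hS.ears.long i
    have h1 : (w i).length ≤ K := by
      have e3 : m i + 1 ≤ ∑ j : Fin q, (m j + 1) :=
        Finset.single_le_sum (f := fun j : Fin q => m j + 1)
          (fun _ _ => Nat.zero_le _) (mem_univ i)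
      rw [hlen i]
      omega
    rw [hker i (hwZ i) (by rw [hlen i]; omega) h1]
    congr 2
    apply List.map_congr_left
    intro a ha
    exact (ht' a (hwZ i a ha)).symm)
  rw [← hE] at hident
  have hf0 : f (P' 0) = a₁ := by rw [hfg _ hS.start, ha₁]
  have hf1 : f (P' (m' + 1)) = a₂ := by rw [hfg _ hS.stop, ha₂]
  rw [hf0, hf1] at hident
  have hsumE : ∑ a ∈ E, t' a + (t' j₀ + ∑ a ∈ Q, t' a) = ∑ a, t' a := by
    rw [hQ, Finset.add_sum_erase _ _ (mem_compl.2 hj₀E)]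
    exact Finset.sum_add_sum_compl _ _
  have hQsum : lam a₁ + lam a₂ = ∑ a ∈ Q, t' a := by
    rw [← hident] at hpick
    rw [← hpick] at hsumE
    have e1 : ∑ a ∈ E, t' a + t' j₀ + ∑ a ∈ Q, t' a =
        ∑ a ∈ E, t' a + t' j₀ + (lam a₁ + lam a₂) := by
      rw [add_assoc, hsumE]
      abel
    exact (add_left_cancel e1).symm
  have hQτ : ∑ a ∈ Q, t' a = ∑ a ∈ Q₁, τ a + ∑ a ∈ G', τ a + ∑ a ∈ Q₂, τ a := by
    rw [← sum_union hQ₁G', ← sum_union hdisj, ← hQeq]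
    exact sum_congr rfl fun a ha => ht' a (hQZ a ha)
  have hlab : lam a₂ + ∑ b ∈ Q₂, τ b = lam a₁ + ∑ b ∈ Q₁, τ b + ∑ b ∈ G', τ b := by
    have e1 : lam a₂ = lam a₁ + (∑ a ∈ Q₁, τ a + ∑ a ∈ G', τ a + ∑ a ∈ Q₂, τ a) := by
      rw [← hQτ, ← hQsum, ← add_assoc, ModEven.dbl, zero_add]
    rw [e1]
    calc lam a₁ + (∑ a ∈ Q₁, τ a + ∑ a ∈ G', τ a + ∑ a ∈ Q₂, τ a) + ∑ b ∈ Q₂, τ b
        = lam a₁ + ∑ b ∈ Q₁, τ b + ∑ b ∈ G', τ b + (∑ b ∈ Q₂, τ b + ∑ b ∈ Q₂, τ b) := by abel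
      _ = _ := by rw [ModEven.dbl, add_zero]
  refine ⟨Q, hQcard, ?_, ?_⟩
  · intro e he hq
    rw [hQmem] at hq
    apply hq.2
    rw [hE, mem_image]
    exact ⟨e, he, rfl⟩
  · rw [hf0, hf1, hQeq]
    apply RS_comp hdisj
    rw [hlab] at hQ₂c
    exact overlap (by omega) hκ hϑ4 h2r (hcls _) hQ₁c
      (hgrow a₁ Q₁ G' (lam a₁ + ∑ b ∈ Q₁, τ b) hQ₁G' hG'Z) hQ₂c

end ModEnd

theorem thmEnd (hL : StLastR) (hE : StEars3) (hC : StClassN) (hK : StRank) (hZ : StKerZ)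
    (hG : StGrow) (hP : StPick) (hCut : StCut) (hRev : StRev) (hJ : StJoin) (hT : StThread) :
    StEnd := by
  classical
  intro V _ G W W₁ q k d' N Y m P i r hW hk hPe hWe hExc hN
  obtain ⟨num1, num2, num3, num4, num5⟩ := ModEnd.nums hN
  have hch := hN.ch
  obtain ⟨W₂, hP₂, hP₁⟩ := thmSplit V G W W₁ q k m P i hk hPe
  set K := numEdges G + 1 with hKdef
  have hK0 : 0 < K := Nat.succ_pos _
  have hKR : (0 : ℝ) < K := by exact_mod_cast hK0
  have hκ0 : (0 : ℝ) < 1 / (200 * K) := by positivity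
  obtain ⟨ϑ₁, hϑ₁, hG'⟩ := hG K (1 / (200 * K)) hK0 hκ0
  refine ⟨min ϑ₁ (1 / (4 * K)), lt_min hϑ₁ (by positivity), ?_⟩
  intro ϑ hϑ hϑle
  obtain ⟨ξ₁, hξ₁, δ₁, hδ₁, n₁, hG''⟩ := hG' ϑ hϑ (hϑle.trans (min_le_left _ _))
  have hϑ4 : ϑ ≤ 1 / (4 * K) := hϑle.trans (min_le_right _ _)
  obtain ⟨ξ₂, hξ₂, δ₂, hδ₂, n₂, hC'⟩ := hC K (1 / (200 * K)) hK0 hκ0
  obtain ⟨ξ₃, hξ₃, δ₃, hδ₃, n₃, hK'⟩ := hK K hK0
  obtain ⟨ξ₄, hξ₄, δ₄, hδ₄, n₄, hZ'⟩ := hZ K hK0
  obtain ⟨κ', hκ', ξ₅, hξ₅, δ₅, hδ₅, n₅, hP'⟩ := hP V G W W₁ (q + 1) k (Y ^ 36) m P hk hPe hWe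
    hExc num1 num2 num3
  obtain ⟨δ₆, hδ₆, n₆, hE'⟩ := hE V G k d' K hK0 hch
  obtain ⟨δ₇, hδ₇, n₇, hL'⟩ := hL V G ϑ hϑ
  obtain ⟨n₈, hT'⟩ := hT V G K (Y ^ 36) k κ' hκ' hk
  refine ⟨min (min (min ξ₁ ξ₂) (min ξ₃ ξ₄)) ξ₅,
    lt_min (lt_min (lt_min hξ₁ hξ₂) (lt_min hξ₃ hξ₄)) hξ₅,
    min (min (min δ₁ δ₂) (min δ₃ δ₄)) (min (min δ₅ δ₆) δ₇),
    lt_min (lt_min (lt_min hδ₁ hδ₂) (lt_min hδ₃ hδ₄)) (lt_min (lt_min hδ₅ hδ₆) hδ₇),
    n₁ + n₂ + n₃ + n₄ + n₅ + n₆ + n₇ + n₈ + 2 * Fintype.card V + 1, ?_⟩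
  intro n hn c B hB Z τ lam hZc hLab hFill
  have hB₁ : Env c B δ₁ := hB.mono ((min_le_left _ _).trans ((min_le_left _ _).trans
    (min_le_left _ _)))
  have hB₂ : Env c B δ₂ := hB.mono ((min_le_left _ _).trans ((min_le_left _ _).trans
    (min_le_right _ _)))
  have hB₃ : Env c B δ₃ := hB.mono ((min_le_left _ _).trans ((min_le_right _ _).trans
    (min_le_left _ _)))
  have hB₄ : Env c B δ₄ := hB.mono ((min_le_left _ _).trans ((min_le_right _ _).trans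
    (min_le_right _ _)))
  have hB₅ : Env c B δ₅ := hB.mono ((min_le_right _ _).trans ((min_le_left _ _).trans
    (min_le_left _ _)))
  have hB₆ : Env c B δ₆ := hB.mono ((min_le_right _ _).trans ((min_le_left _ _).trans
    (min_le_right _ _)))
  have hB₇ : Env c B δ₇ := hB.mono ((min_le_right _ _).trans (min_le_right _ _))
  have hLab₁ : Lab c Z τ lam ξ₁ := ModEnd.Lab_mono hLab ((min_le_left _ _).trans
    ((min_le_left _ _).trans (min_le_left _ _)))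
  have hLab₂ : Lab c Z τ lam ξ₂ := ModEnd.Lab_mono hLab ((min_le_left _ _).trans
    ((min_le_left _ _).trans (min_le_right _ _)))
  have hLab₃ : Lab c Z τ lam ξ₃ := ModEnd.Lab_mono hLab ((min_le_left _ _).trans
    ((min_le_right _ _).trans (min_le_left _ _)))
  have hLab₄ : Lab c Z τ lam ξ₄ := ModEnd.Lab_mono hLab ((min_le_left _ _).trans
    ((min_le_right _ _).trans (min_le_right _ _)))
  have hLab₅ : Lab c Z τ lam ξ₅ := ModEnd.Lab_mono hLab (min_le_right _ _)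
  have h2r : 2 ^ r ≤ K := hK' n (by omega) c B hB₃ r Z τ lam hLab₃ (by omega)
  have hcls := hC' n (by omega) c B hB₂ r Z τ lam hLab₂
  obtain ⟨t', j₀, f₀, ht', hcnt, hf₀, hf₀i, hf₀l, hf₀j, hpick⟩ :=
    hP' n (by omega) c B hB₅ r Z τ lam hZc hLab₅
  obtain ⟨Bad, hBad, hFillA⟩ := hFill
  have hnV : 2 * Fintype.card V + 1 ≤ n := by omega
  -- the colours of the small part
  set C₀ : Finset (Fin K) := (edgesIn G W₁).image (fun e => c (e.map f₀)) with hC₀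
  have s0 : ModEnd.Sta c lam t' G W C₀ (oddIn G W W₁) f₀ W₂ W₁ q k
      (fun j => m (i.succAbove j)) (fun j => P (i.succAbove j)) (m i) (P i) f₀ :=
    ⟨⟨hP₂, hP₁, hPe.start i, hPe.stop i⟩, hf₀, hf₀i, hf₀l, fun a => by
      rw [hC₀, mem_image], rfl, fun v _ => rfl⟩
  have hC₀card := s0.card
  have hj₀C : j₀ ∉ C₀ := by
    intro h
    obtain ⟨e, he, hee⟩ := (s0.col j₀).2 h
    exact hf₀j e he hee
  set Z' : Finset (Fin K) := Z \ insert j₀ C₀ with hZ'def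
  have hZ'card : Z'.card ≤ Y ^ 36 := (card_le_card sdiff_subset).trans hZc
  have hCZ' : Disjoint C₀ Z' := by
    rw [Finset.disjoint_left]
    intro a ha ha'
    exact (mem_sdiff.1 ha').2 (mem_insert_of_mem ha)
  have hC : (C₀ ∪ Z').card = numEdgesIn G W₁ + Z'.card := by
    rw [card_union_of_disjoint hCZ', hC₀card]
  obtain ⟨num6, num7⟩ := num5 Z'.card hZ'card (numEdgesIn G W₁ + Z'.card + 1 + 2 * Y ^ 18) le_rfl
  have hj₀C' : j₀ ∉ C₀ ∪ Z' := by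
    rw [mem_union, not_or]
    refine ⟨hj₀C, ?_⟩
    intro h
    exact (mem_sdiff.1 h).2 (mem_insert_self _ _)
  have hZC : Z ⊆ insert j₀ (C₀ ∪ Z') := by
    intro a ha
    rw [mem_insert, mem_union]
    by_cases h1 : a ∈ insert j₀ C₀
    · rcases mem_insert.1 h1 with h2 | h2
      · exact Or.inl h2
      · exact Or.inr (Or.inl h2)
    · exact Or.inr (Or.inr (mem_sdiff.2 ⟨ha, h1⟩))
  -- the second vertex
  obtain ⟨a₂, ha₂B, ha₂⟩ := ModEnd.exists_free Bad hBad hnV f₀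
  obtain ⟨Wa, Wb, ma, Pa, f₁, s1, hf₁a, -⟩ := (s0.rev hRev hk).cut hCut hk (by omega) a₂ ha₂
  obtain ⟨Wc, Wd, mb, Pb, f₂, s3, hf₂⟩ := (s1.rev hRev hk).thread
    (hT' n (by omega) c r lam t' hcnt) Z' hZ'card hCZ' (by omega)
  simp only [Nat.sub_self] at hf₂
  have hf₂' := hf₂.trans hf₁a
  obtain ⟨a₁, ha₁B, ha₁⟩ := ModEnd.exists_free Bad hBad hnV f₂
  obtain ⟨We, Wf, mc, Pc, f₃, s4, hf₃a, hf₃⟩ := s3.cut hCut hk (by omega) a₁ ha₁
  have hf₃' := hf₃.trans hf₂'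
  have hcard4 := s4.card
  -- the sets of colours
  have hY18 : (insert j₀ (C₀ ∪ Z') \ Z).card ≤ numEdgesIn G W₁ + 1 := by
    have h1 : insert j₀ (C₀ ∪ Z') \ Z ⊆ insert j₀ C₀ := by
      intro a ha
      rw [mem_sdiff, mem_insert, mem_union] at ha
      rw [mem_insert]
      rcases ha.1 with h2 | h2 | h2
      · exact Or.inl h2
      · exact Or.inr h2
      · exact absurd (mem_sdiff.1 h2).1 ha.2
    have h2 := card_le_card h1
    have h3 := card_insert_le j₀ C₀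
    omega
  obtain ⟨Q₁, -, hQ₁d, hQ₁c, hQ₁f⟩ := hFillA a₁ ha₁B (insert j₀ (C₀ ∪ Z')) hZC (by omega)
  obtain ⟨Q₂, -, hQ₂d, hQ₂c, hQ₂f⟩ := hFillA a₂ ha₂B (insert j₀ (C₀ ∪ Z') ∪ Q₁)
    (hZC.trans subset_union_left) (by
      rw [union_sdiff_distrib]
      have h1 := card_union_le (insert j₀ (C₀ ∪ Z') \ Z) (Q₁ \ Z)
      have h2 : (Q₁ \ Z).card ≤ Q₁.card := card_le_card sdiff_subset
      omega)
  set F : Finset (Fin K) := insert j₀ ((C₀ ∪ Z') ∪ (Q₁ ∪ Q₂)) with hF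
  have hFcard : F.card ≤ numEdgesIn G W₁ + Z'.card + 1 + 2 * Y ^ 18 := by
    have h1 := card_insert_le j₀ ((C₀ ∪ Z') ∪ (Q₁ ∪ Q₂))
    have h2 := card_union_le (C₀ ∪ Z') (Q₁ ∪ Q₂)
    have h3 := card_union_le Q₁ Q₂
    rw [← hF] at h1
    omega
  have hc₂ := (Cyc.count_ears V G We Wf _ k _ _ hk s4.stt.ears).1
  have hc₁ := (Cyc.count_ears V G W We 1 k _ _ hk s4.stt.last).1
  rw [Fin.sum_univ_one, hWe] at hc₁
  obtain ⟨f, w, hf, hfW, hfinj, hfnew, hwlen, hwker, hwcol⟩ := hE' n (by omega) c B hB₆ We Wf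
    _ mc Pc s4.stt.ears f₃ s4.inj s4.injOn F (by
      intro e he
      rw [hF]
      exact mem_insert_of_mem (mem_union_left _ ((s4.col _).1 ⟨e, he, rfl⟩)))
    (le_trans (Nat.mul_le_mul_left _ (by omega)) num6) (by omega)
  obtain ⟨Q, hQcard, hQnew, hQR⟩ := ModEnd.finish hJ hKdef hk hWe s4 (Z := Z) (τ := τ) (ϑ := ϑ)
    (κ := 1 / (200 * K)) rfl hϑ4 h2r ht' hZC hj₀C' hpick hcls
    (hG'' n (by omega) c B hB₁ r Z τ lam hLab₁) hf₃a hf₃' hF hQ₁d hQ₂d hQ₁f hQ₂f hfW hfinj hfnew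
    hwlen hwcol (fun i h1 h2 h3 =>
      hZ' n (by omega) c B hB₄ r Z τ lam hLab₄ (w i) _ _ h1 h2 h3 (hwker i))
  exact hL' n (by omega) c B hB₇ W We k _ _ hk hW s4.stt.last f hf hfinj Q hQcard hQnew hQR

end Pool.Agent.Lib.MP_b1acb3_co.One
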