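import Pool.Agent.Lib.MP_b1acb3_co.One.Stmts
import Pool.Agent.Lib.MP_b1acb3_co.Cyc.Final

/-!
Assembly of the positive theorem for graphs without a leaf, from the modules.
-/

namespace Pool.Agent.Lib.MP_b1acb3_co.One

open Finset Uni Leaf

namespace ModFinal1

theorem tree_univ {V : Type} [Fintype V] (G : SimpleGraph V) :
    TreeLikeOutside G (univ : Finset V) := by
  intro X hX
  exact absurd (subset_univ X) hX.2

/-- The case of rank `0`. -/
theorem forces_of_claim {V : Type} (G : SimpleGraph V) (h : Claim G 0 0) : ForcesRainbow G := by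
  obtain ⟨ξ, hξ, ε, hε, n₀, h⟩ := h
  refine ⟨ε, hε, n₀, fun n hn c hc => ?_⟩
  refine h n hn c hc ∅ (fun _ _ => 0) (fun _ _ => 0) (by simp) ⟨?_, ?_⟩
  · intro y a _
    have he : (nbr c y a).filter (fun z =>
        (fun _ _ => 0 : Fin n → Fin 0 → ZMod 2) z ≠
          (fun _ _ => 0 : Fin n → Fin 0 → ZMod 2) y +
            (fun _ _ => 0 : Fin (numEdges G + 1) → Fin 0 → ZMod 2) a) = ∅ := by
      rw [filter_eq_empty_iff]
      intro z _ hz
      exact hz (Subsingleton.elim _ _)
    rw [he, card_empty, Nat.cast_zero]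
    positivity
  · intro t
    exact ⟨∅, empty_subset _, Subsingleton.elim _ _⟩

end ModFinal1

open ModFinal1 in
theorem thmFinal1 (hS : StStep) (hNL : StNoLeaf) (hN : StNum1) : StFinal1 := by
  classical
  obtain ⟨C, hC⟩ := hN
  refine ⟨C, ?_⟩
  intro V _ G b hb hcyc hleaf hCe hno
  obtain ⟨k, d', N, Y, hk, hnum⟩ := hC b (numEdges G) hb hCe
  obtain ⟨W', W₀, hWW, hTL, hsub, hcard, hf, hdeg, hforest⟩ :=
    Cyc.graph_part V G univ b (tree_univ G) hcyc
  obtain ⟨q₀, m₀, P₀, hP₀⟩ := Cyc.decomp V G W' W₀ hsub hdeg hforest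
  obtain ⟨hc1, hc2⟩ := Cyc.count_ears V G W' W₀ q₀ 1 m₀ P₀ le_rfl hP₀
  have hsum : ∑ i, (m₀ i + 1) = ∑ i, m₀ i + q₀ := by
    rw [sum_add_distrib, sum_const, card_univ, Fintype.card_fin, smul_eq_mul, mul_one]
  have hq : q₀ ≤ 4 * b - 3 := by
    by_cases hne : W'.Nonempty
    · obtain ⟨h1, h2⟩ := hcard hne
      omega
    · rw [not_nonempty_iff_eq_empty] at hne
      rw [hne, card_empty] at hc2
      have h1 : q₀ ≤ ∑ i, m₀ i := by
        calc q₀ = ∑ _i : Fin q₀, 1 := by simp
          _ ≤ ∑ i, m₀ i := sum_le_sum (fun i _ => hP₀.long i)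
      omega
  obtain ⟨W₁, q', m, P, hW01, hq', hP, hf1⟩ := Cyc.short_ears V G W' W₀ q₀ k m₀ P₀ hk hP₀
  have hf2 : numEdgesIn G W₁ ≤ 4 * b * (k + 1) := by
    calc numEdgesIn G W₁ ≤ 4 * b + (4 * b - 3) * k :=
          hf1.trans (Nat.add_le_add hf (Nat.mul_le_mul_right _ hq))
      _ ≤ 4 * b + (4 * b) * k := by
          apply Nat.add_le_add_left
          apply Nat.mul_le_mul_right
          omega
      _ = _ := by ring
  have hcount := (Cyc.count_ears V G W' W₁ q' k m P hk hP).1
  have hall : numEdgesIn G W' = numEdges G := hNL V G W' hTL hleaf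
  obtain ⟨q, rfl⟩ : ∃ q, q' = q + 1 := by
    rcases Nat.eq_zero_or_pos q' with h0 | h0
    · exfalso
      subst h0
      rw [Finset.univ_eq_empty, Finset.sum_empty, add_zero] at hcount
      have hn := hnum (numEdgesIn G W₁) 0 0 hf2 (by omega) (by omega)
      have := hn.n5
      omega
    · exact ⟨q' - 1, by omega⟩
  obtain ⟨i, _, hi⟩ := exists_max_image (univ : Finset (Fin (q + 1))) m univ_nonempty
  have hql : ∑ j, (m j + 1) ≤ (q + 1) * (m i + 1) := by
    calc ∑ j, (m j + 1) ≤ ∑ _j : Fin (q + 1), (m i + 1) := by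
          apply sum_le_sum
          intro j _
          have := hi j (mem_univ j)
          omega
      _ = _ := by rw [sum_const, card_univ, Fintype.card_fin, smul_eq_mul]
  have hq4 : q + 1 ≤ 4 * b := by omega
  have hql2 : (q + 1) * (m i + 1) ≤ 4 * b * (m i + 1) := Nat.mul_le_mul_right _ hq4
  have hnums : Nums (numEdges G + 1) (numEdgesIn G W₁) q k d' N Y (m i + 1) :=
    hnum (numEdgesIn G W₁) q (m i + 1) hf2 hq4 (by omega)
  -- downward induction on the rank
  have hind : ∀ t r : ℕ, 2 ^ r ≤ 2 * (numEdges G + 1) → 2 * (numEdges G + 1) ≤ r + t →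
      Claim G r (r * Y ^ 34) := by
    intro t
    induction t with
    | zero =>
      intro r h1 h2
      exfalso
      have h3 : r < 2 ^ r := Nat.lt_two_pow_self
      omega
    | succ t ih =>
      intro r h1 h2
      refine hS V G W' W₁ q k d' N Y m P i r hTL hk hP hall hno hnums h1 ?_
      intro r' hr' h3
      exact ih r' h3 (by omega)
  apply forces_of_claim
  have h0 := hind (2 * (numEdges G + 1)) 0 (by omega) (by omega)
  rwa [Nat.zero_mul] at h0

end Pool.Agent.Lib.MP_b1acb3_co.One
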