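import Pool.Agent.Lib.MP_b1acb3_co.One.Stmts

/-!
Decreasing families and forbidden colours.
-/

namespace Pool.Agent.Lib.MP_b1acb3_co.One

open Finset Uni Leaf

namespace Forb

variable {K : ℕ}

/-- `num` with any decidability instance. -/
theorem num_eq (S : Finset (Fin K)) (i : ℕ) (p : Finset (Fin K) → Prop) [DecidablePred p] :
    num S i p = ((powersetCard i S).filter p).card := by
  unfold num
  congr

/-- The number of the sets of size `m` between `J` and `S`. -/
theorem card_super (S J : Finset (Fin K)) (m : ℕ) (hJ : J ⊆ S) :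
    ((powersetCard m S).filter (fun M => J ⊆ M)).card ≤
      (S.card - J.card).choose (m - J.card) := by
  rw [← card_sdiff_of_subset hJ, ← card_powersetCard]
  refine card_le_card_of_injOn (fun M => M \ J) ?_ ?_
  · intro M hM
    have hM' := mem_filter.1 (mem_coe.1 hM)
    have h1 := mem_powersetCard.1 hM'.1
    exact mem_coe.2 (mem_powersetCard.2 ⟨sdiff_subset_sdiff h1.1 subset_rfl, by
      rw [card_sdiff_of_subset hM'.2, h1.2]⟩)
  · intro M hM M' hM' h
    have h1 := (mem_filter.1 (mem_coe.1 hM)).2
    have h2 := (mem_filter.1 (mem_coe.1 hM')).2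
    have h3 : M \ J = M' \ J := h
    rw [← sdiff_union_of_subset h1, h3, sdiff_union_of_subset h2]

/-- The densities of a decreasing family decrease. -/
theorem lym (S : Finset (Fin K)) (p : Finset (Fin K) → Prop)
    (hp : ∀ Q Q' : Finset (Fin K), Q ⊆ Q' → p Q' → p Q) (j m : ℕ) (hjm : j ≤ m) :
    num S m p * S.card.choose j ≤ num S j p * S.card.choose m := by
  classical
  have h1 : num S m p * m.choose j ≤ num S j p * (S.card - j).choose (m - j) := by
    unfold num
    apply Finset.card_mul_le_card_mul (fun M J => J ⊆ M)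
    · intro M hM
      have hM' := mem_filter.1 hM
      have h1 := mem_powersetCard.1 hM'.1
      have h2 : powersetCard j M ⊆
          ((powersetCard j S).filter p).bipartiteAbove (fun M J => J ⊆ M) M := by
        intro J hJ
        have h3 := mem_powersetCard.1 hJ
        rw [mem_bipartiteAbove]
        exact ⟨mem_filter.2 ⟨mem_powersetCard.2 ⟨h3.1.trans h1.1, h3.2⟩, hp _ _ h3.1 hM'.2⟩, h3.1⟩
      calc m.choose j = (powersetCard j M).card := by rw [card_powersetCard, h1.2]
        _ ≤ _ := card_le_card h2
    · intro J hJ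
      have hJ' := mem_filter.1 hJ
      have h1 := mem_powersetCard.1 hJ'.1
      have h2 : ((powersetCard m S).filter p).bipartiteBelow (fun M J => J ⊆ M) J ⊆
          (powersetCard m S).filter (fun M => J ⊆ M) := by
        intro M hM
        rw [mem_bipartiteBelow] at hM
        exact mem_filter.2 ⟨(mem_filter.1 hM.1).1, hM.2⟩
      refine (card_le_card h2).trans ?_
      have h3 := card_super S J m h1.1
      rw [h1.2] at h3
      exact h3
  have h2 : S.card.choose m * m.choose j = S.card.choose j * (S.card - j).choose (m - j) :=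
    Nat.choose_mul hjm
  have h3 : 0 < m.choose j := Nat.choose_pos hjm
  refine Nat.le_of_mul_le_mul_right ?_ h3
  calc num S m p * S.card.choose j * m.choose j = num S m p * m.choose j * S.card.choose j := by
        ring
    _ ≤ num S j p * (S.card - j).choose (m - j) * S.card.choose j := Nat.mul_le_mul_right _ h1
    _ = num S j p * (S.card.choose m * m.choose j) := by rw [h2]; ring
    _ = num S j p * S.card.choose m * m.choose j := by ring

/-- The sets of size `i` of a decreasing family that have at most half of their elements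
in `F`. -/
theorem half (p : Finset (Fin K) → Prop)
    (hp : ∀ Q Q' : Finset (Fin K), Q ⊆ Q' → p Q' → p Q) (i j : ℕ) (hij : 2 * j ≤ i)
    (F : Finset (Fin K)) :
    num univ i (fun Q => p Q ∧ 2 * (Q ∩ F).card ≤ i) * Fᶜ.card.choose j ≤
      num Fᶜ j p * K.choose i := by
  classical
  have h1 : num univ i (fun Q => p Q ∧ 2 * (Q ∩ F).card ≤ i) =
      ∑ A ∈ F.powerset, (((powersetCard i univ).filter
        (fun Q => p Q ∧ 2 * (Q ∩ F).card ≤ i)).filter (fun Q => Q ∩ F = A)).card := by
    rw [num_eq, ← card_eq_sum_card_fiberwise]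
    · intro Q _
      exact mem_coe.2 (mem_powerset.2 inter_subset_right)
  have h2 : ∀ A ∈ F.powerset, (((powersetCard i univ).filter
        (fun Q => p Q ∧ 2 * (Q ∩ F).card ≤ i)).filter (fun Q => Q ∩ F = A)).card ≤
      if 2 * A.card ≤ i then num Fᶜ (i - A.card) p else 0 := by
    intro A hA
    split_ifs with h
    · unfold num
      refine card_le_card_of_injOn (fun Q => Q \ F) ?_ ?_
      · intro Q hQ
        have h1 := mem_filter.1 (mem_coe.1 hQ)
        have h2 := mem_filter.1 h1.1
        have h3 := mem_powersetCard.1 h2.1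
        refine mem_coe.2 (mem_filter.2 ⟨mem_powersetCard.2 ⟨?_, ?_⟩, hp _ _ sdiff_subset h2.2.1⟩)
        · intro x hx
          exact mem_compl.2 (mem_sdiff.1 hx).2
        · have h4 := card_sdiff_add_card_inter Q F
          rw [h1.2, h3.2] at h4
          simp only
          omega
      · intro Q hQ Q' hQ' hh
        have h1 := (mem_filter.1 (mem_coe.1 hQ)).2
        have h2 := (mem_filter.1 (mem_coe.1 hQ')).2
        have h3 : Q \ F = Q' \ F := hh
        rw [← sdiff_union_inter Q F, ← sdiff_union_inter Q' F, h1, h2, h3]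
    · refine le_of_eq (card_eq_zero.2 (filter_eq_empty_iff.2 ?_))
      intro Q hQ h5
      have h6 := (mem_filter.1 hQ).2.2
      rw [h5] at h6
      exact h h6
  have h3 : ∀ A ∈ F.powerset,
      (if 2 * A.card ≤ i then num Fᶜ (i - A.card) p else 0) * Fᶜ.card.choose j ≤
      num Fᶜ j p * (if A.card ≤ i then Fᶜ.card.choose (i - A.card) else 0) := by
    intro A _
    split_ifs with h h'
    · exact lym Fᶜ p hp j (i - A.card) (by omega)
    · omega
    · simp
    · simp
  have h4 : ∑ A ∈ F.powerset, (if A.card ≤ i then Fᶜ.card.choose (i - A.card) else 0) ≤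
      K.choose i := by
    have e0 : F.card + Fᶜ.card = K := by
      rw [card_add_card_compl, Fintype.card_fin]
    rw [sum_powerset_apply_card (fun k => if k ≤ i then Fᶜ.card.choose (i - k) else 0)]
    have e1 : K.choose i = ∑ k ∈ range (i + 1), F.card.choose k * Fᶜ.card.choose (i - k) := by
      have e2 := Nat.add_choose_eq F.card Fᶜ.card i
      rw [e0, Finset.Nat.sum_antidiagonal_eq_sum_range_succ_mk] at e2
      exact e2
    rw [e1]
    simp only [smul_eq_mul, mul_ite, mul_zero]
    rw [← sum_filter]
    apply sum_le_sum_of_subset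
    intro k hk
    have := (mem_filter.1 hk).2
    exact mem_range.2 (by omega)
  calc num univ i (fun Q => p Q ∧ 2 * (Q ∩ F).card ≤ i) * Fᶜ.card.choose j
      ≤ (∑ A ∈ F.powerset, if 2 * A.card ≤ i then num Fᶜ (i - A.card) p else 0) *
          Fᶜ.card.choose j := by
        rw [h1]
        exact Nat.mul_le_mul_right _ (sum_le_sum h2)
    _ = ∑ A ∈ F.powerset, (if 2 * A.card ≤ i then num Fᶜ (i - A.card) p else 0) *
          Fᶜ.card.choose j := by rw [sum_mul]
    _ ≤ ∑ A ∈ F.powerset,
          num Fᶜ j p * (if A.card ≤ i then Fᶜ.card.choose (i - A.card) else 0) := sum_le_sum h3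
    _ = num Fᶜ j p * ∑ A ∈ F.powerset, (if A.card ≤ i then Fᶜ.card.choose (i - A.card) else 0) :=
        by rw [mul_sum]
    _ ≤ num Fᶜ j p * K.choose i := Nat.mul_le_mul_left _ h4

/-- Few sets of size `i` have more than half of their elements in `F`. -/
theorem markov (i : ℕ) (_hi : 1 ≤ i) (F : Finset (Fin K)) :
    num univ i (fun Q => ¬ 2 * (Q ∩ F).card ≤ i) * i ≤
      2 * F.card * (K - 1).choose (i - 1) := by
  classical
  have h1 : ∑ Q ∈ powersetCard i (univ : Finset (Fin K)), (Q ∩ F).card ≤
      F.card * (K - 1).choose (i - 1) := by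
    have e1 : ∀ Q : Finset (Fin K), (Q ∩ F).card = ∑ x ∈ F, if x ∈ Q then 1 else 0 := by
      intro Q
      rw [inter_comm, ← filter_mem_eq_inter, card_filter]
    simp only [e1]
    rw [sum_comm, ← smul_eq_mul, ← sum_const]
    refine sum_le_sum fun x _ => ?_
    rw [← card_filter]
    have e2 := card_super (univ : Finset (Fin K)) {x} i (subset_univ _)
    rw [card_univ, Fintype.card_fin, card_singleton] at e2
    refine le_trans (card_le_card ?_) e2
    intro Q hQ
    have h := mem_filter.1 hQ
    exact mem_filter.2 ⟨h.1, singleton_subset_iff.2 h.2⟩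
  have h2 : num univ i (fun Q => ¬ 2 * (Q ∩ F).card ≤ i) * i ≤
      ∑ Q ∈ powersetCard i (univ : Finset (Fin K)), 2 * (Q ∩ F).card := by
    rw [num_eq, ← smul_eq_mul, ← sum_const]
    refine le_trans (sum_le_sum (g := fun Q => 2 * (Q ∩ F).card) ?_) ?_
    · intro Q hQ
      have h := (mem_filter.1 hQ).2
      omega
    · exact sum_le_sum_of_subset (filter_subset _ _)
  rw [← mul_sum] at h2
  calc _ ≤ _ := h2
    _ ≤ 2 * (F.card * (K - 1).choose (i - 1)) := Nat.mul_le_mul_left _ h1
    _ = _ := by ring

end Forb

open Forb in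
/-- (Forb) Decreasing properties and forbidden colours. -/
theorem thmForb : StForb := by
  classical
  intro K i j p ρ F hp hρ hij hiK hF hnum
  have hC : (0 : ℝ) < K.choose i := by exact_mod_cast Nat.choose_pos hiK
  -- few sets have many elements in `F`
  have h1 : (num univ i (fun Q => ¬ 2 * (Q ∩ F).card ≤ i) : ℝ) ≤ ρ / 2 * K.choose i := by
    rcases Nat.eq_zero_or_pos i with rfl | hi
    · have : num (univ : Finset (Fin K)) 0 (fun Q => ¬ 2 * (Q ∩ F).card ≤ 0) = 0 := by
        rw [num_eq, card_eq_zero, filter_eq_empty_iff]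
        intro Q hQ h
        have h2 := mem_powersetCard.1 hQ
        rw [card_eq_zero] at h2
        rw [h2.2] at h
        simp at h
      rw [this]
      push_cast
      positivity
    · have h2 := markov i hi F
      have h3 : K * (K - 1).choose (i - 1) = K.choose i * i := by
        have hK : K = (K - 1) + 1 := by omega
        have hi' : i = (i - 1) + 1 := by omega
        have := Nat.add_one_mul_choose_eq (K - 1) (i - 1)
        rw [← hK, ← hi'] at this
        exact this
      have hK0 : (0 : ℝ) < K := by
        have : 0 < K := by omega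
        exact_mod_cast this
      have hi0 : (0 : ℝ) < i := by exact_mod_cast hi
      have h2' : (num univ i (fun Q => ¬ 2 * (Q ∩ F).card ≤ i) : ℝ) * i ≤
          2 * F.card * (K - 1).choose (i - 1) := by exact_mod_cast h2
      have h3' : (K : ℝ) * (K - 1).choose (i - 1) = K.choose i * i := by exact_mod_cast h3
      have h4 : (num univ i (fun Q => ¬ 2 * (Q ∩ F).card ≤ i) : ℝ) * i * K ≤
          ρ / 2 * K.choose i * i * K := by
        calc (num univ i (fun Q => ¬ 2 * (Q ∩ F).card ≤ i) : ℝ) * i * K
            ≤ 2 * F.card * (K - 1).choose (i - 1) * K :=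
              mul_le_mul_of_nonneg_right h2' hK0.le
          _ = 2 * F.card * (K * (K - 1).choose (i - 1)) := by ring
          _ = 2 * F.card * (K.choose i * i) := by rw [h3']
          _ ≤ (ρ / 2 * K) * (K.choose i * i) := by
              apply mul_le_mul_of_nonneg_right (by linarith)
              positivity
          _ = _ := by ring
      exact le_of_mul_le_mul_right (le_of_mul_le_mul_right h4 hK0) hi0
  have h2 : num univ i p ≤ num univ i (fun Q => p Q ∧ 2 * (Q ∩ F).card ≤ i) +
      num univ i (fun Q => ¬ 2 * (Q ∩ F).card ≤ i) := by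
    rw [num_eq, num_eq, num_eq]
    refine le_trans (card_le_card ?_) (card_union_le _ _)
    intro Q hQ
    have h := mem_filter.1 hQ
    rw [mem_union, mem_filter, mem_filter]
    by_cases h5 : 2 * (Q ∩ F).card ≤ i
    · exact Or.inl ⟨h.1, h.2, h5⟩
    · exact Or.inr ⟨h.1, h5⟩
  have h2' : (num univ i p : ℝ) ≤ num univ i (fun Q => p Q ∧ 2 * (Q ∩ F).card ≤ i) +
      num univ i (fun Q => ¬ 2 * (Q ∩ F).card ≤ i) := by exact_mod_cast h2
  have h3 : (num univ i (fun Q => p Q ∧ 2 * (Q ∩ F).card ≤ i) : ℝ) * Fᶜ.card.choose j ≤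
      num Fᶜ j p * K.choose i := by exact_mod_cast half p hp i j hij F
  have h4 : ρ / 2 * K.choose i ≤ num univ i (fun Q => p Q ∧ 2 * (Q ∩ F).card ≤ i) := by
    linarith
  have h5 : ρ / 2 * (Fᶜ.card.choose j : ℝ) * K.choose i ≤ num Fᶜ j p * K.choose i := by
    calc ρ / 2 * (Fᶜ.card.choose j : ℝ) * K.choose i =
        (ρ / 2 * K.choose i) * Fᶜ.card.choose j := by ring
      _ ≤ (num univ i (fun Q => p Q ∧ 2 * (Q ∩ F).card ≤ i) : ℝ) * Fᶜ.card.choose j :=
          mul_le_mul_of_nonneg_right h4 (by positivity)
      _ ≤ _ := h3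
  exact le_of_mul_le_mul_right h5 hC

end Pool.Agent.Lib.MP_b1acb3_co.One
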