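import Pool.Agent.Lib.MP_b1acb3_co.One.RelSys

/-!
(Grow) Adding colours with labels to a set that reaches a part of a class.
-/

namespace Pool.Agent.Lib.MP_b1acb3_co.One

open Finset Uni Leaf

namespace ModGrow

variable {n K r : ℕ}

/-- The mass that leaves a vertex in colour `a` with a wrong label. -/
theorem wrong_mass (hn : 0 < n) (hK : 0 < K) {c : Sym2 (Fin n) → Fin K}
    {B : Fin K → Matrix (Fin n) (Fin n) ℝ} {δ ξ : ℝ} (hδ : 0 ≤ δ) (hB : Env c B δ)
    {Z : Finset (Fin K)} {τ : Fin K → Fin r → ZMod 2} {lam : Fin n → Fin r → ZMod 2}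
    (hL : Lab c Z τ lam ξ) (a : Fin K) (ha : a ∉ Z) (z : Fin n) :
    ∑ y ∈ univ.filter (fun y => lam y ≠ lam z + τ a), Cyc.nrm B a z y ≤
      ξ + K / n + K * δ := by
  have hnR : (0 : ℝ) < n := by exact_mod_cast hn
  have hKR : (0 : ℝ) < K := by exact_mod_cast hK
  have h1 := ModRelSys.app_le hn hδ hB a (univ.filter (fun y => lam y ≠ lam z + τ a)) z
  unfold app at h1
  refine h1.trans ?_
  have h2 : mu (univ.filter (fun y => lam y ≠ lam z + τ a) ∩ nbr c z a) ≤ ξ / K := by
    have h3 : univ.filter (fun y => lam y ≠ lam z + τ a) ∩ nbr c z a =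
        (nbr c z a).filter (fun y => lam y ≠ lam z + τ a) := by
      ext y
      simp only [mem_inter, mem_filter, mem_univ, true_and]
      exact and_comm
    rw [h3]
    unfold mu
    rw [div_le_iff₀ hnR]
    refine (hL.lab z a ha).trans (le_of_eq ?_)
    field_simp
  have h4 : (K : ℝ) * (mu (univ.filter (fun y => lam y ≠ lam z + τ a) ∩ nbr c z a) +
      1 / n + δ) ≤ K * (ξ / K + 1 / n + δ) :=
    mul_le_mul_of_nonneg_left (by linarith) hKR.le
  refine h4.trans (le_of_eq ?_)
  field_simp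

/-- One step. -/
theorem step {ϑ ξ δ : ℝ} (hn : 0 < n) (hK : 0 < K) {c : Sym2 (Fin n) → Fin K}
    {B : Fin K → Matrix (Fin n) (Fin n) ℝ} (hδ : 0 ≤ δ) (hB : Env c B δ)
    (hR : RelSys (Cyc.nrm B) (fun x => RS c ϑ x) (2 * K * ϑ))
    {Z : Finset (Fin K)} {τ : Fin K → Fin r → ZMod 2} {lam : Fin n → Fin r → ZMod 2}
    (hL : Lab c Z τ lam ξ) (x : Fin n) (Q : Finset (Fin K)) (t : Fin r → ZMod 2) (a : Fin K)
    (haQ : a ∉ Q) (haZ : a ∉ Z) :
    mu (RS c ϑ x Q ∩ cls lam t) ≤ mu (RS c ϑ x (insert a Q) ∩ cls lam (t + τ a)) +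
      (2 * K * ϑ + (|ξ| + K / n + K * δ)) := by
  classical
  have hnR : (0 : ℝ) < n := by exact_mod_cast hn
  have hP : Markov (Cyc.nrm B) := (hR.sys x).markov
  have hθ : 0 ≤ 2 * K * ϑ := (hR.sys x).nonneg
  set P := Cyc.nrm B with hPdef
  set T := RS c ϑ x Q ∩ cls lam t with hT
  set R' := RS c ϑ x (insert a Q) with hR'
  set T' := R' ∩ cls lam (t + τ a) with hT'
  have h1 : mu T = avg (fun y => app P a T y) := (avg_app hP a T).symm
  -- pointwise bound
  have h2 : ∀ y, app P a T y ≤ (if y ∈ T' then 1 else 0) + 2 * K * ϑ +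
      (if lam y ≠ t + τ a then app P a T y else 0) := by
    intro y
    by_cases hy1 : lam y ≠ t + τ a
    · rw [if_pos hy1]
      have : (0 : ℝ) ≤ if y ∈ T' then 1 else 0 := by split_ifs <;> norm_num
      linarith
    · rw [if_neg hy1]
      push Not at hy1
      by_cases hy2 : y ∈ R'
      · have : y ∈ T' := by
          rw [hT', mem_inter]
          exact ⟨hy2, mem_cls.2 hy1⟩
        rw [if_pos this]
        have := app_le_one hP a T y
        linarith
      · have h3 := (hR.sys x).grow Q a haQ y hy2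
        have h4 : app P a T y ≤ app P a (RS c ϑ x Q) y := app_mono hP a inter_subset_left y
        have : (0 : ℝ) ≤ if y ∈ T' then 1 else 0 := by split_ifs <;> norm_num
        linarith
  have h3 : avg (fun y => app P a T y) ≤ avg (fun y => (if y ∈ T' then (1 : ℝ) else 0) +
      2 * K * ϑ + (if lam y ≠ t + τ a then app P a T y else 0)) := avg_mono h2
  have h4 : avg (fun y => (if y ∈ T' then (1 : ℝ) else 0) +
      2 * K * ϑ + (if lam y ≠ t + τ a then app P a T y else 0)) =
      mu T' + 2 * K * ϑ + avg (fun y => if lam y ≠ t + τ a then app P a T y else 0) := by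
    rw [avg_add, avg_add, avg_const hn]
    congr 2
    exact avg_indicator T'
  -- the wrong mass
  have h5 : avg (fun y => if lam y ≠ t + τ a then app P a T y else 0) ≤
      |ξ| + K / n + K * δ := by
    unfold avg
    rw [div_le_iff₀ hnR]
    have h6 : ∑ y, (if lam y ≠ t + τ a then app P a T y else 0) =
        ∑ z ∈ T, ∑ y ∈ univ.filter (fun y => lam y ≠ lam z + τ a), P a z y := by
      rw [← sum_filter]
      have h61 : ∑ y ∈ univ.filter (fun y => lam y ≠ t + τ a), app P a T y =
          ∑ y ∈ univ.filter (fun y => lam y ≠ t + τ a), ∑ z ∈ T, P a z y :=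
        sum_congr rfl fun y _ => sum_congr rfl fun z _ => hP.symm a y z
      refine h61.trans (Finset.sum_comm.trans (sum_congr rfl fun z hz => ?_))
      have hz' : lam z = t := mem_cls.1 (mem_inter.1 hz).2
      rw [hz']
    rw [h6]
    have h7 : ∑ z ∈ T, ∑ y ∈ univ.filter (fun y => lam y ≠ lam z + τ a), P a z y ≤
        ∑ _z ∈ T, (|ξ| + K / n + K * δ) := by
      apply sum_le_sum
      intro z _
      refine (wrong_mass hn hK hδ hB hL a haZ z).trans ?_
      have := le_abs_self ξ
      linarith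
    refine h7.trans ?_
    rw [sum_const, nsmul_eq_mul, mul_comm]
    have h8 : (T.card : ℝ) ≤ n := by
      have := card_le_univ T
      rw [Fintype.card_fin] at this
      exact_mod_cast this
    exact mul_le_mul_of_nonneg_left h8 (by positivity)
  rw [h1]
  linarith

end ModGrow

theorem thmGrow : StGrow := by
  classical
  intro K κ hK hκ
  have hKR : (0 : ℝ) < K := by exact_mod_cast hK
  refine ⟨κ / (4 * K ^ 2), by positivity, ?_⟩
  intro ϑ hϑ hϑκ
  obtain ⟨δ₀, hδ₀, n₀, hR⟩ := thmRelSys K ϑ hK hϑ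
  obtain ⟨n₁, hn₁⟩ := exists_nat_gt (6 * (K : ℝ) ^ 2 / κ)
  refine ⟨κ / (6 * K), by positivity, min δ₀ (κ / (6 * K ^ 2)), lt_min hδ₀ (by positivity),
    max (max n₀ n₁) 1, ?_⟩
  intro n hn c B hB r Z τ lam hL x Q Q' t hQQ hQZ
  have hnn₀ : n₀ ≤ n := ((le_max_left _ _).trans (le_max_left _ _)).trans hn
  have hnn₁ : n₁ ≤ n := ((le_max_right _ _).trans (le_max_left _ _)).trans hn
  have hn0 : 0 < n := (le_max_right _ _).trans hn
  have hnR : (0 : ℝ) < n := by exact_mod_cast hn0
  have hR' := hR n hnn₀ c B (hB.mono (min_le_left _ _))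
  set δ := min δ₀ (κ / (6 * K ^ 2)) with hδ
  have hδ0 : 0 ≤ δ := (lt_min hδ₀ (by positivity)).le
  set η : ℝ := 2 * K * ϑ + (|κ / (6 * K)| + K / n + K * δ) with hη
  have hη0 : 0 ≤ η := by positivity
  have hηκ : K * η ≤ κ := by
    have h1 : 2 * K * ϑ ≤ κ / (2 * K) := by
      calc 2 * K * ϑ ≤ 2 * K * (κ / (4 * K ^ 2)) := mul_le_mul_of_nonneg_left hϑκ (by positivity)
        _ = κ / (2 * K) := by
          field_simp
          norm_num
    have h2 : |κ / (6 * K)| = κ / (6 * K) := abs_of_pos (by positivity)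
    have h3 : (K : ℝ) / n ≤ κ / (6 * K) := by
      rw [div_le_div_iff₀ hnR (by positivity)]
      have h4 : 6 * (K : ℝ) ^ 2 / κ ≤ n := hn₁.le.trans (by exact_mod_cast hnn₁)
      rw [div_le_iff₀ hκ] at h4
      nlinarith
    have h4 : K * δ ≤ κ / (6 * K) := by
      calc K * δ ≤ K * (κ / (6 * K ^ 2)) := mul_le_mul_of_nonneg_left (min_le_right _ _) hKR.le
        _ = κ / (6 * K) := by field_simp
    have h5 : η ≤ κ / K := by
      rw [hη, h2]
      have h6 : κ / K = κ / (2 * K) + (κ / (6 * K) + κ / (6 * K) + κ / (6 * K)) := by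
        field_simp
        norm_num
      rw [h6]
      linarith
    calc K * η ≤ K * (κ / K) := mul_le_mul_of_nonneg_left h5 hKR.le
      _ = κ := by field_simp
  have key : ∀ S : Finset (Fin K), S ⊆ Q' →
      mu (RS c ϑ x Q ∩ cls lam t) ≤
        mu (RS c ϑ x (Q ∪ S) ∩ cls lam (t + ∑ b ∈ S, τ b)) + S.card * η := by
    intro S
    induction S using Finset.induction_on with
    | empty =>
      intro _
      simp
    | insert a S ha ih =>
      intro hS
      have haQ' : a ∈ Q' := hS (mem_insert_self a S)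
      have h1 := ih ((subset_insert a S).trans hS)
      have h2 := ModGrow.step hn0 hK hδ0 hB hR' hL x (Q ∪ S) (t + ∑ b ∈ S, τ b) a
        (by
          rw [mem_union, not_or]
          exact ⟨fun h => disjoint_left.1 hQQ h haQ', ha⟩)
        (fun h => disjoint_left.1 hQZ haQ' h)
      rw [sum_insert ha, card_insert_of_notMem ha]
      have h3 : Q ∪ insert a S = insert a (Q ∪ S) := by
        rw [union_insert]
      have h4 : t + (τ a + ∑ b ∈ S, τ b) = t + ∑ b ∈ S, τ b + τ a := by
        rw [add_comm (τ a), add_assoc]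
      rw [h3, h4]
      push_cast
      linarith
  have h1 := key Q' subset_rfl
  have h2 : (Q'.card : ℝ) ≤ K := by
    have := card_le_univ Q'
    rw [Fintype.card_fin] at this
    exact_mod_cast this
  have h3 : (Q'.card : ℝ) * η ≤ K * η := mul_le_mul_of_nonneg_right h2 hη0
  linarith

end Pool.Agent.Lib.MP_b1acb3_co.One
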