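import Pool.Agent.Lib.MP_b1acb3_co.One.Stmts

/-!
Module Hall: assignment of labels to the exceptional colours by Hall's marriage theorem.
-/

namespace Pool.Agent.Lib.MP_b1acb3_co.One

open Finset

namespace HallAux

/-- The number of colours wanted with label `t`. -/
def tgt (K r : ℕ) (s t : Fin r → ZMod 2) : ℕ :=
  if t = s ∧ 2 ^ r < K ∧ K / 2 ^ r = 1 then 2 else K / 2 ^ r

theorem le_tgt (K r : ℕ) (s t : Fin r → ZMod 2) : K / 2 ^ r ≤ tgt K r s t := by
  unfold tgt
  split_ifs with h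
  · omega
  · exact le_rfl

theorem two_le_tgt {K r : ℕ} (s : Fin r → ZMod 2) (h : 2 ^ r < K) : 2 ≤ tgt K r s s := by
  unfold tgt
  split_ifs with h'
  · exact le_rfl
  · have : 1 ≤ K / 2 ^ r := (Nat.one_le_div_iff (by positivity)).2 h.le
    have h2 : K / 2 ^ r ≠ 1 := fun h1 => h' ⟨rfl, h, h1⟩
    omega

theorem sum_tgt_lt {K r : ℕ} {κ κ' : ℝ} (h2 : 2 ^ r ≤ K) (hκ : 0 ≤ κ)
    (h1 : 4 * K * κ' ≤ 1) (h3 : 4 * K ^ 3 * κ ≤ 1) (s : Fin r → ZMod 2)
    (Θ : Finset (Fin r → ZMod 2)) (hΘ : Θ.Nonempty) :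
    ∑ t ∈ Θ, (tgt K r s t : ℝ) < Θ.card * ((K : ℝ) / 2 ^ r - κ' - K * κ) + 1 := by
  have hK0 : 0 < K := lt_of_lt_of_le (by positivity) h2
  have hK : (1 : ℝ) ≤ K := by exact_mod_cast hK0
  have hN1 : (1 : ℝ) ≤ Θ.card := by exact_mod_cast hΘ.card_pos
  have hN2 : (Θ.card : ℝ) ≤ K := by
    have : Θ.card ≤ Fintype.card (Fin r → ZMod 2) := Finset.card_le_univ Θ
    rw [Fintype.card_fun, ZMod.card, Fintype.card_fin] at this
    exact_mod_cast this.trans h2
  have h2r : (0 : ℝ) < 2 ^ r := by positivity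
  have h2' : (2 : ℝ) ^ r ≤ K := by exact_mod_cast h2
  have hKκ : 4 * K * (K * κ) ≤ 1 := by
    have : 4 * (K : ℝ) * (K * κ) ≤ 4 * K ^ 3 * κ := by
      have h : 0 ≤ (K : ℝ) ^ 2 * κ * (K - 1) := by
        apply mul_nonneg (by positivity); linarith
      nlinarith
    linarith
  have he : 2 * K * (κ' + K * κ) ≤ 1 := by nlinarith
  by_cases hc : 2 ^ r < K ∧ K / 2 ^ r = 1
  · have hb : ∀ t ∈ Θ, (tgt K r s t : ℝ) ≤ 1 + (if t = s then 1 else 0) := by
      intro t _
      unfold tgt
      by_cases hts : t = s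
      · rw [if_pos ⟨hts, hc⟩, if_pos hts]; norm_num
      · rw [if_neg (fun h => hts h.1), if_neg hts, hc.2]; norm_num
    have hs : ∑ t ∈ Θ, (tgt K r s t : ℝ) ≤ Θ.card + 1 := by
      refine (Finset.sum_le_sum hb).trans ?_
      rw [Finset.sum_add_distrib, Finset.sum_const, Finset.sum_ite_eq' Θ s]
      rw [nsmul_eq_mul, mul_one]
      split_ifs <;> simp
    have hk : (1 : ℝ) < K / 2 ^ r - κ' - K * κ := by
      have h5 : (2 : ℝ) ^ r + 1 ≤ K := by exact_mod_cast hc.1
      have h6 : 1 + 1 / (K : ℝ) ≤ K / 2 ^ r := by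
        have h7 : 1 / (K : ℝ) ≤ 1 / 2 ^ r := one_div_le_one_div_of_le h2r h2'
        have h8 : (2 ^ r + 1) / (2 : ℝ) ^ r ≤ K / 2 ^ r := by
          gcongr
        have h9 : (2 ^ r + 1) / (2 : ℝ) ^ r = 1 + 1 / 2 ^ r := by
          field_simp
        linarith
      have h7 : κ' + K * κ ≤ 1 / (2 * K) := by
        rw [le_div_iff₀ (by positivity)]; nlinarith
      have h8 : 1 / (2 * (K : ℝ)) < 1 / K := by
        apply one_div_lt_one_div_of_lt <;> linarith
      linarith
    nlinarith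
  · have hb : ∀ t ∈ Θ, (tgt K r s t : ℝ) ≤ K / 2 ^ r := by
      intro t _
      unfold tgt
      rw [if_neg (fun h => hc h.2)]
      have := @Nat.cast_div_le ℝ _ _ _ K (2 ^ r)
      push_cast at this
      exact this
    have hs := Finset.sum_le_sum hb
    rw [Finset.sum_const, nsmul_eq_mul] at hs
    have h4 : (Θ.card : ℝ) * (κ' + K * κ) < 1 := by
      by_cases h0 : 0 ≤ κ' + K * κ
      · have : (Θ.card : ℝ) * (κ' + K * κ) ≤ K * (κ' + K * κ) :=
          mul_le_mul_of_nonneg_right hN2 h0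
        linarith
      · have : (Θ.card : ℝ) * (κ' + K * κ) ≤ 0 :=
          mul_nonpos_of_nonneg_of_nonpos (by positivity) (not_le.1 h0).le
        linarith
    nlinarith

end HallAux

open HallAux

theorem thmHall : StHall := by
  classical
  intro K r Z τ M κ κ' h2 hκ hκ' h1 h3 hM hM1 hS s
  have hK0 : 0 < K := lt_of_lt_of_le (by positivity) h2
  have hK : (1 : ℝ) ≤ K := by exact_mod_cast hK0
  set nn : (Fin r → ZMod 2) → ℕ := fun t => (Zᶜ.filter (fun a => τ a = t)).card with hnn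
  set A : (Fin r → ZMod 2) → Finset (Fin K) := fun t => Z.filter (fun a => κ ≤ M a t) with hA
  have key : ∀ Θ : Finset (Fin r → ZMod 2), (∀ t ∈ Θ, nn t < tgt K r s t) →
      ∑ t ∈ Θ, (tgt K r s t - nn t) ≤ (Θ.biUnion A).card := by
    intro Θ hΘ
    rcases Θ.eq_empty_or_nonempty with rfl | hne
    · simp
    have hlt := sum_tgt_lt h2 hκ h1 h3 s Θ hne
    have hsub : Θ.biUnion A ⊆ Z := by
      intro a ha
      obtain ⟨t, _, hat⟩ := Finset.mem_biUnion.1 ha
      exact (Finset.mem_filter.1 hat).1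
    -- lower bound for the number of neighbours
    have hlow : ∑ t ∈ Θ, ((K : ℝ) / 2 ^ r - nn t - κ') ≤
        (Θ.biUnion A).card + Θ.card * (K * κ) := by
      have e1 : ∑ t ∈ Θ, ((K : ℝ) / 2 ^ r - nn t - κ') ≤ ∑ t ∈ Θ, ∑ a ∈ Z, M a t := by
        apply Finset.sum_le_sum
        intro t _
        have := abs_le.1 (hS t)
        linarith [this.1]
      rw [Finset.sum_comm] at e1
      have e2 : ∑ a ∈ Z, ∑ t ∈ Θ, M a t =
          ∑ a ∈ Θ.biUnion A, ∑ t ∈ Θ, M a t + ∑ a ∈ Z \ Θ.biUnion A, ∑ t ∈ Θ, M a t := by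
        rw [add_comm, Finset.sum_sdiff hsub]
      have e3 : ∑ a ∈ Θ.biUnion A, ∑ t ∈ Θ, M a t ≤ (Θ.biUnion A).card := by
        have : ∀ a ∈ Θ.biUnion A, ∑ t ∈ Θ, M a t ≤ 1 := by
          intro a ha
          rw [← hM1 a (hsub ha)]
          exact Finset.sum_le_sum_of_subset_of_nonneg (Finset.subset_univ _)
            (fun t _ _ => hM a t)
        refine (Finset.sum_le_sum this).trans ?_
        rw [Finset.sum_const, nsmul_eq_mul, mul_one]
      have e4 : ∑ a ∈ Z \ Θ.biUnion A, ∑ t ∈ Θ, M a t ≤ Θ.card * (K * κ) := by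
        have : ∀ a ∈ Z \ Θ.biUnion A, ∑ t ∈ Θ, M a t ≤ Θ.card * κ := by
          intro a ha
          rw [Finset.mem_sdiff] at ha
          have h5 : ∀ t ∈ Θ, M a t ≤ κ := by
            intro t ht
            by_contra hlt'
            exact ha.2 (Finset.mem_biUnion.2 ⟨t, ht, Finset.mem_filter.2
              ⟨ha.1, (not_le.1 hlt').le⟩⟩)
          refine (Finset.sum_le_sum h5).trans ?_
          rw [Finset.sum_const, nsmul_eq_mul]
        refine (Finset.sum_le_sum this).trans ?_
        rw [Finset.sum_const, nsmul_eq_mul]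
        have hcard : ((Z \ Θ.biUnion A).card : ℝ) ≤ K := by
          have := Finset.card_le_univ (Z \ Θ.biUnion A)
          rw [Fintype.card_fin] at this
          exact_mod_cast this
        have : 0 ≤ (Θ.card : ℝ) * κ := by positivity
        nlinarith
      linarith
    have hsum : ∑ t ∈ Θ, ((K : ℝ) / 2 ^ r - nn t - κ') =
        Θ.card * ((K : ℝ) / 2 ^ r - κ') - ∑ t ∈ Θ, (nn t : ℝ) := by
      rw [← nsmul_eq_mul, ← Finset.sum_const, ← Finset.sum_sub_distrib]
      exact Finset.sum_congr rfl (fun t _ => by ring)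
    rw [hsum] at hlow
    have hcast : ((∑ t ∈ Θ, (tgt K r s t - nn t) : ℕ) : ℝ) =
        ∑ t ∈ Θ, (tgt K r s t : ℝ) - ∑ t ∈ Θ, (nn t : ℝ) := by
      rw [Nat.cast_sum, ← Finset.sum_sub_distrib]
      exact Finset.sum_congr rfl (fun t ht => by rw [Nat.cast_sub (hΘ t ht).le])
    have hfin : ((∑ t ∈ Θ, (tgt K r s t - nn t) : ℕ) : ℝ) < (Θ.biUnion A).card + 1 := by
      rw [hcast]
      nlinarith
    have : (∑ t ∈ Θ, (tgt K r s t - nn t)) < (Θ.biUnion A).card + 1 := by exact_mod_cast hfin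
    omega
  -- Hall's theorem for the slots
  obtain ⟨φ, hφi, hφA⟩ := (Finset.all_card_le_biUnion_card_iff_exists_injective
    (fun x : (Σ t : Fin r → ZMod 2, Fin (tgt K r s t - nn t)) => A x.1)).1 (by
      intro S
      have hS1 : S ⊆ (S.image Sigma.fst).sigma (fun t => (univ : Finset (Fin (tgt K r s t - nn t)))) := by
        intro x hx
        rw [Finset.mem_sigma]
        exact ⟨Finset.mem_image_of_mem _ hx, Finset.mem_univ _⟩
      have hS2 : S.card ≤ ∑ t ∈ S.image Sigma.fst, (tgt K r s t - nn t) := by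
        refine (Finset.card_le_card hS1).trans ?_
        rw [Finset.card_sigma]
        simp
      have hS3 : S.biUnion (fun x => A x.1) = (S.image Sigma.fst).biUnion A := by
        rw [Finset.image_biUnion]
      rw [hS3]
      refine hS2.trans (key _ ?_)
      intro t ht
      obtain ⟨x, _, rfl⟩ := Finset.mem_image.1 ht
      have := x.2.isLt
      omega)
  have hφZ : ∀ x, φ x ∈ Z := fun x => (Finset.mem_filter.1 (hφA x)).1
  have hφM : ∀ x, κ ≤ M (φ x) x.1 := fun x => (Finset.mem_filter.1 (hφA x)).2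
  -- the other exceptional colours
  have hex : ∀ a ∈ Z, ∃ t, κ ≤ M a t := by
    intro a ha
    by_contra hno
    push Not at hno
    have h5 : ∑ t, M a t < 1 := by
      have h6 : ∑ t, M a t ≤ ∑ _t : Fin r → ZMod 2, κ :=
        Finset.sum_le_sum (fun t _ => (hno t).le)
      rw [Finset.sum_const, nsmul_eq_mul, Finset.card_univ, Fintype.card_fun, ZMod.card,
        Fintype.card_fin] at h6
      have h7 : ((2 ^ r : ℕ) : ℝ) * κ ≤ K * κ :=
        mul_le_mul_of_nonneg_right (by exact_mod_cast h2) hκ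
      have h8 : (K : ℝ) * κ ≤ K ^ 3 * κ := by
        apply mul_le_mul_of_nonneg_right _ hκ
        nlinarith [mul_nonneg (by linarith : (0 : ℝ) ≤ K) (sub_nonneg.2 hK), sq_nonneg ((K : ℝ) - 1)]
      linarith
    rw [hM1 a ha] at h5
    exact lt_irrefl _ h5
  choose! g hg using hex
  let t' : Fin K → Fin r → ZMod 2 := fun a =>
    if h : ∃ x, φ x = a then h.choose.1 else if a ∈ Z then g a else τ a
  have ht1 : ∀ x, t' (φ x) = x.1 := by
    intro x
    have h : ∃ y, φ y = φ x := ⟨x, rfl⟩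
    have : t' (φ x) = h.choose.1 := dif_pos h
    rw [this, hφi h.choose_spec]
  have ht2 : ∀ a, a ∉ Z → t' a = τ a := by
    intro a ha
    have h : ¬ ∃ x, φ x = a := by
      rintro ⟨x, rfl⟩
      exact ha (hφZ x)
    change (if h : ∃ x, φ x = a then h.choose.1 else if a ∈ Z then g a else τ a) = τ a
    rw [dif_neg h, if_neg ha]
  have ht3 : ∀ a ∈ Z, κ ≤ M a (t' a) := by
    intro a ha
    by_cases h : ∃ x, φ x = a
    · obtain ⟨x, rfl⟩ := h
      rw [ht1]
      exact hφM x
    · have : t' a = g a := by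
        change (if h : ∃ x, φ x = a then h.choose.1 else if a ∈ Z then g a else τ a) = g a
        rw [dif_neg h, if_pos ha]
      rw [this]
      exact hg a ha
  have hcount : ∀ t, tgt K r s t ≤ (univ.filter (fun a => t' a = t)).card := by
    intro t
    have hdis : Disjoint (Zᶜ.filter (fun a => τ a = t))
        ((univ : Finset (Fin (tgt K r s t - nn t))).image (fun i => φ ⟨t, i⟩)) := by
      rw [Finset.disjoint_left]
      intro a ha hb
      obtain ⟨i, _, rfl⟩ := Finset.mem_image.1 hb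
      exact (Finset.mem_compl.1 (Finset.mem_filter.1 ha).1) (hφZ _)
    have hsub : (Zᶜ.filter (fun a => τ a = t)) ∪
        ((univ : Finset (Fin (tgt K r s t - nn t))).image (fun i => φ ⟨t, i⟩)) ⊆
        univ.filter (fun a => t' a = t) := by
      intro a ha
      rw [Finset.mem_filter]
      refine ⟨Finset.mem_univ _, ?_⟩
      rcases Finset.mem_union.1 ha with h | h
      · rw [Finset.mem_filter, Finset.mem_compl] at h
        rw [ht2 a h.1]
        exact h.2
      · obtain ⟨i, _, rfl⟩ := Finset.mem_image.1 h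
        rw [ht1]
    have hc := Finset.card_le_card hsub
    rw [Finset.card_union_of_disjoint hdis, Finset.card_image_of_injective, Finset.card_univ,
      Fintype.card_fin] at hc
    · change nn t + (tgt K r s t - nn t) ≤ _ at hc
      omega
    · intro i j hij
      have := hφi hij
      simpa using this
  exact ⟨t', ht2, ht3, fun t => (le_tgt K r s t).trans (hcount t),
    fun h => (two_le_tgt s h).trans (hcount s)⟩

end Pool.Agent.Lib.MP_b1acb3_co.One
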