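import Pool.Agent.Lib.MP_b1acb3_co.One.Stmts

/-!
(Hyper) Most elements lie in many sets of a dense family.
-/

set_option autoImplicit false

namespace Pool.Agent.Lib.MP_b1acb3_co.One

open Finset Uni Leaf

namespace Hyper

theorem count1 {α : Type*} [DecidableEq α] (T : Finset α) (c : α) (hc : c ∈ T) (j : ℕ)
    (p : Finset α → Prop) [DecidablePred p] :
    ((powersetCard (j + 1) T).filter (fun Q => c ∈ Q ∧ p Q)).card =
      ((powersetCard j (T.erase c)).filter (fun Q => p (insert c Q))).card := by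
  apply Finset.card_nbij' (fun Q => Q.erase c) (fun Q => insert c Q)
  · intro Q hQ
    simp only [coe_filter, Set.mem_ofPred_eq, mem_powersetCard] at hQ ⊢
    obtain ⟨⟨h1, h2⟩, h3, h4⟩ := hQ
    refine ⟨⟨erase_subset_erase c h1, ?_⟩, ?_⟩
    · rw [card_erase_of_mem h3, h2, Nat.add_sub_cancel]
    · rwa [insert_erase h3]
  · intro Q hQ
    simp only [coe_filter, Set.mem_ofPred_eq, mem_powersetCard] at hQ ⊢
    obtain ⟨⟨h1, h2⟩, h3⟩ := hQ
    have h4 : c ∉ Q := fun h => notMem_erase c T (h1 h)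
    refine ⟨⟨?_, ?_⟩, mem_insert_self _ _, h3⟩
    · intro x hx
      rcases mem_insert.1 hx with rfl | hx
      · exact hc
      · exact mem_of_mem_erase (h1 hx)
    · rw [card_insert_of_notMem h4, h2]
  · intro Q hQ
    simp only [coe_filter, Set.mem_ofPred_eq, mem_powersetCard] at hQ
    exact insert_erase hQ.2.1
  · intro Q hQ
    simp only [coe_filter, Set.mem_ofPred_eq, mem_powersetCard] at hQ
    have h4 : c ∉ Q := fun h => notMem_erase c T (hQ.1.1 h)
    exact erase_insert h4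

theorem count_one {K : ℕ} (c : Fin K) (j : ℕ) :
    ((powersetCard (j + 1) (univ : Finset (Fin K))).filter (fun Q => c ∈ Q)).card =
      (K - 1).choose j := by
  have h := count1 (univ : Finset (Fin K)) c (mem_univ c) j (fun _ => True)
  simp only [and_true, filter_true] at h
  rw [h, card_powersetCard, card_erase_of_mem (mem_univ c), card_univ, Fintype.card_fin]

theorem count_two {K : ℕ} (c c' : Fin K) (hcc : c' ≠ c) (j : ℕ) :
    (((powersetCard (j + 1) (univ : Finset (Fin K))).filter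
      (fun Q => c ∈ Q ∧ c' ∈ Q)).card : ℝ) * (K - 1) = j * ((K - 1).choose j : ℝ) := by
  have h := count1 (univ : Finset (Fin K)) c (mem_univ c) j (fun Q => c' ∈ Q)
  have h1 : ((powersetCard j (univ.erase c)).filter (fun Q => c' ∈ insert c Q)) =
      ((powersetCard j (univ.erase c)).filter (fun Q => c' ∈ Q)) := by
    apply filter_congr
    intro Q _
    rw [mem_insert, or_iff_right hcc]
  rw [h, h1]
  have hK : 1 < K := by
    have h2 : ({c', c} : Finset (Fin K)).card ≤ (univ : Finset (Fin K)).card :=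
      card_le_card (subset_univ _)
    rw [card_pair hcc, card_univ, Fintype.card_fin] at h2
    omega
  cases j with
  | zero =>
    simp
  | succ j =>
    have h3 := count1 ((univ : Finset (Fin K)).erase c) c' (mem_erase.2 ⟨hcc, mem_univ _⟩) j
      (fun _ => True)
    simp only [and_true, filter_true] at h3
    rw [h3, card_powersetCard, card_erase_of_mem (mem_erase.2 ⟨hcc, mem_univ _⟩),
      card_erase_of_mem (mem_univ c), card_univ, Fintype.card_fin]
    have h4 := Nat.add_one_mul_choose_eq (K - 1 - 1) j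
    have h5 : K - 1 - 1 + 1 = K - 1 := by omega
    rw [h5] at h4
    have h6 : ((K - 1 : ℕ) : ℝ) = (K : ℝ) - 1 := by
      rw [Nat.cast_sub hK.le, Nat.cast_one]
    rw [← h6]
    have h7 : (((K - 1) * (K - 1 - 1).choose j : ℕ) : ℝ) =
        (((K - 1).choose (j + 1) * (j + 1) : ℕ) : ℝ) := by rw [h4]
    push_cast at h7 ⊢
    linarith

/-- double counting -/
theorem sum_inter {α : Type*} [DecidableEq α] (F : Finset (Finset α)) (S : Finset α) :
    ∑ Q ∈ F, ((Q ∩ S).card : ℝ) = ∑ c ∈ S, ((F.filter (fun Q => c ∈ Q)).card : ℝ) := by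
  have h1 : ∀ Q ∈ F, ((Q ∩ S).card : ℝ) = ∑ c ∈ S, if c ∈ Q then (1 : ℝ) else 0 := by
    intro Q _
    rw [Finset.sum_boole, inter_comm, ← filter_mem_eq_inter]
  rw [sum_congr rfl h1, sum_comm]
  refine sum_congr rfl fun c _ => ?_
  rw [Finset.sum_boole]

theorem sum_inter_sq {α : Type*} [DecidableEq α] (F : Finset (Finset α)) (S : Finset α) :
    ∑ Q ∈ F, ((Q ∩ S).card : ℝ) ^ 2 =
      ∑ c ∈ S, ∑ c' ∈ S, ((F.filter (fun Q => c ∈ Q ∧ c' ∈ Q)).card : ℝ) := by
  have h1 : ∀ Q ∈ F, ((Q ∩ S).card : ℝ) ^ 2 =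
      ∑ c ∈ S, ∑ c' ∈ S, if c ∈ Q ∧ c' ∈ Q then (1 : ℝ) else 0 := by
    intro Q _
    have h2 : ((Q ∩ S).card : ℝ) = ∑ c ∈ S, if c ∈ Q then (1 : ℝ) else 0 := by
      rw [Finset.sum_boole, inter_comm, ← filter_mem_eq_inter]
    rw [sq, h2, sum_mul_sum]
    refine sum_congr rfl fun c _ => sum_congr rfl fun c' _ => ?_
    by_cases h : c ∈ Q <;> by_cases h' : c' ∈ Q <;> simp [h, h']
  rw [sum_congr rfl h1, sum_comm]
  refine sum_congr rfl fun c _ => ?_
  rw [sum_comm]
  refine sum_congr rfl fun c' _ => ?_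
  rw [Finset.sum_boole]

theorem second_moment {K : ℕ} (S : Finset (Fin K)) (j : ℕ) :
    (K : ℝ) ^ 2 * ∑ Q ∈ powersetCard (j + 1) (univ : Finset (Fin K)), ((Q ∩ S).card : ℝ) ^ 2 ≤
      ((K : ℝ) * (S.card * (j + 1)) + (S.card * (j + 1)) ^ 2) * (K.choose (j + 1) : ℝ) := by
  rcases S.eq_empty_or_nonempty with rfl | hS
  · simp
  obtain ⟨c₀, hc₀⟩ := hS
  have hK0 : 0 < K := c₀.pos
  set C1 : ℝ := ((K - 1).choose j : ℝ) with hC1
  set C : ℝ := (K.choose (j + 1) : ℝ) with hC
  have hC1C : (K : ℝ) * C1 = C * (j + 1) := by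
    have h4 := Nat.add_one_mul_choose_eq (K - 1) j
    have h5 : K - 1 + 1 = K := by omega
    rw [h5] at h4
    have h7 : ((K * (K - 1).choose j : ℕ) : ℝ) = ((K.choose (j + 1) * (j + 1) : ℕ) : ℝ) := by
      rw [h4]
    push_cast at h7
    exact h7
  have hC0 : 0 ≤ C := Nat.cast_nonneg _
  have hC10 : 0 ≤ C1 := Nat.cast_nonneg _
  have hs : (S.card : ℝ) ≤ K := by
    have := card_le_univ S
    rw [Fintype.card_fin] at this
    exact_mod_cast this
  have hs1 : (1 : ℝ) ≤ S.card := by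
    exact_mod_cast Finset.card_pos.2 ⟨c₀, hc₀⟩
  -- for every `c`
  have hrow : ∀ c ∈ S, (K : ℝ) * ∑ c' ∈ S, (((powersetCard (j + 1) (univ : Finset (Fin K))).filter
      (fun Q => c ∈ Q ∧ c' ∈ Q)).card : ℝ) ≤ K * C1 + S.card * j * C1 := by
    intro c hc
    rw [← add_sum_erase _ _ hc]
    have e1 : (((powersetCard (j + 1) (univ : Finset (Fin K))).filter
        (fun Q => c ∈ Q ∧ c ∈ Q)).card : ℝ) = C1 := by
      simp only [and_self]
      rw [count_one]
    rw [e1, mul_add]
    have e2 : (K : ℝ) * ∑ c' ∈ S.erase c, (((powersetCard (j + 1) (univ : Finset (Fin K))).filter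
        (fun Q => c ∈ Q ∧ c' ∈ Q)).card : ℝ) ≤ S.card * j * C1 := by
      by_cases hK : K = 1
      · have h3 : S.erase c = ∅ := by
          rw [← card_eq_zero, card_erase_of_mem hc]
          have h4 : S.card ≤ 1 := by
            have := card_le_univ S
            rw [Fintype.card_fin] at this
            omega
          omega
        rw [h3, sum_empty, mul_zero]
        positivity
      · have hK1 : (0 : ℝ) < (K : ℝ) - 1 := by
          have : (1 : ℝ) < K := by
            exact_mod_cast (show 1 < K by omega)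
          linarith
        have h5 : (∑ c' ∈ S.erase c, (((powersetCard (j + 1) (univ : Finset (Fin K))).filter
            (fun Q => c ∈ Q ∧ c' ∈ Q)).card : ℝ)) * ((K : ℝ) - 1) =
            ((S.card : ℝ) - 1) * (j * C1) := by
          rw [sum_mul, sum_congr rfl (fun c' hc' => count_two c c' (ne_of_mem_erase hc') j),
            sum_const, card_erase_of_mem hc, nsmul_eq_mul,
            Nat.cast_sub (Finset.card_pos.2 ⟨c, hc⟩), Nat.cast_one]
        have h6 : 0 ≤ (j : ℝ) * C1 := by positivity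
        rw [← mul_le_mul_iff_left₀ hK1, mul_assoc, h5]
        have h7 : (K : ℝ) * ((S.card : ℝ) - 1) ≤ S.card * ((K : ℝ) - 1) := by linarith
        calc (K : ℝ) * (((S.card : ℝ) - 1) * (j * C1)) =
            ((K : ℝ) * ((S.card : ℝ) - 1)) * (j * C1) := by ring
          _ ≤ (S.card * ((K : ℝ) - 1)) * (j * C1) := mul_le_mul_of_nonneg_right h7 h6
          _ = S.card * j * C1 * ((K : ℝ) - 1) := by ring
    linarith
  rw [sum_inter_sq]
  have h8 : (K : ℝ) * ∑ c ∈ S, ∑ c' ∈ S, (((powersetCard (j + 1) (univ : Finset (Fin K))).filter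
      (fun Q => c ∈ Q ∧ c' ∈ Q)).card : ℝ) ≤ S.card * (K * C1 + S.card * j * C1) := by
    rw [mul_sum]
    have := sum_le_sum hrow
    rwa [sum_const, nsmul_eq_mul] at this
  have hKpos : (0 : ℝ) < K := by exact_mod_cast hK0
  calc (K : ℝ) ^ 2 * ∑ c ∈ S, ∑ c' ∈ S, (((powersetCard (j + 1)
        (univ : Finset (Fin K))).filter (fun Q => c ∈ Q ∧ c' ∈ Q)).card : ℝ)
      = K * ((K : ℝ) * ∑ c ∈ S, ∑ c' ∈ S, (((powersetCard (j + 1)
        (univ : Finset (Fin K))).filter (fun Q => c ∈ Q ∧ c' ∈ Q)).card : ℝ)) := by ring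
    _ ≤ K * (S.card * (K * C1 + S.card * j * C1)) := mul_le_mul_of_nonneg_left h8 hKpos.le
    _ = S.card * (K + S.card * j) * (K * C1) := by ring
    _ = S.card * (K + S.card * j) * (C * (j + 1)) := by rw [hC1C]
    _ ≤ ((K : ℝ) * (S.card * (j + 1)) + (S.card * (j + 1)) ^ 2) * C := by
      have h9 : 0 ≤ (S.card : ℝ) ^ 2 * (j + 1) * C := by positivity
      nlinarith [h9]

end Hyper

theorem thmHyper : StHyper := by
  classical
  intro K i p ρ hρ hi hiK hnum
  obtain ⟨j, rfl⟩ : ∃ j, i = j + 1 := ⟨i - 1, by omega⟩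
  rw [Nat.add_sub_cancel]
  have hK0 : 0 < K := by omega
  have hKpos : (0 : ℝ) < K := by exact_mod_cast hK0
  let S : Finset (Fin K) := univ.filter (fun c =>
    ¬ ρ / 2 * ((K - 1).choose j : ℝ) ≤ num (univ.erase c) j (fun Q => p (insert c Q)))
  refine ⟨S, ?_, fun c hc => ?_⟩
  swap
  · by_contra h
    exact hc (mem_filter.2 ⟨mem_univ c, h⟩)
  by_contra hcon
  rw [not_le] at hcon
  set C : ℝ := (K.choose (j + 1) : ℝ) with hC
  set C1 : ℝ := ((K - 1).choose j : ℝ) with hC1
  have hCpos : 0 < C := by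
    have := Nat.choose_pos hiK
    rw [hC]
    exact_mod_cast this
  have hC1C : (K : ℝ) * C1 = C * (j + 1) := by
    have h4 := Nat.add_one_mul_choose_eq (K - 1) j
    have h5 : K - 1 + 1 = K := by omega
    rw [h5] at h4
    have h7 : ((K * (K - 1).choose j : ℕ) : ℝ) = ((K.choose (j + 1) * (j + 1) : ℕ) : ℝ) := by
      rw [h4]
    push_cast at h7
    exact h7
  set All := powersetCard (j + 1) (univ : Finset (Fin K)) with hAll
  set F := All.filter p with hF
  set lam : ℝ := S.card * (j + 1) / K with hlam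
  have hlam4 : 4 < ρ * lam := by
    rw [hlam, ← mul_div_assoc, lt_div_iff₀ hKpos]
    push_cast at hcon
    linarith
  have hlam0 : 0 < lam := by
    by_contra h
    rw [not_lt] at h
    nlinarith
  have hB : ρ * C ≤ (F.card : ℝ) := by
    have : (num univ (j + 1) p : ℝ) = (F.card : ℝ) := by
      unfold num
      rfl
    rw [← this]
    exact hnum
  -- the number of incidences is small
  have hA : ∑ Q ∈ F, ((Q ∩ S).card : ℝ) ≤ ρ / 2 * (lam * C) := by
    rw [Hyper.sum_inter]
    have h1 : ∀ c ∈ S, ((F.filter (fun Q => c ∈ Q)).card : ℝ) ≤ ρ / 2 * C1 := by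
      intro c hc
      have h2 := (mem_filter.1 hc).2
      rw [not_le] at h2
      have h3 : (F.filter (fun Q => c ∈ Q)).card =
          num (univ.erase c) j (fun Q => p (insert c Q)) := by
        rw [hF, filter_filter]
        have h4 := Hyper.count1 (univ : Finset (Fin K)) c (mem_univ c) j p
        unfold num
        rw [← h4]
        congr 1
        apply filter_congr
        intro Q _
        exact and_comm
      rw [h3]
      exact h2.le
    refine (sum_le_sum h1).trans ?_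
    rw [sum_const, nsmul_eq_mul]
    have h5 : (S.card : ℝ) * C1 = lam * C := by
      rw [hlam, div_mul_eq_mul_div, eq_div_iff hKpos.ne']
      linear_combination (S.card : ℝ) * hC1C
    rw [mul_left_comm, h5]
  -- the second moment
  have hV : ∑ Q ∈ All, (((Q ∩ S).card : ℝ) - lam) ^ 2 ≤ lam * C := by
    have h1 := Hyper.second_moment S j
    have h2 : ∑ Q ∈ All, ((Q ∩ S).card : ℝ) = lam * C := by
      rw [Hyper.sum_inter, sum_congr rfl (fun c _ => by rw [hAll, Hyper.count_one]), sum_const,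
        nsmul_eq_mul, hlam, div_mul_eq_mul_div, eq_div_iff hKpos.ne']
      linear_combination (S.card : ℝ) * hC1C
    have h3 : ∑ Q ∈ All, ((Q ∩ S).card : ℝ) ^ 2 ≤ (lam + lam ^ 2) * C := by
      have h4 : (0 : ℝ) < (K : ℝ) ^ 2 := by positivity
      rw [← mul_le_mul_iff_right₀ h4]
      refine h1.trans (le_of_eq ?_)
      rw [hlam, ← hC]
      field_simp
    have h5 : ∑ Q ∈ All, (((Q ∩ S).card : ℝ) - lam) ^ 2 =
        ∑ Q ∈ All, ((Q ∩ S).card : ℝ) ^ 2 - 2 * lam * ∑ Q ∈ All, ((Q ∩ S).card : ℝ) +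
          C * lam ^ 2 := by
      rw [mul_sum, ← sum_sub_distrib]
      have h6 : C * lam ^ 2 = ∑ Q ∈ All, lam ^ 2 := by
        rw [sum_const, nsmul_eq_mul, hAll, card_powersetCard, card_univ, Fintype.card_fin]
      rw [h6, ← sum_add_distrib]
      refine sum_congr rfl fun Q _ => ?_
      ring
    rw [h5, h2]
    nlinarith
  have hVF : ∑ Q ∈ F, (((Q ∩ S).card : ℝ) - lam) ^ 2 ≤ lam * C :=
    (sum_le_sum_of_subset_of_nonneg (filter_subset _ _) (fun _ _ _ => sq_nonneg _)).trans hV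
  -- each member of the family
  have hQ : ∀ Q ∈ F, lam - 1 / ρ ≤ ((Q ∩ S).card : ℝ) + ρ / 4 * (((Q ∩ S).card : ℝ) - lam) ^ 2 := by
    intro Q _
    have h1 : 0 ≤ ρ / 4 * (((Q ∩ S).card : ℝ) - lam + 2 / ρ) ^ 2 := by positivity
    have h2 : ρ / 4 * (((Q ∩ S).card : ℝ) - lam + 2 / ρ) ^ 2 =
        ρ / 4 * (((Q ∩ S).card : ℝ) - lam) ^ 2 + (((Q ∩ S).card : ℝ) - lam) + 1 / ρ := by
      field_simp
      ring
    linarith
  have hsum := sum_le_sum hQ
  rw [sum_const, nsmul_eq_mul, sum_add_distrib, ← mul_sum] at hsum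
  have h10 : 0 < lam - 1 / ρ := by
    have : 1 / ρ < lam := by
      rw [div_lt_iff₀ hρ]
      linarith
    linarith
  have h11 : ρ * C * (lam - 1 / ρ) ≤ (F.card : ℝ) * (lam - 1 / ρ) :=
    mul_le_mul_of_nonneg_right hB h10.le
  have h12 : ρ * C * (lam - 1 / ρ) = C * (ρ * lam) - C := by
    field_simp
  have h13 : ρ / 4 * ∑ Q ∈ F, (((Q ∩ S).card : ℝ) - lam) ^ 2 ≤ ρ / 4 * (lam * C) :=
    mul_le_mul_of_nonneg_left hVF (by positivity)
  nlinarith

end Pool.Agent.Lib.MP_b1acb3_co.One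

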