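import Pool.Agent.Lib.MP_b1acb3_co.One.Stmts

/-!
Module Join: the last ear as one of the ears.
-/

namespace Pool.Agent.Lib.MP_b1acb3_co.One

open Finset Uni Leaf

theorem thmJoin : StJoin := by
  intro V _ G W W₂ W₁ q k m P m' P' hk hS
  obtain ⟨E1, E2, hst, hsp⟩ := hS
  let m₁ : Fin (q + 1) → ℕ := Fin.snoc (α := fun _ => ℕ) m m'
  let P₁ : Fin (q + 1) → ℕ → V := Fin.snoc (α := fun _ => ℕ → V) P P'
  have hm1 : ∀ j : Fin q, m₁ j.castSucc = m j := fun j => Fin.snoc_castSucc _ _ _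
  have hP1 : ∀ j : Fin q, P₁ j.castSucc = P j := fun j => Fin.snoc_castSucc _ _ _
  have hm2 : m₁ (Fin.last q) = m' := Fin.snoc_last _ _
  have hP2 : P₁ (Fin.last q) = P' := Fin.snoc_last _ _
  have hin1 : ∀ (i : Fin q) (j : ℕ), 1 ≤ j → j ≤ m i → P i j ∈ W₂ ∧ P i j ∉ W₁ := E1.inner
  have hin2 : ∀ j, 1 ≤ j → j ≤ m' → P' j ∈ W ∧ P' j ∉ W₂ := E2.inner 0
  refine ⟨m₁, P₁, ?_, fun j => ⟨hm1 j, hP1 j⟩, hm2, hP2⟩
  constructor
  · exact E1.sub.trans E2.sub
  · intro i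
    rcases i.eq_castSucc_or_eq_last with ⟨i, rfl⟩ | rfl
    · rw [hm1]; exact E1.long i
    · rw [hm2]; exact E2.long 0
  · intro i
    rcases i.eq_castSucc_or_eq_last with ⟨i, rfl⟩ | rfl
    · rw [hP1]; exact E1.start i
    · rw [hP2]; exact hst
  · intro i
    rcases i.eq_castSucc_or_eq_last with ⟨i, rfl⟩ | rfl
    · rw [hP1, hm1]; exact E1.stop i
    · rw [hP2, hm2]; exact hsp
  · intro i j h1 h2
    rcases i.eq_castSucc_or_eq_last with ⟨i, rfl⟩ | rfl
    · rw [hP1]; rw [hm1] at h2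
      exact ⟨E2.sub (hin1 i j h1 h2).1, (hin1 i j h1 h2).2⟩
    · rw [hP2]; rw [hm2] at h2
      exact ⟨(hin2 j h1 h2).1, fun h => (hin2 j h1 h2).2 (E1.sub h)⟩
  · intro i j i' j' h1 h2 h3 h4 h5
    rcases i.eq_castSucc_or_eq_last with ⟨i, rfl⟩ | rfl <;>
      rcases i'.eq_castSucc_or_eq_last with ⟨i', rfl⟩ | rfl
    · rw [hP1, hP1] at h5; rw [hm1] at h2 h4
      obtain ⟨h6, h7⟩ := E1.inj i j i' j' h1 h2 h3 h4 h5
      exact ⟨by rw [h6], h7⟩
    · rw [hP1, hP2] at h5; rw [hm1] at h2; rw [hm2] at h4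
      exact absurd (hin1 i j h1 h2).1 (by rw [h5]; exact (hin2 j' h3 h4).2)
    · rw [hP1, hP2] at h5; rw [hm2] at h2; rw [hm1] at h4
      exact absurd (hin1 i' j' h3 h4).1 (by rw [← h5]; exact (hin2 j h1 h2).2)
    · rw [hP2] at h5; rw [hm2] at h2 h4
      exact ⟨rfl, (E2.inj 0 j 0 j' h1 h2 h3 h4 h5).2⟩
  · intro v hv hv1
    by_cases hv2 : v ∈ W₂
    · obtain ⟨i, j, h1, h2, h3⟩ := E1.cover v hv2 hv1
      exact ⟨i.castSucc, j, h1, by rw [hm1]; exact h2, by rw [hP1]; exact h3⟩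
    · obtain ⟨i, j, h1, h2, h3⟩ := E2.cover v hv hv2
      exact ⟨Fin.last q, j, h1, by rw [hm2]; exact h2, by rw [hP2]; exact h3⟩
  · intro i j h1
    rcases i.eq_castSucc_or_eq_last with ⟨i, rfl⟩ | rfl
    · rw [hP1]; rw [hm1] at h1; exact E1.adj i j h1
    · rw [hP2]; rw [hm2] at h1; exact E2.adj 0 j h1
  · intro i j u h1 h2 hu hadj
    rcases i.eq_castSucc_or_eq_last with ⟨i, rfl⟩ | rfl
    · rw [hP1] at hadj ⊢; rw [hm1] at h2
      by_cases hu2 : u ∈ W₂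
      · exact E1.only i j u h1 h2 hu2 hadj
      · exfalso
        obtain ⟨_, j', h3, h4, h5⟩ := E2.cover u hu hu2
        have h4' : j' ≤ m' := h4
        have h5' : P' j' = u := h5
        have hin := hin1 i j h1 h2
        have h6 : P i j = P' (j' - 1) ∨ P i j = P' (j' + 1) :=
          E2.only 0 j' (P i j) h3 h4 (E2.sub hin.1) (by
            rw [h5']; exact hadj.symm)
        rcases h6 with h6 | h6
        · rcases Nat.eq_zero_or_pos (j' - 1) with h7 | h7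
          · rw [h7] at h6
            exact hin.2 (by rw [h6]; exact hst)
          · exact (hin2 (j' - 1) h7 (by omega)).2 (by rw [← h6]; exact hin.1)
        · rcases Nat.lt_or_ge m' (j' + 1) with h7 | h7
          · have h8 : j' + 1 = m' + 1 := by omega
            rw [h8] at h6
            exact hin.2 (by rw [h6]; exact hsp)
          · exact (hin2 (j' + 1) (by omega) h7).2 (by rw [← h6]; exact hin.1)
    · rw [hP2] at hadj ⊢; rw [hm2] at h2
      exact E2.only 0 j u h1 h2 hu hadj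
  · intro i j h1 h2
    rcases i.eq_castSucc_or_eq_last with ⟨i, rfl⟩ | rfl
    · rw [hP1]; rw [hm1] at h2; exact E1.ne i j h1 h2
    · rw [hP2]; rw [hm2] at h2; exact E2.ne 0 j h1 h2

end Pool.Agent.Lib.MP_b1acb3_co.One
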