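import Pool.Agent.Lib.MP_b1acb3_co.One.Stmts

/-!
Labels of the vertices.
-/

namespace Pool.Agent.Lib.MP_b1acb3_co.One

open Finset Uni Leaf

namespace ModLamb

open Classical in
/-- The vertices in two sets with negligible intersection. -/
noncomputable def E0 {n K : ℕ} (T : Finset (Fin K) → Finset (Fin n)) (ν : ℝ) : Finset (Fin n) :=
  (univ : Finset (Finset (Fin K) × Finset (Fin K))).biUnion
    (fun q => if mu (T q.1 ∩ T q.2) ≤ ν then T q.1 ∩ T q.2 else ∅)

theorem mem_E0 {n K : ℕ} {T : Finset (Fin K) → Finset (Fin n)} {ν : ℝ} {w w' : Finset (Fin K)}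
    {p : Fin n} (h : mu (T w ∩ T w') ≤ ν) (h1 : p ∈ T w) (h2 : p ∈ T w') : p ∈ E0 T ν := by
  unfold E0
  rw [mem_biUnion]
  refine ⟨(w, w'), mem_univ _, ?_⟩
  rw [if_pos h]
  exact mem_inter.2 ⟨h1, h2⟩

theorem mu_E0 {n K : ℕ} (T : Finset (Fin K) → Finset (Fin n)) {ν : ℝ} (hν : 0 ≤ ν) :
    mu (E0 T ν) ≤ 4 ^ K * ν := by
  classical
  unfold E0
  refine (mu_biUnion_le _ _).trans ?_
  refine (sum_le_sum (g := fun _ => ν) fun q _ => ?_).trans ?_
  · split_ifs with h
    · exact h
    · rw [mu_empty]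
      exact hν
  · rw [sum_const, card_univ, Fintype.card_prod, Fintype.card_finset, Fintype.card_fin,
      nsmul_eq_mul, ← mul_pow]
    norm_num

/-- The mass that moves from `T` out of `T'`. -/
theorem avg_out {n K : ℕ} {P : Fin K → Matrix (Fin n) (Fin n) ℝ} (hP : Markov P) {θ : ℝ}
    (hθ : 0 ≤ θ) (a : Fin K) (S S' : Finset (Fin n)) (h : ∀ y, y ∉ S' → app P a S y ≤ θ) :
    avg (fun x => if x ∈ S then app P a S'ᶜ x else 0) ≤ θ := by
  classical
  have hn : (0 : ℝ) < n := by exact_mod_cast hP.npos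
  unfold avg
  rw [div_le_iff₀ hn, ← sum_filter, filter_mem_eq_inter, univ_inter,
    sum_app_symm hP a S'ᶜ S]
  calc ∑ y ∈ S'ᶜ, app P a S y ≤ ∑ y ∈ S'ᶜ, θ :=
        sum_le_sum fun y hy => h y (mem_compl.1 hy)
    _ = (S'ᶜ.card : ℝ) * θ := by rw [sum_const, nsmul_eq_mul]
    _ ≤ (n : ℝ) * θ := by
        apply mul_le_mul_of_nonneg_right _ hθ
        have h1 := card_le_univ S'ᶜ
        rw [Fintype.card_fin] at h1
        exact_mod_cast h1
    _ = θ * n := mul_comm _ _

end ModLamb

open ModLamb in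
theorem thmLamb : StLamb := by
  classical
  intro n K P T θ ν ε m s C Cf D τ hL hcov
  have hP := hL.markov
  obtain ⟨c₁, hc₁⟩ := hL.ne
  choose a₀ ha₀ _ u₀ hu₀ hp₀ using fun p => hcov p c₁
  let lam : Fin n → Fin D.card → ZMod 2 := fun p => ∑ b ∈ insert (a₀ p) (u₀ p), τ b
  refine ⟨lam, fun a ha => ?_⟩
  -- labels away from the exceptional set
  have hlab : ∀ p, p ∉ E0 T ν → ∀ c ∈ Cf, ∀ w ⊆ insert c C, w.card ≤ D.card + 3 → p ∈ T w →
      lam p = ∑ b ∈ w, τ b := by
    intro p hp c hc w hw hwc hpw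
    refine (hL.tau c hc _ ?_ w hw ?_ hwc).2 ?_
    · refine (insert_subset (mem_sdiff.1 (ha₀ p)).1 ((hu₀ p).trans hL.subD)).trans
        (subset_insert c C)
    · exact (card_insert_le _ _).trans (by have := card_le_card (hu₀ p); omega)
    · by_contra h
      exact hp (mem_E0 (not_lt.1 h) (hp₀ p) hpw)
  have haD : a ∉ D := by
    rcases mem_union.1 ha with h | h
    · exact (mem_sdiff.1 h).2
    · exact fun h1 => (disjoint_left.1 hL.disj) h (hL.subD h1)
  obtain ⟨c, hc, hac⟩ : ∃ c ∈ Cf, a ∈ insert c C := by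
    rcases mem_union.1 ha with h | h
    · exact ⟨c₁, hc₁, mem_insert_of_mem (mem_sdiff.1 h).1⟩
    · exact ⟨a, h, mem_insert_self a C⟩
  have hat := hL.atoms c hc
  let W : Finset (Finset (Fin K)) := univ.filter (fun w => w ⊆ C ∧ a ∉ w)
  let g : Fin n → ℝ := fun x => ((if x ∈ E0 T ν then (1 : ℝ) else 0) + app P a (E0 T ν) x) +
    ∑ w ∈ W, (if x ∈ T w then app P a (T (insert a w))ᶜ x else 0)
  have hW0 : ∀ x, ∀ w ∈ W, (0 : ℝ) ≤ (if x ∈ T w then app P a (T (insert a w))ᶜ x else 0) := by
    intro x w _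
    split_ifs
    · exact app_nonneg hP _ _ _
    · exact le_rfl
  have hpt : ∀ x, ∑ y ∈ univ.filter (fun y => lam y ≠ lam x + τ a), P a x y ≤ g x := by
    intro x
    have hs0 := sum_nonneg (hW0 x)
    have ha0 := app_nonneg hP a (E0 T ν) x
    by_cases hx : x ∈ E0 T ν
    · have h1 : ∑ y ∈ univ.filter (fun y => lam y ≠ lam x + τ a), P a x y ≤ 1 :=
        app_le_one hP a _ x
      have h2 : g x = ((if x ∈ E0 T ν then (1 : ℝ) else 0) + app P a (E0 T ν) x) +
        ∑ w ∈ W, (if x ∈ T w then app P a (T (insert a w))ᶜ x else 0) := rfl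
      rw [h2, if_pos hx]
      linarith
    · obtain ⟨b, hb, hba, u, hu, hxw⟩ := hcov x a
      obtain ⟨hbC, hbD⟩ := mem_sdiff.1 hb
      have hwC : insert b u ⊆ C := insert_subset hbC (hu.trans hL.subD)
      have haw : a ∉ insert b u := by
        rw [mem_insert, not_or]
        exact ⟨fun h => hba h.symm, fun h => haD (hu h)⟩
      have hwcard : (insert b u).card ≤ D.card + 1 :=
        (card_insert_le _ _).trans (by have := card_le_card hu; omega)
      have hwW : insert b u ∈ W := mem_filter.2 ⟨mem_univ _, hwC, haw⟩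
      have hlx : lam x = ∑ d ∈ insert b u, τ d :=
        hlab x hx c hc _ (hwC.trans (subset_insert c C)) (by omega) hxw
      have hsub : univ.filter (fun y => lam y ≠ lam x + τ a) ⊆
          E0 T ν ∪ (T (insert a (insert b u)))ᶜ := by
        intro y hy
        rw [mem_filter] at hy
        rw [mem_union]
        by_cases hyE : y ∈ E0 T ν
        · exact Or.inl hyE
        · right
          rw [mem_compl]
          intro hyT
          apply hy.2
          have hly : lam y = ∑ d ∈ insert a (insert b u), τ d :=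
            hlab y hyE c hc _ (insert_subset hac (hwC.trans (subset_insert c C)))
              ((card_insert_le _ _).trans (by omega)) hyT
          rw [hly, sum_insert haw, hlx, add_comm]
      have h1 : ∑ y ∈ univ.filter (fun y => lam y ≠ lam x + τ a), P a x y ≤
          app P a (E0 T ν ∪ (T (insert a (insert b u)))ᶜ) x := app_mono hP a hsub x
      have h2 : app P a (E0 T ν ∪ (T (insert a (insert b u)))ᶜ) x ≤
          app P a (E0 T ν) x + app P a (T (insert a (insert b u)))ᶜ x := by
        have h3 : app P a (E0 T ν ∪ (T (insert a (insert b u)))ᶜ) x +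
            app P a (E0 T ν ∩ (T (insert a (insert b u)))ᶜ) x =
            app P a (E0 T ν) x + app P a (T (insert a (insert b u)))ᶜ x := sum_union_inter
        have h4 := app_nonneg hP a (E0 T ν ∩ (T (insert a (insert b u)))ᶜ) x
        linarith
      have h5 : (if x ∈ T (insert b u) then app P a (T (insert a (insert b u)))ᶜ x else 0) ≤
          ∑ w ∈ W, (if x ∈ T w then app P a (T (insert a w))ᶜ x else 0) :=
        single_le_sum (f := fun w => if x ∈ T w then app P a (T (insert a w))ᶜ x else 0)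
          (hW0 x) hwW
      rw [if_pos hxw] at h5
      have h6 : g x = ((if x ∈ E0 T ν then (1 : ℝ) else 0) + app P a (E0 T ν) x) +
        ∑ w ∈ W, (if x ∈ T w then app P a (T (insert a w))ᶜ x else 0) := rfl
      rw [h6, if_neg hx]
      linarith
  refine (avg_mono hpt).trans ?_
  have hg : avg g = (mu (E0 T ν) + mu (E0 T ν)) +
      ∑ w ∈ W, avg (fun x => if x ∈ T w then app P a (T (insert a w))ᶜ x else 0) := by
    have e1 : avg g = avg (fun x => (if x ∈ E0 T ν then (1 : ℝ) else 0) + app P a (E0 T ν) x) +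
        avg (fun x => ∑ w ∈ W, (if x ∈ T w then app P a (T (insert a w))ᶜ x else 0)) :=
      avg_add _ _
    rw [e1, avg_add, avg_indicator, avg_app hP, avg_sum]
  rw [hg]
  have hE := mu_E0 T hL.ν0
  have hsum : ∑ w ∈ W, avg (fun x => if x ∈ T w then app P a (T (insert a w))ᶜ x else 0) ≤
      4 ^ K * θ := by
    have h1 : ∀ w ∈ W, avg (fun x => if x ∈ T w then app P a (T (insert a w))ᶜ x else 0) ≤ θ := by
      intro w hw
      obtain ⟨_, hwC, haw⟩ := mem_filter.1 hw
      exact avg_out hP hL.θ0 a (T w) (T (insert a w)) fun y hy =>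
        hat.grow w (hwC.trans (subset_insert c C)) a hac haw y hy
    refine (sum_le_sum h1).trans ?_
    rw [sum_const, nsmul_eq_mul]
    apply mul_le_mul_of_nonneg_right _ hL.θ0
    have h2 : W.card ≤ 2 ^ K := by
      have := card_le_univ W
      rwa [Fintype.card_finset, Fintype.card_fin] at this
    have h3 : (W.card : ℝ) ≤ 2 ^ K := by exact_mod_cast h2
    refine h3.trans ?_
    exact pow_le_pow_left₀ (by norm_num) (by norm_num) K
  calc (mu (E0 T ν) + mu (E0 T ν)) +
      ∑ w ∈ W, avg (fun x => if x ∈ T w then app P a (T (insert a w))ᶜ x else 0)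
      ≤ (4 ^ K * ν + 4 ^ K * ν) + 4 ^ K * θ := by linarith
    _ = 4 ^ K * (2 * ν + θ) := by ring

end Pool.Agent.Lib.MP_b1acb3_co.One
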