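import Pool.Agent.Lib.MP_b1acb3_co.One.Stmts
import Pool.Agent.Lib.MP_b1acb3_co.Leaf.Last

/-!
(LastR) The last ear: a rainbow path with a prescribed set of colours.
-/

namespace Pool.Agent.Lib.MP_b1acb3_co.One

open Finset Uni Leaf

theorem thmLastR (hP : StPathR) : StLastR := by
  classical
  intro V _ G ϑ hϑ
  have hK : 0 < numEdges G + 1 := Nat.succ_pos _
  have hKR : (0 : ℝ) < ((numEdges G + 1 : ℕ) : ℝ) := by exact_mod_cast hK
  obtain ⟨n₁, hn₁⟩ := hP (numEdges G + 1) (Fintype.card V) ϑ hϑ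
  obtain ⟨n₃, hn₃⟩ := exists_nat_gt
    (2 * ((numEdges G + 1 : ℕ) : ℝ) * ((Fintype.card V : ℝ) + 1))
  refine ⟨1 / (2 * ((numEdges G + 1 : ℕ) : ℝ)), by positivity, n₁ + n₃ + 1, ?_⟩
  intro n hn c B hB W W₂ k m P _ hW hE f hf hfc Q hQ hcol hmem
  have hn0 : 0 < n := by omega
  have hnR : (0 : ℝ) < n := by exact_mod_cast hn0
  have hlow : ∀ i k, Fintype.card V < colourDegree c i k := by
    intro i k
    have h1 := hB.deg_ge i k
    have h4 : (n₃ : ℝ) ≤ n := by exact_mod_cast (by omega : n₃ ≤ n)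
    have h5 : (Fintype.card V : ℝ) + 1 < (n : ℝ) / (2 * ((numEdges G + 1 : ℕ) : ℝ)) := by
      rw [lt_div_iff₀ (by positivity)]
      linarith
    have h6 : (n : ℝ) * (1 / (2 * ((numEdges G + 1 : ℕ) : ℝ))) =
        (n : ℝ) / (2 * ((numEdges G + 1 : ℕ) : ℝ)) := by ring
    have h7 : (n : ℝ) / ((numEdges G + 1 : ℕ) : ℝ) =
        2 * ((n : ℝ) / (2 * ((numEdges G + 1 : ℕ) : ℝ))) := by
      field_simp
    have h8 : (Fintype.card V : ℝ) < colourDegree c i k := by linarith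
    exact_mod_cast h8
  have hZcard : (univ.image f).card ≤ Fintype.card V :=
    card_image_le.trans (le_of_eq card_univ)
  obtain ⟨z, hz0, hz1, hzT, hzc, hzZ, hzi⟩ := hn₁ n (by omega) c Q (f (P 0)) (f (P (m + 1)))
    hmem (univ.image f) hZcard
  rw [hQ] at hz1 hzT hzc hzZ hzi
  obtain ⟨f₁, hf₁, hf₁'⟩ := ModLast.place G W W₂ k m P hE c f hf hfc Q hcol z hz0 hz1 hzT hzc
    (fun i h1 h2 v h => (hzZ i h1 h2).1 (h ▸ mem_image_of_mem f (mem_univ v))) hzi
  obtain ⟨g, hg1, hg2⟩ := extend G W hW c hlow f₁ hf₁ hf₁' ((univ : Finset V).card - W.card) univ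
    (subset_univ _) (by have := card_le_card (subset_univ W); omega)
  refine ⟨g, hg1, ?_⟩
  intro a ha b hb hab
  exact hg2 ((mem_edgesIn G univ a).2 ⟨ha, fun _ _ => mem_univ _⟩)
    ((mem_edgesIn G univ b).2 ⟨hb, fun _ _ => mem_univ _⟩) hab

end Pool.Agent.Lib.MP_b1acb3_co.One
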