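import Pool.Agent.Lib.MP_b1acb3_co.One.Stmts
import Pool.Agent.Lib.MP_b1acb3_co.Uni.R

/-!
Module (Local): the local structure.
-/

namespace Pool.Agent.Lib.MP_b1acb3_co.One

open Finset Uni Leaf

namespace ModLocal

variable {n K : ℕ} {P : Fin K → Matrix (Fin n) (Fin n) ℝ} {R : Finset (Fin K) → Finset (Fin n)}
  {θ : ℝ} {d : ℕ}

theorem app_le_mu (hP : Markov P) (c : Fin K) (S : Finset (Fin n)) (y : Fin n) :
    app P c S y ≤ K * mu S := by
  rw [← sum_app hP S y]
  exact single_le_sum (f := fun c => app P c S y) (fun c _ => app_nonneg hP c S y) (mem_univ c)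

theorem bump (hP : Markov P) (c : Fin K) (S S' : Finset (Fin n)) (hθ : 0 ≤ θ)
    (h : ∀ y, y ∉ S' → app P c S y ≤ θ) : mu S ≤ θ + K * mu S * mu S' := by
  have h1 : avg (fun y => app P c S y) ≤
      avg (fun y => θ + K * mu S * (if y ∈ S' then (1 : ℝ) else 0)) := by
    apply avg_mono
    intro y
    by_cases hy : y ∈ S'
    · simp only [hy, if_true, mul_one]
      have := app_le_mu hP c S y
      linarith
    · simp only [hy, if_false, mul_zero, add_zero]
      exact h y hy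
  rw [avg_app hP, avg_add, avg_const hP.npos, avg_mul_left, avg_indicator] at h1
  exact h1

theorem growT (h : Sys P R θ d) (A : Finset (Fin K)) (V : Finset (Finset (Fin K)))
    (u : Finset (Fin K)) (c : Fin K) (hc : c ∉ A ∪ un V ∪ u) (y : Fin n)
    (hy : y ∉ Tv R A (sh V (insert c u))) : app P c (Tv R A (sh V u)) y ≤ θ := by
  rw [mem_Tv_sh] at hy
  push Not at hy
  obtain ⟨v, hv, hy⟩ := hy
  simp only [mem_union, not_or] at hc
  have h1 : A ∪ (v ∪ insert c u) = insert c (A ∪ (v ∪ u)) := by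
    rw [union_insert, union_insert]
  have h2 : c ∉ A ∪ (v ∪ u) := by
    simp only [mem_union, not_or]
    exact ⟨hc.1.1, fun hcv => hc.1.2 (mem_un.2 ⟨v, hv, hcv⟩), hc.2⟩
  rw [h1] at hy
  refine (app_mono h.markov c ?_ y).trans (h.grow _ c h2 y hy)
  intro z hz
  exact (mem_Tv_sh.1 hz) v hv

theorem sh_empty (V : Finset (Finset (Fin K))) : sh V ∅ = V := by
  unfold sh
  simp

theorem mem_sh {V : Finset (Finset (Fin K))} {u x : Finset (Fin K)} :
    x ∈ sh V u ↔ ∃ v ∈ V, v ∪ u = x := by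
  unfold sh
  rw [mem_image]

theorem sh_sh (V : Finset (Finset (Fin K))) (u : Finset (Fin K)) (c : Fin K) :
    sh (sh V u) {c} = sh V (insert c u) := by
  ext x
  simp only [mem_sh]
  constructor
  · rintro ⟨_, ⟨v, hv, rfl⟩, rfl⟩
    refine ⟨v, hv, ?_⟩
    rw [union_assoc, union_comm u, insert_eq]
  · rintro ⟨v, hv, rfl⟩
    refine ⟨v ∪ u, ⟨v, hv, rfl⟩, ?_⟩
    rw [union_assoc, union_comm u, insert_eq]

theorem un_sh_sub (V : Finset (Finset (Fin K))) (u : Finset (Fin K)) :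
    un (sh V u) ⊆ un V ∪ u := by
  intro a ha
  obtain ⟨x, hx, hax⟩ := mem_un.1 ha
  obtain ⟨v, hv, rfl⟩ := mem_sh.1 hx
  rcases mem_union.1 hax with h | h
  · exact mem_union_left _ (mem_un.2 ⟨v, hv, h⟩)
  · exact mem_union_right _ h

theorem card_mem {V : Finset (Finset (Fin K))} {v : Finset (Fin K)} (hv : v ∈ V) :
    v.card ≤ (un V).card := card_le_card fun _ ha => mem_un.2 ⟨v, hv, ha⟩

theorem abs_mu_le (hP : Markov P) (c : Fin K) (T T' : Finset (Fin n)) :
    |mu T - mu T'| ≤ avg (fun y => |app P c T y - if y ∈ T' then 1 else 0|) := by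
  have h1 : mu T - mu T' = avg (fun y => app P c T y - if y ∈ T' then (1 : ℝ) else 0) := by
    rw [avg_sub, avg_app hP, avg_indicator]
  rw [h1]
  unfold avg
  rw [abs_div, Nat.abs_cast]
  exact div_le_div_of_nonneg_right (abs_sum_le_sum_abs _ _) (Nat.cast_nonneg n)

theorem mu_sdiff_add (T T' : Finset (Fin n)) : mu (T \ T') + mu (T ∩ T') = mu T := by
  unfold mu
  rw [← add_div]
  congr 1
  exact_mod_cast card_sdiff_add_card_inter T T'

end ModLocal

open ModLocal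

/-- (Local) The local structure. -/
theorem thmLocal (hN : StNearInt) (hS : StShift) : StLocal := by
  intro n K Y P R θ S A V D C' h hY hL hYK hθ hθK hO hG hC' hC'c hsz hVc
  have hP := h.markov
  have hY1000 : (1000 : ℝ) ≤ Y := by exact_mod_cast hY
  have hY0 : (0 : ℝ) < Y := by linarith
  have hYK' : (Y : ℝ) ^ 60 ≤ K := by exact_mod_cast hYK
  have hY60 : (1 : ℝ) ≤ (Y : ℝ) ^ 60 := one_le_pow₀ (by linarith)
  have hK0 : (0 : ℝ) < K := by linarith
  have hK1 : (1 : ℝ) ≤ K := by linarith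
  have hYn : 1 ≤ Y := by omega
  have hY3 : 1000000 * Y ≤ Y ^ 3 := by
    have : Y ^ 3 = Y ^ 2 * Y := by ring
    rw [this]
    exact Nat.mul_le_mul_right _ (by nlinarith)
  -- the numbers
  have hk2 : (K : ℝ) ^ 2 * θ ≤ 1 / (Y : ℝ) ^ 60 := by
    rw [le_div_iff₀ (by positivity)]
    have h1 : (K : ℝ) ≤ (K : ℝ) ^ 8 := by
      calc (K : ℝ) = (K : ℝ) ^ 1 := (pow_one _).symm
        _ ≤ (K : ℝ) ^ 8 := pow_le_pow_right₀ hK1 (by norm_num)
    calc (K : ℝ) ^ 2 * θ * (Y : ℝ) ^ 60 ≤ (K : ℝ) ^ 2 * θ * (K : ℝ) ^ 8 :=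
          mul_le_mul_of_nonneg_left (hYK'.trans h1) (by positivity)
      _ = θ * (K : ℝ) ^ 10 := by ring
      _ ≤ 1 := hθK
  have he1 : ((2 * Y ^ 3 : ℕ) : ℝ) * (((2 * Y ^ 3 : ℕ) : ℝ) + 1) / (Y : ℝ) ^ 16 +
      3 * (((2 * Y ^ 3 : ℕ) : ℝ) + 1) * (K : ℝ) ^ 2 * θ ≤ 6 / (Y : ℝ) ^ 10 := by
    push_cast
    have h3 : (1 : ℝ) ≤ (Y : ℝ) ^ 3 := one_le_pow₀ (by linarith)
    have h1 : 2 * (Y : ℝ) ^ 3 * (2 * (Y : ℝ) ^ 3 + 1) / (Y : ℝ) ^ 16 ≤ 5 * (1 / (Y : ℝ) ^ 10) := by
      have : 5 * (1 / (Y : ℝ) ^ 10) = 5 * (Y : ℝ) ^ 6 / (Y : ℝ) ^ 16 := by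
        field_simp
      rw [this]
      apply div_le_div_of_nonneg_right _ (by positivity)
      have h4 : (Y : ℝ) ^ 6 = (Y : ℝ) ^ 3 * (Y : ℝ) ^ 3 := by ring
      have h5 : (1000 : ℝ) ≤ (Y : ℝ) ^ 3 := by
        calc (1000 : ℝ) ≤ Y := hY1000
          _ = (Y : ℝ) ^ 1 := (pow_one _).symm
          _ ≤ (Y : ℝ) ^ 3 := pow_le_pow_right₀ (by linarith) (by norm_num)
      rw [h4]
      nlinarith
    have h2 : 3 * (2 * (Y : ℝ) ^ 3 + 1) * (K : ℝ) ^ 2 * θ ≤ 1 / (Y : ℝ) ^ 10 := by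
      have h4 : 3 * (2 * (Y : ℝ) ^ 3 + 1) ≤ (Y : ℝ) ^ 4 := by
        have : (Y : ℝ) ^ 4 = Y * (Y : ℝ) ^ 3 := by ring
        rw [this]
        nlinarith
      have h5 : 3 * (2 * (Y : ℝ) ^ 3 + 1) * (K : ℝ) ^ 2 * θ ≤ (Y : ℝ) ^ 4 * (1 / (Y : ℝ) ^ 60) := by
        calc 3 * (2 * (Y : ℝ) ^ 3 + 1) * (K : ℝ) ^ 2 * θ
            = 3 * (2 * (Y : ℝ) ^ 3 + 1) * ((K : ℝ) ^ 2 * θ) := by ring
          _ ≤ (Y : ℝ) ^ 4 * (1 / (Y : ℝ) ^ 60) := mul_le_mul h4 hk2 (by positivity) (by positivity)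
      refine h5.trans ?_
      rw [mul_one_div, div_le_div_iff₀ (by positivity) (by positivity), one_mul, ← pow_add]
      exact pow_le_pow_right₀ (by linarith) (by norm_num)
    have h6 : 6 / (Y : ℝ) ^ 10 = 5 * (1 / (Y : ℝ) ^ 10) + 1 / (Y : ℝ) ^ 10 := by ring
    rw [h6]
    exact add_le_add h1 h2
  -- shifting
  have hsh : ∀ V' : Finset (Finset (Fin K)), V'.Nonempty → V'.card ≤ 2 * Y ^ 3 →
      (∀ v ∈ V', v ⊆ S \ A ∧ v.card ≤ 2 * Y ^ 3) → ∀ c, (c ∈ S ∨ c ∈ C') → c ∉ A → c ∉ un V' →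
      K * avg (fun y => |app P c (Tv R A V') y -
        if y ∈ Tv R A (sh V' {c}) then 1 else 0|) ≤ 6 / (Y : ℝ) ^ 10 := by
    intro V' hne hcard hsub c hc hcA hcV
    refine le_trans ?_ he1
    have hc2 : c ∈ S ∨ Opt R Y (100 * θ) (insert c S) A V D := by
      rcases hc with hc | hc
      · exact Or.inl hc
      · exact hC' c hc
    rcases hc2 with hc2 | hc2
    · exact hS n K Y (2 * Y ^ 3) P R θ h hYn S A V' c hO.subA hO.neA hO.maxA hne hcard hsub
        hc2 hcA hcV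
    · refine hS n K Y (2 * Y ^ 3) P R θ h hYn (insert c S) A V' c hc2.subA hc2.neA hc2.maxA hne
        hcard (fun v hv => ⟨(hsub v hv).1.trans ?_, (hsub v hv).2⟩) (mem_insert_self c S) hcA hcV
      exact sdiff_subset_sdiff (subset_insert c S) (subset_refl A)
  have hshmu : ∀ V' : Finset (Finset (Fin K)), V'.Nonempty → V'.card ≤ 2 * Y ^ 3 →
      (∀ v ∈ V', v ⊆ S \ A ∧ v.card ≤ 2 * Y ^ 3) → ∀ c, (c ∈ S ∨ c ∈ C') → c ∉ A → c ∉ un V' →
      |K * mu (Tv R A V') - K * mu (Tv R A (sh V' {c}))| ≤ 6 / (Y : ℝ) ^ 10 := by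
    intro V' hne hcard hsub c hc hcA hcV
    refine le_trans ?_ (hsh V' hne hcard hsub c hc hcA hcV)
    rw [← mul_sub, abs_mul, Nat.abs_cast]
    exact mul_le_mul_of_nonneg_left (abs_mu_le hP c _ _) hK0.le
  -- near integrality
  have hA18 : (A ∪ un V).card ≤ Y ^ 18 := (card_le_card subset_union_left).trans hsz
  have hNI : ∀ V' : Finset (Finset (Fin K)), V'.Nonempty → V'.card ≤ 2 * Y ^ 3 →
      (∀ v ∈ V', v ⊆ S \ A ∧ v.card ≤ 2 * Y ^ 3) → (un V').card ≤ 2 * Y ^ 3 + 2 * Y →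
      ∃ N : ℕ, |K * mu (Tv R A V') - N| ≤ 2 / (Y : ℝ) ^ 9 := by
    intro V' hne hcard hsub hun
    obtain ⟨N, hN'⟩ := hN n K P hP (Tv R A V') (C' \ (A ∪ un V'))
      (fun c => Tv R A (sh V' {c})) (6 / (Y : ℝ) ^ 10) (by positivity) (by
        intro c hc
        rw [mem_sdiff, mem_union, not_or] at hc
        exact hsh V' hne hcard hsub c (Or.inr hc.1) hc.2.1 hc.2.2)
    refine ⟨N, hN'.trans ?_⟩
    have h1 : (C' \ (A ∪ un V'))ᶜ.card ≤ C'ᶜ.card + (Y ^ 18 + (2 * Y ^ 3 + 2 * Y)) := by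
      have h2 : (C' \ (A ∪ un V'))ᶜ ⊆ C'ᶜ ∪ (A ∪ un V') := by
        intro a ha
        rw [mem_compl, mem_sdiff, not_and_or, not_not] at ha
        rcases ha with ha | ha
        · exact mem_union_left _ (mem_compl.2 ha)
        · exact mem_union_right _ ha
      have h3 : A.card ≤ Y ^ 18 := (card_le_card subset_union_left).trans hA18
      exact (card_le_card h2).trans ((card_union_le _ _).trans (Nat.add_le_add_left
        ((card_union_le _ _).trans (Nat.add_le_add h3 hun)) _))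
    have h2 : (((C' \ (A ∪ un V'))ᶜ.card : ℕ) : ℝ) * (Y : ℝ) ^ 10 ≤ (1 + 1 / 1000) * K := by
      have h3 : (C' \ (A ∪ un V'))ᶜ.card * Y ^ 10 ≤
          K + (Y ^ 18 + (2 * Y ^ 3 + 2 * Y)) * Y ^ 10 := by
        calc (C' \ (A ∪ un V'))ᶜ.card * Y ^ 10
            ≤ (C'ᶜ.card + (Y ^ 18 + (2 * Y ^ 3 + 2 * Y))) * Y ^ 10 := Nat.mul_le_mul_right _ h1
          _ = C'ᶜ.card * Y ^ 10 + (Y ^ 18 + (2 * Y ^ 3 + 2 * Y)) * Y ^ 10 := by ring
          _ ≤ K + (Y ^ 18 + (2 * Y ^ 3 + 2 * Y)) * Y ^ 10 := Nat.add_le_add_right hC'c _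
      have h4 : (Y ^ 18 + (2 * Y ^ 3 + 2 * Y)) * Y ^ 10 * 1000 ≤ K := by
        have h5 : Y ^ 18 + (2 * Y ^ 3 + 2 * Y) ≤ Y ^ 19 := by
          have h6 : Y ^ 3 ≤ Y ^ 18 := Nat.pow_le_pow_right (by omega) (by norm_num)
          have h7 : Y ≤ Y ^ 18 := by
            calc Y = Y ^ 1 := (pow_one Y).symm
              _ ≤ Y ^ 18 := Nat.pow_le_pow_right (by omega) (by norm_num)
          have h8 : 5 * Y ^ 18 ≤ Y ^ 19 := by
            rw [pow_succ Y 18, mul_comm]
            exact Nat.mul_le_mul_left _ (by omega)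
          omega
        calc (Y ^ 18 + (2 * Y ^ 3 + 2 * Y)) * Y ^ 10 * 1000 ≤ Y ^ 19 * Y ^ 10 * Y :=
              Nat.mul_le_mul (Nat.mul_le_mul_right _ h5) hY
          _ = Y ^ 30 := by ring
          _ ≤ Y ^ 60 := Nat.pow_le_pow_right (by omega) (by norm_num)
          _ ≤ K := hYK
      have h3' : (((C' \ (A ∪ un V'))ᶜ.card : ℕ) : ℝ) * (Y : ℝ) ^ 10 ≤
          K + (((Y ^ 18 + (2 * Y ^ 3 + 2 * Y)) * Y ^ 10 : ℕ) : ℝ) := by exact_mod_cast h3
      have h4' : (((Y ^ 18 + (2 * Y ^ 3 + 2 * Y)) * Y ^ 10 : ℕ) : ℝ) * 1000 ≤ K := by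
        exact_mod_cast h4
      linarith
    have h3 : K * mu (Tv R A V') ≤ Y := by
      obtain ⟨v, hv⟩ := hne
      have h4 : Tv R A V' ⊆ R (A ∪ v) := fun z hz => mem_Tv.1 hz v hv
      have h5 := hG (A ∪ v) (union_subset hO.subA ((hsub v hv).1.trans sdiff_subset))
      exact (mul_le_mul_of_nonneg_left (mu_mono h4) hK0.le).trans h5
    have h4 : 2 / (Y : ℝ) ^ 9 = 2 * Y / (Y : ℝ) ^ 10 := by
      field_simp
    rw [h4, ← le_sub_iff_add_le', ← sub_div, le_div_iff₀ (by positivity)]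
    calc (((C' \ (A ∪ un V'))ᶜ.card : ℕ) : ℝ) * mu (Tv R A V') * (Y : ℝ) ^ 10
        = (((C' \ (A ∪ un V'))ᶜ.card : ℕ) : ℝ) * (Y : ℝ) ^ 10 * mu (Tv R A V') := by ring
      _ ≤ (1 + 1 / 1000) * K * mu (Tv R A V') := mul_le_mul_of_nonneg_right h2 (mu_nonneg _)
      _ = (1 + 1 / 1000) * (K * mu (Tv R A V')) := by ring
      _ ≤ (1 + 1 / 1000) * Y := mul_le_mul_of_nonneg_left h3 (by norm_num)
      _ ≤ 2 * Y - 6 := by linarith
  -- the families `sh V u`
  have hcV : V.card ≤ Y ^ 3 := by omega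
  have hcU : (un V).card ≤ Y ^ 3 := by omega
  have hCmem : ∀ {c}, c ∈ S \ (A ∪ un V) → c ∈ S ∧ c ∉ A ∧ c ∉ un V := by
    intro c hc
    rw [mem_sdiff, mem_union, not_or] at hc
    exact hc
  have hfam : ∀ u ⊆ S \ (A ∪ un V), u.card ≤ Y → (sh V u).Nonempty ∧
      (sh V u).card ≤ Y ^ 3 ∧ (∀ v ∈ sh V u, v ⊆ S \ A ∧ v.card ≤ Y ^ 3 + Y) ∧
      (un (sh V u)).card ≤ Y ^ 3 + Y := by
    intro u hu huc
    refine ⟨hO.neV.image _, card_image_le.trans hcV, ?_, ?_⟩
    · intro x hx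
      obtain ⟨v, hv, rfl⟩ := mem_sh.1 hx
      refine ⟨union_subset (hO.subV v hv) ?_, ?_⟩
      · intro a ha
        obtain ⟨h1, h2, h3⟩ := hCmem (hu ha)
        exact mem_sdiff.2 ⟨h1, h2⟩
      · exact (card_union_le _ _).trans (Nat.add_le_add ((card_mem hv).trans hcU) huc)
    · exact (card_le_card (un_sh_sub V u)).trans ((card_union_le _ _).trans
        (Nat.add_le_add hcU huc))
  have hstep : ∀ u ⊆ S \ (A ∪ un V), u.card ≤ Y → ∀ c ∈ S \ (A ∪ un V), c ∉ u →
      |K * mu (Tv R A (sh V u)) - K * mu (Tv R A (sh V (insert c u)))| ≤ 6 / (Y : ℝ) ^ 10 := by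
    intro u hu huc c hc hcu
    obtain ⟨f1, f2, f3, f4⟩ := hfam u hu huc
    obtain ⟨h1, h2, h3⟩ := hCmem hc
    have h4 := hshmu (sh V u) f1 (by omega) (fun v hv => ⟨(f3 v hv).1, by
      have := (f3 v hv).2
      omega⟩) c (Or.inl h1) h2 (fun hcon => by
        rcases mem_union.1 (un_sh_sub V u hcon) with h5 | h5
        · exact h3 h5
        · exact hcu h5)
    rwa [sh_sh] at h4
  have hall : ∀ u : Finset (Fin K), u ⊆ S \ (A ∪ un V) → u.card ≤ Y →
      |K * mu (Tv R A V) - K * mu (Tv R A (sh V u))| ≤ u.card * (6 / (Y : ℝ) ^ 10) := by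
    intro u
    induction u using Finset.induction_on with
    | empty =>
      intro _ _
      rw [sh_empty, sub_self, abs_zero]
      positivity
    | insert a u ha ih =>
      intro hu huc
      rw [card_insert_of_notMem ha] at huc ⊢
      have h1 := ih ((subset_insert a u).trans hu) (by omega)
      have h2 := hstep u ((subset_insert a u).trans hu) (by omega) a (hu (mem_insert_self a u)) ha
      have h3 := abs_sub_le (K * mu (Tv R A V)) (K * mu (Tv R A (sh V u)))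
        (K * mu (Tv R A (sh V (insert a u))))
      push_cast
      linarith
  -- the number `m`
  obtain ⟨m, hm⟩ := hNI V hO.neV (by omega) (fun v hv => ⟨hO.subV v hv, by
    have := card_mem hv
    omega⟩) (by omega)
  have hsize : ∀ u ⊆ S \ (A ∪ un V), u.card ≤ Y →
      |K * mu (Tv R A (sh V u)) - m| ≤ 8 / (Y : ℝ) ^ 9 := by
    intro u hu huc
    have h1 := hall u hu huc
    have h2 : (u.card : ℝ) * (6 / (Y : ℝ) ^ 10) ≤ 6 / (Y : ℝ) ^ 9 := by
      have h3 : (u.card : ℝ) ≤ Y := by exact_mod_cast huc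
      calc (u.card : ℝ) * (6 / (Y : ℝ) ^ 10) ≤ Y * (6 / (Y : ℝ) ^ 10) :=
            mul_le_mul_of_nonneg_right h3 (by positivity)
        _ = 6 / (Y : ℝ) ^ 9 := by field_simp
    have h3 := abs_sub_le (K * mu (Tv R A (sh V u))) (K * mu (Tv R A V)) m
    rw [abs_sub_comm (K * mu (Tv R A (sh V u))) (K * mu (Tv R A V))] at h3
    have h4 : 8 / (Y : ℝ) ^ 9 = 6 / (Y : ℝ) ^ 9 + 2 / (Y : ℝ) ^ 9 := by ring
    linarith
  have hsmall9 : 1 / (Y : ℝ) ^ 9 ≤ 1 / 1000000 := by
    apply one_div_le_one_div_of_le (by norm_num)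
    calc (1000000 : ℝ) ≤ 1000 ^ 9 := by norm_num
      _ ≤ (Y : ℝ) ^ 9 := pow_le_pow_left₀ (by norm_num) hY1000 9
  have hsmall10 : 1 / (Y : ℝ) ^ 10 ≤ 1 / 1000000 := by
    apply one_div_le_one_div_of_le (by norm_num)
    calc (1000000 : ℝ) ≤ 1000 ^ 10 := by norm_num
      _ ≤ (Y : ℝ) ^ 10 := pow_le_pow_left₀ (by norm_num) hY1000 10
  have h29 : 2 / (Y : ℝ) ^ 9 = 2 * (1 / (Y : ℝ) ^ 9) := by ring
  have h89 : 8 / (Y : ℝ) ^ 9 = 8 * (1 / (Y : ℝ) ^ 9) := by ring
  have h610 : 6 / (Y : ℝ) ^ 10 = 6 * (1 / (Y : ℝ) ^ 10) := by ring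
  have hm1 : 1 ≤ m := by
    -- a colour in `C'`
    have h1 : ∃ c ∈ C', c ∉ A ∪ un V := by
      by_contra hcon
      push Not at hcon
      have h2 : C'.card ≤ Y ^ 18 := (card_le_card hcon).trans hA18
      have h3 := card_add_card_compl C'
      rw [Fintype.card_fin] at h3
      have h4 : Y ^ 18 + 1 ≤ Y ^ 60 := by
        have h5 : 2 * Y ^ 18 ≤ Y ^ 19 := by
          rw [pow_succ Y 18, mul_comm]
          exact Nat.mul_le_mul_left _ (by omega)
        have h6 : Y ^ 19 ≤ Y ^ 60 := Nat.pow_le_pow_right (by omega) (by norm_num)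
        have h7 : 1 ≤ Y ^ 18 := Nat.one_le_pow _ _ (by omega)
        omega
      have h5 : 3 * Y ^ 18 ≤ K := by
        have h5 : 3 * Y ^ 18 ≤ Y ^ 19 := by
          rw [pow_succ Y 18, mul_comm]
          exact Nat.mul_le_mul_left _ (by omega)
        have h6 : Y ^ 19 ≤ Y ^ 60 := Nat.pow_le_pow_right (by omega) (by norm_num)
        omega
      have h6 : C'ᶜ.card * 2 ≤ K := by
        refine le_trans ?_ hC'c
        apply Nat.mul_le_mul_left
        calc 2 ≤ Y := by omega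
          _ = Y ^ 1 := (pow_one Y).symm
          _ ≤ Y ^ 10 := Nat.pow_le_pow_right (by omega) (by norm_num)
      omega
    obtain ⟨c, hc, hcAV⟩ := h1
    have hc2 : c ∉ A ∧ c ∉ un V := by
      rw [mem_union, not_or] at hcAV
      exact hcAV
    have h2 := hshmu V hO.neV (by omega) (fun v hv => ⟨hO.subV v hv, by
      have := card_mem hv
      omega⟩) c (Or.inr hc) hc2.1 hc2.2
    have h3 := bump hP c (Tv R A V) (Tv R A (sh V {c})) hθ.le (by
      intro y hy
      have h4 := growT h A V ∅ c (by rwa [union_empty]) y (by rwa [insert_empty_eq])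
      rwa [sh_empty] at h4)
    have h4 := hO.big
    have h5 : 0 < mu (Tv R A V) := lt_trans (by positivity) h4
    have h6 : 99 / 100 ≤ (K : ℝ) * mu (Tv R A (sh V {c})) := by
      by_contra h6
      push Not at h6
      have h7 : (K : ℝ) * mu (Tv R A V) * mu (Tv R A (sh V {c})) ≤
          mu (Tv R A V) * (99 / 100) := by
        have : (K : ℝ) * mu (Tv R A V) * mu (Tv R A (sh V {c})) =
          mu (Tv R A V) * (K * mu (Tv R A (sh V {c}))) := by ring
        rw [this]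
        exact mul_le_mul_of_nonneg_left h6.le h5.le
      linarith
    rw [h610] at h2
    rw [h29] at hm
    have h7 := (abs_le.1 h2).1
    have h8 := (abs_le.1 hm).2
    have h9 : (0 : ℝ) < m := by linarith
    exact_mod_cast h9
  refine ⟨m, hm1, ?_⟩
  have h49 : 8 / (Y : ℝ) ^ 9 ≤ 1 / (Y : ℝ) ^ 4 := by
    rw [div_le_div_iff₀ (by positivity) (by positivity), one_mul]
    calc 8 * (Y : ℝ) ^ 4 ≤ Y * (Y : ℝ) ^ 4 :=
          mul_le_mul_of_nonneg_right (by linarith) (by positivity)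
      _ = (Y : ℝ) ^ 5 := by ring
      _ ≤ (Y : ℝ) ^ 9 := pow_le_pow_right₀ (by linarith) (by norm_num)
  constructor
  · -- grow
    intro u hu c hc hcu y hy
    refine growT h A V u c ?_ y hy
    rw [mem_union, not_or]
    exact ⟨(mem_sdiff.1 hc).2, hcu⟩
  · intro u hu huc
    exact (hsize u hu huc).trans h49
  · -- dich
    intro u hu w hw huc hwc
    by_cases hcase : mu (Tv R A (sh V u) ∩ Tv R A (sh V w)) ≤ 100 * θ
    · exact Or.inl hcase
    right
    push Not at hcase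
    obtain ⟨f1, f2, f3, f4⟩ := hfam u hu huc
    obtain ⟨g1, g2, g3, g4⟩ := hfam w hw hwc
    have hone : ∀ v ∈ V, K * mu (Tv R A (sh V u) \ R (A ∪ (v ∪ w))) ≤ 10 / (Y : ℝ) ^ 9 := by
      intro v hv
      have hvw : v ∪ w ∈ sh V w := mem_sh.2 ⟨v, hv, rfl⟩
      have hTv : Tv R A (insert (v ∪ w) (sh V u)) =
          Tv R A (sh V u) ∩ R (A ∪ (v ∪ w)) := by
        ext y
        rw [mem_Tv, mem_inter, mem_Tv]
        simp only [mem_insert, forall_eq_or_imp]
        tauto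
      have hbig : 100 * θ < mu (Tv R A (insert (v ∪ w) (sh V u))) := by
        refine hcase.trans_le (mu_mono ?_)
        rw [hTv]
        intro y hy
        rw [mem_inter] at hy ⊢
        exact ⟨hy.1, (mem_Tv_sh.1 hy.2) v hv⟩
      have hsub' : ∀ x ∈ insert (v ∪ w) (sh V u), x ⊆ S \ A ∧ x.card ≤ Y ^ 3 + Y := by
        intro x hx
        rcases mem_insert.1 hx with rfl | hx
        · exact g3 _ hvw
        · exact f3 x hx
      have hmin := hO.minV (insert (v ∪ w) (sh V u)) (insert_nonempty _ _)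
        (fun x hx => (hsub' x hx).1) hbig
      have hc1 : (insert (v ∪ w) (sh V u)).card ≤ V.card + 1 :=
        (card_insert_le _ _).trans (Nat.add_le_add_right card_image_le 1)
      have hc2 : (un (insert (v ∪ w) (sh V u))).card ≤ (un V).card + 2 * Y := by
        have h1 : un (insert (v ∪ w) (sh V u)) ⊆ un V ∪ (u ∪ w) := by
          intro a ha
          obtain ⟨x, hx, hax⟩ := mem_un.1 ha
          rcases mem_insert.1 hx with rfl | hx
          · rcases mem_union.1 hax with h2 | h2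
            · exact mem_union_left _ (mem_un.2 ⟨v, hv, h2⟩)
            · exact mem_union_right _ (mem_union_right _ h2)
          · rcases mem_union.1 (un_sh_sub V u (mem_un.2 ⟨x, hx, hax⟩)) with h2 | h2
            · exact mem_union_left _ h2
            · exact mem_union_right _ (mem_union_left _ h2)
        have h2 := (card_le_card h1).trans ((card_union_le _ _).trans
          (Nat.add_le_add_left (card_union_le _ _) _))
        omega
      obtain ⟨N, hN'⟩ := hNI (insert (v ∪ w) (sh V u)) (insert_nonempty _ _) (by omega)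
        (fun x hx => ⟨(hsub' x hx).1, by
          have := (hsub' x hx).2
          omega⟩) (by omega)
      -- lower bound
      have h1 : K * mu (Tv R A V) - (1 + 2 * Y) / (24 * Y) ≤
          K * mu (Tv R A (insert (v ∪ w) (sh V u))) := by
        unfold scV at hmin
        have h2 : (((insert (v ∪ w) (sh V u)).card : ℝ) +
            ((un (insert (v ∪ w) (sh V u))).card : ℝ)) / (24 * Y) ≤
            ((V.card : ℝ) + ((un V).card : ℝ)) / (24 * Y) + (1 + 2 * Y) / (24 * Y) := by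
          rw [← add_div]
          apply div_le_div_of_nonneg_right _ (by positivity)
          have h3 : ((insert (v ∪ w) (sh V u)).card : ℝ) ≤ V.card + 1 := by exact_mod_cast hc1
          have h4 : ((un (insert (v ∪ w) (sh V u))).card : ℝ) ≤ (un V).card + 2 * Y := by
            exact_mod_cast hc2
          linarith
        linarith
      have h2 : (1 + 2 * (Y : ℝ)) / (24 * Y) ≤ 1 / 8 := by
        rw [div_le_div_iff₀ (by positivity) (by norm_num)]
        linarith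
      have h3 : m ≤ N := by
        rw [h29] at hN' hm
        have h4 := (abs_le.1 hN').2
        have h5 := (abs_le.1 hm).1
        have h6 : (m : ℝ) < N + 1 := by linarith
        have h7 : m < N + 1 := by exact_mod_cast h6
        omega
      have h4 : (m : ℝ) ≤ N := by exact_mod_cast h3
      have h5 := (abs_le.1 hN').1
      have h6 := (abs_le.1 (hsize u hu huc)).2
      have h7 := mu_sdiff_add (Tv R A (sh V u)) (R (A ∪ (v ∪ w)))
      rw [← hTv] at h7
      have h8 : K * mu (Tv R A (sh V u) \ R (A ∪ (v ∪ w))) +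
          K * mu (Tv R A (insert (v ∪ w) (sh V u))) = K * mu (Tv R A (sh V u)) := by
        rw [← mul_add, h7]
      have h9 : 10 / (Y : ℝ) ^ 9 = 8 / (Y : ℝ) ^ 9 + 2 / (Y : ℝ) ^ 9 := by ring
      linarith
    have hcover : Tv R A (sh V u) \ Tv R A (sh V w) ⊆
        V.biUnion (fun v => Tv R A (sh V u) \ R (A ∪ (v ∪ w))) := by
      intro y hy
      rw [mem_sdiff, mem_Tv_sh (u := w)] at hy
      obtain ⟨hy1, hy2⟩ := hy
      push Not at hy2
      obtain ⟨v, hv, hy2⟩ := hy2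
      exact mem_biUnion.2 ⟨v, hv, mem_sdiff.2 ⟨hy1, hy2⟩⟩
    have h1 : K * mu (Tv R A (sh V u) \ Tv R A (sh V w)) ≤ ∑ v ∈ V, 10 / (Y : ℝ) ^ 9 := by
      refine (mul_le_mul_of_nonneg_left ((mu_mono hcover).trans (mu_biUnion_le _ _))
        hK0.le).trans ?_
      rw [mul_sum]
      exact sum_le_sum hone
    rw [sum_const, nsmul_eq_mul] at h1
    refine h1.trans ?_
    have h2 : (V.card : ℝ) ≤ (Y : ℝ) ^ 3 := by exact_mod_cast hcV
    calc (V.card : ℝ) * (10 / (Y : ℝ) ^ 9) ≤ (Y : ℝ) ^ 3 * (10 / (Y : ℝ) ^ 9) :=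
          mul_le_mul_of_nonneg_right h2 (by positivity)
      _ = 10 / (Y : ℝ) ^ 6 := by field_simp
      _ ≤ 1 / (Y : ℝ) ^ 4 := by
        rw [div_le_div_iff₀ (by positivity) (by positivity), one_mul]
        calc 10 * (Y : ℝ) ^ 4 ≤ Y * (Y : ℝ) ^ 4 :=
              mul_le_mul_of_nonneg_right (by linarith) (by positivity)
          _ = (Y : ℝ) ^ 5 := by ring
          _ ≤ (Y : ℝ) ^ 6 := pow_le_pow_right₀ (by linarith) (by norm_num)
  · exact hO.subD
  · exact hO.ind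
  · -- dep
    intro c hc hcD
    have h1 : ¬ Ind R (100 * θ) A V (insert c D) := by
      intro hcon
      have h2 := hO.maxD (insert c D) (insert_subset hc hO.subD) hcon
      rw [card_insert_of_notMem hcD] at h2
      omega
    unfold Ind at h1
    push Not at h1
    obtain ⟨u, hu, w, hw, huw, hlt⟩ := h1
    have hsubD : ∀ {x : Finset (Fin K)}, x ⊆ insert c D → x.erase c ⊆ D := by
      intro x hx a ha
      rw [mem_erase] at ha
      exact (mem_insert.1 (hx ha.2)).resolve_left ha.1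
    have hnot : ∀ {x : Finset (Fin K)}, x ⊆ insert c D → c ∉ x → x ⊆ D := by
      intro x hx hcx a ha
      refine (mem_insert.1 (hx ha)).resolve_left ?_
      rintro rfl
      exact hcx ha
    by_cases hcu : c ∈ u
    · by_cases hcw : c ∈ w
      · refine ⟨u.erase c, hsubD hu, w.erase c, hsubD hw, Or.inr ⟨?_, ?_⟩⟩
        · intro he
          apply huw
          rw [← insert_erase hcu, ← insert_erase hcw, he]
        · rw [insert_erase hcu, insert_erase hcw]
          exact hlt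
      · refine ⟨u.erase c, hsubD hu, w, hnot hw hcw, Or.inl ?_⟩
        rw [insert_erase hcu]
        exact hlt
    · by_cases hcw : c ∈ w
      · refine ⟨w.erase c, hsubD hw, u, hnot hu hcu, Or.inl ?_⟩
        rw [insert_erase hcw, inter_comm]
        exact hlt
      · exact absurd (hO.ind u (hnot hu hcu) w (hnot hw hcw) huw) (not_le.2 hlt)

end Pool.Agent.Lib.MP_b1acb3_co.One
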