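import Pool.Agent.Lib.MP_b1acb3_co.One.Stmts

/-!
Lower bound for the loss.
-/

namespace Pool.Agent.Lib.MP_b1acb3_co.One

open Finset Uni Leaf

namespace ModLoss1

variable {n K : ℕ} {P : Fin K → Matrix (Fin n) (Fin n) ℝ}
  {R : Finset (Fin K) → Finset (Fin n)} {θ : ℝ} {d : ℕ}

/-- Part of the mean of `app P c (F Q)ᶜ` over the set `R Q`. -/
noncomputable def pt (P : Fin K → Matrix (Fin n) (Fin n) ℝ)
    (R : Finset (Fin K) → Finset (Fin n)) (Q : Finset (Fin K)) (c : Fin K) : ℝ :=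
  avg (fun y => if y ∈ R Q then app P c (rem R 1 Q)ᶜ y else 0)

theorem sub_rem_insert (R : Finset (Fin K) → Finset (Fin n)) (Q : Finset (Fin K)) (c : Fin K)
    (hc : c ∉ Q) : R Q ⊆ rem R 1 (insert c Q) := by
  intro y hy
  rw [mem_rem]
  refine ⟨{c}, by simp, card_singleton c, ?_⟩
  have : insert c Q \ {c} = Q := by
    rw [sdiff_singleton_eq_erase, erase_insert hc]
  rw [this]
  exact hy

theorem erase_sub_rem (R : Finset (Fin K) → Finset (Fin n)) (Q : Finset (Fin K)) (c : Fin K)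
    (hc : c ∈ Q) : R (Q.erase c) ⊆ rem R 1 Q := by
  intro y hy
  rw [mem_rem]
  refine ⟨{c}, by simpa using hc, card_singleton c, ?_⟩
  rw [sdiff_singleton_eq_erase]
  exact hy

theorem out_le (hS : Sys P R θ d) (Q : Finset (Fin K)) (c : Fin K) (hc : c ∉ Q) :
    K * pt P R Q c - K ^ 2 * θ ≤ dfc (rem R 1) Q - dfc (rem R 1) (insert c Q) := by
  have hP := hS.markov
  have hg := grows_rem hP R θ hS.nonneg hS.grow 1
  have hK : (0 : ℝ) ≤ K := Nat.cast_nonneg K
  have hθ := hS.nonneg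
  have key : mu (rem R 1 (insert c Q))ᶜ ≤ mu (rem R 1 Q)ᶜ - pt P R Q c + K * θ := by
    rw [← avg_indicator (rem R 1 (insert c Q))ᶜ, ← avg_app hP c (rem R 1 Q)ᶜ, pt, ← avg_sub,
      ← avg_const hP.npos (K * θ), ← avg_add]
    apply avg_mono
    intro y
    have hf := app_nonneg hP c (rem R 1 Q)ᶜ y
    have hKθ : 0 ≤ K * θ := mul_nonneg hK hθ
    by_cases h : y ∈ rem R 1 (insert c Q)
    · rw [if_neg (by simpa using h)]
      split_ifs
      · linarith
      · linarith
    · rw [if_pos (by simpa using h), if_neg (fun h2 => h (sub_rem_insert R Q c hc h2))]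
      have h1 := hg Q c hc y h
      rw [pow_one] at h1
      rw [app_compl hP]
      linarith
  rw [dfc_eq hP.npos, dfc_eq hP.npos]
  have := mul_le_mul_of_nonneg_left key hK
  nlinarith [this]

theorem in_le (hS : Sys P R θ d) (Q : Finset (Fin K)) (c : Fin K) (hc : c ∈ Q) :
    K * pt P R Q c ≤ (K * mu (R Q) - K * mu (R (Q.erase c))) + K * θ := by
  have hP := hS.markov
  have hK : (0 : ℝ) ≤ K := Nat.cast_nonneg K
  have hθ := hS.nonneg
  have key : pt P R Q c ≤ mu (R Q) - mu (R (Q.erase c)) + θ := by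
    rw [← avg_indicator (R Q), ← avg_app hP c (R (Q.erase c)), pt, ← avg_sub]
    rw [← avg_const hP.npos θ]
    rw [← avg_add]
    apply avg_mono
    intro y
    by_cases h : y ∈ R Q
    · rw [if_pos h, if_pos h, app_compl hP]
      have := app_mono hP c (erase_sub_rem R Q c hc) y
      linarith
    · rw [if_neg h, if_neg h]
      have h1 := hS.grow (Q.erase c) c (notMem_erase c Q) y (by rwa [insert_erase hc])
      linarith
  have := mul_le_mul_of_nonneg_left key hK
  nlinarith [this]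

theorem sum_pt (hS : Sys P R θ d) (Q : Finset (Fin K)) :
    ∑ c, K * pt P R Q c = K * mu (R Q) * dfc (rem R 1) Q := by
  have hP := hS.markov
  rw [← mul_sum]
  unfold pt
  rw [← avg_sum, mul_assoc]
  congr 1
  have : (fun y => ∑ c, if y ∈ R Q then app P c (rem R 1 Q)ᶜ y else 0) =
      fun y => dfc (rem R 1) Q * (if y ∈ R Q then (1 : ℝ) else 0) := by
    funext y
    by_cases h : y ∈ R Q
    · simp only [if_pos h]
      rw [sum_app hP, dfc_eq hP.npos, mul_one]
    · simp only [if_neg h, sum_const_zero, mul_zero]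
  rw [this, avg_mul_left, avg_indicator, mul_comm]

end ModLoss1

open ModLoss1 in
/-- (Loss1) Lower bound for the loss. -/
theorem thmLoss1 : StLoss1 := by
  intro n K P R θ d hS Q _
  have hP := hS.markov
  have hθ := hS.nonneg
  have hK1 : (1 : ℝ) ≤ K := by exact_mod_cast hP.kpos
  have hcard : (Q.card : ℝ) ≤ K := by
    have := card_le_univ Q
    rw [Fintype.card_fin] at this
    exact_mod_cast this
  have hcard2 : (Qᶜ.card : ℝ) ≤ K := by
    have := card_le_univ Qᶜ
    rw [Fintype.card_fin] at this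
    exact_mod_cast this
  have h1 : ∑ c ∈ Qᶜ, (K * pt P R Q c - K ^ 2 * θ) ≤ loss (rem R 1) Q := by
    unfold loss
    apply sum_le_sum
    intro c hc
    exact out_le hS Q c (mem_compl.1 hc)
  have h2 : ∑ c ∈ Q, K * pt P R Q c ≤
      ∑ c ∈ Q, ((K * mu (R Q) - K * mu (R (Q.erase c))) + K * θ) :=
    sum_le_sum fun c hc => in_le hS Q c hc
  have h3 := sum_pt hS Q
  rw [← sum_add_sum_compl Q] at h3
  rw [sum_sub_distrib, sum_const, nsmul_eq_mul] at h1
  rw [sum_add_distrib, sum_const, nsmul_eq_mul] at h2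
  have h4 : (Qᶜ.card : ℝ) * (K ^ 2 * θ) ≤ K ^ 3 * θ := by
    have : (Qᶜ.card : ℝ) * (K ^ 2 * θ) ≤ K * (K ^ 2 * θ) :=
      mul_le_mul_of_nonneg_right hcard2 (by positivity)
    calc _ ≤ _ := this
      _ = _ := by ring
  have h5 : (Q.card : ℝ) * (K * θ) ≤ K ^ 3 * θ := by
    have h6 : (Q.card : ℝ) * (K * θ) ≤ K * (K * θ) :=
      mul_le_mul_of_nonneg_right hcard (by positivity)
    have h7 : (K : ℝ) * (K * θ) ≤ K * (K * (K * θ)) := by
      apply mul_le_mul_of_nonneg_left _ (by positivity)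
      have : 0 ≤ K * θ := by positivity
      nlinarith
    calc _ ≤ _ := h6
      _ ≤ _ := h7
      _ = _ := by ring
  have h8 : dec R Q = ∑ c ∈ Q, (K * mu (R Q) - K * mu (R (Q.erase c))) := rfl
  linarith

end Pool.Agent.Lib.MP_b1acb3_co.One
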