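import Pool.Agent.Lib.MP_b1acb3_co.One.Stmts
import Pool.Agent.Lib.MP_b1acb3_co.Uni.Basic

/-!
Nearly integral densities.
-/

namespace Pool.Agent.Lib.MP_b1acb3_co.One

open Finset Uni Leaf

theorem thmNearInt : StNearInt := by
  classical
  intro n K P hP T C S a ha h
  have hK : (0 : ℝ) < K := by exact_mod_cast hP.kpos
  -- the number of sets that contain a vertex
  let I : Fin n → ℕ := fun y => (C.filter fun c => y ∈ S c).card
  have hI : ∀ y, (I y : ℝ) = ∑ c ∈ C, if y ∈ S c then (1 : ℝ) else 0 := by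
    intro y
    simp [I]
  have h1 : ∀ y, |K * mu T - I y| ≤
      ∑ c ∈ C, |app P c T y - if y ∈ S c then 1 else 0| + ∑ c ∈ Cᶜ, app P c T y := by
    intro y
    rw [← sum_app hP T y, ← sum_add_sum_compl C, hI]
    have e : ∑ c ∈ C, app P c T y + ∑ c ∈ Cᶜ, app P c T y -
        ∑ c ∈ C, (if y ∈ S c then (1 : ℝ) else 0) =
        ∑ c ∈ C, (app P c T y - if y ∈ S c then 1 else 0) + ∑ c ∈ Cᶜ, app P c T y := by
      rw [sum_sub_distrib]
      ring
    rw [e]
    refine (abs_add_le _ _).trans (add_le_add (abs_sum_le_sum_abs _ _) ?_)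
    rw [abs_of_nonneg (sum_nonneg fun c _ => app_nonneg hP c T y)]
  have h2 : avg (fun y => ∑ c ∈ C, |app P c T y - if y ∈ S c then 1 else 0| +
      ∑ c ∈ Cᶜ, app P c T y) ≤ a + Cᶜ.card * mu T := by
    rw [avg_add, avg_sum, avg_sum]
    apply add_le_add
    · have h3 : ∀ c ∈ C, avg (fun y => |app P c T y - if y ∈ S c then 1 else 0|) ≤ a / K := by
        intro c hc
        rw [le_div_iff₀ hK, mul_comm]
        exact h c hc
      refine (sum_le_sum h3).trans ?_
      rw [sum_const, nsmul_eq_mul]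
      have h4 : (C.card : ℝ) ≤ K := by
        have := card_le_univ C
        rw [Fintype.card_fin] at this
        exact_mod_cast this
      calc (C.card : ℝ) * (a / K) ≤ K * (a / K) :=
            mul_le_mul_of_nonneg_right h4 (div_nonneg ha hK.le)
        _ = a := by field_simp
    · rw [sum_congr rfl fun c _ => avg_app hP c T, sum_const, nsmul_eq_mul]
  by_contra hcon
  push Not at hcon
  have h5 : a + Cᶜ.card * mu T < avg (fun y => ∑ c ∈ C, |app P c T y - if y ∈ S c then 1 else 0| +
      ∑ c ∈ Cᶜ, app P c T y) := by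
    have hn : (0 : ℝ) < n := by exact_mod_cast hP.npos
    unfold avg
    rw [lt_div_iff₀ hn]
    have h6 : ∑ _y : Fin n, (a + Cᶜ.card * mu T) < ∑ y, (∑ c ∈ C, |app P c T y -
        if y ∈ S c then 1 else 0| + ∑ c ∈ Cᶜ, app P c T y) := by
      apply sum_lt_sum_of_nonempty
      · have : Nonempty (Fin n) := ⟨⟨0, hP.npos⟩⟩
        exact univ_nonempty
      · intro y _
        exact (hcon (I y)).trans_le (h1 y)
    rw [sum_const, card_univ, Fintype.card_fin, nsmul_eq_mul] at h6
    rw [mul_comm]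
    exact h6
  exact absurd h5 (not_lt.2 h2)

end Pool.Agent.Lib.MP_b1acb3_co.One
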