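import Pool.Agent.Lib.MP_b1acb3_co.One.Stmts

/-!
(Num1) Numerical choices for the classification of graphs without a leaf.
-/

namespace Pool.Agent.Lib.MP_b1acb3_co.One

open Finset Uni Leaf

namespace ModNum1

theorem two_pow_le_choose (d : ℕ) (hd : 4 ≤ d) : 2 ^ d ≤ (2 * d).choose d := by
  have h1 := Nat.four_pow_lt_mul_centralBinom d hd
  rw [Nat.centralBinom_eq_two_mul_choose] at h1
  have h2 : d < 2 ^ d := Nat.lt_two_pow_self
  have h3 : (4 : ℕ) ^ d = 2 ^ d * 2 ^ d := by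
    rw [← mul_pow]
    norm_num
  rw [h3] at h1
  by_contra hlt
  rw [not_le] at hlt
  have h4 : d * (2 * d).choose d ≤ 2 ^ d * 2 ^ d := Nat.mul_le_mul h2.le hlt.le
  omega

/-- exponential growth beats polynomial growth -/
theorem growth (M k : ℕ) : ∃ L₀ : ℕ, ∀ L : ℕ, L₀ ≤ L → M * (L + 1) ^ k ≤ 2 ^ L := by
  have h := tendsto_pow_const_div_const_pow_of_one_lt k (one_lt_two : (1 : ℝ) < 2)
  have hM : (0 : ℝ) < 1 / (2 * (M + 1)) := by positivity
  obtain ⟨L₀, hL₀⟩ := Filter.eventually_atTop.1 (h.eventually (gt_mem_nhds hM))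
  refine ⟨L₀, fun L hL => ?_⟩
  have h1 := hL₀ (L + 1) (by omega)
  rw [div_lt_iff₀ (by positivity)] at h1
  have h2 : (M : ℝ) * ((L : ℝ) + 1) ^ k ≤ 2 ^ L := by
    push_cast at h1
    have h3 : (1 : ℝ) / (2 * (M + 1)) * 2 ^ (L + 1) = 2 ^ L / (M + 1) := by
      rw [pow_succ]
      field_simp
    rw [h3, lt_div_iff₀ (by positivity)] at h1
    have h4 : (0 : ℝ) ≤ ((L : ℝ) + 1) ^ k := by positivity
    nlinarith
  exact_mod_cast h2

/-- the main size condition -/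
theorem size (M : ℕ) : ∃ C : ℕ, ∀ b e : ℕ, 1 ≤ b → C * b ^ C ≤ e → e ≠ 0 ∧
    (M * (b * (Nat.log 2 e + 1) ^ 2)) ^ 60 ≤ e := by
  obtain ⟨L₀, hL₀⟩ := growth (M ^ 120) 240
  refine ⟨2 ^ L₀ + 120, fun b e hb he => ?_⟩
  have hpos : 0 < 2 ^ L₀ := Nat.pow_pos (by norm_num)
  have hbD : 1 ≤ b ^ (2 ^ L₀ + 120) := Nat.one_le_pow _ _ hb
  have heD : 2 ^ L₀ + 120 ≤ e := le_trans (Nat.le_mul_of_pos_right _ hbD) he
  have heb : b ^ 120 ≤ e := by
    refine le_trans (Nat.pow_le_pow_right hb (Nat.le_add_left 120 (2 ^ L₀))) (le_trans ?_ he)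
    exact Nat.le_mul_of_pos_left _ (by positivity)
  have he0 : e ≠ 0 :=
    (lt_of_lt_of_le (by positivity : 0 < 2 ^ L₀ + 120) heD).ne'
  refine ⟨he0, ?_⟩
  set l₁ : ℕ := Nat.log 2 e with hl₁
  have hl₀ : L₀ ≤ l₁ := by
    rw [hl₁]
    exact (Nat.le_log_iff_pow_le (by norm_num) he0).2 (le_trans (Nat.le_add_right _ _) heD)
  have hgr : M ^ 120 * (l₁ + 1) ^ 240 ≤ e := le_trans (hL₀ l₁ hl₀) (Nat.pow_log_le_self 2 he0)
  have h1 : ((M * (b * (l₁ + 1) ^ 2)) ^ 60) ^ 2 = M ^ 120 * (l₁ + 1) ^ 240 * b ^ 120 := by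
    rw [← pow_mul, mul_pow, mul_pow, ← pow_mul]
    ring
  have h2 : ((M * (b * (l₁ + 1) ^ 2)) ^ 60) ^ 2 ≤ e ^ 2 := by
    rw [h1, pow_two e]
    exact Nat.mul_le_mul hgr heb
  exact (Nat.pow_le_pow_iff_left (by norm_num)).1 h2

end ModNum1

open ModNum1 in
theorem thmNum1 : StNum1 := by
  obtain ⟨C, hC⟩ := size (2 * 10 ^ 7)
  refine ⟨C, fun b e hb he => ?_⟩
  obtain ⟨he0, hY60⟩ := hC b e hb he
  clear hC he
  set L : ℕ := Nat.log 2 e + 1 with hL
  have hL1 : 1 ≤ L := Nat.le_add_left 1 _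
  set Y : ℕ := 2 * 10 ^ 7 * (b * L ^ 2) with hY
  have hbL2 : 1 ≤ b * L ^ 2 := Nat.mul_pos hb (Nat.pow_pos hL1)
  have hY1 : 1 ≤ Y := Nat.mul_pos (by norm_num) hbL2
  set A : ℕ := b ^ 2 * L ^ 4 with hA
  have e1 : 10 ^ 12 * A ≤ e := by
    refine le_trans ?_ (le_trans (Nat.pow_le_pow_right hY1 (by norm_num : 2 ≤ 60)) hY60)
    have : Y ^ 2 = 400 * (10 ^ 12 * A) := by
      rw [hY, hA]
      ring
    rw [this]
    omega
  have hb2 : b ≤ b ^ 2 := Nat.le_self_pow (by norm_num) b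
  have hL2 : L ≤ L ^ 2 := Nat.le_self_pow (by norm_num) L
  have hL4 : L ≤ L ^ 4 := Nat.le_self_pow (by norm_num) L
  have hL24 : L ^ 2 ≤ L ^ 4 := Nat.pow_le_pow_right hL1 (by norm_num)
  have a1 : b * L ≤ A := Nat.mul_le_mul hb2 hL4
  have a2 : b * L ^ 2 ≤ A := Nat.mul_le_mul hb2 hL24
  have a3 : b ^ 2 * L ^ 2 ≤ A := Nat.mul_le_mul le_rfl hL24
  have a4 : b ^ 2 * L ≤ A := Nat.mul_le_mul le_rfl hL4
  have a5 : L ≤ A := le_trans (Nat.le_mul_of_pos_left L hb) a1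
  have a6 : b ≤ A := le_trans (Nat.le_mul_of_pos_right b hL1) a1
  have a7 : 1 ≤ A := le_trans hL1 a5
  have y1 : L ≤ b * L ^ 2 := le_trans hL2 (Nat.le_mul_of_pos_left _ hb)
  have y2 : b ≤ b * L ^ 2 := Nat.le_mul_of_pos_right b (Nat.pow_pos hL1)
  have y3 : b * L ≤ b * L ^ 2 := Nat.mul_le_mul le_rfl hL2
  set N : ℕ := e / (4096 * (b * L)) with hN
  have hbL : 1 ≤ b * L := Nat.mul_pos hb hL1
  have n1 : 4096 * (b * L * N) ≤ e := by
    have := Nat.div_mul_le_self e (4096 * (b * L))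
    rw [← hN] at this
    calc 4096 * (b * L * N) = N * (4096 * (b * L)) := by ring
      _ ≤ e := this
  have n2 : e < 4096 * (b * L * N) + 4096 * (b * L) := by
    have := Nat.lt_div_mul_add (a := e) (b := 4096 * (b * L)) (by positivity)
    rw [← hN] at this
    calc e < N * (4096 * (b * L)) + 4096 * (b * L) := this
      _ = 4096 * (b * L * N) + 4096 * (b * L) := by ring
  have p1 : L * N ≤ b * L * N := by
    calc L * N = 1 * (L * N) := (one_mul _).symm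
      _ ≤ b * (L * N) := Nat.mul_le_mul hb le_rfl
      _ = b * L * N := by ring
  have p2 : b * N ≤ b * L * N := by
    calc b * N = b * 1 * N := by ring
      _ ≤ b * L * N := Nat.mul_le_mul (Nat.mul_le_mul le_rfl hL1) le_rfl
  have p3 : N ≤ b * L * N := Nat.le_mul_of_pos_left N hbL
  have elt : e + 1 ≤ 2 ^ L := Nat.lt_pow_succ_log_self (by norm_num) e
  have hlogK : Nat.log 2 (e + 1) ≤ L := by
    calc Nat.log 2 (e + 1) ≤ Nat.log 2 (2 ^ L) := Nat.log_mono_right elt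
      _ = L := Nat.log_pow (by norm_num) L
  have hN5 : 100000 ≤ N := by
    rw [hN, Nat.le_div_iff_mul_le (by positivity)]
    calc 100000 * (4096 * (b * L)) = 409600000 * (b * L) := by ring
      _ ≤ e := by omega
  refine ⟨4 * L + 12, 2 * L + 6, N, Y, by omega, ?_⟩
  intro h q l hh hq hl
  have hh' : h ≤ 68 * (b * L) := by
    calc h ≤ 4 * b * (4 * L + 12 + 1) := hh
      _ ≤ 4 * b * (17 * L) := Nat.mul_le_mul le_rfl (by omega)
      _ = 68 * (b * L) := by ring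
  have hqb : q ≤ 4 * b := by omega
  have hl' : e ≤ 68 * (b * L) + 4 * (b * l) := by
    calc e ≤ h + 4 * b * l := hl
      _ ≤ 68 * (b * L) + 4 * b * l := Nat.add_le_add_right hh' _
      _ = 68 * (b * L) + 4 * (b * l) := by ring
  refine ⟨?_, ?_, ?_, ?_, ?_, ?_, ?_, ?_, ?_, ?_, ?_, ?_, ?_, ?_, ?_⟩
  · omega
  · omega
  · omega
  · -- the binomial coefficient
    have h1 := two_pow_le_choose (2 * L + 6) (by omega)
    have h2 : 2 * (2 * L + 6) = 4 * L + 12 := by ring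
    rw [h2] at h1
    refine le_trans ?_ h1
    calc 16 * (e + 1) ^ 2 ≤ 16 * (2 ^ L) ^ 2 :=
          Nat.mul_le_mul le_rfl (Nat.pow_le_pow_left elt 2)
      _ = 2 ^ 4 * 2 ^ (L * 2) := by rw [← pow_mul]; norm_num
      _ = 2 ^ (4 + L * 2) := by rw [← pow_add]
      _ ≤ 2 ^ (2 * L + 6) := Nat.pow_le_pow_right (by norm_num) (by omega)
  · omega
  · omega
  · omega
  · calc h ≤ Y := by omega
      _ ≤ Y ^ 2 := Nat.le_self_pow (by norm_num) Y
  · exact hN5
  · calc 16 * h * N ≤ 16 * (68 * (b * L)) * N :=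
          Nat.mul_le_mul (Nat.mul_le_mul le_rfl hh') le_rfl
      _ = 1088 * (b * L * N) := by ring
      _ ≤ e + 1 := by omega
  · calc 2 * (4 * L + 12) * (h + N + q * (4 * L + 12))
        ≤ 2 * (16 * L) * (68 * (b * L) + N + 4 * b * (16 * L)) := by
          refine Nat.mul_le_mul (Nat.mul_le_mul le_rfl (by omega)) ?_
          have : q * (4 * L + 12) ≤ 4 * b * (16 * L) := Nat.mul_le_mul hqb (by omega)
          omega
      _ = 4224 * (b * L ^ 2) + 32 * (L * N) := by ring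
      _ ≤ e + 1 := by omega
  · omega
  · have h1 : 4 * b * (N + q * (2 * L + 6) + 2) ≤ 4 * b * l := by
      have h2 : 4 * b * (N + q * (2 * L + 6) + 2) ≤ 4 * b * (N + 4 * b * (8 * L) + 2) := by
        refine Nat.mul_le_mul le_rfl ?_
        have : q * (2 * L + 6) ≤ 4 * b * (8 * L) := Nat.mul_le_mul hqb (by omega)
        omega
      have h3 : 4 * b * (N + 4 * b * (8 * L) + 2) =
          4 * (b * N) + 128 * (b ^ 2 * L) + 8 * b := by ring
      have h4 : 4 * b * l = 4 * (b * l) := by ring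
      omega
    exact Nat.le_of_mul_le_mul_left h1 (by omega)
  · -- the logarithm
    have l1 : Real.log ((e + 1 : ℕ) : ℝ) + 1 ≤ 17 / 10 * (L : ℝ) := by
      have h1 : ((e + 1 : ℕ) : ℝ) ≤ 2 ^ L := by exact_mod_cast elt
      have h2 : Real.log ((e + 1 : ℕ) : ℝ) ≤ L * Real.log 2 := by
        rw [← Real.log_pow]
        exact Real.log_le_log (by positivity) h1
      have h3 := Real.log_two_lt_d9
      have h4 : (1 : ℝ) ≤ L := by exact_mod_cast hL1
      have h5 : (L : ℝ) * Real.log 2 ≤ L * (7 / 10) :=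
        mul_le_mul_of_nonneg_left (by linarith) (by linarith)
      linarith
    have q1 : e ≤ 8192 * (b * L * N) := by omega
    have q1' : (e : ℝ) ≤ 8192 * ((b : ℝ) * L * N) := by exact_mod_cast q1
    have hbp : (1 : ℝ) ≤ b := by exact_mod_cast hb
    have hLp : (1 : ℝ) ≤ L := by exact_mod_cast hL1
    have hNp : (0 : ℝ) ≤ N := Nat.cast_nonneg N
    have hep : (1 : ℝ) ≤ e := by
      have : 1 ≤ e := by omega
      exact_mod_cast this
    have hcast : ((e + 1 : ℕ) : ℝ) ≤ 2 * e := by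
      push_cast
      linarith
    have hYr : (Y : ℝ) = 2 * 10 ^ 7 * ((b : ℝ) * (L : ℝ) ^ 2) := by
      rw [hY]
      push_cast
      ring
    have hbL2r : (1 : ℝ) ≤ (b : ℝ) * (L : ℝ) ^ 2 := by exact_mod_cast hbL2
    have l3 : 400 * ((e + 1 : ℕ) : ℝ) * (Real.log ((e + 1 : ℕ) : ℝ) + 1) ≤
        400 * (2 * e) * (17 / 10 * (L : ℝ)) := by
      refine mul_le_mul (mul_le_mul_of_nonneg_left hcast (by norm_num)) l1 ?_ (by positivity)
      have : 0 ≤ Real.log ((e + 1 : ℕ) : ℝ) :=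
        Real.log_nonneg (by exact_mod_cast Nat.le_add_left 1 e)
      linarith
    have l4 : 400 * (2 * (e : ℝ)) * (17 / 10 * (L : ℝ)) ≤
        11141120 * ((b : ℝ) * (L : ℝ) ^ 2 * N) := by
      calc 400 * (2 * (e : ℝ)) * (17 / 10 * (L : ℝ)) = 1360 * L * e := by ring
        _ ≤ 1360 * L * (8192 * ((b : ℝ) * L * N)) :=
            mul_le_mul_of_nonneg_left q1' (by positivity)
        _ = 11141120 * ((b : ℝ) * (L : ℝ) ^ 2 * N) := by ring
    have l5 : 3 * (N : ℝ) ≤ 3 * ((b : ℝ) * (L : ℝ) ^ 2 * N) := by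
      have := mul_le_mul_of_nonneg_right hbL2r hNp
      linarith
    have l6 : 0 ≤ (b : ℝ) * (L : ℝ) ^ 2 * N := by positivity
    rw [hYr]
    nlinarith
  · -- the last ear is long
    have h1 : e ≤ 8 * (b * l) := by omega
    have h2 : 16 * b ≤ Y := by omega
    have h3 : 16 * b * l ≤ Y * l := Nat.mul_le_mul h2 le_rfl
    have h4 : 16 * b * l = 16 * (b * l) := by ring
    omega

end Pool.Agent.Lib.MP_b1acb3_co.One
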