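import Pool.Agent.Lib.MP_b1acb3_co.One.Stmts

/-!
(PathR) A rainbow path from the relation `Rel`, avoiding a given small set.
-/

namespace Pool.Agent.Lib.MP_b1acb3_co.One

open Finset Uni Leaf

/-- A rainbow path from `x` to `y` with colours `Q` and inner vertices outside `Z`. -/
def IsPathR {n K : ℕ} (c : Sym2 (Fin n) → Fin K) (Q : Finset (Fin K)) (x y : Fin n)
    (Z : Finset (Fin n)) (z : ℕ → Fin n) : Prop :=
  z 0 = x ∧ z Q.card = y ∧
    (∀ i, i < Q.card → c s(z i, z (i + 1)) ∈ Q) ∧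
    (∀ i j, i < Q.card → j < Q.card → c s(z i, z (i + 1)) = c s(z j, z (j + 1)) → i = j) ∧
    (∀ i, 1 ≤ i → i < Q.card → z i ∉ Z ∧ z i ≠ x ∧ z i ≠ y) ∧
    (∀ i j, 1 ≤ i → i < Q.card → 1 ≤ j → j < Q.card → z i = z j → i = j)

theorem isPathR_single {n K : ℕ} (c : Sym2 (Fin n) → Fin K) (x y : Fin n)
    (Z : Finset (Fin n)) : ∃ z : ℕ → Fin n, IsPathR c {c s(x, y)} x y Z z := by
  refine ⟨fun i => if i = 0 then x else y, ?_, ?_, ?_, ?_, ?_, ?_⟩
  · simp
  · simp
  · intro i hi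
    rw [card_singleton] at hi
    obtain rfl : i = 0 := by omega
    simp
  · intro i j hi hj _
    rw [card_singleton] at hi hj
    omega
  · intro i hi hi'
    rw [card_singleton] at hi'
    omega
  · intro i j hi hi'
    rw [card_singleton] at hi'
    omega

theorem isPathR_join {n K : ℕ} (c : Sym2 (Fin n) → Fin K) {Q Q' : Finset (Fin K)}
    {x y s : Fin n} {Z : Finset (Fin n)} (hd : Disjoint Q Q') (hQ' : 1 ≤ Q'.card)
    (hsZ : s ∉ Z) (hsx : s ≠ x) (hsy : s ≠ y) {z₁ z₂ : ℕ → Fin n}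
    (h₁ : IsPathR c Q x s (insert y Z) z₁)
    (h₂ : IsPathR c Q' s y (insert x (Z ∪ (range (Q.card + 1)).image z₁)) z₂) :
    ∃ z : ℕ → Fin n, IsPathR c (Q ∪ Q') x y Z z := by
  obtain ⟨a0, a1, a2, a3, a4, a5⟩ := h₁
  obtain ⟨b0, b1, b2, b3, b4, b5⟩ := h₂
  have hcard : (Q ∪ Q').card = Q.card + Q'.card := card_union_of_disjoint hd
  let z : ℕ → Fin n := fun i => if i ≤ Q.card then z₁ i else z₂ (i - Q.card)
  have hz1 : ∀ i, i ≤ Q.card → z i = z₁ i := fun i hi => if_pos hi
  have hz2 : ∀ i, Q.card ≤ i → z i = z₂ (i - Q.card) := by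
    intro i hi
    rcases hi.lt_or_eq with h | h
    · exact if_neg (by omega)
    · subst h
      rw [hz1 _ le_rfl, a1, Nat.sub_self, b0]
  have hout : ∀ i, Q.card < i → i < Q.card + Q'.card →
      (z i ∉ Z ∧ z i ≠ x ∧ z i ≠ y) ∧ ∀ j, j ≤ Q.card → z i ≠ z j := by
    intro i hi hi'
    obtain ⟨e1, e2, e3⟩ := b4 (i - Q.card) (by omega) (by omega)
    rw [mem_insert, mem_union, not_or, not_or] at e1
    rw [hz2 i hi.le]
    refine ⟨⟨e1.2.1, e1.1, e3⟩, fun j hj h => e1.2.2 ?_⟩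
    rw [h, hz1 j hj]
    exact mem_image_of_mem _ (mem_range.2 (by omega))
  have hin : ∀ i, 1 ≤ i → i < Q.card → (z i ∉ Z ∧ z i ≠ x ∧ z i ≠ y) ∧ z i ≠ s := by
    intro i hi hi'
    obtain ⟨e1, e2, e3⟩ := a4 i hi hi'
    rw [mem_insert, not_or] at e1
    rw [hz1 i hi'.le]
    exact ⟨⟨e1.2, e2, e1.1⟩, e3⟩
  have hmid : z Q.card = s := by rw [hz1 _ le_rfl, a1]
  have hc1 : ∀ i, i < Q.card → c s(z i, z (i + 1)) = c s(z₁ i, z₁ (i + 1)) := by
    intro i hi
    rw [hz1 i hi.le, hz1 (i + 1) hi]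
  have hc2 : ∀ i, Q.card ≤ i → c s(z i, z (i + 1)) =
      c s(z₂ (i - Q.card), z₂ (i - Q.card + 1)) := by
    intro i hi
    rw [hz2 i hi, hz2 (i + 1) (by omega), Nat.sub_add_comm hi]
  refine ⟨z, ?_, ?_, ?_, ?_, ?_, ?_⟩
  · rw [hz1 0 (Nat.zero_le _), a0]
  · rw [hcard, hz2 _ (by omega), Nat.add_sub_cancel_left, b1]
  · intro i hi
    rw [hcard] at hi
    rcases lt_or_ge i Q.card with h | h
    · rw [hc1 i h]
      exact mem_union_left _ (a2 i h)
    · rw [hc2 i h]
      exact mem_union_right _ (b2 _ (by omega))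
  · intro i j hi hj hij
    rw [hcard] at hi hj
    rcases lt_or_ge i Q.card with h | h <;> rcases lt_or_ge j Q.card with h' | h'
    · rw [hc1 i h, hc1 j h'] at hij
      exact a3 i j h h' hij
    · rw [hc1 i h, hc2 j h'] at hij
      exact absurd (hij ▸ a2 i h) (disjoint_right.1 hd (b2 _ (by omega)))
    · rw [hc2 i h, hc1 j h'] at hij
      exact absurd (hij ▸ a2 j h') (disjoint_right.1 hd (hij ▸ b2 _ (by omega)))
    · rw [hc2 i h, hc2 j h'] at hij
      have := b3 _ _ (by omega) (by omega) hij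
      omega
  · intro i hi hi'
    rw [hcard] at hi'
    rcases lt_trichotomy i Q.card with h | h | h
    · exact (hin i hi h).1
    · subst h
      rw [hmid]
      exact ⟨hsZ, hsx, hsy⟩
    · exact (hout i h hi').1
  · intro i j hi hi' hj hj' hij
    rw [hcard] at hi' hj'
    rcases lt_trichotomy i Q.card with h | h | h <;>
      rcases lt_trichotomy j Q.card with h' | h' | h'
    · rw [hz1 i h.le, hz1 j h'.le] at hij
      exact a5 i j hi h hj h' hij
    · rw [h', hmid] at hij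
      exact absurd hij (hin i hi h).2
    · exact absurd hij.symm ((hout j h' hj').2 i h.le)
    · rw [h, hmid] at hij
      exact absurd hij.symm (hin j hj h').2
    · rw [h, h']
    · exact absurd hij.symm ((hout j h' hj').2 i h.le)
    · exact absurd hij ((hout i h hi').2 j h'.le)
    · exact absurd hij ((hout i h hi').2 j h'.le)
    · rw [hz2 i h.le, hz2 j h'.le] at hij
      have := b5 _ _ (by omega) (by omega) (by omega) (by omega) hij
      omega

theorem isPathR_of_rel {n K : ℕ} {c : Sym2 (Fin n) → Fin K} {ϑ : ℝ} (hϑ : 0 < ϑ)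
    {Q : Finset (Fin K)} {x y : Fin n} (h : Rel c ϑ Q x y) : ∀ Z : Finset (Fin n),
    (Z.card : ℝ) + 3 * Q.card ≤ ϑ * n → ∃ z : ℕ → Fin n, IsPathR c Q x y Z z := by
  induction h with
  | single x y hxy => exact fun Z _ => isPathR_single c x y Z
  | comp Q Q' x y S hd hS h1 h2 ih1 ih2 =>
    intro Z hZ
    have hcard : (Q ∪ Q').card = Q.card + Q'.card := card_union_of_disjoint hd
    rw [hcard] at hZ
    push_cast at hZ
    have hn : (0 : ℝ) < n := by exact_mod_cast x.pos
    have hne : S.Nonempty := by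
      rw [nonempty_iff_ne_empty]
      rintro rfl
      simp only [mu, card_empty, Nat.cast_zero, zero_div] at hS
      linarith
    obtain ⟨z0, hz0⟩ := hne
    have hQ : 1 ≤ Q.card := card_pos.2 ((h1 z0 hz0).nonempty hϑ.le)
    have hQ' : 1 ≤ Q'.card := card_pos.2 ((h2 z0 hz0).nonempty hϑ.le)
    have hQr : (1 : ℝ) ≤ Q.card := by exact_mod_cast hQ
    have hQr' : (1 : ℝ) ≤ Q'.card := by exact_mod_cast hQ'
    have hSc : ϑ * n < (S.card : ℝ) := by
      rw [mu, lt_div_iff₀ hn] at hS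
      exact hS
    obtain ⟨s, hsS, hs⟩ : ∃ s ∈ S, s ∉ insert x (insert y Z) := by
      by_contra hcon
      push Not at hcon
      have e1 : S.card ≤ (insert x (insert y Z)).card := card_le_card hcon
      have e2 : (insert x (insert y Z)).card ≤ Z.card + 2 :=
        (card_insert_le _ _).trans (Nat.succ_le_succ (card_insert_le _ _))
      have e3 : (S.card : ℝ) ≤ (Z.card : ℝ) + 2 := by exact_mod_cast e1.trans e2
      linarith
    rw [mem_insert, mem_insert, not_or, not_or] at hs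
    obtain ⟨z₁, hz₁⟩ := ih1 s hsS (insert y Z) (by
      have e : ((insert y Z).card : ℝ) ≤ (Z.card : ℝ) + 1 := by
        exact_mod_cast card_insert_le y Z
      linarith)
    obtain ⟨z₂, hz₂⟩ := ih2 s hsS (insert x (Z ∪ (range (Q.card + 1)).image z₁)) (by
      have e1 : (insert x (Z ∪ (range (Q.card + 1)).image z₁)).card ≤
          Z.card + (Q.card + 1) + 1 := by
        refine (card_insert_le _ _).trans (Nat.succ_le_succ ((card_union_le _ _).trans ?_))
        exact Nat.add_le_add_left (card_image_le.trans (card_range _).le) _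
      have e2 : ((insert x (Z ∪ (range (Q.card + 1)).image z₁)).card : ℝ) ≤
          (Z.card : ℝ) + (Q.card + 1) + 1 := by exact_mod_cast e1
      linarith)
    exact isPathR_join c hd hQ' hs.2.2 hs.1 hs.2.1 hz₁ hz₂

theorem thmPathR : StPathR := by
  intro K v ϑ hϑ
  obtain ⟨n₀, hn₀⟩ := exists_nat_ge (((v : ℝ) + 3 * K) / ϑ)
  refine ⟨n₀, fun n hn c Q x y hy Z hZ => ?_⟩
  have h1 : ((v : ℝ) + 3 * K) / ϑ ≤ n := hn₀.trans (by exact_mod_cast hn)
  rw [div_le_iff₀ hϑ] at h1
  have h2 : (Q.card : ℝ) ≤ K := by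
    have := card_le_univ Q
    rw [Fintype.card_fin] at this
    exact_mod_cast this
  have h3 : (Z.card : ℝ) ≤ v := by exact_mod_cast hZ
  exact isPathR_of_rel hϑ (mem_RS.1 hy) Z (by linarith)

end Pool.Agent.Lib.MP_b1acb3_co.One
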