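import Pool.Agent.Lib.MP_b1acb3_co.One.Stmts
import Pool.Agent.Lib.MP_b1acb3_co.Leaf.OddNe

/-!
(Pick) Choice of the labels, of the unused colour and of the small part.
-/

namespace Pool.Agent.Lib.MP_b1acb3_co.One

open Finset Uni Leaf

namespace ModPick

theorem dbl {r : ℕ} (a : Fin r → ZMod 2) : a + a = 0 := by
  funext i
  exact CharTwo.add_self_eq_zero (a i)

theorem lab_mono {n K r : ℕ} {c : Sym2 (Fin n) → Fin K} {Z : Finset (Fin K)}
    {τ : Fin K → Fin r → ZMod 2} {lam : Fin n → Fin r → ZMod 2} {ξ ξ' : ℝ}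
    (h : Lab c Z τ lam ξ) (hξ : ξ ≤ ξ') : Lab c Z τ lam ξ' :=
  ⟨fun y a ha => (h.lab y a ha).trans (mul_le_mul_of_nonneg_right hξ (by positivity)), h.span⟩

/-- Deleting an edge whose ends are the odd vertices of the core. -/
theorem exc_of {V : Type} [Fintype V] (G : SimpleGraph V) (W W₁ : Finset V) (q k : ℕ)
    (m : Fin q → ℕ) (P : Fin q → ℕ → V) (hP : Cyc.Ears G W W₁ q k m P)
    (hW : numEdgesIn G W = numEdges G) (u₀ v₀ : V) (he : s(u₀, v₀) ∈ edgesIn G W₁)
    (hO : ∀ x, x ∈ oddIn G W W₁ ↔ x = u₀ ∨ x = v₀) :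
    ∃ e₀ ∈ G.edgeSet, ∀ v, Even {u | G.Adj v u ∧ s(v, u) ≠ e₀}.ncard := by
  classical
  have hEW : {e ∈ G.edgeSet | ∀ x ∈ e, x ∈ W} = G.edgeSet := by
    apply Set.eq_of_subset_of_ncard_le (fun e he => he.1) _ (Set.toFinite _)
    exact hW.symm.le
  have hadj : ∀ v u, G.Adj v u → v ∈ W ∧ u ∈ W := by
    intro v u h
    have h1 : s(v, u) ∈ {e ∈ G.edgeSet | ∀ x ∈ e, x ∈ W} := by
      rw [hEW]
      exact h
    exact ⟨h1.2 v (Sym2.mem_mk_left _ _), h1.2 u (Sym2.mem_mk_right _ _)⟩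
  have he' := ((mem_edgesIn G W₁ _).1 he).1
  have hadj0 : G.Adj u₀ v₀ := he'
  have hset : ∀ v, {u | u ∈ W ∧ G.Adj v u} = {u | G.Adj v u} := by
    intro v
    ext u
    exact ⟨fun h => h.2, fun h => ⟨(hadj v u h).2, h⟩⟩
  refine ⟨s(u₀, v₀), he', ?_⟩
  intro v
  by_cases hv : v = u₀ ∨ v = v₀
  · have hodd : Odd {u | G.Adj v u}.ncard := by
      have h1 := (hO v).2 hv
      rw [mem_oddIn, hset] at h1
      exact h1.2
    obtain ⟨w, hw, hwset⟩ : ∃ w, G.Adj v w ∧
        {u | G.Adj v u ∧ s(v, u) ≠ s(u₀, v₀)} = {u | G.Adj v u} \ {w} := by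
      rcases hv with rfl | rfl
      · refine ⟨v₀, hadj0, ?_⟩
        ext u
        simp only [Set.mem_ofPred_eq, Set.mem_sdiff, Set.mem_singleton_iff, ne_eq, Sym2.eq_iff]
        constructor
        · rintro ⟨h1, h2⟩
          exact ⟨h1, fun h => h2 (Or.inl ⟨trivial, h⟩)⟩
        · rintro ⟨h1, h2⟩
          refine ⟨h1, ?_⟩
          rintro (⟨-, h⟩ | ⟨h3, h4⟩)
          · exact h2 h
          · exact h2 (h4.trans h3)
      · refine ⟨u₀, hadj0.symm, ?_⟩
        ext u
        simp only [Set.mem_ofPred_eq, Set.mem_sdiff, Set.mem_singleton_iff, ne_eq, Sym2.eq_iff]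
        constructor
        · rintro ⟨h1, h2⟩
          exact ⟨h1, fun h => h2 (Or.inr ⟨trivial, h⟩)⟩
        · rintro ⟨h1, h2⟩
          refine ⟨h1, ?_⟩
          rintro (⟨h3, h4⟩ | ⟨-, h⟩)
          · exact h2 (h4.trans h3)
          · exact h2 h
    rw [hwset]
    have h2 := Set.ncard_sdiff_singleton_add_one (s := {u | G.Adj v u}) (a := w) hw
      (Set.toFinite _)
    rw [← h2] at hodd
    rcases Nat.even_or_odd ({u | G.Adj v u} \ {w}).ncard with h | h
    · exact h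
    · exact absurd hodd (Nat.not_odd_iff_even.2 h.add_one)
  · have hset2 : {u | G.Adj v u ∧ s(v, u) ≠ s(u₀, v₀)} = {u | G.Adj v u} := by
      ext u
      simp only [Set.mem_ofPred_eq, ne_eq, Sym2.eq_iff, and_iff_left_iff_imp]
      rintro - (⟨h, -⟩ | ⟨h, -⟩)
      · exact hv (Or.inl h)
      · exact hv (Or.inr h)
    rw [hset2]
    by_cases hvW : v ∈ W
    · by_cases hvW₁ : v ∈ W₁
      · rw [← Nat.not_odd_iff_even]
        intro hodd
        apply hv
        rw [← hO v, mem_oddIn, hset]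
        exact ⟨hvW₁, hodd⟩
      · obtain ⟨i, j, hj1, hj2, rfl⟩ := hP.cover v hvW hvW₁
        have h3 := Leaf.ModOddNe.inner_nbrs hP i j hj1 hj2
        rw [hset] at h3
        rw [h3]
        decide
    · have : {u | G.Adj v u} = ∅ := by
        rw [Set.eq_empty_iff_forall_notMem]
        intro u hu
        exact hvW (hadj v u hu).1
      rw [this, Set.ncard_empty]
      exact Even.zero

end ModPick

open ModPick in
theorem thmPick (hA : StAssign) (hR : StCoreR) (hP : StCoreP) (hC : StClassN) (hK : StRank) :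
    StPick := by
  classical
  intro V _ G W W₁ q k z m P hk hEars hW hExc hh hz hzK
  set K := numEdges G + 1 with hKdef
  have hK0 : 0 < K := Nat.succ_pos _
  have hKR : (0 : ℝ) < K := by exact_mod_cast hK0
  set h := numEdgesIn G W₁ with hhdef
  have h16 : 16 * h ^ 2 ≤ K :=
    (Nat.mul_le_mul (by norm_num) (Nat.pow_le_pow_left (Nat.le_succ h) 2)).trans hh
  obtain ⟨κ, hκ, ξA, hξA, δA, hδA, nA, hA'⟩ := hA K hK0
  obtain ⟨ξR, hξR, nR, hR'⟩ := hR V G W₁ (oddIn G W W₁) K (z + 2) hK0 h16 hz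
  obtain ⟨ξP, hξP, nP, hP'⟩ := hP V G W₁ K (z + 2) hK0 h16 hz
  obtain ⟨ξC, hξC, δC, hδC, nC, hC'⟩ := hC K (1 / K) hK0 (by positivity)
  obtain ⟨ξK, hξK, δK, hδK, nK, hK'⟩ := hK K hK0
  set ξ := min (min (min ξA ξR) (min ξP ξC)) ξK with hξdef
  have hξ : 0 < ξ := lt_min (lt_min (lt_min hξA hξR) (lt_min hξP hξC)) hξK
  have hξ1 : ξ ≤ ξA := (min_le_left _ _).trans ((min_le_left _ _).trans (min_le_left _ _))
  have hξ2 : ξ ≤ ξR := (min_le_left _ _).trans ((min_le_left _ _).trans (min_le_right _ _))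
  have hξ3 : ξ ≤ ξP := (min_le_left _ _).trans ((min_le_right _ _).trans (min_le_left _ _))
  have hξ4 : ξ ≤ ξC := (min_le_left _ _).trans ((min_le_right _ _).trans (min_le_right _ _))
  have hξ5 : ξ ≤ ξK := min_le_right _ _
  have hδ₃ : (0 : ℝ) < 1 / (K : ℝ) ^ 2 := by positivity
  set δ := min (min δA δC) (min δK (1 / (K : ℝ) ^ 2)) with hδdef
  have hδ : 0 < δ := lt_min (lt_min hδA hδC) (lt_min hδK hδ₃)
  have hδ1 : δ ≤ δA := (min_le_left _ _).trans (min_le_left _ _)
  have hδ2 : δ ≤ δC := (min_le_left _ _).trans (min_le_right _ _)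
  have hδ3 : δ ≤ δK := (min_le_right _ _).trans (min_le_left _ _)
  have hδ4 : δ ≤ 1 / (K : ℝ) ^ 2 := (min_le_right _ _).trans (min_le_right _ _)
  refine ⟨κ, hκ, ξ, hξ, δ, hδ, nA + nR + nP + nC + nK + 1, ?_⟩
  intro n hn c B hB r Z τ lam hZ hLab
  have hdeg : ∀ i k, (colourDegree c i k : ℝ) ≤ 2 * ((n : ℝ) / K) := by
    intro a b
    have h6 := (hB.mono hδ4).deg_le hδ₃.le a b
    have h7 : (n : ℝ) * (K * (1 / (K : ℝ) ^ 2)) = (n : ℝ) / K := by
      field_simp
    rw [h7] at h6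
    linarith
  have hr : 2 ^ r ≤ K := hK' n (by omega) c B (hB.mono hδ3) r Z τ lam (lab_mono hLab hξ5)
    (by omega)
  have hrR : (2 : ℝ) ^ r ≤ K := by exact_mod_cast hr
  have hcls : ∀ t, mu (cls lam t) ≤ 2 / 2 ^ r := by
    intro t
    have h1 := abs_le.1 (hC' n (by omega) c B (hB.mono hδ2) r Z τ lam (lab_mono hLab hξ4) t)
    have h2 : 1 / (K : ℝ) ≤ 1 / 2 ^ r := one_div_le_one_div_of_le (by positivity) hrR
    have h3 : (2 : ℝ) / 2 ^ r = 1 / 2 ^ r + 1 / 2 ^ r := by ring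
    rw [h3]
    linarith [h1.2]
  have hAs := hA' n (by omega) c B (hB.mono hδ1) r Z τ lam (lab_mono hLab hξ1) hr
  have hCR := hR' n (by omega) c hdeg r Z τ lam (lab_mono hLab hξ2) hcls
  have hCP := hP' n (by omega) c hdeg r Z τ lam (lab_mono hLab hξ3)
  have hdiv : 1 ≤ K / 2 ^ r := (Nat.one_le_div_iff (by positivity)).2 hr
  -- the set of ends
  set O := oddIn G W W₁ with hO
  have hlab : ∀ (t' : Fin K → Fin r → ZMod 2), (∀ a, a ∉ Z → t' a = τ a) →
      ∀ (f : V → Fin n) (F : Finset (Fin K)), Z ⊆ F →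
      (∀ e ∈ edgesIn G W₁, c (e.map f) ∉ F) →
      (∀ u v, s(u, v) ∈ edgesIn G W₁ → lam (f u) + lam (f v) = τ (c s(f u, f v))) →
      ∀ u v, s(u, v) ∈ edgesIn G W₁ → lam (f u) + lam (f v) = t' (c s(f u, f v)) := by
    intro t' ht f F hF hf1 hf2 u v huv
    rw [hf2 u v huv, ht]
    intro hcon
    exact hf1 _ huv (hF hcon)
  by_cases hcase : 2 ^ r < 16 * (h + 1)
  · -- few labels
    obtain ⟨t', ht1, ht2, ht3, -⟩ := hAs 0
    obtain ⟨f, hf, hfc, hfF, hfl, -⟩ := hCR Z subset_rfl (by omega) 0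
    set T := ∑ a, t' a + ∑ v ∈ O, lam (f v) with hT
    have h1 : h + 1 ≤ K / 2 ^ r := by
      rw [Nat.le_div_iff_mul_le (by positivity)]
      calc (h + 1) * 2 ^ r ≤ (h + 1) * (16 * (h + 1)) := Nat.mul_le_mul_left _ hcase.le
        _ = 16 * (h + 1) ^ 2 := by ring
        _ ≤ 1000 * (h + 1) ^ 2 := Nat.mul_le_mul_right _ (by norm_num)
        _ ≤ K := hh
    have h2 := ht3 T
    set U := (edgesIn G W₁).image (fun e => c (e.map f)) with hU
    have hUc : U.card ≤ h := by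
      refine card_image_le.trans ?_
      rw [card_edgesIn]
    obtain ⟨j₀, hj1, hj2⟩ : ∃ j₀ ∈ univ.filter (fun a => t' a = T), j₀ ∉ U := by
      by_contra hcon
      push Not at hcon
      have := card_le_card (show univ.filter (fun a => t' a = T) ⊆ U from hcon)
      omega
    rw [mem_filter] at hj1
    refine ⟨t', j₀, f, ht1, ht2, hf, hfc, hlab t' ht1 f Z subset_rfl hfF hfl, ?_, ?_⟩
    · intro e he hcon
      apply hj2
      rw [hU, mem_image]
      exact ⟨e, he, hcon⟩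
    · rw [hj1.2, hT, add_assoc, dbl, add_zero]
  have hcase' : 16 * (h + 1) ≤ 2 ^ r := not_lt.1 hcase
  by_cases hOe : O = ∅
  · -- no odd vertices
    obtain ⟨t', ht1, ht2, ht3, -⟩ := hAs 0
    have h2 := ht3 (∑ a, t' a)
    obtain ⟨j₀, hj1⟩ : (univ.filter (fun a => t' a = ∑ a, t' a)).Nonempty := by
      rw [← card_pos]
      omega
    rw [mem_filter] at hj1
    obtain ⟨f, hf, hfc, hfF, hfl, -⟩ := hCR (insert j₀ Z) (subset_insert _ _)
      ((card_insert_le _ _).trans (by omega)) 0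
    refine ⟨t', j₀, f, ht1, ht2, hf, hfc,
      hlab t' ht1 f (insert j₀ Z) (subset_insert _ _) hfF hfl, ?_, ?_⟩
    · intro e he hcon
      apply hfF e he
      rw [hcon]
      exact mem_insert_self _ _
    · rw [hOe, sum_empty, add_zero]
      exact hj1.2
  have hOne : O.Nonempty := nonempty_iff_ne_empty.2 hOe
  by_cases hedge : ∃ u v, s(u, v) ∈ edgesIn G W₁ ∧ ∀ x, x ∈ O ↔ x = u ∨ x = v
  · -- the odd vertices are the ends of an edge
    obtain ⟨u₀, v₀, he, hOx⟩ := hedge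
    have hexc := exc_of G W W₁ q k m P hEars hW u₀ v₀ he hOx
    have hadj : G.Adj u₀ v₀ := ((mem_edgesIn G W₁ _).1 he).1
    have hOeq : O = {u₀, v₀} := by
      ext x
      rw [hOx, mem_insert, mem_singleton]
    have hKlt : 2 ^ r < K := by
      rcases lt_or_eq_of_le hr with h1 | h1
      · exact h1
      · exact absurd ⟨⟨r, h1.symm⟩, hexc⟩ hExc
    have hr4 : 1 ≤ r := by
      by_contra hcon
      have : r = 0 := by omega
      rw [this] at hcase'
      omega
    -- a nonzero label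
    set s : Fin r → ZMod 2 := fun _ => 1 with hs
    have hs0 : s ≠ 0 := by
      intro hcon
      have := congrFun hcon ⟨0, by omega⟩
      rw [hs] at this
      exact one_ne_zero this
    obtain ⟨t', ht1, ht2, ht3, ht4⟩ := hAs s
    have ht3' : ∀ t, ∃ a, t' a = t := by
      intro t
      have h2 := ht3 t
      obtain ⟨a, ha⟩ : (univ.filter (fun a => t' a = t)).Nonempty := by
        rw [← card_pos]
        omega
      exact ⟨a, (mem_filter.1 ha).2⟩
    obtain ⟨c₂, j₀, hcj, hc20, hsum⟩ : ∃ c₂ j₀ : Fin K, c₂ ≠ j₀ ∧ t' c₂ ≠ 0 ∧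
        t' c₂ + t' j₀ = ∑ a, t' a := by
      by_cases hS : ∑ a, t' a = 0
      · have h2 := ht4 hKlt
        obtain ⟨a, ha, b, hb, hab⟩ := one_lt_card.1 (show 1 < _ from h2)
        rw [mem_filter] at ha hb
        refine ⟨a, b, hab, ?_, ?_⟩
        · rw [ha.2]
          exact hs0
        · rw [ha.2, hb.2, dbl, hS]
      · obtain ⟨a, ha⟩ := ht3' s
        obtain ⟨b, hb⟩ := ht3' (∑ a, t' a + s)
        refine ⟨a, b, ?_, ?_, ?_⟩
        · rintro rfl
          rw [ha] at hb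
          apply hS
          have : ∑ a, t' a + s + s = s + s := by rw [← hb]
          rwa [add_assoc, dbl, add_zero] at this
        · rw [ha]
          exact hs0
        · rw [ha, hb, add_comm (∑ a, t' a) s, ← add_assoc, dbl, zero_add]
    -- a pair of colour c₂
    obtain ⟨p, q', hpq, hpc, hpl⟩ : ∃ p q' : Fin n, p ≠ q' ∧ c s(p, q') = c₂ ∧
        lam p + lam q' = t' c₂ := by
      have h1 := ht2 c₂
      have hn0 : (0 : ℝ) < n := by
        have : 0 < n := by omega
        exact_mod_cast this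
      have h2 : (0 : ℝ) < cnt c lam c₂ (t' c₂) := lt_of_lt_of_le (by positivity) h1
      have h3 : 0 < cnt c lam c₂ (t' c₂) := by exact_mod_cast h2
      unfold cnt at h3
      obtain ⟨x, hx⟩ := card_pos.1 h3
      rw [mem_filter] at hx
      exact ⟨x.1, x.2, hx.2⟩
    have hlpq : lam p ≠ lam q' := by
      intro hcon
      rw [hcon, dbl] at hpl
      exact hc20 hpl.symm
    have hZF : Z ⊆ insert c₂ (insert j₀ Z) := (subset_insert _ _).trans (subset_insert _ _)
    obtain ⟨f, hf, hfu, hfv, hfc, hfF, hfl⟩ := hCP (insert c₂ (insert j₀ Z)) hZF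
      ((card_insert_le _ _).trans (by
        have := card_insert_le j₀ Z
        omega)) u₀ v₀ he p q' hpq hlpq (by
        rw [hpc]
        exact mem_insert_self _ _)
    refine ⟨t', j₀, f, ht1, ht2, hf, hfc, ?_, ?_, ?_⟩
    · intro u v huv
      by_cases h1 : s(u, v) = s(u₀, v₀)
      · rw [Sym2.eq_iff] at h1
        rcases h1 with ⟨rfl, rfl⟩ | ⟨rfl, rfl⟩
        · rw [hfu, hfv, hpl, hpc]
        · rw [hfu, hfv, Sym2.eq_swap, hpc, add_comm, hpl]
      · rw [hfl u v huv h1, ht1]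
        intro hcon
        exact hfF _ huv h1 (hZF hcon)
    · intro e he' hcon
      by_cases h1 : e = s(u₀, v₀)
      · rw [h1, Sym2.map_mk, hfu, hfv, hpc] at hcon
        exact hcj hcon
      · apply hfF e he' h1
        rw [hcon]
        exact mem_insert_of_mem (mem_insert_self _ _)
    · rw [hOeq, sum_pair hadj.ne, hfu, hfv, hpl, add_comm, hsum]
  · -- the odd vertices are not the ends of an edge
    push Not at hedge
    obtain ⟨t', ht1, ht2, ht3, -⟩ := hAs 0
    obtain ⟨f, hf, hfc, hfF, hfl, hfO⟩ := hCR Z subset_rfl (by omega) (∑ a, t' a)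
    have hfO' := hfO hOne (by omega) (by
      intro u v huv hcon
      obtain ⟨x, hx⟩ := hedge u v huv
      rcases hx with ⟨h1, h2, h3⟩ | ⟨h1, h2⟩
      · rcases (hcon x).1 h1 with h4 | h4
        · exact h2 h4
        · exact h3 h4
      · exact h1 ((hcon x).2 h2))
    have h2 := ht3 (∑ a, t' a + ∑ v ∈ O, lam (f v))
    obtain ⟨j₀, hj1⟩ : (univ.filter
        (fun a => t' a = ∑ a, t' a + ∑ v ∈ O, lam (f v))).Nonempty := by
      rw [← card_pos]
      omega
    rw [mem_filter] at hj1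
    have hlab' := hlab t' ht1 f Z subset_rfl hfF hfl
    refine ⟨t', j₀, f, ht1, ht2, hf, hfc, hlab', ?_, ?_⟩
    · intro e he hcon
      induction e with
      | h u v =>
        rw [Sym2.map_mk] at hcon
        have h3 := hlab' u v he
        rw [hcon, hj1.2] at h3
        apply hfO' u v he
        rw [h3, ← add_assoc, add_comm (∑ v ∈ O, lam (f v)), add_assoc, dbl, add_zero]
    · rw [hj1.2, add_assoc, dbl, add_zero]

end Pool.Agent.Lib.MP_b1acb3_co.One
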