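import Pool.Agent.Lib.MP_b1acb3_co.One.Stmts

/-!
Module (Rank): bound for the rank of the labels.
-/

namespace Pool.Agent.Lib.MP_b1acb3_co.One

open Finset Uni Leaf

namespace ModRank

theorem lab_mono {n K r : ℕ} {c : Sym2 (Fin n) → Fin K} {Z : Finset (Fin K)}
    {τ : Fin K → Fin r → ZMod 2} {lam : Fin n → Fin r → ZMod 2} {ξ ξ' : ℝ}
    (h : Lab c Z τ lam ξ) (hξ : ξ ≤ ξ') : Lab c Z τ lam ξ' :=
  ⟨fun y a ha => (h.lab y a ha).trans
    (mul_le_mul_of_nonneg_right hξ (by positivity)), h.span⟩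

/-- The class of the neighbours of a vertex in colour `a ∉ Z` is large. -/
theorem mu_cls_ge {n K r : ℕ} {c : Sym2 (Fin n) → Fin K}
    {B : Fin K → Matrix (Fin n) (Fin n) ℝ} {δ ξ : ℝ} (hE : Env c B δ) {Z : Finset (Fin K)}
    {τ : Fin K → Fin r → ZMod 2} {lam : Fin n → Fin r → ZMod 2} (hL : Lab c Z τ lam ξ)
    (hn : 0 < n) (x : Fin n) (a : Fin K) (ha : a ∉ Z) :
    1 / (K : ℝ) - δ - 1 / n - ξ / K ≤ mu (cls lam (lam x + τ a)) := by
  have hn0 : (0 : ℝ) < n := by exact_mod_cast hn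
  have h1 := hE.deg_ge x a
  have h2 := hL.lab x a ha
  have h3 : (nbr c x a).card ≤ (cls lam (lam x + τ a)).card +
      ((nbr c x a).filter (fun z => lam z ≠ lam x + τ a)).card := by
    have h4 : nbr c x a ⊆ cls lam (lam x + τ a) ∪
        (nbr c x a).filter (fun z => lam z ≠ lam x + τ a) := by
      intro z hz
      rw [mem_union, mem_cls, mem_filter]
      by_cases h5 : lam z = lam x + τ a
      · exact Or.inl h5
      · exact Or.inr ⟨hz, h5⟩
    exact (card_le_card h4).trans (card_union_le _ _)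
  have h6 : ((nbr c x a).card : ℝ) ≤ ((cls lam (lam x + τ a)).card : ℝ) +
      (((nbr c x a).filter (fun z => lam z ≠ lam x + τ a)).card : ℝ) := by exact_mod_cast h3
  rw [card_nbr] at h6
  unfold mu
  rw [le_div_iff₀ hn0]
  have h7 : (1 / (K : ℝ) - δ - 1 / n - ξ / K) * n = (n : ℝ) / K - n * δ - 1 - ξ * (n / K) := by
    field_simp
  rw [h7]
  linarith

end ModRank

open ModRank in
/-- (Rank) Bound for the rank. -/
theorem thmRank (h : StClassN) : StRank := by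
  intro K hK
  have hK0 : (0 : ℝ) < K := by exact_mod_cast hK
  have hK1 : (1 : ℝ) ≤ K := by exact_mod_cast hK
  obtain ⟨g, hg⟩ : ∃ g : ℝ, g = 1 / (K : ℝ) - 1 / ((K : ℝ) + 1) := ⟨_, rfl⟩
  have hg0 : 0 < g := by
    rw [hg, sub_pos]
    exact one_div_lt_one_div_of_lt hK0 (by linarith)
  obtain ⟨ξ₀, hξ₀, δ₀, hδ₀, n₀, hC⟩ := h K (g / 4) hK (by positivity)
  refine ⟨min ξ₀ (g / 4), lt_min hξ₀ (by positivity), min δ₀ (g / 8),
    lt_min hδ₀ (by positivity), max n₀ (⌈8 / g⌉₊ + 1), ?_⟩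
  intro n hn c B hE r Z τ lam hL hZ
  have hn1 : n₀ ≤ n := (le_max_left _ _).trans hn
  have hn2 : ⌈8 / g⌉₊ + 1 ≤ n := (le_max_right _ _).trans hn
  have hnpos : 0 < n := by omega
  have hn0 : (0 : ℝ) < n := by exact_mod_cast hnpos
  have hn3 : 1 / (n : ℝ) ≤ g / 8 := by
    have h1 : 8 / g ≤ n := by
      have h2 := Nat.le_ceil (8 / g)
      have h3 : ((⌈8 / g⌉₊ : ℕ) : ℝ) + 1 ≤ n := by exact_mod_cast hn2
      linarith
    rw [div_le_iff₀ hg0] at h1
    rw [div_le_div_iff₀ hn0 (by norm_num)]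
    linarith
  obtain ⟨a, ha⟩ : ∃ a, a ∉ Z := by
    by_contra hcon
    push Not at hcon
    have h1 : Z = univ := eq_univ_of_forall hcon
    rw [h1, card_univ, Fintype.card_fin] at hZ
    omega
  have hx := mu_cls_ge hE hL hnpos ⟨0, hnpos⟩ a ha
  have hm := abs_le.1 (hC n hn1 c B (hE.mono (min_le_left _ _)) r Z τ lam
    (lab_mono hL (min_le_left _ _)) (lam ⟨0, hnpos⟩ + τ a))
  have hδ : min δ₀ (g / 8) ≤ g / 8 := min_le_right _ _
  have hξ : min ξ₀ (g / 4) / K ≤ g / 4 := by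
    rw [div_le_iff₀ hK0]
    have h1 : min ξ₀ (g / 4) ≤ g / 4 := min_le_right _ _
    have h2 : g / 4 * 1 ≤ g / 4 * K := mul_le_mul_of_nonneg_left hK1 (by positivity)
    linarith
  have h1 : 1 / ((K : ℝ) + 1) < 1 / 2 ^ r := by linarith [hm.2]
  have h2 : (2 : ℝ) ^ r < (K : ℝ) + 1 := by
    rw [one_div_lt_one_div (by positivity) (by positivity)] at h1
    exact h1
  have h3 : 2 ^ r < K + 1 := by exact_mod_cast h2
  omega

end Pool.Agent.Lib.MP_b1acb3_co.One
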