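import Pool.Agent.Lib.MP_b1acb3_co.One.Stmts
import Pool.Agent.Lib.MP_b1acb3_co.Uni.G3
import Pool.Agent.Lib.MP_b1acb3_co.Leaf.Basic

set_option autoImplicit false

/-!
(RelSys) The relations form a system.
-/

namespace Pool.Agent.Lib.MP_b1acb3_co.One

open Finset Uni Leaf

namespace ModRelSys

/-- Upper bound for the kernel applied to a set. -/
theorem app_le {n K : ℕ} {c : Sym2 (Fin n) → Fin K} {B : Fin K → Matrix (Fin n) (Fin n) ℝ}
    {δ : ℝ} (hn : 0 < n) (hδ : 0 ≤ δ) (hE : Env c B δ) (a : Fin K) (S : Finset (Fin n))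
    (y : Fin n) : app (Cyc.nrm B) a S y ≤ K * (mu (S ∩ nbr c y a) + 1 / n + δ) := by
  classical
  have hnR : (0 : ℝ) < n := by exact_mod_cast hn
  have hK0 : (0 : ℝ) ≤ K := Nat.cast_nonneg K
  unfold app
  have h1 : ∑ j ∈ S, Cyc.nrm B a y j ≤
      ∑ j ∈ S, ((K : ℝ) / n) * ((if c s(y, j) = a then (1 : ℝ) else 0) + δ) := by
    refine sum_le_sum fun j _ => ?_
    simp only [Cyc.nrm, Matrix.smul_apply, smul_eq_mul]
    exact mul_le_mul_of_nonneg_left (hE.upper a y j) (by positivity)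
  refine h1.trans ?_
  rw [← mul_sum, sum_add_distrib, sum_boole, sum_const, nsmul_eq_mul]
  have h2 : ((S.filter fun j => c s(y, j) = a).card : ℝ) ≤ (S ∩ nbr c y a).card + 1 := by
    have h3 : (S.filter fun j => c s(y, j) = a) ⊆ insert y (S ∩ nbr c y a) := by
      intro j hj
      rw [mem_filter] at hj
      rw [mem_insert, mem_inter, mem_nbr]
      by_cases hjy : j = y
      · exact Or.inl hjy
      · exact Or.inr ⟨hj.1, hjy, hj.2⟩
    have h4 := (card_le_card h3).trans (card_insert_le y _)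
    exact_mod_cast h4
  have h3 : (S.card : ℝ) ≤ n := by
    have := card_le_univ S
    rw [Fintype.card_fin] at this
    exact_mod_cast this
  have h4 : (S.card : ℝ) * δ ≤ n * δ := mul_le_mul_of_nonneg_right h3 hδ
  have h5 : (K : ℝ) * (mu (S ∩ nbr c y a) + 1 / n + δ) =
      (K : ℝ) / n * (((S ∩ nbr c y a).card : ℝ) + 1 + n * δ) := by
    unfold mu
    field_simp
  rw [h5]
  exact mul_le_mul_of_nonneg_left (by linarith) (by positivity)

end ModRelSys

open ModRelSys in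
theorem thmRelSys : StRelSys := by
  classical
  intro K ϑ hK hϑ
  have hKR : (1 : ℝ) ≤ K := by exact_mod_cast hK
  obtain ⟨n₁, hn₁⟩ := exists_nat_ge (2 / ϑ)
  refine ⟨ϑ / 2, by positivity, max n₁ 1, ?_⟩
  intro n hn c B hE
  have hnn₁ : n₁ ≤ n := (le_max_left _ _).trans hn
  have hn0 : 0 < n := (le_max_right _ _).trans hn
  have hnR : (0 : ℝ) < n := by exact_mod_cast hn0
  have h1n : 1 / (n : ℝ) ≤ ϑ / 2 := by
    have h4 : 2 / ϑ ≤ n := hn₁.trans (by exact_mod_cast hnn₁)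
    rw [div_le_iff₀ hϑ] at h4
    rw [div_le_div_iff₀ hnR (by norm_num)]
    linarith
  have hθ : ϑ ≤ 2 * K * ϑ := by nlinarith
  have hθ0 : 0 ≤ 2 * K * ϑ := hϑ.le.trans hθ
  refine ⟨fun x => ⟨markov_nrm hn0 hK B hE.exact, hθ0, ?_, ?_, ?_, ?_, ?_⟩, ?_, ?_, ?_⟩
  · intro Q a ha y hy
    have h1 : mu (RS c ϑ x Q ∩ nbr c y a) ≤ ϑ := by
      by_contra hlt
      have hlt := lt_of_not_ge hlt
      apply hy
      rw [← RS_single hϑ.le] at hlt
      have h2 := RS_comp (disjoint_singleton_right.2 ha) hlt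
      rwa [insert_eq, union_comm]
    have h2 := app_le hn0 (by positivity) hE a (RS c ϑ x Q) y
    refine h2.trans ?_
    have h3 : (K : ℝ) * (mu (RS c ϑ x Q ∩ nbr c y a) + 1 / n + ϑ / 2) ≤ K * (2 * ϑ) :=
      mul_le_mul_of_nonneg_left (by linarith) (by linarith)
    linarith
  · exact RS_empty hϑ.le x
  · intro a
    change 1 / (K : ℝ) - 2 * K * ϑ ≤ mu (RS c ϑ x {a})
    rw [RS_single hϑ.le]
    have h1 := hE.deg_ge x a
    have h2 : (nbr c x a).card = colourDegree c x a := rfl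
    unfold mu
    rw [h2, le_div_iff₀ hnR]
    have h3 : (1 / (K : ℝ) - 2 * K * ϑ) * n = n / K - (2 * K * ϑ) * n := by
      field_simp
    have h4 : ϑ * n ≤ (2 * K * ϑ) * n := mul_le_mul_of_nonneg_right hθ hnR.le
    have h5 : 1 ≤ ϑ / 2 * n := by
      rwa [div_le_iff₀ hnR] at h1n
    rw [h3]
    linarith
  · intro a b hab
    rw [RS_single hϑ.le, RS_single hϑ.le, disjoint_left]
    intro y hy hy2
    rw [mem_nbr] at hy hy2
    exact hab (hy.2.symm.trans hy2.2)
  · intro U U' _ _ _ hcard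
    exfalso
    omega
  · intro x y Q h
    exact RS_symm h
  · intro x y Q Q' hd h
    exact RS_comp hd (hθ.trans_lt h)
  · intro x y hxy
    refine ⟨c s(x, y), ?_⟩
    rw [RS_single hϑ.le, mem_nbr]
    exact ⟨hxy, rfl⟩

end Pool.Agent.Lib.MP_b1acb3_co.One
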