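import Pool.Agent.Lib.MP_b1acb3_co.One.Stmts

/-!
Reversal of the last ear.
-/

namespace Pool.Agent.Lib.MP_b1acb3_co.One

/-- (Rev) Reversal of the last ear. -/
theorem thmRev : StRev := by
  intro V _ G W W₂ W₁ q k m P m' P' hk h
  have hl := h.last
  refine ⟨h.ears, ?_, ?_, ?_⟩
  · refine ⟨hl.sub, hl.long, ?_, ?_, ?_, ?_, ?_, ?_, ?_, ?_⟩
    · intro i
      change P' (m' + 1 - 0) ∈ W₂
      rw [Nat.sub_zero]
      exact hl.stop i
    · intro i
      change P' (m' + 1 - (m' + 1)) ∈ W₂
      rw [Nat.sub_self]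
      exact hl.start i
    · intro i j h1 h2
      have h2' : j ≤ m' := h2
      exact hl.inner i (m' + 1 - j) (by omega) (by change m' + 1 - j ≤ m'; omega)
    · intro i j i' j' h1 h2 h1' h2' he
      have h3 : j ≤ m' := h2
      have h3' : j' ≤ m' := h2'
      have := (hl.inj i (m' + 1 - j) i' (m' + 1 - j') (by omega)
        (by change m' + 1 - j ≤ m'; omega) (by omega)
        (by change m' + 1 - j' ≤ m'; omega) he).2
      exact ⟨Subsingleton.elim _ _, by omega⟩
    · intro v hv hv'
      obtain ⟨i, j, h1, h2, h3⟩ := hl.cover v hv hv'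
      have h2' : j ≤ m' := h2
      refine ⟨i, m' + 1 - j, by omega, by change m' + 1 - j ≤ m'; omega, ?_⟩
      change P' (m' + 1 - (m' + 1 - j)) = v
      rw [show m' + 1 - (m' + 1 - j) = j by omega]
      exact h3
    · intro i j hj
      have hj' : j ≤ m' := hj
      change G.Adj (P' (m' + 1 - j)) (P' (m' + 1 - (j + 1)))
      rw [show m' + 1 - j = m' - j + 1 by omega, show m' + 1 - (j + 1) = m' - j by omega]
      exact (hl.adj i (m' - j) (Nat.sub_le _ _)).symm
    · intro i j u h1 h2 hu hadj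
      have h2' : j ≤ m' := h2
      have := hl.only i (m' + 1 - j) u (by omega) (by change m' + 1 - j ≤ m'; omega) hu hadj
      change u = P' (m' + 1 - (j - 1)) ∨ u = P' (m' + 1 - (j + 1))
      rw [show m' + 1 - (j - 1) = m' + 1 - j + 1 by omega,
        show m' + 1 - (j + 1) = m' + 1 - j - 1 by omega]
      exact this.symm
    · intro i j h1 h2
      have h2' : j ≤ m' := h2
      change P' (m' + 1 - (j - 1)) ≠ P' (m' + 1 - (j + 1))
      rw [show m' + 1 - (j - 1) = m' + 1 - j + 1 by omega,
        show m' + 1 - (j + 1) = m' + 1 - j - 1 by omega]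
      exact (hl.ne i (m' + 1 - j) (by omega) (by change m' + 1 - j ≤ m'; omega)).symm
  · change P' (m' + 1 - 0) ∈ W₁
    rw [Nat.sub_zero]
    exact h.stop
  · change P' (m' + 1 - (m' + 1)) ∈ W₁
    rw [Nat.sub_self]
    exact h.start

end Pool.Agent.Lib.MP_b1acb3_co.One
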