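import Pool.Agent.Lib.MP_b1acb3_co.One.Stmts

/-!
Module Rich: the labels of the colours generate everything.
-/

namespace Pool.Agent.Lib.MP_b1acb3_co.One

open Finset Uni Leaf

namespace ModRich

/-- Sets with small pairwise intersections. -/
theorem sum_mu_le {n : ℕ} {ι : Type} [DecidableEq ι] (s : Finset ι) (f : ι → Finset (Fin n))
    (ν : ℝ) (hν : 0 ≤ ν) (h : ∀ i ∈ s, ∀ j ∈ s, i ≠ j → mu (f i ∩ f j) ≤ ν) :
    ∑ i ∈ s, mu (f i) ≤ mu (s.biUnion f) + (s.card : ℝ) ^ 2 * ν := by
  classical
  induction s using Finset.induction_on with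
  | empty => simp [mu_nonneg]
  | insert a s ha ih =>
    rw [biUnion_insert, sum_insert ha, card_insert_of_notMem ha]
    have h1 := mu_union_add_inter (f a) (s.biUnion f)
    have h2 : mu (f a ∩ s.biUnion f) ≤ s.card * ν := by
      rw [inter_biUnion]
      refine (mu_biUnion_le s (fun i => f a ∩ f i)).trans ?_
      rw [← nsmul_eq_mul, ← sum_const]
      apply sum_le_sum
      intro i hi
      exact h a (mem_insert_self a s) i (mem_insert_of_mem hi) (fun e => ha (e ▸ hi))
    have h3 := ih (fun i hi j hj hij =>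
      h i (mem_insert_of_mem hi) j (mem_insert_of_mem hj) hij)
    push_cast
    have h4 : (0 : ℝ) ≤ s.card := Nat.cast_nonneg _
    nlinarith [mul_nonneg h4 hν]

end ModRich

open ModRich in
theorem thmRich : StRich := by
  intro n K P T θ ν ε m s C Cf D τ hL hcnt hZ hν t
  have hK : 0 < K := hL.markov.kpos
  have hKr : (0 : ℝ) < K := by exact_mod_cast hK
  have hm : (1 : ℝ) ≤ m := by exact_mod_cast hL.m1
  obtain ⟨c, hc⟩ := hL.ne
  have hat := hL.atoms c hc
  have hsz : ∀ u ∈ D.powerset, ((m : ℝ) - ε) / K ≤ mu (T u) := by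
    intro u hu
    rw [mem_powerset] at hu
    have h1 := hat.size u (hu.trans hat.subD) (by
      have h2 := card_le_card hu
      have h3 := hL.card
      omega)
    rw [abs_le] at h1
    rw [div_le_iff₀ hKr]
    linarith [h1.1]
  have hB := sum_mu_le D.powerset T ν hL.ν0 (by
    intro u hu w hw huw
    exact hat.ind u (mem_powerset.1 hu) w (mem_powerset.1 hw) huw)
  have hB2 : ∑ _u ∈ D.powerset, ((m : ℝ) - ε) / K ≤ ∑ u ∈ D.powerset, mu (T u) :=
    sum_le_sum hsz
  rw [sum_const, nsmul_eq_mul, card_powerset] at hB2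
  rw [card_powerset] at hB
  have hle1 := mu_le_one (D.powerset.biUnion T)
  have h4 : ((2 ^ D.card : ℕ) : ℝ) ^ 2 * ν ≤ 1 / 100 := by
    have e1 : ((2 ^ D.card : ℕ) : ℝ) ^ 2 = (4 : ℝ) ^ D.card := by
      push_cast
      rw [← pow_mul, mul_comm, pow_mul]
      norm_num
    rw [e1]
    linarith
  have hN : ((2 ^ D.card : ℕ) : ℝ) * m ≤ 1.02 * K := by
    have h5 : ((2 ^ D.card : ℕ) : ℝ) * (((m : ℝ) - ε) / K) ≤ 1.01 := by linarith
    rw [← mul_div_assoc, div_le_iff₀ hKr] at h5
    have h6 : 0.999 * (m : ℝ) ≤ m - ε := by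
      have := hL.ε1
      linarith
    have h7 : (0 : ℝ) ≤ ((2 ^ D.card : ℕ) : ℝ) := Nat.cast_nonneg _
    have h8 := mul_le_mul_of_nonneg_left h6 h7
    nlinarith
  -- labels which occur
  set E := C \ D ∪ Cf with hE
  have hEc : 7 * K ≤ 8 * E.card := by
    have h5 := card_compl E
    rw [Fintype.card_fin] at h5
    have h6 : E.card ≤ K := by
      have := card_le_univ E
      rwa [Fintype.card_fin] at this
    omega
  have hcard : E.card ≤ (E.image τ).card * m := by
    rw [card_eq_sum_card_image τ E, ← smul_eq_mul, ← sum_const]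
    exact sum_le_sum fun b _ => hcnt b
  have hLab : 2 ^ D.card < 2 * (E.image τ).card := by
    have h5 : (7 : ℝ) * K ≤ 8 * (((E.image τ).card : ℝ) * m) := by
      have : 7 * K ≤ 8 * ((E.image τ).card * m) := by omega
      exact_mod_cast this
    have h6 : (((2 ^ D.card : ℕ) : ℝ)) * m < 2 * ((E.image τ).card : ℝ) * m := by
      nlinarith
    have h7 : (((2 ^ D.card : ℕ) : ℝ)) < 2 * ((E.image τ).card : ℝ) :=
      lt_of_mul_lt_mul_right h6 (by linarith)
    exact_mod_cast h7
  by_cases ht : t = 0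
  · exact ⟨∅, empty_subset _, by rw [sum_empty, ht]⟩
  have htwo : ∀ x : Fin D.card → ZMod 2, x + x = 0 := by
    intro x
    funext i
    exact CharTwo.add_self_eq_zero (x i)
  obtain ⟨h, hh, hh'⟩ : ∃ h ∈ E.image τ, h ∈ (E.image τ).image (fun x => t + x) := by
    by_contra hcon
    push Not at hcon
    have hdis : Disjoint (E.image τ) ((E.image τ).image (fun x => t + x)) :=
      disjoint_left.2 hcon
    have h5 := card_union_of_disjoint hdis
    rw [card_image_of_injective _ (add_right_injective t)] at h5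
    have h6 := card_le_univ ((E.image τ) ∪ (E.image τ).image (fun x => t + x))
    rw [h5, Fintype.card_fun, ZMod.card, Fintype.card_fin] at h6
    omega
  rw [mem_image] at hh hh'
  obtain ⟨a, ha, rfl⟩ := hh
  obtain ⟨h', hh', he⟩ := hh'
  rw [mem_image] at hh'
  obtain ⟨b, hb, rfl⟩ := hh'
  have hab : a ≠ b := by
    rintro rfl
    apply ht
    have : t + τ a + τ a = τ a + τ a := by rw [he]
    rw [add_assoc, htwo, add_zero] at this
    exact this
  refine ⟨{a, b}, ?_, ?_⟩
  · intro x hx
    rw [mem_insert, mem_singleton] at hx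
    rcases hx with rfl | rfl
    · exact ha
    · exact hb
  · rw [sum_pair hab, ← he, add_assoc, htwo, add_zero]

end Pool.Agent.Lib.MP_b1acb3_co.One
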