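import Pool.Agent.Lib.MP_b1acb3_co.One.Stmts
import Pool.Agent.Lib.MP_b1acb3_co.Uni.R

/-!
Module (SP): the structure seen from a typical vertex.
-/

namespace Pool.Agent.Lib.MP_b1acb3_co.One

open Finset Uni Leaf

namespace ModSP

/-- Numerical consequences of the hypotheses on `K` and `θ`. -/
lemma num1 {K Y : ℕ} {θ : ℝ} (hY : 1000 ≤ Y) (hK : Y ^ 60 ≤ K) (hθ0 : 0 < θ)
    (hθ : θ * K ^ 10 ≤ 1) :
    (1000000 : ℝ) ≤ K ∧ 1000000 * (K * θ) ≤ 1 ∧ 1000000 * (K ^ 2 * θ) ≤ 1 ∧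
      1000000 * (K ^ 3 * θ) ≤ 1 := by
  have h1 : 1000000 ≤ K := by
    calc 1000000 = 1000 ^ 2 := by norm_num
      _ ≤ Y ^ 2 := Nat.pow_le_pow_left hY 2
      _ ≤ Y ^ 60 := Nat.pow_le_pow_right (by omega) (by norm_num)
      _ ≤ K := hK
  have h2 : (1000000 : ℝ) ≤ K := by exact_mod_cast h1
  have h3 : (1 : ℝ) ≤ K := by linarith
  have h4 : ∀ j : ℕ, j ≤ 3 → 1000000 * ((K : ℝ) ^ j * θ) ≤ 1 := by
    intro j hj
    have h5 : (1000000 : ℝ) * (K : ℝ) ^ j ≤ (K : ℝ) ^ 10 := by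
      calc (1000000 : ℝ) * (K : ℝ) ^ j ≤ K * (K : ℝ) ^ j := by gcongr
        _ = (K : ℝ) ^ (j + 1) := by ring
        _ ≤ (K : ℝ) ^ 10 := pow_le_pow_right₀ h3 (by omega)
    calc 1000000 * ((K : ℝ) ^ j * θ) = θ * (1000000 * (K : ℝ) ^ j) := by ring
      _ ≤ θ * (K : ℝ) ^ 10 := by gcongr
      _ ≤ 1 := hθ
  refine ⟨h2, ?_, h4 2 (by norm_num), h4 3 (by norm_num)⟩
  have := h4 1 (by norm_num)
  rwa [pow_one] at this

/-- Bounds for the number of exceptional colours. -/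
lemma num2 {K Y i f z : ℕ} (hY : 1000 ≤ Y) (hK : Y ^ 60 ≤ K) (hf : f * (2 * Y ^ 11) ≤ K)
    (hi : K ≤ Y ^ 2 * i) (hz : i * z ≤ 400 * Y ^ 11 * K * (Y ^ 18 + 1)) :
    1000 * f ≤ i ∧ 1000 * Y ^ 32 ≤ i ∧ z ≤ Y ^ 32 ∧ 1000000 ≤ i ∧ Y ^ 18 + Y ^ 32 ≤ Y ^ 33 ∧
      Y ^ 18 ≤ Y ^ 32 := by
  have hY0 : 0 < Y := by omega
  have hY2 : 0 < Y ^ 2 := pow_pos hY0 2
  have h1 : Y ^ 58 ≤ i := by
    apply Nat.le_of_mul_le_mul_left _ hY2
    calc Y ^ 2 * Y ^ 58 = Y ^ 60 := by ring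
      _ ≤ K := hK
      _ ≤ _ := hi
  have h2 : 1000 * Y ^ 32 ≤ Y ^ 33 := by
    calc 1000 * Y ^ 32 ≤ Y * Y ^ 32 := Nat.mul_le_mul_right _ hY
      _ = Y ^ 33 := by ring
  have h3 : Y ^ 33 ≤ Y ^ 58 := Nat.pow_le_pow_right hY0 (by norm_num)
  have h4 : Y ^ 18 ≤ Y ^ 32 := Nat.pow_le_pow_right hY0 (by norm_num)
  have h5 : 1000000 ≤ i := by
    calc 1000000 = 1000 ^ 2 := by norm_num
      _ ≤ Y ^ 2 := Nat.pow_le_pow_left hY 2
      _ ≤ Y ^ 58 := Nat.pow_le_pow_right hY0 (by norm_num)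
      _ ≤ i := h1
  refine ⟨?_, h2.trans (h3.trans h1), ?_, h5, ?_, h4⟩
  · have h6 : f * (2 * Y ^ 9) ≤ i := by
      apply Nat.le_of_mul_le_mul_left _ hY2
      calc Y ^ 2 * (f * (2 * Y ^ 9)) = f * (2 * Y ^ 11) := by ring
        _ ≤ K := hf
        _ ≤ _ := hi
    have h7 : 1000 ≤ 2 * Y ^ 9 := by
      have : Y ^ 1 ≤ Y ^ 9 := Nat.pow_le_pow_right hY0 (by norm_num)
      rw [pow_one] at this
      omega
    calc 1000 * f = f * 1000 := by ring
      _ ≤ f * (2 * Y ^ 9) := Nat.mul_le_mul_left _ h7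
      _ ≤ i := h6
  · have h6 : z ≤ 400 * Y ^ 13 * (Y ^ 18 + 1) := by
      apply Nat.le_of_mul_le_mul_left _ (show 0 < i by omega)
      calc i * z ≤ 400 * Y ^ 11 * K * (Y ^ 18 + 1) := hz
        _ ≤ 400 * Y ^ 11 * (Y ^ 2 * i) * (Y ^ 18 + 1) := by gcongr
        _ = i * (400 * Y ^ 13 * (Y ^ 18 + 1)) := by ring
    have h7 : 1 ≤ Y ^ 18 := Nat.one_le_pow _ _ hY0
    calc z ≤ 400 * Y ^ 13 * (Y ^ 18 + 1) := h6
      _ ≤ 400 * Y ^ 13 * (Y ^ 18 + Y ^ 18) := by gcongr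
      _ = 800 * Y ^ 31 := by ring
      _ ≤ Y * Y ^ 31 := Nat.mul_le_mul_right _ (by omega)
      _ = Y ^ 32 := by ring
  · omega

end ModSP

open ModSP in
/-- (SP) The structure seen from a typical vertex. -/
theorem thmSP (hC : StCanon) (hSel : StSelect) (hSz : StSize) (hL : StLocal) (hT : StTau)
    (hCnt : StCnt) (hCov : StCov) (hLam : StLamb) (hR : StRich) : StSP := by
  intro n K Y i P R θ F hsys hY1 hY2 hY3 hθ0 hθ hF hi hi4 hnum
  obtain ⟨hK, hKθ, hK2θ, hK3θ⟩ := num1 hY1 hY3 hθ0 hθ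
  have hK0 : (0 : ℝ) < K := by linarith
  have hYK : Y ≤ K := by
    calc Y = Y ^ 1 := (pow_one Y).symm
      _ ≤ Y ^ 60 := Nat.pow_le_pow_right (by omega) (by norm_num)
      _ ≤ K := hY3
  have hS : Fᶜ.card ≤ K := by
    have := card_le_univ Fᶜ
    rwa [Fintype.card_fin] at this
  -- canonical data
  obtain ⟨dat, hdat, hdat'⟩ := hC n K Y R (100 * θ) (by
    intro A hA
    have h1 := (thmR1 n K P R θ (K + 1) hsys).1 A hA
    by_contra h2
    push Not at h2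
    have h3 : K * mu (R A) ≤ K * (100 * θ) := mul_le_mul_of_nonneg_left h2 hK0.le
    nlinarith)
  have hsup : ∀ S : Finset (Fin K), S.Nonempty → supp (dat S) ⊆ S := by
    intro S hS' a ha
    have h1 := hdat S hS'
    simp only [supp, mem_union] at ha
    rcases ha with (h2 | h2) | h2
    · exact h1.subA h2
    · obtain ⟨v, hv, hav⟩ := mem_un.1 h2
      exact (mem_sdiff.1 (h1.subV v hv hav)).1
    · exact (mem_sdiff.1 (h1.subD h2)).1
  have hsize : ∀ S : Finset (Fin K), S.Nonempty → Good R Y S →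
      (supp (dat S)).card ≤ Y ^ 18 ∧ (dat S).2.1.card + (un (dat S).2.1).card ≤ Y ^ 3 ∧
        (dat S).2.2.card ≤ Nat.log 2 K + 1 := fun S hS' hg =>
    hSz n K Y P R θ S _ _ _ hsys hY1 hY2 hYK hθ0 hθ (hdat S hS') hg
  -- selection
  have hi0 : Y ^ 58 ≤ i := by
    apply Nat.le_of_mul_le_mul_left _ (show 0 < Y ^ 2 by positivity)
    calc Y ^ 2 * Y ^ 58 = Y ^ 60 := by ring
      _ ≤ K := hY3
      _ ≤ _ := hi
  have hi8 : 8 ≤ i := by
    have : Y ^ 1 ≤ Y ^ 58 := Nat.pow_le_pow_right (by omega) (by norm_num)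
    rw [pow_one] at this
    omega
  obtain ⟨E, Z₀, hE, hE1, hE2, hEg, hZ₀, hZ₀c, hsel⟩ := hSel K _ Fᶜ i (Y ^ 18) (Y ^ 11)
    (Good R Y) dat supp (fun Q Q' h h' => h'.mono h)
    (fun Q hQ hg => ⟨hsup Q hQ, (hsize Q hQ hg).1⟩) hdat' hi8 hi4
    (by
      have : Y ^ 1 ≤ Y ^ 11 := Nat.pow_le_pow_right (by omega) (by norm_num)
      rw [pow_one] at this
      omega) hnum
  obtain ⟨hn1, hn2, hn3, hn4, hn5, hn6⟩ := num2 (K := K) (f := F.card) (z := Z₀.card) hY1 hY3 hF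
    hi (hZ₀c.trans (by gcongr))
  have hEne : E.Nonempty := by
    rw [← card_pos]
    omega
  obtain ⟨hs1, hs2, hs3⟩ := hsize E hEne hEg
  have hopt := hdat E hEne
  have hsE := hsup E hEne
  set A := (dat E).1 with hA
  set V := (dat E).2.1 with hV
  set D := (dat E).2.2 with hD
  have hsupp : supp (dat E) = A ∪ un V ∪ D := rfl
  rw [hsupp] at hs1 hsE
  set T : Finset (Fin K) → Finset (Fin n) := fun u => Tv R A (sh V u) with hTdef
  set C := E \ (A ∪ un V) with hCdef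
  set Cf := Fᶜ \ (E ∪ Z₀) with hCf
  have hAV : A ∪ un V ⊆ E := subset_union_left.trans hsE
  have hDC : D ⊆ C := hopt.subD
  have hmemCf : ∀ c, c ∈ Cf ↔ c ∉ F ∧ c ∉ E ∧ c ∉ Z₀ := by
    intro c
    rw [hCf, mem_sdiff, mem_compl, mem_union, not_or]
  have hdisj : Disjoint Cf C := by
    rw [disjoint_left]
    intro c hc hc'
    exact ((hmemCf c).1 hc).2.1 (mem_sdiff.1 hc').1
  have hCfne : Cf.Nonempty := by
    rw [← card_pos]
    have h1 : Fᶜ.card ≤ Cf.card + (E ∪ Z₀).card := by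
      have := card_sdiff_add_card (Fᶜ) (E ∪ Z₀)
      rw [← hCf] at this
      have h2 := card_le_card (subset_union_left (s₁ := Fᶜ) (s₂ := E ∪ Z₀))
      omega
    have h2 := card_union_le E Z₀
    omega
  -- local structure
  have hloc : ∀ c ∈ Cf, ∃ m : ℕ, 1 ≤ m ∧
      Atoms P T θ (100 * θ) (1 / (Y : ℝ) ^ 4) m Y (insert c C) D := by
    intro c hc
    obtain ⟨hcF, hcE, hcZ⟩ := (hmemCf c).1 hc
    obtain ⟨hg, hd, H, hH, hH'⟩ := hsel c (mem_compl.2 hcF) hcE hcZ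
    have h1 : insert c E \ (A ∪ un V) = insert c C :=
      insert_sdiff_of_notMem E (fun h => hcE (hAV h))
    have h2 : Opt R Y (100 * θ) (insert c E) A V D := by
      have h3 := hdat (insert c E) (insert_nonempty _ _)
      rw [hd] at h3
      exact h3
    have h8 : ∀ c' ∈ insert c E ∪ (Fᶜ \ H), c' ∈ insert c E ∨
        Opt R Y (100 * θ) (insert c' (insert c E)) A V D := by
      intro c' hc'
      by_cases h3 : c' ∈ insert c E
      · exact Or.inl h3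
      · right
        rw [mem_union] at hc'
        rcases hc' with h4 | h4
        · exact absurd h4 h3
        · rw [mem_sdiff] at h4
          rw [mem_insert, not_or] at h3
          have h5 := (hH' c' h4.1 h3.2 h3.1 h4.2).2
          have h6 := hdat (insert c' (insert c E)) (insert_nonempty _ _)
          rw [h5] at h6
          exact h6
    have h9 : (insert c E ∪ (Fᶜ \ H))ᶜ.card * Y ^ 10 ≤ K := by
      have h3 : (insert c E ∪ (Fᶜ \ H))ᶜ ⊆ F ∪ H := by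
        intro a ha
        rw [mem_compl, mem_union, not_or, mem_sdiff, mem_compl] at ha
        rw [mem_union]
        tauto
      have h4 := (card_le_card h3).trans (card_union_le F H)
      have h5 : 1000 * Y ^ 10 ≤ Y ^ 11 := by
        calc 1000 * Y ^ 10 ≤ Y * Y ^ 10 := Nat.mul_le_mul_right _ hY1
          _ = Y ^ 11 := by ring
      have h6 : F.card * Y ^ 10 * 2000 ≤ K := by
        calc F.card * Y ^ 10 * 2000 = F.card * (2 * (1000 * Y ^ 10)) := by ring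
          _ ≤ F.card * (2 * Y ^ 11) := by gcongr
          _ ≤ K := hF
      have h7 : H.card * Y ^ 10 * 1000 ≤ K := by
        calc H.card * Y ^ 10 * 1000 = (1000 * Y ^ 10) * H.card := by ring
          _ ≤ Y ^ 11 * H.card := by gcongr
          _ ≤ K := hH.trans hS
      calc (insert c E ∪ (Fᶜ \ H))ᶜ.card * Y ^ 10 ≤ (F.card + H.card) * Y ^ 10 := by gcongr
        _ = F.card * Y ^ 10 + H.card * Y ^ 10 := by ring
        _ ≤ K := by omega
    obtain ⟨m, hm, hm'⟩ := hL n K Y P R θ (insert c E) A V D (insert c E ∪ (Fᶜ \ H)) hsys hY1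
      hY2 hY3 hθ0 hθ h2 hg h8 h9 hs1 hs2
    rw [h1] at hm'
    exact ⟨m, hm, hm'⟩
  have hYr : (1000 : ℝ) ≤ Y := by exact_mod_cast hY1
  have hε1 : 1 / (Y : ℝ) ^ 4 ≤ 1 / 1000 := by
    apply one_div_le_one_div_of_le (by norm_num)
    calc (1000 : ℝ) ≤ Y := hYr
      _ = (Y : ℝ) ^ 1 := (pow_one _).symm
      _ ≤ (Y : ℝ) ^ 4 := pow_le_pow_right₀ (by linarith) (by norm_num)
  have hε0 : 0 ≤ 1 / (Y : ℝ) ^ 4 := by positivity
  obtain ⟨c₁, hc₁⟩ := hCfne
  obtain ⟨m, hm1, hm⟩ := hloc c₁ hc₁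
  have hm0 := hm.size ∅ (empty_subset _) (by simp)
  have hatoms : ∀ c ∈ Cf, Atoms P T θ (100 * θ) (1 / (Y : ℝ) ^ 4) m Y (insert c C) D := by
    intro c hc
    obtain ⟨m', hm1', hm'⟩ := hloc c hc
    have h1 := hm'.size ∅ (empty_subset _) (by simp)
    have h2 : m' = m := by
      rw [abs_le] at h1 hm0
      have h3 : (m' : ℝ) < m + 1 := by linarith [h1.1, h1.2, hm0.1, hm0.2]
      have h4 : (m : ℝ) < m' + 1 := by linarith [h1.1, h1.2, hm0.1, hm0.2]
      have h5 : m' < m + 1 := by exact_mod_cast h3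
      have h6 : m < m' + 1 := by exact_mod_cast h4
      omega
    rw [← h2]
    exact hm'
  have hlog : 2 ^ D.card ≤ 2 * K := by
    calc 2 ^ D.card ≤ 2 ^ (Nat.log 2 K + 1) := Nat.pow_le_pow_right (by norm_num) hs3
      _ = 2 * 2 ^ Nat.log 2 K := by ring
      _ ≤ 2 * K := by
        have : K ≠ 0 := by
          rintro rfl
          norm_num at hK0
        exact Nat.mul_le_mul_left _ (Nat.pow_log_le_self 2 this)
  have hlogr : (2 : ℝ) ^ D.card ≤ 2 * K := by exact_mod_cast hlog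
  have hlog4 : (4 : ℝ) ^ D.card ≤ 4 * K ^ 2 := by
    have h1 : (4 : ℝ) ^ D.card = ((2 : ℝ) ^ D.card) ^ 2 := by
      rw [← pow_mul, mul_comm, pow_mul]
      norm_num
    rw [h1]
    have h2 : (0 : ℝ) ≤ (2 : ℝ) ^ D.card := by positivity
    nlinarith
  -- labels of the colours
  obtain ⟨τ, hτ⟩ := hT n K P T θ (100 * θ) (1 / (Y : ℝ) ^ 4) m Y C Cf D hsys.markov hθ0.le
    (by linarith) (by positivity) (by linarith) hε0 hε1 hm1 (by omega) hDC hdisj ⟨c₁, hc₁⟩ hatoms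
  have hcnt := hCnt n K P T θ (100 * θ) (1 / (Y : ℝ) ^ 4) m Y C Cf D τ hτ
  set W := C \ D ∪ Cf with hW
  have hWc : Wᶜ ⊆ F ∪ (A ∪ un V ∪ D ∪ Z₀) := by
    intro a ha
    rw [hW, mem_compl, mem_union, not_or, mem_sdiff, hCdef, mem_sdiff, hmemCf] at ha
    simp only [mem_union] at ha ⊢
    tauto
  have hWcard : Wᶜ.card ≤ F.card + (Y ^ 18 + Y ^ 32) := by
    have h1 := (card_le_card hWc).trans (card_union_le _ _)
    have h2 := card_union_le (A ∪ un V ∪ D) Z₀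
    omega
  have hCD : i ≤ 2 * (C \ D).card + 2 * Y ^ 18 := by
    have h1 : E ⊆ (C \ D) ∪ (A ∪ un V ∪ D) := by
      intro a ha
      rw [hCdef]
      simp only [mem_union, mem_sdiff]
      tauto
    have h2 := (card_le_card h1).trans (card_union_le _ _)
    omega
  have hir : (K : ℝ) ≤ (Y : ℝ) ^ 2 * i := by exact_mod_cast hi
  have hKε : K * (1 / (Y : ℝ) ^ 4) ≤ i / 1000 := by
    have h1 : (0 : ℝ) < (Y : ℝ) ^ 4 := by positivity
    rw [mul_one_div, div_le_div_iff₀ h1 (by norm_num)]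
    have h2 : (1000 : ℝ) ≤ (Y : ℝ) ^ 2 := by nlinarith
    have h3 : (0 : ℝ) ≤ i := Nat.cast_nonneg i
    calc (K : ℝ) * 1000 ≤ ((Y : ℝ) ^ 2 * i) * (Y : ℝ) ^ 2 := by gcongr
      _ = i * (Y : ℝ) ^ 4 := by ring
  have hWr : (Wᶜ.card : ℝ) ≤ 3 * i / 1000 := by
    have h1 : 1000 * Wᶜ.card ≤ 3 * i := by omega
    have h2 : (1000 : ℝ) * Wᶜ.card ≤ 3 * i := by exact_mod_cast h1
    linarith
  have hcov := hCov n K P T θ (100 * θ) (1 / (Y : ℝ) ^ 4) m Y C Cf D τ hτ hcnt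
    (by
      have h1 : (K : ℝ) * 4 ^ D.card * (100 * θ) ≤ 1 := by
        calc (K : ℝ) * 4 ^ D.card * (100 * θ) ≤ K * (4 * K ^ 2) * (100 * θ) := by gcongr
          _ = 400 * (K ^ 3 * θ) := by ring
          _ ≤ 1 := by nlinarith
      have h2 : (i : ℝ) / 2 - i / 1000 ≤ ((C \ D).card : ℝ) := by
        have h3 : 998 * i ≤ 2000 * (C \ D).card := by omega
        have h4 : (998 : ℝ) * i ≤ 2000 * (C \ D).card := by exact_mod_cast h3
        linarith
      have h3 : (1000000 : ℝ) ≤ i := by exact_mod_cast hn4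
      linarith)
    (by
      calc (K : ℝ) * 2 ^ D.card * θ ≤ K * (2 * K) * θ := by gcongr
        _ = 2 * (K ^ 2 * θ) := by ring
        _ < 1 := by nlinarith)
  obtain ⟨lam, hlam⟩ := hLam n K P T θ (100 * θ) (1 / (Y : ℝ) ^ 4) m Y C Cf D τ hτ hcov
  have hW8 : 8 * Wᶜ.card ≤ K := by omega
  have hrich := hR n K P T θ (100 * θ) (1 / (Y : ℝ) ^ 4) m Y C Cf D τ hτ hcnt hW8
    (by
      calc 100 * (4 : ℝ) ^ D.card * (100 * θ) ≤ 100 * (4 * K ^ 2) * (100 * θ) := by gcongr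
        _ = 40000 * (K ^ 2 * θ) := by ring
        _ ≤ 1 := by nlinarith)
  obtain ⟨v₁, hv₁⟩ := hopt.neV
  have hv₁E : v₁ ⊆ E := fun a ha => (mem_sdiff.1 (hopt.subV v₁ hv₁ ha)).1
  have hQE : A ∪ v₁ ⊆ E := union_subset hopt.subA hv₁E
  refine ⟨D.card, Wᶜ, τ, lam, A ∪ v₁, hlog, ?_, ?_, ⟨?_, ?_⟩, ?_, ?_, ?_, ?_⟩
  · intro a ha
    rw [mem_compl, hW, mem_union, not_or, mem_sdiff, hCdef, mem_sdiff, hmemCf]
    refine ⟨fun h => ?_, fun h => h.1 ha⟩
    exact (mem_compl.1 (hE h.1.1)) ha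
  · have h1 : Wᶜ \ F ⊆ A ∪ un V ∪ D ∪ Z₀ := by
      intro a ha
      rw [mem_sdiff] at ha
      rcases mem_union.1 (hWc ha.1) with h2 | h2
      · exact absurd h2 ha.2
      · exact h2
    have h2 := (card_le_card h1).trans (card_union_le _ _)
    omega
  · intro a ha
    rw [mem_compl, not_not] at ha
    refine (hlam a ha).trans ?_
    have : (0 : ℝ) ≤ 4 ^ K := by positivity
    nlinarith
  · intro t
    obtain ⟨Q, hQ, hQ'⟩ := hrich t
    refine ⟨Q, ?_, hQ'⟩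
    rw [compl_compl]
    exact hQ
  · exact hopt.neA.mono subset_union_left
  · rw [disjoint_left]
    intro a ha ha'
    exact (mem_compl.1 (hE (hQE ha))) ha'
  · refine (card_le_card ?_).trans hs1
    intro a ha
    rcases mem_union.1 ha with h1 | h1
    · exact mem_union_left _ (mem_union_left _ h1)
    · exact mem_union_left _ (mem_union_right _ (mem_un.2 ⟨v₁, hv₁, h1⟩))
  · -- the final estimate
    have h1 : mu (T ∅) ≤ mu (R (A ∪ v₁)) := by
      apply mu_mono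
      intro y hy
      have h2 := mem_Tv_sh.1 hy v₁ hv₁
      rwa [union_empty] at h2
    have h2 : (W.card : ℝ) ≤ 2 ^ D.card * m := by
      have h3 : W.card ≤ ∑ t : Fin D.card → ZMod 2, m := by
        rw [card_eq_sum_card_fiberwise (f := τ) (t := univ) (fun _ _ => mem_coe.2 (mem_univ _))]
        exact sum_le_sum fun t _ => hcnt t
      rw [sum_const, smul_eq_mul, card_univ, Fintype.card_fun, Fintype.card_fin, ZMod.card] at h3
      exact_mod_cast h3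
    have h3 : (W.card : ℝ) + Wᶜ.card = K := by
      have := card_add_card_compl W
      rw [Fintype.card_fin] at this
      exact_mod_cast this
    have hiK : (4 : ℝ) * i ≤ K := by exact_mod_cast hi4.trans hS
    rw [abs_le] at hm0
    have h4 : (m : ℝ) - 1 / 1000 * m ≤ K * mu (T ∅) := by
      have h5 : (1 : ℝ) ≤ m := by exact_mod_cast hm1
      linarith [hm0.1]
    have h5 : (0 : ℝ) < 2 ^ D.card := by positivity
    have h6 : (2 : ℝ) ^ D.card * (m - 1 / 1000 * m) ≤ 2 ^ D.card * (K * mu (R (A ∪ v₁))) := by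
      apply mul_le_mul_of_nonneg_left _ h5.le
      exact h4.trans (mul_le_mul_of_nonneg_left h1 hK0.le)
    have h7 : 49 / 50 * (K : ℝ) ≤ (2 ^ D.card * mu (R (A ∪ v₁))) * K := by
      linarith
    exact le_of_mul_le_mul_right h7 hK0

end Pool.Agent.Lib.MP_b1acb3_co.One
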