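import Pool.Agent.Lib.MP_b1acb3_co.One.Stmts

/-!
Selection of a set `E` of colours such that almost all extensions of `E` by one or two colours
are good and have the same data as `E`.
-/

namespace Pool.Agent.Lib.MP_b1acb3_co.One

open Finset Uni Leaf

section select

variable {K : ℕ} {α : Type}

open Classical in
/-- The `j`-element subsets of `S` that are good. -/
noncomputable def selA (S : Finset (Fin K)) (good : Finset (Fin K) → Prop) (j : ℕ) :
    Finset (Finset (Fin K)) := (powersetCard j S).filter good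

theorem mem_selA {S : Finset (Fin K)} {good : Finset (Fin K) → Prop} {j : ℕ}
    {E : Finset (Fin K)} : E ∈ selA S good j ↔ (E ⊆ S ∧ E.card = j) ∧ good E := by
  classical
  rw [selA, mem_filter, mem_powersetCard]

theorem card_selA (S : Finset (Fin K)) (good : Finset (Fin K) → Prop) (j : ℕ) :
    (selA S good j).card = num S j good := rfl

theorem card_selA_le (S : Finset (Fin K)) (good : Finset (Fin K) → Prop) (j : ℕ) :
    (selA S good j).card ≤ S.card.choose j := by
  classical
  rw [← card_powersetCard]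
  exact card_filter_le _ _

/-- Removing one element. -/
theorem selA_step (S : Finset (Fin K)) (good : Finset (Fin K) → Prop)
    (hm : ∀ Q Q', Q ⊆ Q' → good Q' → good Q) (j : ℕ) :
    (selA S good (j + 1)).card * (j + 1) ≤ (selA S good j).card * (S.card - j) := by
  have h1 : ((selA S good (j + 1)).sigma (fun Q => Q)).card
      = (selA S good (j + 1)).card * (j + 1) := by
    rw [card_sigma, sum_const_nat]
    intro Q hQ
    exact (mem_selA.1 hQ).1.2
  have h2 : ((selA S good j).sigma (fun E => S \ E)).card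
      = (selA S good j).card * (S.card - j) := by
    rw [card_sigma, sum_const_nat]
    intro Q hQ
    rw [card_sdiff_of_subset (mem_selA.1 hQ).1.1, (mem_selA.1 hQ).1.2]
  rw [← h1, ← h2]
  apply card_le_card_of_injOn (fun t : (_ : Finset (Fin K)) × Fin K => ⟨t.1.erase t.2, t.2⟩)
  · rintro ⟨Q, a⟩ ht
    simp only [coe_sigma, Set.mem_sigma_iff, mem_coe] at ht
    obtain ⟨hQ, ha⟩ := ht
    obtain ⟨⟨hQS, hQc⟩, hg⟩ := mem_selA.1 hQ
    simp only [coe_sigma, Set.mem_sigma_iff, mem_coe, mem_sdiff, mem_selA]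
    refine ⟨⟨⟨(erase_subset _ _).trans hQS, ?_⟩, hm _ _ (erase_subset _ _) hg⟩, hQS ha,
      notMem_erase _ _⟩
    rw [card_erase_of_mem ha, hQc]
    rfl
  · rintro ⟨Q, a⟩ ht ⟨Q', a'⟩ ht' he
    simp only [coe_sigma, Set.mem_sigma_iff, mem_coe] at ht ht'
    have e1 : Q.erase a = Q'.erase a' := congrArg (fun t => t.1) he
    have e2 : a = a' := congrArg (fun t => t.2) he
    subst e2
    have e3 : Q = Q' := by
      rw [← insert_erase ht.2, ← insert_erase ht'.2, e1]
    rw [e3]

/-- The density of the good `j`-element subsets. -/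
noncomputable def selp (S : Finset (Fin K)) (good : Finset (Fin K) → Prop) (j : ℕ) : ℝ :=
  (selA S good j).card / (S.card.choose j : ℝ)

theorem selp_nonneg (S : Finset (Fin K)) (good : Finset (Fin K) → Prop) (j : ℕ) :
    0 ≤ selp S good j := by
  unfold selp
  positivity

theorem selp_le_one (S : Finset (Fin K)) (good : Finset (Fin K) → Prop) (j : ℕ) :
    selp S good j ≤ 1 := by
  unfold selp
  apply div_le_one_of_le₀ _ (Nat.cast_nonneg _)
  exact_mod_cast card_selA_le S good j

theorem selp_step (S : Finset (Fin K)) (good : Finset (Fin K) → Prop)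
    (hm : ∀ Q Q', Q ⊆ Q' → good Q' → good Q) (j : ℕ) (hj : j + 1 ≤ S.card) :
    selp S good (j + 1) ≤ selp S good j := by
  have h1 := selA_step S good hm j
  have h2 : S.card.choose (j + 1) * (j + 1) = S.card.choose j * (S.card - j) :=
    Nat.choose_succ_right_eq _ _
  have h3 : 0 < S.card.choose (j + 1) := Nat.choose_pos hj
  have h4 : 0 < S.card.choose j := Nat.choose_pos (by omega)
  unfold selp
  rw [div_le_div_iff₀ (by exact_mod_cast h3) (by exact_mod_cast h4)]
  have h5 : (selA S good (j + 1)).card * S.card.choose j * (j + 1)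
      ≤ (selA S good j).card * S.card.choose (j + 1) * (j + 1) := by
    calc (selA S good (j + 1)).card * S.card.choose j * (j + 1)
        = ((selA S good (j + 1)).card * (j + 1)) * S.card.choose j := by ring
      _ ≤ ((selA S good j).card * (S.card - j)) * S.card.choose j := Nat.mul_le_mul_right _ h1
      _ = (selA S good j).card * (S.card.choose j * (S.card - j)) := by ring
      _ = (selA S good j).card * (S.card.choose (j + 1) * (j + 1)) := by rw [h2]
      _ = _ := by ring
  exact_mod_cast Nat.le_of_mul_le_mul_right h5 (Nat.succ_pos j)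

theorem selp_anti (S : Finset (Fin K)) (good : Finset (Fin K) → Prop)
    (hm : ∀ Q Q', Q ⊆ Q' → good Q' → good Q) (j l : ℕ) (h : j + l ≤ S.card) :
    selp S good (j + l) ≤ selp S good j := by
  induction l with
  | zero => exact le_rfl
  | succ l ih =>
    have h1 := selp_step S good hm (j + l) (by omega)
    exact h1.trans (ih (by omega))

/-- Some step of the telescoping sum is small. -/
theorem sel_tele (f : ℕ → ℝ) (h0 : ∀ j, 0 ≤ f j) (h1 : ∀ j, f j ≤ 1) (j₀ T : ℕ) (hT : 0 < T) :
    ∃ t < T, (T : ℝ) * (f (j₀ + 2 * t) - f (j₀ + 2 * t + 2)) ≤ 1 := by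
  by_contra hcon
  push Not at hcon
  have h2 : ∑ t ∈ range T, (f (j₀ + 2 * t) - f (j₀ + 2 * (t + 1)))
      = f (j₀ + 2 * 0) - f (j₀ + 2 * T) :=
    Finset.sum_range_sub' (fun t => f (j₀ + 2 * t)) T
  have h3 : ∑ t ∈ range T, (1 : ℝ) <
      ∑ t ∈ range T, (T : ℝ) * (f (j₀ + 2 * t) - f (j₀ + 2 * (t + 1))) := by
    apply sum_lt_sum_of_nonempty (nonempty_range_iff.2 hT.ne')
    intro t ht
    exact hcon t (mem_range.1 ht)
  rw [← mul_sum, h2, sum_const, card_range, nsmul_eq_mul, mul_one] at h3
  have h4 : f (j₀ + 2 * 0) - f (j₀ + 2 * T) ≤ 1 := by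
    have := h0 (j₀ + 2 * T)
    have := h1 (j₀ + 2 * 0)
    linarith
  have h5 : (0 : ℝ) < T := by exact_mod_cast hT
  nlinarith

open Classical in
/-- The bad pairs of extensions of `E`. -/
noncomputable def selB (S : Finset (Fin K)) (good : Finset (Fin K) → Prop)
    (dat : Finset (Fin K) → α) (E : Finset (Fin K)) : Finset (Fin K × Fin K) :=
  ((S \ E).offDiag).filter (fun t => ¬ (good (insert t.2 (insert t.1 E)) ∧
    dat (insert t.2 (insert t.1 E)) = dat E))

theorem mem_selB {S : Finset (Fin K)} {good : Finset (Fin K) → Prop}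
    {dat : Finset (Fin K) → α} {E : Finset (Fin K)} {t : Fin K × Fin K} :
    t ∈ selB S good dat E ↔ ((t.1 ∈ S ∧ t.1 ∉ E) ∧ (t.2 ∈ S ∧ t.2 ∉ E) ∧ t.1 ≠ t.2) ∧
      ¬ (good (insert t.2 (insert t.1 E)) ∧ dat (insert t.2 (insert t.1 E)) = dat E) := by
  classical
  rw [selB, mem_filter, mem_offDiag, mem_sdiff, mem_sdiff]

/-- Number of the bad triples. -/
theorem sel_count (S : Finset (Fin K)) (good : Finset (Fin K) → Prop)
    (dat : Finset (Fin K) → α) (sup : α → Finset (Fin K)) (w : ℕ)
    (hm : ∀ Q Q', Q ⊆ Q' → good Q' → good Q)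
    (hsup : ∀ Q, Q.Nonempty → good Q → sup (dat Q) ⊆ Q ∧ (sup (dat Q)).card ≤ w)
    (hdat : ∀ Q Q', Q.Nonempty → Q ⊆ Q' → sup (dat Q') ⊆ Q → dat Q = dat Q')
    (j : ℕ) (hj : 0 < j) :
    ∑ E ∈ selA S good j, (selB S good dat E).card
        + (selA S good (j + 2)).card * ((j + 2) * (j + 1))
      ≤ (selA S good j).card * ((S.card - j) * (S.card - j - 1))
        + (selA S good (j + 2)).card * (2 * w * (j + 2)) := by
  classical
  set TE : Finset ((_ : Finset (Fin K)) × (Fin K × Fin K)) :=
    (selA S good j).sigma (fun E => (S \ E).offDiag) with hTE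
  set TQ : Finset ((_ : Finset (Fin K)) × (Fin K × Fin K)) :=
    (selA S good (j + 2)).sigma (fun Q => Q.offDiag) with hTQ
  set B : Finset ((_ : Finset (Fin K)) × (Fin K × Fin K)) :=
    (selA S good j).sigma (fun E => selB S good dat E) with hB
  let φ : ((_ : Finset (Fin K)) × (Fin K × Fin K)) → ((_ : Finset (Fin K)) × (Fin K × Fin K)) :=
    fun t => ⟨(t.1.erase t.2.1).erase t.2.2, t.2⟩
  have hφ : ∀ t ∈ TQ, insert t.2.2 (insert t.2.1 ((t.1.erase t.2.1).erase t.2.2)) = t.1 := by
    rintro ⟨Q, a, b⟩ ht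
    simp only [hTQ, mem_sigma, mem_offDiag] at ht
    obtain ⟨hQ, ha, hb, hab⟩ := ht
    simp only
    rw [insert_comm, insert_erase (mem_erase.2 ⟨hab.symm, hb⟩), insert_erase ha]
  have hcTE : TE.card = (selA S good j).card * ((S.card - j) * (S.card - j - 1)) := by
    rw [hTE, card_sigma, sum_const_nat]
    intro E hE
    rw [offDiag_card, card_sdiff_of_subset (mem_selA.1 hE).1.1, (mem_selA.1 hE).1.2,
      Nat.mul_sub_one]
  have hcTQ : TQ.card = (selA S good (j + 2)).card * ((j + 2) * (j + 1)) := by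
    rw [hTQ, card_sigma, sum_const_nat]
    intro Q hQ
    rw [offDiag_card, (mem_selA.1 hQ).1.2]
    have : (j + 2) * (j + 2) = (j + 2) * (j + 1) + (j + 2) := by ring
    omega
  have hcB : B.card = ∑ E ∈ selA S good j, (selB S good dat E).card := by
    rw [hB, card_sigma]
  have hmap : TQ.image φ ⊆ TE := by
    intro t ht
    obtain ⟨⟨Q, a, b⟩, hs, rfl⟩ := mem_image.1 ht
    simp only [hTQ, mem_sigma, mem_offDiag] at hs
    obtain ⟨hQ, ha, hb, hab⟩ := hs
    obtain ⟨⟨hQS, hQc⟩, hg⟩ := mem_selA.1 hQ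
    have hsub : (Q.erase a).erase b ⊆ Q := (erase_subset _ _).trans (erase_subset _ _)
    simp only [φ, hTE, mem_sigma, mem_offDiag, mem_sdiff, mem_selA]
    refine ⟨⟨⟨hsub.trans hQS, ?_⟩, hm _ _ hsub hg⟩, ⟨hQS ha, ?_⟩, ⟨hQS hb, ?_⟩, hab⟩
    · rw [card_erase_of_mem (mem_erase.2 ⟨hab.symm, hb⟩), card_erase_of_mem ha, hQc]
      rfl
    · intro h
      exact notMem_erase a Q (mem_of_mem_erase h)
    · exact notMem_erase b _
  have hinj : Set.InjOn φ TQ := by
    intro t ht t' ht' he
    have e1 : (t.1.erase t.2.1).erase t.2.2 = (t'.1.erase t'.2.1).erase t'.2.2 :=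
      congrArg (fun t => t.1) he
    have e2 : t.2 = t'.2 := congrArg (fun t => t.2) he
    have e3 := hφ t ht
    have e4 := hφ t' ht'
    rw [e1, e2, e4] at e3
    obtain ⟨t1, t2⟩ := t
    obtain ⟨t1', t2'⟩ := t'
    simp only at e2 e3
    rw [e2, e3]
  set TB : Finset ((_ : Finset (Fin K)) × (Fin K × Fin K)) :=
    TQ.filter (fun t => dat ((t.1.erase t.2.1).erase t.2.2) ≠ dat t.1) with hTB
  have hBsub : B ⊆ (TE \ TQ.image φ) ∪ TB.image φ := by
    rintro ⟨E, a, b⟩ ht
    simp only [hB, mem_sigma] at ht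
    obtain ⟨hE, hab⟩ := ht
    rw [mem_selB] at hab
    obtain ⟨⟨⟨haS, haE⟩, ⟨hbS, hbE⟩, hne⟩, hbad⟩ := hab
    simp only at haS haE hbS hbE hne hbad
    by_cases hin : (⟨E, a, b⟩ : (_ : Finset (Fin K)) × (Fin K × Fin K)) ∈ TQ.image φ
    · apply mem_union_right
      obtain ⟨t, hs, he⟩ := mem_image.1 hin
      refine mem_image.2 ⟨t, ?_, he⟩
      rw [hTB, mem_filter]
      refine ⟨hs, ?_⟩
      have e1 : (t.1.erase t.2.1).erase t.2.2 = E := congrArg (fun t => t.1) he
      have e2 : t.2 = (a, b) := congrArg (fun t => t.2) he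
      have e3 := hφ t hs
      rw [e1, e2] at e3
      simp only at e3
      rw [e1]
      intro hd
      apply hbad
      rw [e3]
      refine ⟨?_, hd.symm⟩
      simp only [hTQ, mem_sigma] at hs
      exact (mem_selA.1 hs.1).2
    · apply mem_union_left
      rw [mem_sdiff]
      refine ⟨?_, hin⟩
      simp only [hTE, mem_sigma, mem_offDiag, mem_sdiff]
      exact ⟨hE, ⟨haS, haE⟩, ⟨hbS, hbE⟩, hne⟩
  have hcTB : TB.card ≤ (selA S good (j + 2)).card * (2 * w * (j + 2)) := by
    have hsub : TB ⊆ (selA S good (j + 2)).sigma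
        (fun Q => (sup (dat Q)) ×ˢ Q ∪ Q ×ˢ (sup (dat Q))) := by
      rintro ⟨Q, a, b⟩ ht
      simp only [hTB, hTQ, mem_filter, mem_sigma, mem_offDiag] at ht
      obtain ⟨⟨hQ, ha, hb, hab⟩, hd⟩ := ht
      simp only [mem_sigma, mem_union, mem_product]
      refine ⟨hQ, ?_⟩
      obtain ⟨⟨hQS, hQc⟩, hg⟩ := mem_selA.1 hQ
      by_contra hcon
      push Not at hcon
      obtain ⟨hc1, hc2⟩ := hcon
      have ha' : a ∉ sup (dat Q) := fun h => hc1 h hb
      have hb' : b ∉ sup (dat Q) := fun h => hc2 ha h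
      apply hd
      have hcard : ((Q.erase a).erase b).card = j := by
        rw [card_erase_of_mem (mem_erase.2 ⟨hab.symm, hb⟩), card_erase_of_mem ha, hQc]
        rfl
      have hQne : Q.Nonempty := ⟨a, ha⟩
      apply hdat
      · rw [← card_pos, hcard]
        exact hj
      · exact (erase_subset _ _).trans (erase_subset _ _)
      · intro x hx
        rw [mem_erase, mem_erase]
        refine ⟨fun h => hb' (h ▸ hx), fun h => ha' (h ▸ hx), (hsup Q hQne hg).1 hx⟩
    refine (card_le_card hsub).trans ?_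
    rw [card_sigma, ← smul_eq_mul, ← sum_const]
    apply sum_le_sum
    intro Q hQ
    obtain ⟨⟨hQS, hQc⟩, hg⟩ := mem_selA.1 hQ
    have hQne : Q.Nonempty := by
      rw [← card_pos, hQc]
      omega
    have hw := (hsup Q hQne hg).2
    refine (card_union_le _ _).trans ?_
    rw [card_product, card_product, hQc]
    calc (sup (dat Q)).card * (j + 2) + (j + 2) * (sup (dat Q)).card
        = 2 * (sup (dat Q)).card * (j + 2) := by ring
      _ ≤ 2 * w * (j + 2) := Nat.mul_le_mul_right _ (Nat.mul_le_mul_left _ hw)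
  have h1 : B.card ≤ (TE \ TQ.image φ).card + (TB.image φ).card :=
    (card_le_card hBsub).trans (card_union_le _ _)
  have h2 : (TE \ TQ.image φ).card + TQ.card = TE.card := by
    rw [← card_image_of_injOn hinj]
    exact card_sdiff_add_card_eq_card hmap
  have h3 : (TB.image φ).card ≤ TB.card := card_image_le
  rw [← hcB, ← hcTE, ← hcTQ]
  omega

end select

theorem thmSelect : StSelect := by
  intro K α S i w M good dat sup hm hsup hdat hi hiS hM hnum
  classical
  -- choice of the level
  have hT : 0 < i / 4 := by omega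
  obtain ⟨t, ht, hst⟩ := sel_tele (selp S good) (selp_nonneg S good) (selp_le_one S good)
    ((i + 1) / 2) (i / 4) hT
  set j := (i + 1) / 2 + 2 * t with hjdef
  have hj1 : i ≤ 2 * j := by omega
  have hj2 : j + 2 ≤ i := by omega
  have hj0 : 0 < j := by omega
  have hjS : j + 2 ≤ S.card := by omega
  set σ := S.card with hσ
  -- density at this level
  have hpj : 1 / 50 ≤ selp S good j := by
    have h1 := selp_anti S good hm j (i - j) (by omega)
    have h2 : j + (i - j) = i := by omega
    rw [h2] at h1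
    refine le_trans ?_ h1
    unfold selp
    have h3 : (0 : ℝ) < S.card.choose i := by
      exact_mod_cast Nat.choose_pos (by omega : i ≤ S.card)
    rw [le_div_iff₀ h3, card_selA]
    exact hnum
  set N : ℝ := (σ.choose j : ℝ) with hN
  have hNpos : 0 < N := by
    rw [hN]
    exact_mod_cast Nat.choose_pos (by omega : j ≤ σ)
  set D : ℝ := ((σ : ℝ) - j) * ((σ : ℝ) - j - 1) with hD
  have hjσ : (j : ℝ) + 2 ≤ σ := by exact_mod_cast hjS
  have hDnn : 0 ≤ D := by
    rw [hD]
    apply mul_nonneg <;> linarith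
  have hDle : D ≤ (σ : ℝ) ^ 2 := by
    rw [hD, sq]
    have : (0 : ℝ) ≤ j := Nat.cast_nonneg _
    apply mul_le_mul <;> linarith
  have hch : (σ.choose (j + 2) : ℝ) * ((j + 2) * (j + 1)) = N * D := by
    have e1 : σ.choose (j + 1 + 1) * (j + 1 + 1) = σ.choose (j + 1) * (σ - (j + 1)) :=
      Nat.choose_succ_right_eq _ _
    have e2 : σ.choose (j + 1) * (j + 1) = σ.choose j * (σ - j) :=
      Nat.choose_succ_right_eq _ _
    have e1' : (σ.choose (j + 2) : ℝ) * (j + 2) = (σ.choose (j + 1) : ℝ) * (σ - j - 1) := by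
      have e3 : ((σ.choose (j + 1 + 1) * (j + 1 + 1) : ℕ) : ℝ)
          = ((σ.choose (j + 1) * (σ - (j + 1)) : ℕ) : ℝ) := by rw [e1]
      rw [Nat.cast_mul, Nat.cast_mul, Nat.cast_sub (by omega)] at e3
      push_cast at e3
      have e4 : (j : ℝ) + 1 + 1 = j + 2 := by ring
      have e5 : (σ : ℝ) - (j + 1) = σ - j - 1 := by ring
      rw [e4, e5] at e3
      exact e3
    have e2' : (σ.choose (j + 1) : ℝ) * (j + 1) = N * (σ - j) := by
      have e3 : ((σ.choose (j + 1) * (j + 1) : ℕ) : ℝ)
          = ((σ.choose j * (σ - j) : ℕ) : ℝ) := by rw [e2]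
      rw [Nat.cast_mul, Nat.cast_mul, Nat.cast_sub (by omega)] at e3
      push_cast at e3
      exact e3
    calc (σ.choose (j + 2) : ℝ) * ((j + 2) * (j + 1))
        = ((σ.choose (j + 2) : ℝ) * (j + 2)) * (j + 1) := by ring
      _ = ((σ.choose (j + 1) : ℝ) * (σ - j - 1)) * (j + 1) := by rw [e1']
      _ = ((σ.choose (j + 1) : ℝ) * (j + 1)) * (σ - j - 1) := by ring
      _ = (N * (σ - j)) * (σ - j - 1) := by rw [e2']
      _ = N * D := by rw [hD]; ring
  have hch0 : (0 : ℝ) < σ.choose (j + 2) := by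
    exact_mod_cast Nat.choose_pos (by omega : j + 2 ≤ σ)
  -- the counts
  have ha1 : ((selA S good j).card : ℝ) = selp S good j * N := by
    unfold selp
    rw [div_mul_cancel₀ _ hNpos.ne']
  have ha2 : ((selA S good (j + 2)).card : ℝ) = selp S good (j + 2) * σ.choose (j + 2) := by
    unfold selp
    rw [div_mul_cancel₀ _ hch0.ne']
  have hcount := sel_count S good dat sup w hm hsup hdat j hj0
  have hcount' : (∑ E ∈ selA S good j, ((selB S good dat E).card : ℝ))
        + (selA S good (j + 2)).card * ((j + 2) * (j + 1))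
      ≤ (selA S good j).card * D
        + (selA S good (j + 2)).card * (2 * w * (j + 2)) := by
    have e3 : ((∑ E ∈ selA S good j, (selB S good dat E).card
        + (selA S good (j + 2)).card * ((j + 2) * (j + 1)) : ℕ) : ℝ)
      ≤ (((selA S good j).card * ((S.card - j) * (S.card - j - 1))
        + (selA S good (j + 2)).card * (2 * w * (j + 2)) : ℕ) : ℝ) := by
      exact_mod_cast hcount
    rw [Nat.cast_add, Nat.cast_add, Nat.cast_mul, Nat.cast_mul, Nat.cast_mul, Nat.cast_mul,
      Nat.cast_sub (by omega : 1 ≤ S.card - j),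
      Nat.cast_sub (by omega : j ≤ S.card)] at e3
    push_cast at e3
    rw [hD]
    exact e3
  have hi0 : (0 : ℝ) < i := by exact_mod_cast (by omega : 0 < i)
  have hT8 : (i : ℝ) / 8 ≤ ((i / 4 : ℕ) : ℝ) := by
    have : i ≤ 8 * (i / 4) := by omega
    have h' : (i : ℝ) ≤ 8 * ((i / 4 : ℕ) : ℝ) := by exact_mod_cast this
    linarith
  have hdiff : i * (selp S good j - selp S good (j + 2)) ≤ 8 := by
    by_cases hneg : selp S good j - selp S good (j + 2) ≤ 0
    · nlinarith
    · push Not at hneg
      have := mul_le_mul_of_nonneg_right hT8 hneg.le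
      linarith
  have hbad : i * (∑ E ∈ selA S good j, ((selB S good dat E).card : ℝ))
      ≤ N * (σ : ℝ) ^ 2 * (8 + 4 * w) := by
    have e1 : (∑ E ∈ selA S good j, ((selB S good dat E).card : ℝ))
        ≤ (selp S good j - selp S good (j + 2)) * (N * D)
          + selp S good (j + 2) * σ.choose (j + 2) * (2 * w * (j + 2)) := by
      rw [ha1, ha2] at hcount'
      have e2 : selp S good (j + 2) * (σ.choose (j + 2) : ℝ) * ((j + 2) * (j + 1))
          = selp S good (j + 2) * (N * D) := by
        rw [mul_assoc, hch]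
      rw [e2] at hcount'
      linarith
    have e3 : i * (selp S good (j + 2) * σ.choose (j + 2) * (2 * w * (j + 2)))
        ≤ N * D * (4 * w) := by
      have e4 : (i : ℝ) ≤ 2 * (j + 1) := by
        have : (i : ℝ) ≤ 2 * j := by exact_mod_cast hj1
        linarith
      have e5 : (0 : ℝ) ≤ σ.choose (j + 2) * (2 * w * (j + 2)) := by positivity
      calc i * (selp S good (j + 2) * σ.choose (j + 2) * (2 * w * (j + 2)))
          = i * (selp S good (j + 2) * (σ.choose (j + 2) * (2 * w * (j + 2)))) := by ring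
        _ ≤ i * (1 * (σ.choose (j + 2) * (2 * w * (j + 2)))) := by
            apply mul_le_mul_of_nonneg_left _ hi0.le
            exact mul_le_mul_of_nonneg_right (selp_le_one _ _ _) e5
        _ = i * (σ.choose (j + 2) * (2 * w * (j + 2))) := by ring
        _ ≤ (2 * (j + 1)) * (σ.choose (j + 2) * (2 * w * (j + 2))) :=
            mul_le_mul_of_nonneg_right e4 e5
        _ = (σ.choose (j + 2) * ((j + 2) * (j + 1))) * (4 * w) := by ring
        _ = N * D * (4 * w) := by rw [hch]
    have e6 : i * ((selp S good j - selp S good (j + 2)) * (N * D)) ≤ 8 * (N * D) := by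
      rw [← mul_assoc]
      exact mul_le_mul_of_nonneg_right hdiff (mul_nonneg hNpos.le hDnn)
    have e7 : i * (∑ E ∈ selA S good j, ((selB S good dat E).card : ℝ))
        ≤ N * D * (8 + 4 * w) := by
      have := mul_le_mul_of_nonneg_left e1 hi0.le
      rw [mul_add] at this
      linarith
    refine e7.trans ?_
    apply mul_le_mul_of_nonneg_right _ (by positivity)
    exact mul_le_mul_of_nonneg_left hDle hNpos.le
  -- choice of `E`
  have hAcard : N / 50 ≤ (selA S good j).card := by
    rw [ha1]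
    nlinarith
  have hAne : (selA S good j).Nonempty := by
    rw [← card_pos]
    have : (0 : ℝ) < (selA S good j).card := by
      have : 0 < N / 50 := by positivity
      linarith
    exact_mod_cast this
  obtain ⟨E, hE, hEle⟩ := exists_le_of_sum_le (s := selA S good j)
    (f := fun E => i * ((selB S good dat E).card : ℝ))
    (g := fun _ => 400 * (w + 1) * (σ : ℝ) ^ 2) hAne (by
      rw [← mul_sum, sum_const, nsmul_eq_mul]
      refine hbad.trans ?_
      have e1 : (0 : ℝ) ≤ 400 * (w + 1) * (σ : ℝ) ^ 2 := by positivity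
      refine le_trans ?_ (mul_le_mul_of_nonneg_right hAcard e1)
      have e2 : (0 : ℝ) ≤ N * (σ : ℝ) ^ 2 * w := by positivity
      nlinarith)
  obtain ⟨⟨hES, hEc⟩, hEg⟩ := mem_selA.1 hE
  -- the bad colours of one colour
  let H : Fin K → Finset (Fin K) := fun c => univ.filter (fun c' => (c, c') ∈ selB S good dat E)
  have hH : ∀ c c', c' ∈ H c ↔ (c, c') ∈ selB S good dat E := by
    intro c c'
    simp [H]
  let Z₀ : Finset (Fin K) := S.filter (fun c => σ < M * (H c).card)
  have hZ₀ : ∀ c, c ∈ Z₀ ↔ c ∈ S ∧ σ < M * (H c).card := by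
    intro c
    simp [Z₀]
  have hEne : E.Nonempty := by
    rw [← card_pos, hEc]
    exact hj0
  refine ⟨E, Z₀, hES, by omega, by omega, hEg, filter_subset _ _, ?_, ?_⟩
  · -- the number of exceptional colours
    have h1 : Z₀.card * σ ≤ M * (selB S good dat E).card := by
      have h2 : ∑ c ∈ Z₀, (H c).card ≤ (selB S good dat E).card := by
        rw [← card_sigma]
        apply card_le_card_of_injOn (fun t : (_ : Fin K) × Fin K => (t.1, t.2))
        · rintro ⟨a, b⟩ ht
          simp only [coe_sigma, Set.mem_sigma_iff, mem_coe] at ht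
          exact (hH a b).1 ht.2
        · rintro ⟨a, b⟩ ht ⟨a', b'⟩ ht' he
          simp only [Prod.mk.injEq] at he
          obtain ⟨rfl, rfl⟩ := he
          rfl
      have h3 : ∑ c ∈ Z₀, σ ≤ ∑ c ∈ Z₀, M * (H c).card := by
        apply sum_le_sum
        intro c hc
        exact ((hZ₀ c).1 hc).2.le
      rw [sum_const, smul_eq_mul, ← mul_sum] at h3
      exact h3.trans (Nat.mul_le_mul_left _ h2)
    have h4 : ((i * Z₀.card * σ : ℕ) : ℝ) ≤ ((400 * M * σ * (w + 1) * σ : ℕ) : ℝ) := by
      have h5 : (Z₀.card : ℝ) * σ ≤ M * (selB S good dat E).card := by exact_mod_cast h1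
      push_cast
      calc (i : ℝ) * Z₀.card * σ = i * (Z₀.card * σ) := by ring
        _ ≤ i * (M * (selB S good dat E).card) := mul_le_mul_of_nonneg_left h5 hi0.le
        _ = M * (i * (selB S good dat E).card) := by ring
        _ ≤ M * (400 * (w + 1) * (σ : ℝ) ^ 2) :=
            mul_le_mul_of_nonneg_left hEle (Nat.cast_nonneg _)
        _ = _ := by ring
    have h6 : i * Z₀.card * σ ≤ 400 * M * σ * (w + 1) * σ := by exact_mod_cast h4
    exact Nat.le_of_mul_le_mul_right h6 (by omega)
  · intro c hcS hcE hcZ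
    have hHc : M * (H c).card ≤ σ := by
      by_contra hcon
      exact hcZ ((hZ₀ c).2 ⟨hcS, not_le.1 hcon⟩)
    have hgood : ∀ c' ∈ S, c' ∉ E → c' ≠ c → c' ∉ H c →
        good (insert c' (insert c E)) ∧ dat (insert c' (insert c E)) = dat E := by
      intro c' hc'S hc'E hne hc'H
      by_contra hcon
      apply hc'H
      rw [hH, mem_selB]
      exact ⟨⟨⟨hcS, hcE⟩, ⟨hc'S, hc'E⟩, hne.symm⟩, hcon⟩
    -- a colour that is not bad
    have hex : ∃ c' ∈ S, c' ∉ E ∧ c' ≠ c ∧ c' ∉ H c := by
      by_contra hcon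
      push Not at hcon
      have hsub : S ⊆ insert c E ∪ H c := by
        intro x hx
        by_cases h1 : x ∈ E
        · exact mem_union_left _ (mem_insert_of_mem h1)
        by_cases h2 : x = c
        · rw [h2]
          exact mem_union_left _ (mem_insert_self _ _)
        · exact mem_union_right _ (hcon x hx h1 h2)
      have h3 := (card_le_card hsub).trans (card_union_le _ _)
      rw [card_insert_of_notMem hcE, hEc] at h3
      have h4 : 2 * (H c).card ≤ σ := (Nat.mul_le_mul_right _ hM).trans hHc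
      omega
    obtain ⟨c', hc'S, hc'E, hne, hc'H⟩ := hex
    obtain ⟨hg, hd⟩ := hgood c' hc'S hc'E hne hc'H
    refine ⟨hm _ _ (subset_insert _ _) hg, ?_, H c, hHc, hgood⟩
    rw [← hd]
    apply hdat _ _ (insert_nonempty _ _) (subset_insert _ _)
    rw [hd]
    exact (hsup E hEne hEg).1.trans (subset_insert _ _)

end Pool.Agent.Lib.MP_b1acb3_co.One
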