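import Pool.Agent.Lib.MP_b1acb3_co.One.Stmts
import Pool.Agent.Lib.MP_b1acb3_co.Uni.Basic
import Pool.Agent.Lib.MP_b1acb3_co.Uni.R

/-!
(Shift) The colours act as translations on the intersections `Tv`.
-/

namespace Pool.Agent.Lib.MP_b1acb3_co.One

open Finset Uni Leaf

theorem thmShift : StShift := by
  intro n K Y b P R θ h hY S A V c hAS hA hmax hV hVb hVS hcS hcA hcV
  have hP := h.markov
  have hn := hP.npos
  have hK : (1 : ℝ) ≤ K := by
    have := hP.kpos
    exact_mod_cast this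
  have hθ := h.nonneg
  have hYp : (0 : ℝ) < (Y : ℝ) ^ 16 := by
    have : (0 : ℝ) < Y := by exact_mod_cast hY
    positivity
  have hTT : ∀ y, y ∈ Tv R A (sh V {c}) ↔ ∀ v ∈ V, y ∈ R (A ∪ (v ∪ {c})) := fun y => mem_Tv_sh
  have hins : ∀ v, A ∪ (v ∪ {c}) = insert c (A ∪ v) := by
    intro v
    ext a
    simp only [mem_union, mem_insert, mem_singleton]
    tauto
  have hcAv : ∀ v ∈ V, c ∉ A ∪ v := by
    intro v hv hc
    rcases mem_union.1 hc with hc | hc
    · exact hcA hc
    · exact hcV (mem_un.2 ⟨v, hv, hc⟩)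
  -- pointwise bound for one set
  have hpt : ∀ v ∈ V, ∀ y, |app P c (R (A ∪ v)) y - if y ∈ R (A ∪ (v ∪ {c})) then 1 else 0| ≤
      ((if y ∈ R (A ∪ (v ∪ {c})) then (1 : ℝ) else 0) - app P c (R (A ∪ v)) y) + 2 * θ := by
    intro v hv y
    have h0 := app_nonneg hP c (R (A ∪ v)) y
    have h1 := app_le_one hP c (R (A ∪ v)) y
    split_ifs with hy
    · rw [abs_of_nonpos (by linarith)]
      linarith
    · rw [sub_zero, abs_of_nonneg h0]
      have h2 : app P c (R (A ∪ v)) y ≤ θ := by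
        apply h.grow (A ∪ v) c (hcAv v hv) y
        rwa [← hins]
      linarith
  -- mean for one set
  have hone : ∀ v ∈ V, K * avg (fun y => |app P c (R (A ∪ v)) y -
      if y ∈ R (A ∪ (v ∪ {c})) then 1 else 0|) ≤ (b + 1) / (Y : ℝ) ^ 16 + 3 * K ^ 2 * θ := by
    intro v hv
    have h1 : avg (fun y => |app P c (R (A ∪ v)) y -
        if y ∈ R (A ∪ (v ∪ {c})) then 1 else 0|) ≤
        mu (R (A ∪ (v ∪ {c}))) - mu (R (A ∪ v)) + 2 * θ := by
      refine (avg_mono (hpt v hv)).trans ?_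
      rw [avg_add, avg_sub, avg_indicator, avg_app hP, avg_const hn]
    have h2 : K * mu (R (A ∪ (v ∪ {c}))) ≤ K * mu (R A) + (b + 1) / (Y : ℝ) ^ 16 := by
      have h3 := hmax (A ∪ (v ∪ {c})) (by
        intro a ha
        rcases mem_union.1 ha with ha | ha
        · exact hAS ha
        · rcases mem_union.1 ha with ha | ha
          · exact (mem_sdiff.1 ((hVS v hv).1 ha)).1
          · rw [mem_singleton.1 ha]
            exact hcS) (hA.mono subset_union_left)
      unfold scA at h3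
      have h4 : ((A ∪ (v ∪ {c})).card : ℝ) ≤ A.card + (b + 1) := by
        have h5 := card_union_le A (v ∪ {c})
        have h6 := card_union_le v {c}
        rw [card_singleton] at h6
        have h7 := (hVS v hv).2
        have h8 : (A ∪ (v ∪ {c})).card ≤ A.card + (b + 1) := by omega
        exact_mod_cast h8
      have h9 : ((A ∪ (v ∪ {c})).card : ℝ) / (Y : ℝ) ^ 16 ≤
          (A.card : ℝ) / (Y : ℝ) ^ 16 + (b + 1) / (Y : ℝ) ^ 16 := by
        rw [← add_div]
        exact div_le_div_of_nonneg_right h4 hYp.le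
      linarith
    have h10 := (thmR1 n K P R θ (K + 1) h).2 A (A ∪ v) subset_union_left
    have h11 : K * mu (R A) ≤ K * mu (R (A ∪ v)) + K ^ 2 * θ := by
      have := mul_le_mul_of_nonneg_left h10 (by linarith : (0 : ℝ) ≤ K)
      nlinarith
    have h12 : K * θ ≤ K ^ 2 * θ := by
      apply mul_le_mul_of_nonneg_right _ hθ
      nlinarith
    have h13 := mul_le_mul_of_nonneg_left h1 (by linarith : (0 : ℝ) ≤ K)
    nlinarith
  -- pointwise bound for the intersections
  have hall : ∀ y, |app P c (Tv R A V) y - if y ∈ Tv R A (sh V {c}) then 1 else 0| ≤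
      ∑ v ∈ V, |app P c (R (A ∪ v)) y - if y ∈ R (A ∪ (v ∪ {c})) then 1 else 0| := by
    intro y
    by_cases hy : y ∈ Tv R A (sh V {c})
    · rw [if_pos hy]
      have h0 := app_le_one hP c (Tv R A V) y
      rw [abs_of_nonpos (by linarith)]
      have h1 : (Tv R A V)ᶜ ⊆ V.biUnion (fun v => (R (A ∪ v))ᶜ) := by
        intro z hz
        rw [mem_compl, mem_Tv] at hz
        push Not at hz
        obtain ⟨v, hv, hz⟩ := hz
        exact mem_biUnion.2 ⟨v, hv, mem_compl.2 hz⟩
      have h2 := (app_mono hP c h1 y).trans (app_biUnion_le hP c V _ y)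
      rw [app_compl hP] at h2
      have h3 : ∑ v ∈ V, app P c (R (A ∪ v))ᶜ y ≤
          ∑ v ∈ V, |app P c (R (A ∪ v)) y - if y ∈ R (A ∪ (v ∪ {c})) then 1 else 0| := by
        apply sum_le_sum
        intro v hv
        rw [if_pos ((hTT y).1 hy v hv), app_compl hP, abs_sub_comm]
        exact le_abs_self _
      linarith
    · rw [if_neg hy, sub_zero, abs_of_nonneg (app_nonneg hP _ _ _)]
      rw [hTT] at hy
      push Not at hy
      obtain ⟨v, hv, hy⟩ := hy
      have h1 : Tv R A V ⊆ R (A ∪ v) := fun z hz => mem_Tv.1 hz v hv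
      have h2 := app_mono hP c h1 y
      have h3 : app P c (R (A ∪ v)) y ≤
          |app P c (R (A ∪ v)) y - if y ∈ R (A ∪ (v ∪ {c})) then 1 else 0| := by
        rw [if_neg hy, sub_zero]
        exact le_abs_self _
      have h4 := single_le_sum (f := fun v => |app P c (R (A ∪ v)) y -
        if y ∈ R (A ∪ (v ∪ {c})) then 1 else 0|) (fun _ _ => abs_nonneg _) hv
      exact (h2.trans h3).trans h4
  have hfin : K * avg (fun y => |app P c (Tv R A V) y -
      if y ∈ Tv R A (sh V {c}) then 1 else 0|) ≤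
      ∑ v ∈ V, ((b + 1) / (Y : ℝ) ^ 16 + 3 * K ^ 2 * θ) := by
    refine (mul_le_mul_of_nonneg_left (avg_mono hall) (by linarith)).trans ?_
    rw [avg_sum, mul_sum]
    exact sum_le_sum hone
  rw [sum_const, nsmul_eq_mul] at hfin
  have hb : (V.card : ℝ) ≤ b := by exact_mod_cast hVb
  have h14 : 0 ≤ (b + 1) / (Y : ℝ) ^ 16 + 3 * K ^ 2 * θ := by positivity
  refine hfin.trans ((mul_le_mul_of_nonneg_right hb h14).trans ?_)
  have h15 : 0 ≤ K ^ 2 * θ := by positivity
  have h16 : (b : ℝ) * ((b + 1) / (Y : ℝ) ^ 16 + 3 * K ^ 2 * θ) =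
      b * (b + 1) / (Y : ℝ) ^ 16 + 3 * b * K ^ 2 * θ := by ring
  rw [h16]
  nlinarith

end Pool.Agent.Lib.MP_b1acb3_co.One
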