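import Pool.Agent.Lib.MP_b1acb3_co.One.Stmts
import Pool.Agent.Lib.MP_b1acb3_co.Uni.R

/-!
Module (Size): optimal data are small.
-/

namespace Pool.Agent.Lib.MP_b1acb3_co.One

open Finset Uni Leaf

namespace ModSize

variable {n K : ℕ} {P : Fin K → Matrix (Fin n) (Fin n) ℝ} {R : Finset (Fin K) → Finset (Fin n)}
  {θ : ℝ} {d : ℕ}

/-- `app` is at most the density times the number of colours. -/
theorem app_le_mu (hP : Markov P) (c : Fin K) (S : Finset (Fin n)) (y : Fin n) :
    app P c S y ≤ K * mu S := by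
  rw [← sum_app hP S y]
  exact single_le_sum (f := fun c => app P c S y) (fun c _ => app_nonneg hP c S y) (mem_univ c)

/-- Bump. -/
theorem bump (hP : Markov P) (c : Fin K) (S S' : Finset (Fin n)) (hθ : 0 ≤ θ)
    (h : ∀ y, y ∉ S' → app P c S y ≤ θ) : mu S ≤ θ + K * mu S * mu S' := by
  have h1 : avg (fun y => app P c S y) ≤
      avg (fun y => θ + K * mu S * (if y ∈ S' then (1 : ℝ) else 0)) := by
    apply avg_mono
    intro y
    by_cases hy : y ∈ S'
    · simp only [hy, if_true, mul_one]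
      have := app_le_mu hP c S y
      linarith
    · simp only [hy, if_false, mul_zero, add_zero]
      exact h y hy
  rw [avg_app hP, avg_add, avg_const hP.npos, avg_mul_left, avg_indicator] at h1
  exact h1

/-- Mass argument. -/
theorem mass (hP : Markov P) (c : Fin K) (S S' : Finset (Fin n)) (hθ : 0 ≤ θ)
    (h : ∀ y, y ∉ S' → app P c S y ≤ θ) : mu S ≤ mu S' + θ := by
  have h1 : avg (fun y => app P c S y) ≤
      avg (fun y => θ + (if y ∈ S' then (1 : ℝ) else 0)) := by
    apply avg_mono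
    intro y
    by_cases hy : y ∈ S'
    · simp only [hy, if_true]
      have := app_le_one hP c S y
      linarith
    · simp only [hy, if_false, add_zero]
      exact h y hy
  rw [avg_app hP, avg_add, avg_const hP.npos, avg_indicator] at h1
  linarith

/-- The sets `T u` grow. -/
theorem growT (h : Sys P R θ d) (A : Finset (Fin K)) (V : Finset (Finset (Fin K)))
    (u : Finset (Fin K)) (c : Fin K) (hc : c ∉ A ∪ un V ∪ u) (y : Fin n)
    (hy : y ∉ Tv R A (sh V (insert c u))) : app P c (Tv R A (sh V u)) y ≤ θ := by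
  rw [mem_Tv_sh] at hy
  push Not at hy
  obtain ⟨v, hv, hy⟩ := hy
  simp only [mem_union, not_or] at hc
  have h1 : A ∪ (v ∪ insert c u) = insert c (A ∪ (v ∪ u)) := by
    rw [union_insert, union_insert]
  have h2 : c ∉ A ∪ (v ∪ u) := by
    simp only [mem_union, not_or]
    exact ⟨hc.1.1, fun hcv => hc.1.2 (mem_un.2 ⟨v, hv, hcv⟩), hc.2⟩
  rw [h1] at hy
  refine (app_mono h.markov c ?_ y).trans (h.grow _ c h2 y hy)
  intro z hz
  exact (mem_Tv_sh.1 hz) v hv

theorem sh_empty (V : Finset (Finset (Fin K))) : sh V ∅ = V := by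
  unfold sh
  simp

/-- Nearly disjoint sets. -/
theorem almost {ι : Type} [DecidableEq ι] (s : Finset ι) (F : ι → Finset (Fin n)) (ν : ℝ)
    (hν : 0 ≤ ν) (h : ∀ i ∈ s, ∀ j ∈ s, i ≠ j → mu (F i ∩ F j) ≤ ν) :
    ∑ i ∈ s, mu (F i) ≤ mu (s.biUnion F) + (s.card : ℝ) ^ 2 * ν := by
  induction s using Finset.induction_on with
  | empty => simp [mu]
  | insert a s ha ih =>
    have h1 := ih (fun i hi j hj hij => h i (mem_insert_of_mem hi) j (mem_insert_of_mem hj) hij)
    rw [sum_insert ha, biUnion_insert, card_insert_of_notMem ha]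
    have h2 := mu_union_add_inter (F a) (s.biUnion F)
    have h3 : mu (F a ∩ s.biUnion F) ≤ s.card * ν := by
      rw [inter_biUnion]
      refine (mu_biUnion_le s (fun i => F a ∩ F i)).trans ?_
      rw [← nsmul_eq_mul, ← sum_const]
      apply sum_le_sum
      intro i hi
      refine h a (mem_insert_self a s) i (mem_insert_of_mem hi) ?_
      rintro rfl
      exact ha hi
    push_cast
    have h4 : (0 : ℝ) ≤ s.card := Nat.cast_nonneg _
    nlinarith

end ModSize

open ModSize

/-- (Size) Optimal data are small. -/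
theorem thmSize : StSize := by
  intro n K Y P R θ S A V D hSys hY hL hYK hθ hθK hO hG
  have hP := hSys.markov
  have hK1000 : (1000 : ℝ) ≤ K := by
    have : 1000 ≤ K := hY.trans hYK
    exact_mod_cast this
  have hY1000 : (1000 : ℝ) ≤ Y := by exact_mod_cast hY
  have hY0 : (0 : ℝ) < Y := by linarith
  have hK0 : (0 : ℝ) < K := by linarith
  -- bounds for the error
  have hK9 : (K : ℝ) ^ 2 * θ ≤ 1 / 10 ^ 6 := by
    have h1 : (K : ℝ) ^ 2 * 10 ^ 6 ≤ (K : ℝ) ^ 10 := by
      have h2 : (K : ℝ) ^ 10 = (K : ℝ) ^ 2 * (K : ℝ) ^ 8 := by ring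
      rw [h2]
      apply mul_le_mul_of_nonneg_left _ (by positivity)
      have h3 : ((1000 : ℝ)) ^ 8 ≤ (K : ℝ) ^ 8 := pow_le_pow_left₀ (by norm_num) hK1000 8
      refine le_trans ?_ h3
      norm_num
    rw [le_div_iff₀ (by norm_num)]
    calc (K : ℝ) ^ 2 * θ * 10 ^ 6 = θ * ((K : ℝ) ^ 2 * 10 ^ 6) := by ring
      _ ≤ θ * (K : ℝ) ^ 10 := mul_le_mul_of_nonneg_left h1 hθ.le
      _ ≤ 1 := hθK
  have hK4 : (K : ℝ) ^ 2 * θ * 10 ^ 6 ≤ 1 := by
    rw [le_div_iff₀ (by norm_num)] at hK9
    exact hK9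
  have hKθ : (K : ℝ) * θ ≤ 1 / 10 ^ 6 := by
    refine le_trans ?_ hK9
    apply mul_le_mul_of_nonneg_right _ hθ.le
    nlinarith
  obtain ⟨hR1, hR1'⟩ := thmR1 n K P R θ (K + 1) hSys
  -- (a)
  have hA : A.card ≤ Y ^ 17 := by
    obtain ⟨a, ha⟩ := hO.neA
    have h1 := hO.maxA {a} (singleton_subset_iff.2 (hO.subA ha)) (singleton_nonempty a)
    have h2 := hG A hO.subA
    have h3 := hSys.start a
    unfold scA at h1
    have h4 : 1 - (K : ℝ) * θ ≤ K * mu (R {a}) := by
      have h5 := mul_le_mul_of_nonneg_left h3 hK0.le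
      have h6 : (K : ℝ) * (1 / (K : ℝ) - θ) = 1 - K * θ := by
        field_simp
      linarith
    rw [card_singleton] at h1
    have h7 : ((1 : ℕ) : ℝ) / (Y : ℝ) ^ 16 ≤ 1 / 2 := by
      push_cast
      have h8 : (2 : ℝ) ≤ (Y : ℝ) ^ 16 := by
        calc (2 : ℝ) ≤ 1000 ^ 16 := by norm_num
          _ ≤ (Y : ℝ) ^ 16 := pow_le_pow_left₀ (by norm_num) hY1000 16
      exact one_div_le_one_div_of_le (by norm_num) h8
    have h9 : (A.card : ℝ) / (Y : ℝ) ^ 16 ≤ Y := by linarith
    rw [div_le_iff₀ (by positivity)] at h9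
    have h10 : (A.card : ℝ) ≤ (Y : ℝ) ^ 17 := by
      calc (A.card : ℝ) ≤ _ := h9
        _ = (Y : ℝ) ^ 17 := by ring
    exact_mod_cast h10
  -- (b)
  have hV : V.card + (un V).card ≤ Y ^ 3 := by
    have e1 : Tv R A {∅} = R A := by
      ext y
      simp [Tv]
    have e2 : un ({∅} : Finset (Finset (Fin K))) = ∅ := by
      ext a
      simp [un]
    have h0 : 100 * θ < mu (R A) := by
      have h1 := hR1 A hO.neA
      have h2 : (K : ℝ) * (100 * θ) < K * mu (R A) := by
        have : (K : ℝ) * (100 * θ) = 100 * (K * θ) := by ring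
        rw [this]
        linarith
      exact lt_of_mul_lt_mul_left h2 hK0.le
    have h1 := hO.minV {∅} (singleton_nonempty _) (by simp) (by rw [e1]; exact h0)
    unfold scV at h1
    rw [e1, e2, card_singleton, card_empty] at h1
    have h2 := hG A hO.subA
    have h3 : 0 ≤ (K : ℝ) * mu (Tv R A V) := mul_nonneg hK0.le (mu_nonneg _)
    have h4 : ((V.card : ℝ) + ((un V).card : ℝ)) / (24 * Y) ≤ Y + 1 / (24 * Y) := by
      have h5 : (((1 : ℕ) : ℝ) + ((0 : ℕ) : ℝ)) / (24 * Y) = 1 / (24 * Y) := by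
        norm_num
      rw [h5] at h1
      linarith
    rw [div_le_iff₀ (by positivity)] at h4
    have h6 : ((Y : ℝ) + 1 / (24 * Y)) * (24 * Y) = 24 * Y ^ 2 + 1 := by
      field_simp
    rw [h6] at h4
    have h7 : (24 : ℝ) * Y ^ 2 + 1 ≤ Y ^ 3 := by
      nlinarith [mul_nonneg hY0.le hY0.le, sq_nonneg ((Y : ℝ))]
    have h8 : (V.card : ℝ) + ((un V).card : ℝ) ≤ (Y : ℝ) ^ 3 := h4.trans h7
    exact_mod_cast h8
  -- (c)
  have hD : D.card ≤ Nat.log 2 K + 1 := by
    by_contra hcon
    push Not at hcon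
    -- all sets `T u` are large
    have hcD : ∀ c ∈ D, c ∉ A ∪ un V := by
      intro c hc
      exact (mem_sdiff.1 (hO.subD hc)).2
    have h1 : ∀ e ∈ D, 99 / 100 ≤ (K : ℝ) * mu (Tv R A (sh V {e})) := by
      intro e he
      have h2 := bump hP e (Tv R A V) (Tv R A (sh V {e})) hθ.le (by
        intro y hy
        have h3 := growT hSys A V ∅ e (by
          rw [union_empty]
          exact hcD e he) y (by rwa [insert_empty_eq])
        rwa [sh_empty] at h3)
      have h4 := hO.big
      have h5 : 0 < mu (Tv R A V) := lt_trans (by positivity) h4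
      by_contra h6
      push Not at h6
      have h7 : (K : ℝ) * mu (Tv R A V) * mu (Tv R A (sh V {e})) ≤
          mu (Tv R A V) * (99 / 100) := by
        have : (K : ℝ) * mu (Tv R A V) * mu (Tv R A (sh V {e})) =
          mu (Tv R A V) * (K * mu (Tv R A (sh V {e}))) := by ring
        rw [this]
        exact mul_le_mul_of_nonneg_left h6.le h5.le
      linarith
    have h2 : ∀ u : Finset (Fin K), u ⊆ D → u.Nonempty →
        99 / 100 ≤ (K : ℝ) * mu (Tv R A (sh V u)) + u.card * (K * θ) := by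
      intro u
      induction u using Finset.induction_on with
      | empty =>
        intro _ h
        exact absurd h not_nonempty_empty
      | insert a u ha ih =>
        intro hu _
        have haD : a ∈ D := hu (mem_insert_self a u)
        rcases u.eq_empty_or_nonempty with rfl | hne
        · have h3 := h1 a haD
          rw [insert_empty_eq, card_singleton]
          have : 0 ≤ (K : ℝ) * θ := by positivity
          push_cast
          linarith
        · have h3 := ih ((subset_insert a u).trans hu) hne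
          have h4 := mass hP a (Tv R A (sh V u)) (Tv R A (sh V (insert a u))) hθ.le
            (fun y hy => growT hSys A V u a (by
              rw [mem_union, not_or]
              exact ⟨hcD a haD, ha⟩) y hy)
          have h5 := mul_le_mul_of_nonneg_left h4 hK0.le
          rw [card_insert_of_notMem ha]
          push_cast
          linarith
    have h3 : ∀ u : Finset (Fin K), u ⊆ D → u.Nonempty →
        98 / 100 ≤ (K : ℝ) * mu (Tv R A (sh V u)) := by
      intro u hu hne
      have h4 := h2 u hu hne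
      have h5 : (u.card : ℝ) * (K * θ) ≤ 1 / 10 ^ 6 := by
        refine le_trans ?_ hK9
        have h6 := Uni.R.card_le u
        calc (u.card : ℝ) * (K * θ) ≤ K * (K * θ) :=
              mul_le_mul_of_nonneg_right h6 (by positivity)
          _ = (K : ℝ) ^ 2 * θ := by ring
      have h7 : (1 : ℝ) / 10 ^ 6 ≤ 1 / 100 := by norm_num
      linarith
    -- too many nearly disjoint sets
    obtain ⟨D₀, hD₀, hcard⟩ := exists_subset_card_eq (s := D) (n := Nat.log 2 K + 2) (by omega)
    have h4 := almost (D₀.powerset.erase ∅) (fun u => Tv R A (sh V u)) (100 * θ)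
      (by positivity) (by
        intro u hu w hw huw
        rw [mem_erase, mem_powerset] at hu hw
        exact hO.ind u (hu.2.trans hD₀) w (hw.2.trans hD₀) huw)
    have h5 : ((D₀.powerset.erase ∅).card : ℝ) * (98 / 100) ≤
        K * ∑ u ∈ D₀.powerset.erase ∅, mu (Tv R A (sh V u)) := by
      rw [mul_sum, ← nsmul_eq_mul, ← sum_const]
      apply sum_le_sum
      intro u hu
      rw [mem_erase, mem_powerset] at hu
      exact h3 u (hu.2.trans hD₀) (nonempty_iff_ne_empty.2 hu.1)
    have h6 : (D₀.powerset.erase ∅).card + 1 = 2 ^ (Nat.log 2 K + 2) := by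
      rw [card_erase_of_mem (by simp), card_powerset, hcard]
      have : 0 < 2 ^ (Nat.log 2 K + 2) := by positivity
      omega
    have h7 : K < 2 ^ (Nat.log 2 K + 1) := Nat.lt_pow_succ_log_self (by norm_num) K
    have h8 : 2 ^ Nat.log 2 K ≤ K := Nat.pow_log_le_self 2 (by omega)
    have h7' : 2 ^ (Nat.log 2 K + 1) = 2 * 2 ^ Nat.log 2 K := by ring
    have h6' : 2 ^ (Nat.log 2 K + 2) = 4 * 2 ^ Nat.log 2 K := by ring
    have h9 : 2 * K ≤ (D₀.powerset.erase ∅).card := by omega
    have h10 : (D₀.powerset.erase ∅).card ≤ 4 * K := by omega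
    have h9' : 2 * (K : ℝ) ≤ ((D₀.powerset.erase ∅).card : ℝ) := by exact_mod_cast h9
    have h10' : ((D₀.powerset.erase ∅).card : ℝ) ≤ 4 * K := by exact_mod_cast h10
    set M : ℝ := ((D₀.powerset.erase ∅).card : ℝ) with hM
    have h11 := mu_le_one ((D₀.powerset.erase ∅).biUnion (fun u => Tv R A (sh V u)))
    have h12 : M ^ 2 * (100 * θ) ≤ 1 / 100 := by
      have h13 : M ^ 2 ≤ 16 * (K : ℝ) ^ 2 := by
        have : (0 : ℝ) ≤ M := by positivity
        nlinarith
      calc M ^ 2 * (100 * θ) ≤ 16 * (K : ℝ) ^ 2 * (100 * θ) :=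
            mul_le_mul_of_nonneg_right h13 (by positivity)
        _ = 1600 * ((K : ℝ) ^ 2 * θ) := by ring
        _ ≤ 1600 * (1 / 10 ^ 6) := mul_le_mul_of_nonneg_left hK9 (by norm_num)
        _ ≤ 1 / 100 := by norm_num
    have h13 : K * ∑ u ∈ D₀.powerset.erase ∅, mu (Tv R A (sh V u)) ≤ K * (1 + 1 / 100) := by
      apply mul_le_mul_of_nonneg_left _ hK0.le
      linarith
    nlinarith
  refine ⟨?_, hV, hD⟩
  have h1 : (A ∪ un V ∪ D).card ≤ A.card + (un V).card + D.card :=
    (card_union_le _ _).trans (Nat.add_le_add_right (card_union_le _ _) _)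
  have h2 : D.card ≤ Y := by omega
  have h3 : (un V).card ≤ Y ^ 3 := by omega
  have h4 : Y ^ 3 ≤ Y ^ 17 := Nat.pow_le_pow_right (by omega) (by norm_num)
  have h5 : Y ≤ Y ^ 17 := by
    calc Y = Y ^ 1 := (pow_one Y).symm
      _ ≤ Y ^ 17 := Nat.pow_le_pow_right (by omega) (by norm_num)
  have h6 : 3 * Y ^ 17 ≤ Y ^ 18 := by
    rw [pow_succ Y 17, mul_comm]
    exact Nat.mul_le_mul_left _ (by omega)
  omega

end Pool.Agent.Lib.MP_b1acb3_co.One
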