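import Pool.Agent.Lib.MP_b1acb3_co.One.Stmts

/-!
Module Step of the classification of graphs without a leaf: induction on the rank.
-/

namespace Pool.Agent.Lib.MP_b1acb3_co.One

open Finset Uni Leaf

namespace ModStep

variable {n K r : ℕ}

theorem ex_mono {P : Fin K → Matrix (Fin n) (Fin n) ℝ} {Z : Finset (Fin K)}
    {τ : Fin K → Fin r → ZMod 2} {lam : Fin n → Fin r → ZMod 2} {ζ ζ' : ℝ}
    (h : Ex P Z τ lam ζ) (hζ : ζ ≤ ζ') : Ex P Z τ lam ζ' :=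
  ⟨fun a ha => (h.ex a ha).trans hζ, h.span⟩

theorem lab_mono {c : Sym2 (Fin n) → Fin K} {Z : Finset (Fin K)}
    {τ : Fin K → Fin r → ZMod 2} {lam : Fin n → Fin r → ZMod 2} {ξ ξ' : ℝ}
    (h : Lab c Z τ lam ξ) (hξ : ξ ≤ ξ') : Lab c Z τ lam ξ' :=
  ⟨fun y a ha => (h.lab y a ha).trans (mul_le_mul_of_nonneg_right hξ (by positivity)), h.span⟩

/-- Common constants for all ranks larger than `r`. -/
theorem clean_all (hCl : StClean) {V : Type} [Fintype V] (G : SimpleGraph V) (r w : ℕ)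
    (h : ∀ r', r < r' → 2 ^ r' ≤ 2 * (numEdges G + 1) → Claim G r' (r' * w)) (L : ℕ) :
    ∃ ζ : ℝ, 0 < ζ ∧ ∃ δ : ℝ, 0 < δ ∧ ∃ n₀ : ℕ, ∀ n : ℕ, n₀ ≤ n →
      ∀ (c : Sym2 (Fin n) → Fin (numEdges G + 1))
        (B : Fin (numEdges G + 1) → Matrix (Fin n) (Fin n) ℝ), Env c B δ →
      ∀ r' : ℕ, r' < L → r < r' → 2 ^ r' ≤ 2 * (numEdges G + 1) →
      ∀ (Z : Finset (Fin (numEdges G + 1))) (τ : Fin (numEdges G + 1) → Fin r' → ZMod 2)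
        (lam : Fin n → Fin r' → ZMod 2), Z.card ≤ r' * w → Ex (Cyc.nrm B) Z τ lam ζ →
        HasRainbowCopy G c := by
  induction L with
  | zero => exact ⟨1, one_pos, 1, one_pos, 0, fun n _ c B _ r' hr' => absurd hr' (by omega)⟩
  | succ L ih =>
    obtain ⟨ζ₁, hζ₁, δ₁, hδ₁, n₁, h₁⟩ := ih
    by_cases hL : r < L ∧ 2 ^ L ≤ 2 * (numEdges G + 1)
    · obtain ⟨ξ, hξ, ε, hε, n₂, h₂⟩ := h L hL.1 hL.2
      obtain ⟨ζ₃, hζ₃, δ₃, hδ₃, n₃, h₃⟩ := hCl (numEdges G + 1) n₂ ξ ε (by omega) hξ hε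
      refine ⟨min ζ₁ ζ₃, lt_min hζ₁ hζ₃, min δ₁ δ₃, lt_min hδ₁ hδ₃, max n₁ n₃, ?_⟩
      intro n hn c B hB r' hr' hr hr2 Z τ lam hZ hex
      rcases Nat.lt_succ_iff_lt_or_eq.1 hr' with h4 | h4
      · exact h₁ n ((le_max_left _ _).trans hn) c B (hB.mono (min_le_left _ _)) r' h4 hr hr2
          Z τ lam hZ (ex_mono hex (min_le_left _ _))
      · subst h4
        obtain ⟨n', g, hn', hg, hbal, hlab⟩ := h₃ n ((le_max_right _ _).trans hn) c B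
          (hB.mono (min_le_right _ _)) r' Z τ lam (ex_mono hex (min_le_right _ _))
        exact copy_of_restrict hg (h₂ n' hn' _ hbal Z τ _ hZ hlab)
    · refine ⟨ζ₁, hζ₁, δ₁, hδ₁, n₁, ?_⟩
      intro n hn c B hB r' hr' hr hr2
      rcases Nat.lt_succ_iff_lt_or_eq.1 hr' with h4 | h4
      · exact h₁ n hn c B hB r' h4 hr hr2
      · subst h4
        exact absurd ⟨hr, hr2⟩ hL

/-! ### Numerical facts -/

theorem rank_le {Y : ℕ} (hK : 0 < K) (hr : 2 ^ r ≤ 2 * K) (hY : 8 * (Nat.log 2 K + 2) ≤ Y) :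
    r ≤ Y := by
  have h1 : r ≤ Nat.log 2 (2 * K) := Nat.le_log_of_pow_le (by norm_num) hr
  rw [mul_comm, Nat.log_mul_base (by norm_num) (by omega)] at h1
  omega

theorem pow_le_K {Y a b : ℕ} (hY : 10000 ≤ Y) (hK : Y ^ 60 ≤ K) (ha : a ≤ 10000)
    (hb : b + 1 ≤ 60) : a * Y ^ b ≤ K := by
  calc a * Y ^ b ≤ Y * Y ^ b := Nat.mul_le_mul_right _ (ha.trans hY)
    _ = Y ^ (b + 1) := by ring
    _ ≤ Y ^ 60 := Nat.pow_le_pow_right (by omega) hb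
    _ ≤ K := hK

theorem card_bound {Y z x : ℕ} (hY : 10000 ≤ Y) (hr : r ≤ Y) (hz : z ≤ r * Y ^ 34)
    (hx : x ≤ z + Y ^ 19) : x ≤ Y ^ 36 := by
  have h1 : r * Y ^ 34 ≤ Y ^ 35 := by
    calc r * Y ^ 34 ≤ Y * Y ^ 34 := Nat.mul_le_mul_right _ hr
      _ = Y ^ 35 := by ring
  have h2 : Y ^ 19 ≤ Y ^ 35 := Nat.pow_le_pow_right (by omega) (by norm_num)
  have h3 : 2 * Y ^ 35 ≤ Y ^ 36 := by
    calc 2 * Y ^ 35 ≤ Y * Y ^ 35 := Nat.mul_le_mul_right _ (by omega)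
      _ = Y ^ 36 := by ring
  omega

/-- Either the sets fill classes, or there are labels of larger rank. -/
theorem dich (hTy : StTyp) (hSP : StSP) {h q k d' N Y l : ℕ} {c : Sym2 (Fin n) → Fin K}
    {P : Fin K → Matrix (Fin n) (Fin n) ℝ} {ϑ θ : ℝ} (hK : 0 < K) (hθ : 0 < θ)
    (hRS : RelSys P (fun x => RS c ϑ x) θ) (hT : Tight (fun x => RS c ϑ x) θ l 1 h N)
    (hN : Nums K h q k d' N Y l) (hθ1 : 100 * (K : ℝ) ^ 6 * θ ≤ 1)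
    (hθ2 : 1000 * (K : ℝ) ^ 2 * 2 ^ K * θ ≤ 1) (hθ3 : θ * (K : ℝ) ^ 10 ≤ 1) (hn : 1000 ≤ n)
    (hr : 2 ^ r ≤ 2 * K) (Z : Finset (Fin K)) (hZ : Z.card ≤ r * Y ^ 34)
    (τ : Fin K → Fin r → ZMod 2) (lam : Fin n → Fin r → ZMod 2)
    (hcon : ∀ (x : Fin n) (Q : Finset (Fin K)), Disjoint Q Z →
      mu (RS c ϑ x Q \ cls lam (lam x + ∑ b ∈ Q, τ b)) ≤ 1 / (200 * K)) :
    FillAll c Z τ lam ϑ (Y ^ 18) (Y ^ 19) ∨
      ∃ r', r < r' ∧ 2 ^ r' ≤ 2 * K ∧ ∃ (Z' : Finset (Fin K)) (τ' : Fin K → Fin r' → ZMod 2)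
        (lam' : Fin n → Fin r' → ZMod 2), Z'.card ≤ r' * Y ^ 34 ∧
        Ex P Z' τ' lam' (1000 * 4 ^ K * θ) := by
  have hY := hN.y1
  have hrY : r ≤ Y := rank_le hK hr hN.y2
  have hKr : (0 : ℝ) < K := by exact_mod_cast hK
  obtain ⟨i, hi1, hi2, Bad, hBad, hgood⟩ := hTy n K P (fun x => RS c ϑ x) θ l h N Y hRS hT
    hθ1 hθ2 hN.n1 hN.n4 (by have := hN.n5; omega) (by have := hN.n2; nlinarith) hN.n6 hn
  by_cases hdi : ∃ r', r < r' ∧ 2 ^ r' ≤ 2 * K ∧ ∃ (Z' : Finset (Fin K))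
      (τ' : Fin K → Fin r' → ZMod 2) (lam' : Fin n → Fin r' → ZMod 2), Z'.card ≤ r' * Y ^ 34 ∧
        Ex P Z' τ' lam' (1000 * 4 ^ K * θ)
  · exact Or.inr hdi
  left
  refine ⟨Bad, by omega, ?_⟩
  intro a ha F hZF hF
  have hFc : F.card ≤ Z.card + Y ^ 19 := by
    have h1 := card_sdiff_add_card_eq_card hZF
    omega
  have hF36 : F.card ≤ Y ^ 36 := card_bound hY hrY hZ hFc
  have hF1 : 100 * F.card ≤ K :=
    (Nat.mul_le_mul_left _ hF36).trans (pow_le_K hY hN.y3 (by norm_num) (by norm_num))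
  have hF2 : F.card * (2 * Y ^ 11) ≤ K := by
    calc F.card * (2 * Y ^ 11) ≤ Y ^ 36 * (2 * Y ^ 11) := Nat.mul_le_mul_right _ hF36
      _ = 2 * Y ^ 47 := by ring
      _ ≤ K := pow_le_K hY hN.y3 (by norm_num) (by norm_num)
  have hKi : K ≤ Y ^ 2 * i := by
    have h1 := hN.n6
    have h2 : (0 : ℝ) ≤ Real.log K := Real.log_natCast_nonneg K
    have h3 : (400 : ℝ) * K ≤ Y * N := by
      have h4 : (0 : ℝ) ≤ 400 * (K : ℝ) * Real.log K := by positivity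
      have h5 : (0 : ℝ) ≤ 3 * (N : ℝ) := by positivity
      nlinarith
    have h6 : 400 * K ≤ Y * N := by exact_mod_cast h3
    have h7 : Y * N ≤ Y * (16 * i) := Nat.mul_le_mul_left _ hi1
    have h8 : Y * i ≤ Y ^ 2 * i := by
      apply Nat.mul_le_mul_right
      nlinarith
    nlinarith
  have hFcc : Fᶜ.card + F.card = K := by
    have := card_compl_add_card F
    rwa [Fintype.card_fin] at this
  have h4i : 4 * i ≤ Fᶜ.card := by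
    have := hN.n4
    omega
  obtain ⟨r', Z', τ', lam', Q, hr', hFZ, hZF', hex, hQ, hQF, hQc, hfill⟩ :=
    hSP n K Y i P (RS c ϑ a) θ F (hRS.sys a) (by omega) hN.y2 hN.y3 hθ hθ3 hF2 hKi h4i
      (hgood a ha F hF1)
  have hrr : r' ≤ r := by
    by_contra hlt
    push Not at hlt
    apply hdi
    refine ⟨r', hlt, hr', Z', τ', lam', ?_, hex⟩
    have h1 := card_sdiff_add_card_eq_card hFZ
    have h2 : Y ^ 19 + Y ^ 33 ≤ Y ^ 34 := by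
      have h3 : Y ^ 19 ≤ Y ^ 33 := Nat.pow_le_pow_right (by omega) (by norm_num)
      have h4 : 2 * Y ^ 33 ≤ Y ^ 34 := by
        calc 2 * Y ^ 33 ≤ Y * Y ^ 33 := Nat.mul_le_mul_right _ (by omega)
          _ = Y ^ 34 := by ring
      omega
    have h5 : (r + 1) * Y ^ 34 ≤ r' * Y ^ 34 := Nat.mul_le_mul_right _ hlt
    have h6 : (r + 1) * Y ^ 34 = r * Y ^ 34 + Y ^ 34 := by ring
    omega
  refine ⟨Q, hQ, hQF, hQc, ?_⟩
  have hQZ : Disjoint Q Z := disjoint_of_subset_right hZF hQF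
  have h1 := hcon a Q hQZ
  have h2 : mu (RS c ϑ a Q) ≤ mu (RS c ϑ a Q ∩ cls lam (lam a + ∑ b ∈ Q, τ b)) +
      mu (RS c ϑ a Q \ cls lam (lam a + ∑ b ∈ Q, τ b)) := by
    have h3 := card_inter_add_card_sdiff (RS c ϑ a Q) (cls lam (lam a + ∑ b ∈ Q, τ b))
    unfold mu
    rw [← add_div, ← Nat.cast_add, h3]
  have h4 : (2 : ℝ) ^ r' ≤ 2 ^ r := pow_le_pow_right₀ (by norm_num) hrr
  have h5 : (2 : ℝ) ^ r ≤ 2 * K := by exact_mod_cast hr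
  have h6 : 0 ≤ mu (RS c ϑ a Q) := by
    unfold mu
    positivity
  have h7 : (49 : ℝ) / 50 ≤ 2 ^ r * mu (RS c ϑ a Q) :=
    hfill.trans (mul_le_mul_of_nonneg_right h4 h6)
  have h8 : (2 : ℝ) ^ r * mu (RS c ϑ a Q \ cls lam (lam a + ∑ b ∈ Q, τ b)) ≤ 1 / 100 := by
    calc (2 : ℝ) ^ r * mu (RS c ϑ a Q \ cls lam (lam a + ∑ b ∈ Q, τ b))
        ≤ 2 ^ r * (1 / (200 * K)) := mul_le_mul_of_nonneg_left h1 (by positivity)
      _ ≤ 2 * K * (1 / (200 * K)) := mul_le_mul_of_nonneg_right h5 (by positivity)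
      _ = 1 / 100 := by
        field_simp
        norm_num
  have h9 := mul_le_mul_of_nonneg_left h2 (show (0 : ℝ) ≤ 2 ^ r by positivity)
  rw [mul_add] at h9
  linarith

/-- Choice of a small `ϑ`. -/
theorem exists_theta (K : ℕ) (hK : 0 < K) (ϑ₀ ζ : ℝ) (hϑ₀ : 0 < ϑ₀) (hζ : 0 < ζ) :
    ∃ ϑ : ℝ, 0 < ϑ ∧ ϑ ≤ ϑ₀ ∧ 100 * (K : ℝ) ^ 6 * (2 * K * ϑ) ≤ 1 ∧
      1000 * (K : ℝ) ^ 2 * 2 ^ K * (2 * K * ϑ) ≤ 1 ∧ 2 * K * ϑ * (K : ℝ) ^ 10 ≤ 1 ∧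
      1000 * 4 ^ K * (2 * K * ϑ) ≤ ζ := by
  have hKr : (0 : ℝ) < K := by exact_mod_cast hK
  have key : ∀ A : ℝ, 0 < A → ∀ s : ℝ, 0 < s → ∃ ϑ : ℝ, 0 < ϑ ∧ ∀ x : ℝ, 0 ≤ x → x ≤ ϑ →
      A * x ≤ s := by
    intro A hA s hs
    refine ⟨s / A, by positivity, fun x _ hx => ?_⟩
    rw [le_div_iff₀ hA] at hx
    linarith
  obtain ⟨t1, ht1, h1⟩ := key (100 * (K : ℝ) ^ 6 * (2 * K)) (by positivity) 1 one_pos
  obtain ⟨t2, ht2, h2⟩ := key (1000 * (K : ℝ) ^ 2 * 2 ^ K * (2 * K)) (by positivity) 1 one_pos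
  obtain ⟨t3, ht3, h3⟩ := key (2 * K * (K : ℝ) ^ 10) (by positivity) 1 one_pos
  obtain ⟨t4, ht4, h4⟩ := key (1000 * 4 ^ K * (2 * K)) (by positivity) ζ hζ
  obtain ⟨x, hx⟩ : ∃ x, x = min ϑ₀ (min (min t1 t2) (min t3 t4)) := ⟨_, rfl⟩
  have hxp : 0 < x := by
    rw [hx]
    exact lt_min hϑ₀ (lt_min (lt_min ht1 ht2) (lt_min ht3 ht4))
  have hx0 : 0 ≤ x := hxp.le
  have k0 : x ≤ ϑ₀ := hx.trans_le (min_le_left _ _)
  have k1 : x ≤ min (min t1 t2) (min t3 t4) := hx.trans_le (min_le_right _ _)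
  refine ⟨x, hxp, k0, ?_, ?_, ?_, ?_⟩
  · have := h1 x hx0 (k1.trans ((min_le_left _ _).trans (min_le_left _ _)))
    calc 100 * (K : ℝ) ^ 6 * (2 * K * x) = 100 * (K : ℝ) ^ 6 * (2 * K) * x := by ring
      _ ≤ 1 := this
  · have := h2 x hx0 (k1.trans ((min_le_left _ _).trans (min_le_right _ _)))
    calc 1000 * (K : ℝ) ^ 2 * 2 ^ K * (2 * K * x)
        = 1000 * (K : ℝ) ^ 2 * 2 ^ K * (2 * K) * x := by ring
      _ ≤ 1 := this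
  · have := h3 x hx0 (k1.trans ((min_le_right _ _).trans (min_le_left _ _)))
    calc 2 * K * x * (K : ℝ) ^ 10 = 2 * K * (K : ℝ) ^ 10 * x := by ring
      _ ≤ 1 := this
  · have := h4 x hx0 (k1.trans ((min_le_right _ _).trans (min_le_right _ _)))
    calc 1000 * 4 ^ K * (2 * K * x) = 1000 * 4 ^ K * (2 * K) * x := by ring
      _ ≤ ζ := this

end ModStep

open ModStep in
theorem thmStep (hTi : StTightR) (hS : StRelSys) (hTy : StTyp) (hSP : StSP) (hCl : StClean)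
    (hCo : StContain) (hEnd : StEnd) : StStep := by
  intro V _ G W W₁ q k d' N Y m P i r hW hk hears hWG hexc hN hr hclaim
  obtain ⟨ϑ₀, hϑ₀, hEnd'⟩ := hEnd V G W W₁ q k d' N Y m P i r hW hk hears hWG hexc hN
  obtain ⟨ζ, hζ, δ₁, hδ₁, n₁, h₁⟩ := clean_all hCl G r (Y ^ 34) hclaim
    (2 * (numEdges G + 1) + 1)
  obtain ⟨ϑ, hϑ, hϑle, hθ1, hθ2, hθ3, hθ4⟩ := exists_theta (numEdges G + 1) (by omega) ϑ₀ ζ
    hϑ₀ hζ
  obtain ⟨ξ₂, hξ₂, δ₂, hδ₂, n₂, h₂⟩ := hEnd' ϑ hϑ hϑle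
  have hh2 : 16 * numEdgesIn G W₁ ^ 2 ≤ numEdges G + 1 := by
    calc 16 * numEdgesIn G W₁ ^ 2 ≤ 16 * (Y ^ 2) ^ 2 :=
          Nat.mul_le_mul_left _ (Nat.pow_le_pow_left hN.hh 2)
      _ = 16 * Y ^ 4 := by ring
      _ ≤ numEdges G + 1 := pow_le_K hN.y1 hN.y3 (by norm_num) (by norm_num)
  obtain ⟨δ₃, hδ₃, n₃, h₃⟩ := hTi V G W W₁ q k 1 d' N m P i ϑ hϑ hW hears hN.ch
    (by rw [hWG]) hh2 hN.n2 hN.n3 (by have := hN.n5; omega)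
  obtain ⟨δ₄, hδ₄, n₄, h₄⟩ := hS (numEdges G + 1) ϑ (by omega) hϑ
  obtain ⟨ξ₅, hξ₅, h₅⟩ := hCo (numEdges G + 1) ϑ (1 / (200 * ((numEdges G + 1 : ℕ) : ℝ)))
    (by omega) hϑ (by positivity)
  obtain ⟨ε, hε, henv⟩ := exists_env (numEdges G + 1) (by omega)
    (min (min δ₁ δ₂) (min δ₃ δ₄)) (lt_min (lt_min hδ₁ hδ₂) (lt_min hδ₃ hδ₄))
  refine ⟨min ξ₂ ξ₅, lt_min hξ₂ hξ₅, ε, hε, max 1000 (max (max n₁ n₂) (max n₃ n₄)), ?_⟩
  intro n hn c hc Z τ lam hZ hlab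
  have hn0 : 1000 ≤ n := (le_max_left _ _).trans hn
  have hn1 : max (max n₁ n₂) (max n₃ n₄) ≤ n := (le_max_right _ _).trans hn
  obtain ⟨B, hB⟩ := henv n (by omega) c hc
  by_contra hno
  have e1 := hB.mono ((min_le_left _ _).trans (min_le_left _ _) :
    min (min δ₁ δ₂) (min δ₃ δ₄) ≤ δ₁)
  have e2 := hB.mono ((min_le_left _ _).trans (min_le_right _ _) :
    min (min δ₁ δ₂) (min δ₃ δ₄) ≤ δ₂)
  have e3 := hB.mono ((min_le_right _ _).trans (min_le_left _ _) :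
    min (min δ₁ δ₂) (min δ₃ δ₄) ≤ δ₃)
  have e4 := hB.mono ((min_le_right _ _).trans (min_le_right _ _) :
    min (min δ₁ δ₂) (min δ₃ δ₄) ≤ δ₄)
  have m1 : n₁ ≤ n := (le_max_left _ _).trans ((le_max_left _ _).trans hn1)
  have m2 : n₂ ≤ n := (le_max_right _ _).trans ((le_max_left _ _).trans hn1)
  have m3 : n₃ ≤ n := (le_max_left _ _).trans ((le_max_right _ _).trans hn1)
  have m4 : n₄ ≤ n := (le_max_right _ _).trans ((le_max_right _ _).trans hn1)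
  have hT := h₃ n m3 c B e3 hno
  have hRS := h₄ n m4 c B e4
  have hKr : (0 : ℝ) < ((numEdges G + 1 : ℕ) : ℝ) := by exact_mod_cast Nat.succ_pos _
  have hrY : r ≤ Y := rank_le (by omega) hr hN.y2
  rcases dich (n := n) (K := numEdges G + 1) (r := r) hTy hSP (by omega) (by positivity) hRS hT hN
    hθ1 hθ2 hθ3 hn0 hr Z hZ τ lam
    (fun x Q hQ => h₅ n r c Z τ lam (by omega) (lab_mono hlab (min_le_right _ _)) x Q hQ)
    with hfill | ⟨r', hlt, hr', Z', τ', lam', hZ', hex⟩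
  · exact hno (h₂ n m2 c B e2 Z τ lam (card_bound hN.y1 hrY hZ (Nat.le_add_right _ _))
      (lab_mono hlab (min_le_left _ _)) hfill)
  · refine hno (h₁ n m1 c B e1 r' ?_ hlt hr' Z' τ' lam' hZ' (ex_mono hex hθ4))
    have h6 : r' < 2 ^ r' := Nat.lt_two_pow_self
    omega

end Pool.Agent.Lib.MP_b1acb3_co.One
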