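import Pool.Agent.Lib.MP_b1acb3_co.One.Stmts

/-!
Module Tau: labels of the colours.
-/

namespace Pool.Agent.Lib.MP_b1acb3_co.One

open Finset Uni Leaf

namespace ModTau

variable {n K : ℕ} {P : Fin K → Matrix (Fin n) (Fin n) ℝ}
  {T : Finset (Fin K) → Finset (Fin n)} {θ ν ε : ℝ} {m s : ℕ} {C D : Finset (Fin K)}

/-- The numerical hypotheses. -/
structure Num (K : ℕ) (θ ν ε : ℝ) (m : ℕ) : Prop where
  θ0 : 0 ≤ θ
  θ1 : K * θ ≤ 1 / 1000
  ν0 : 0 ≤ ν
  ν1 : K * ν ≤ 1 / 1000
  ε0 : 0 ≤ ε
  ε1 : ε ≤ 1 / 1000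
  m1 : (1 : ℝ) ≤ m

/-- The sets have a large intersection. -/
def Sim (T : Finset (Fin K) → Finset (Fin n)) (ν : ℝ) (u w : Finset (Fin K)) : Prop :=
  ν < mu (T u ∩ T w)

/-- The mass of `app P a S` outside `S'`. -/
noncomputable def out (P : Fin K → Matrix (Fin n) (Fin n) ℝ) (a : Fin K)
    (S S' : Finset (Fin n)) : ℝ := avg (fun y => if y ∈ S' then 0 else app P a S y)

/-- The mass of `app P a S` inside `S'`. -/
noncomputable def ins (P : Fin K → Matrix (Fin n) (Fin n) ℝ) (a : Fin K)
    (S S' : Finset (Fin n)) : ℝ := avg (fun y => if y ∈ S' then app P a S y else 0)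

theorem ins_add_out (hP : Markov P) (a : Fin K) (S S' : Finset (Fin n)) :
    ins P a S S' + out P a S S' = mu S := by
  rw [ins, out, avg_ite_add, avg_app hP]

theorem ins_symm (hP : Markov P) (a : Fin K) (S S' : Finset (Fin n)) :
    ins P a S S' = ins P a S' S := by
  have h1 : ∀ A B : Finset (Fin n), ins P a A B = (∑ y ∈ B, app P a A y) / n := by
    intro A B
    rw [ins, avg, ← sum_filter]
    congr 2
    ext y
    simp
  rw [h1, h1, sum_app_symm hP]

theorem mu_split (S S' : Finset (Fin n)) : mu (S \ S') + mu (S ∩ S') = mu S := by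
  unfold mu
  rw [← add_div]
  congr 1
  exact_mod_cast card_sdiff_add_card_inter S S'

theorem Sim.symm {u w : Finset (Fin K)} (h : Sim T ν u w) : Sim T ν w u := by
  unfold Sim at *
  rwa [inter_comm]

theorem kpos (hP : Markov P) : (0 : ℝ) < K := by
  have := hP.kpos
  exact_mod_cast this

theorem of_mul (hP : Markov P) {x : ℝ} (h : K * ν < K * x) : ν < x :=
  lt_of_mul_lt_mul_left h (kpos hP).le

section

variable (hP : Markov P) (hN : Num K θ ν ε m) (hA : Atoms P T θ ν ε m s C D)

include hP hN hA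

theorem sim_refl {u : Finset (Fin K)} (hu : u ⊆ C) (hs : u.card ≤ s) : Sim T ν u u := by
  have h1 := abs_le.1 (hA.size u hu hs)
  apply of_mul hP
  rw [inter_self]
  have := hN.ν1
  have := hN.ε1
  have := hN.m1
  linarith [h1.1]

theorem sim_diff {u w : Finset (Fin K)} (hu : u ⊆ C) (hw : w ⊆ C) (hus : u.card ≤ s)
    (hws : w.card ≤ s) (h : Sim T ν u w) : K * mu (T u \ T w) ≤ ε := by
  rcases hA.dich u hu w hw hus hws with h1 | h1
  · exact absurd h (not_lt.2 h1)
  · exact h1

theorem sim_inter {u w : Finset (Fin K)} (hu : u ⊆ C) (hw : w ⊆ C) (hus : u.card ≤ s)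
    (hws : w.card ≤ s) (h : Sim T ν u w) : m - 2 * ε ≤ K * mu (T u ∩ T w) := by
  have h1 := sim_diff hP hN hA hu hw hus hws h
  have h2 := abs_le.1 (hA.size u hu hus)
  have h3 := mu_split (T u) (T w)
  rw [← h3] at h2
  linarith [h2.1]

theorem sim_trans {u w x : Finset (Fin K)} (hu : u ⊆ C) (hw : w ⊆ C) (hx : x ⊆ C)
    (hus : u.card ≤ s) (hws : w.card ≤ s) (hxs : x.card ≤ s) (h : Sim T ν u w)
    (h' : Sim T ν w x) : Sim T ν u x := by
  have h1 := sim_diff hP hN hA hw hu hws hus h.symm
  have h2 := sim_diff hP hN hA hw hx hws hxs h'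
  have h3 := abs_le.1 (hA.size w hw hws)
  have h4 : T w ⊆ ((T w \ T u) ∪ (T w \ T x)) ∪ (T u ∩ T x) := by
    intro y hy
    simp only [mem_union, mem_sdiff, mem_inter]
    tauto
  have h5 := mu_mono h4
  have h6 := mu_union_le ((T w \ T u) ∪ (T w \ T x)) (T u ∩ T x)
  have h7 := mu_union_le (T w \ T u) (T w \ T x)
  apply of_mul hP
  have h8 := kpos hP
  have h9 : (K : ℝ) * mu (T w) ≤ K * mu (T w \ T u) + K * mu (T w \ T x) +
      K * mu (T u ∩ T x) := by
    have h10 : mu (T w) ≤ mu (T w \ T u) + mu (T w \ T x) + mu (T u ∩ T x) := by linarith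
    have := mul_le_mul_of_nonneg_left h10 h8.le
    linarith
  have := hN.ν1
  have := hN.ε1
  have := hN.m1
  linarith [h3.1]

/-- Translation of one set. -/
theorem out_le {a : Fin K} (ha : a ∈ C) {u : Finset (Fin K)} (hu : u ⊆ C)
    (hus : u.card + 1 ≤ s) : K * out P a (T u) (T (symmDiff u {a})) ≤ 2 * ε + K * θ := by
  have hK := kpos hP
  have hε := hN.ε0
  -- the basic estimate
  have key : ∀ w ⊆ C, a ∉ w → out P a (T w) (T (insert a w)) ≤ θ := by
    intro w hw haw
    rw [out, ← avg_const hP.npos θ]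
    apply avg_mono
    intro y
    by_cases hy : y ∈ T (insert a w)
    · rw [if_pos hy]
      exact hN.θ0
    · rw [if_neg hy]
      exact hA.grow w hw a ha haw y hy
  by_cases hau : a ∈ u
  · have e1 : symmDiff u {a} = u.erase a := by
      ext x
      simp only [mem_symmDiff, mem_singleton, mem_erase]
      constructor
      · rintro (⟨h1, h2⟩ | ⟨h1, h2⟩)
        · exact ⟨h2, h1⟩
        · rw [h1] at h2
          exact absurd hau h2
      · rintro ⟨h1, h2⟩
        exact Or.inl ⟨h2, h1⟩
    rw [e1]
    have h1 := key (u.erase a) ((erase_subset a u).trans hu) (notMem_erase a u)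
    rw [insert_erase hau] at h1
    have h2 := ins_add_out hP a (T (u.erase a)) (T u)
    have h3 := ins_add_out hP a (T u) (T (u.erase a))
    rw [ins_symm hP] at h3
    have h4 := abs_le.1 (hA.size u hu (by omega))
    have h5 := abs_le.1 (hA.size (u.erase a) ((erase_subset a u).trans hu) (by
      have := card_erase_le (s := u) (a := a)
      omega))
    have h6 : out P a (T u) (T (u.erase a)) ≤ mu (T u) - mu (T (u.erase a)) + θ := by linarith
    have h7 := mul_le_mul_of_nonneg_left h6 hK.le
    linarith [h4.2, h5.1]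
  · have e1 : symmDiff u {a} = insert a u := by
      ext x
      simp only [mem_symmDiff, mem_singleton, mem_insert]
      constructor
      · rintro (⟨h1, h2⟩ | ⟨h1, h2⟩)
        · exact Or.inr h1
        · exact Or.inl h1
      · rintro (h1 | h1)
        · rw [h1]
          exact Or.inr ⟨rfl, hau⟩
        · exact Or.inl ⟨h1, fun h2 => hau (h2 ▸ h1)⟩
    rw [e1]
    have h1 := mul_le_mul_of_nonneg_left (key u hu hau) hK.le
    linarith

/-- Translation of a relation by one colour. -/
theorem sim_step {a : Fin K} (ha : a ∈ C) {u w : Finset (Fin K)} (hu : u ⊆ C) (hw : w ⊆ C)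
    (hus : u.card + 1 ≤ s) (hws : w.card + 1 ≤ s) (h : Sim T ν u w) :
    Sim T ν (symmDiff u {a}) (symmDiff w {a}) := by
  have hK := kpos hP
  have h1 := out_le hP hN hA ha hu hus
  have h2 := out_le hP hN hA ha hw hws
  have h3 := sim_inter hP hN hA hu hw (by omega) (by omega) h
  have h4 : mu (T u ∩ T w) ≤ mu (T (symmDiff u {a}) ∩ T (symmDiff w {a})) +
      out P a (T u) (T (symmDiff u {a})) + out P a (T w) (T (symmDiff w {a})) := by
    rw [← avg_app hP a (T u ∩ T w), ← avg_indicator (T (symmDiff u {a}) ∩ T (symmDiff w {a})),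
      out, out, ← avg_add, ← avg_add]
    apply avg_mono
    intro y
    have h5 := app_mono hP a (inter_subset_left (s₁ := T u) (s₂ := T w)) y
    have h6 := app_mono hP a (inter_subset_right (s₁ := T u) (s₂ := T w)) y
    have h7 := app_le_one hP a (T u ∩ T w) y
    have h8 := app_nonneg hP a (T u) y
    have h9 := app_nonneg hP a (T w) y
    by_cases e1 : y ∈ T (symmDiff u {a})
    · by_cases e2 : y ∈ T (symmDiff w {a})
      · rw [if_pos (mem_inter.2 ⟨e1, e2⟩), if_pos e1, if_pos e2]
        linarith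
      · rw [if_neg (fun h => e2 (mem_inter.1 h).2), if_pos e1, if_neg e2]
        linarith
    · by_cases e2 : y ∈ T (symmDiff w {a})
      · rw [if_neg (fun h => e1 (mem_inter.1 h).1), if_neg e1, if_pos e2]
        linarith
      · rw [if_neg (fun h => e1 (mem_inter.1 h).1), if_neg e1, if_neg e2]
        linarith
  have h5 := mul_le_mul_of_nonneg_left h4 hK.le
  apply of_mul hP
  have := hN.ν1
  have := hN.ε1
  have := hN.m1
  have := hN.θ1
  linarith

omit hP hN hA in
theorem symmDiff_sub {u w : Finset (Fin K)} (hu : u ⊆ C) (hw : w ⊆ C) :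
    symmDiff u w ⊆ C := by
  intro x hx
  rw [mem_symmDiff] at hx
  rcases hx with ⟨h1, -⟩ | ⟨h1, -⟩
  · exact hu h1
  · exact hw h1

omit hP hN hA in
theorem card_symmDiff_le (u w : Finset (Fin K)) :
    (symmDiff u w).card ≤ u.card + w.card := by
  have h1 : symmDiff u w ⊆ u ∪ w := by
    intro x hx
    rw [mem_symmDiff] at hx
    rw [mem_union]
    tauto
  exact (card_le_card h1).trans (card_union_le u w)

/-- Translation of a relation by a set of colours. -/
theorem sim_shift {v : Finset (Fin K)} (hv : v ⊆ C) {u w : Finset (Fin K)} (hu : u ⊆ C)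
    (hw : w ⊆ C) (hus : u.card + v.card ≤ s) (hws : w.card + v.card ≤ s) (h : Sim T ν u w) :
    Sim T ν (symmDiff u v) (symmDiff w v) := by
  classical
  induction v using Finset.induction_on with
  | empty =>
    have e : ∀ x : Finset (Fin K), symmDiff x ∅ = x := fun x => symmDiff_bot x
    rw [e, e]
    exact h
  | insert a v hav ih =>
    rw [card_insert_of_notMem hav] at hus hws
    have hv' : v ⊆ C := (subset_insert a v).trans hv
    have ha : a ∈ C := hv (mem_insert_self a v)
    have h1 := ih hv' (by omega) (by omega)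
    have h2 := sim_step hP hN hA ha (symmDiff_sub hu hv') (symmDiff_sub hw hv')
      (by have := card_symmDiff_le u v; omega) (by have := card_symmDiff_le w v; omega) h1
    have e1 : ∀ x : Finset (Fin K), symmDiff (symmDiff x v) {a} = symmDiff x (insert a v) := by
      intro x
      rw [symmDiff_assoc]
      congr 1
      ext y
      simp only [mem_symmDiff, mem_singleton, mem_insert]
      constructor
      · rintro (⟨h1, h2⟩ | ⟨h1, h2⟩)
        · exact Or.inr h1
        · exact Or.inl h1
      · rintro (h1 | h1)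
        · rw [h1]
          exact Or.inr ⟨rfl, hav⟩
        · exact Or.inl ⟨h1, fun h2 => hav (h2 ▸ h1)⟩
    rw [e1, e1] at h2
    exact h2

/-- Equivalent subsets of `D` are equal. -/
theorem eq_of_sim {u w : Finset (Fin K)} (hu : u ⊆ D) (hw : w ⊆ D) (h : Sim T ν u w) :
    u = w := by
  by_contra hne
  exact absurd h (not_lt.2 (hA.ind u hu w hw hne))

/-- Every colour is equivalent to a subset of `D`. -/
theorem exists_sub (hs : 4 * (D.card + 4) ≤ s) {a : Fin K} (ha : a ∈ C) :
    ∃ u ⊆ D, Sim T ν {a} u := by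
  classical
  have hD := hA.subD
  by_cases haD : a ∈ D
  · exact ⟨{a}, singleton_subset_iff.2 haD, sim_refl hP hN hA (singleton_subset_iff.2 ha)
      (by rw [card_singleton]; omega)⟩
  -- adding `a` is a translation
  have e1 : ∀ u ⊆ D, insert a u = symmDiff u {a} := by
    intro u hu
    have hau : a ∉ u := fun h => haD (hu h)
    ext x
    simp only [mem_symmDiff, mem_singleton, mem_insert]
    constructor
    · rintro (h1 | h1)
      · rw [h1]
        exact Or.inr ⟨rfl, hau⟩
      · exact Or.inl ⟨h1, fun h2 => hau (h2 ▸ h1)⟩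
    · rintro (⟨h1, h2⟩ | ⟨h1, h2⟩)
      · exact Or.inr h1
      · exact Or.inl h1
  have e2 : ∀ u : Finset (Fin K), symmDiff (symmDiff u {a}) {a} = u := fun u =>
    symmDiff_symmDiff_cancel_right {a} u
  obtain ⟨u, hu, w, hw, h⟩ := hA.dep a ha haD
  have cu := card_le_card hu
  have cw := card_le_card hw
  have h1 : Sim T ν (insert a u) w := by
    rcases h with h | ⟨hne, h⟩
    · exact h
    · exfalso
      have h2 : Sim T ν (symmDiff u {a}) (symmDiff w {a}) := by
        rw [← e1 u hu, ← e1 w hw]
        exact h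
      have hsub : ∀ x ⊆ D, symmDiff x {a} ⊆ C := fun x hx =>
        symmDiff_sub (hx.trans hD) (singleton_subset_iff.2 ha)
      have hc : ∀ x ⊆ D, (symmDiff x {a}).card + 1 ≤ s := by
        intro x hx
        have h3 := card_symmDiff_le x {a}
        have h4 := card_le_card hx
        rw [card_singleton] at h3
        omega
      have h3 := sim_step hP hN hA ha (hsub u hu) (hsub w hw) (hc u hu) (hc w hw) h2
      rw [e2, e2] at h3
      exact hne (eq_of_sim hP hN hA hu hw h3)
  refine ⟨symmDiff w u, symmDiff_sub hw hu, ?_⟩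
  have h2 : insert a u ⊆ C := insert_subset ha (hu.trans hD)
  have h3 := sim_shift hP hN hA (hu.trans hD) h2 (hw.trans hD)
    (by have := card_insert_le a u; omega) (by omega) h1
  have e3 : symmDiff (insert a u) u = {a} := by
    rw [e1 u hu, symmDiff_comm u {a}]
    exact symmDiff_symmDiff_cancel_right u {a}
  rw [e3] at h3
  exact h3

end

/-- Indicator function of a set of colours, in the coordinates given by `e`. -/
def indD {d : ℕ} (f : Fin d → Fin K) (u : Finset (Fin K)) : Fin d → ZMod 2 :=
  fun i => if f i ∈ u then 1 else 0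

theorem indD_symmDiff {d : ℕ} (f : Fin d → Fin K) (u w : Finset (Fin K)) :
    indD f (symmDiff u w) = indD f u + indD f w := by
  funext i
  simp only [indD, Pi.add_apply, mem_symmDiff]
  by_cases h1 : f i ∈ u <;> by_cases h2 : f i ∈ w <;> simp [h1, h2]
  decide

theorem indD_inj {d : ℕ} (f : Fin d → Fin K) (hf : ∀ a ∈ D, ∃ i, f i = a)
    {u w : Finset (Fin K)} (hu : u ⊆ D) (hw : w ⊆ D) (h : indD f u = indD f w) : u = w := by
  ext a
  constructor
  · intro ha
    obtain ⟨i, hi⟩ := hf a (hu ha)
    have h1 := congrFun h i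
    simp only [indD, hi, ha, if_true] at h1
    by_contra h2
    rw [if_neg h2] at h1
    exact one_ne_zero h1
  · intro ha
    obtain ⟨i, hi⟩ := hf a (hw ha)
    have h1 := congrFun h i
    simp only [indD, hi, ha, if_true] at h1
    by_contra h2
    rw [if_neg h2] at h1
    exact one_ne_zero h1.symm

/-- The sum of labels. -/
theorem sum_label (hP : Markov P) (hN : Num K θ ν ε m) (hA : Atoms P T θ ν ε m s C D)
    (hs : 4 * (D.card + 4) ≤ s) {d : ℕ} (f : Fin d → Fin K) (U : Fin K → Finset (Fin K))
    (hU : ∀ a ∈ C, U a ⊆ D ∧ Sim T ν {a} (U a)) (w : Finset (Fin K)) (hw : w ⊆ C)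
    (hwc : w.card ≤ D.card + 3) :
    ∃ u ⊆ D, Sim T ν w u ∧ indD f u = ∑ a ∈ w, indD f (U a) := by
  classical
  have hD := hA.subD
  induction w using Finset.induction_on with
  | empty =>
    refine ⟨∅, empty_subset D, sim_refl hP hN hA (empty_subset C) (by
      rw [card_empty]
      omega), ?_⟩
    rw [sum_empty]
    funext i
    simp [indD]
  | insert a w haw ih =>
    rw [card_insert_of_notMem haw] at hwc
    have hw' : w ⊆ C := (subset_insert a w).trans hw
    have ha : a ∈ C := hw (mem_insert_self a w)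
    obtain ⟨v, hv, h1, h2⟩ := ih hw' (by omega)
    have cv := card_le_card hv
    obtain ⟨hUa, h3⟩ := hU a ha
    have cU := card_le_card hUa
    -- `w + a ~ v + a`
    have h4 := sim_step hP hN hA ha hw' (hv.trans hD) (by omega) (by omega) h1
    have e1 : symmDiff w {a} = insert a w := by
      ext x
      simp only [mem_symmDiff, mem_singleton, mem_insert]
      constructor
      · rintro (⟨h1, h2⟩ | ⟨h1, h2⟩)
        · exact Or.inr h1
        · exact Or.inl h1
      · rintro (h1 | h1)
        · rw [h1]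
          exact Or.inr ⟨rfl, haw⟩
        · exact Or.inl ⟨h1, fun h2 => haw (h2 ▸ h1)⟩
    rw [e1] at h4
    -- `{a} + v ~ U a + v`
    have hsa : ({a} : Finset (Fin K)) ⊆ C := singleton_subset_iff.2 ha
    have h5 := sim_shift hP hN hA (hv.trans hD) hsa (hUa.trans hD)
      (by rw [card_singleton]; omega) (by omega) h3
    rw [symmDiff_comm {a} v] at h5
    have c1 := card_symmDiff_le v {a}
    have c2 := card_symmDiff_le (U a) v
    have c3 := card_insert_le a w
    rw [card_singleton] at c1
    refine ⟨symmDiff (U a) v, symmDiff_sub hUa hv, ?_, ?_⟩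
    · exact sim_trans hP hN hA hw (symmDiff_sub (hv.trans hD) hsa)
        (symmDiff_sub (hUa.trans hD) (hv.trans hD)) (by omega) (by omega) (by omega) h4 h5
    · rw [indD_symmDiff, h2, sum_insert haw]

end ModTau

open ModTau in
theorem thmTau : StTau := by
  classical
  intro n K P T θ ν ε m s C Cf D hP hθ0 hθ1 hν0 hν1 hε0 hε1 hm hs hDC hdisj hne hat
  have hN : Num K θ ν ε m := ⟨hθ0, hθ1, hν0, hν1, hε0, hε1, by exact_mod_cast hm⟩
  -- coordinates
  let e := D.equivFin
  let f : Fin D.card → Fin K := fun i => (e.symm i : Fin K)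
  have hf : ∀ a ∈ D, ∃ i, f i = a := by
    intro a ha
    refine ⟨e ⟨a, ha⟩, ?_⟩
    change ((e.symm (e ⟨a, ha⟩) : D) : Fin K) = a
    rw [Equiv.symm_apply_apply]
  -- the subset of `D` attached to a colour
  let U : Fin K → Finset (Fin K) := fun a =>
    if h : ∃ u ⊆ D, Sim T ν {a} u then h.choose else ∅
  have hU : ∀ c ∈ Cf, ∀ a ∈ insert c C, U a ⊆ D ∧ Sim T ν {a} (U a) := by
    intro c hc a ha
    have h1 : ∃ u ⊆ D, Sim T ν {a} u := exists_sub hP hN (hat c hc) hs ha
    have h2 : U a = h1.choose := dif_pos h1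
    rw [h2]
    exact h1.choose_spec
  obtain ⟨c₀, hc₀⟩ := hne
  -- the labels of the elements of `D`
  have hUD : ∀ a ∈ D, U a = {a} := by
    intro a ha
    obtain ⟨h1, h2⟩ := hU c₀ hc₀ a (mem_insert_of_mem (hDC ha))
    exact (eq_of_sim hP hN (hat c₀ hc₀) (singleton_subset_iff.2 ha) h1 h2).symm
  refine ⟨fun a => indD f (U a), ⟨hP, hθ0, hθ1, hν0, hν1, hε0, hε1, hm, hs, hDC, hdisj,
    ⟨c₀, hc₀⟩, hat, ?_, ?_⟩⟩
  · -- surjectivity
    intro t
    refine ⟨D.filter (fun a => ∃ i, f i = a ∧ t i = 1), filter_subset _ _, ?_⟩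
    have hfinj : Function.Injective f := fun i j hij => e.symm.injective (Subtype.ext hij)
    rw [sum_congr rfl fun a ha => by rw [hUD a (mem_filter.1 ha).1]]
    funext i
    rw [Finset.sum_apply]
    simp only [indD, mem_singleton]
    rw [sum_ite_eq, ]
    have hfD : f i ∈ D := (e.symm i).2
    by_cases hti : t i = 1
    · rw [if_pos, hti]
      rw [mem_filter]
      exact ⟨hfD, i, rfl, hti⟩
    · have h0 : t i = 0 := by
        have : ∀ x : ZMod 2, x ≠ 1 → x = 0 := by decide
        exact this _ hti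
      rw [if_neg, h0]
      rw [mem_filter]
      rintro ⟨-, j, hj, hj1⟩
      rw [hfinj hj] at hj1
      exact hti hj1
  · intro c hc w hw w' hw' hwc hwc'
    have hA := hat c hc
    have hD := hA.subD
    obtain ⟨u, hu, h1, h2⟩ := sum_label hP hN hA hs f U (hU c hc) w hw hwc
    obtain ⟨u', hu', h1', h2'⟩ := sum_label hP hN hA hs f U (hU c hc) w' hw' hwc'
    have cu := card_le_card hu
    have cu' := card_le_card hu'
    rw [← h2, ← h2']
    constructor
    · intro h
      have h3 : u = u' := indD_inj f hf hu hu' h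
      rw [← h3] at h1'
      exact sim_trans hP hN hA hw (hu.trans hD) hw' (by omega) (by omega) (by omega) h1 h1'.symm
    · intro h
      have h3 : Sim T ν w w' := h
      have h4 := sim_trans hP hN hA (hu.trans hD) hw hw' (by omega) (by omega) (by omega)
        h1.symm h3
      have h5 := sim_trans hP hN hA (hu.trans hD) hw' (hu'.trans hD) (by omega) (by omega)
        (by omega) h4 h1'
      rw [eq_of_sim hP hN hA hu hu' h5]

end Pool.Agent.Lib.MP_b1acb3_co.One
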