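import Pool.Agent.Lib.MP_b1acb3_co.One.Stmts

/-!
The colours of a small set are used for edges of the last ear.
-/

namespace Pool.Agent.Lib.MP_b1acb3_co.One

open Finset Uni Leaf

namespace ModThread

/-- A pair of a given colour and with a given sum of labels, outside the image of `f`. -/
theorem exists_pair {V : Type} [Fintype V] {n K r : ℕ} (c : Sym2 (Fin n) → Fin K)
    (lam : Fin n → Fin r → ZMod 2) (a : Fin K) (t : Fin r → ZMod 2) {κ : ℝ}
    (hcnt : κ * (n : ℝ) ^ 2 ≤ cnt c lam a t) (hn : 2 * (Fintype.card V : ℝ) < κ * n)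
    (f : V → Fin n) : ∃ x y, x ≠ y ∧ c s(x, y) = a ∧ lam x + lam y = t ∧ (∀ v, f v ≠ x) ∧
      ∀ v, f v ≠ y := by
  classical
  by_contra hno
  have hsub : (univ : Finset (Fin n × Fin n)).filter
      (fun p => p.1 ≠ p.2 ∧ c s(p.1, p.2) = a ∧ lam p.1 + lam p.2 = t) ⊆
      (univ.image f) ×ˢ univ ∪ univ ×ˢ (univ.image f) := by
    intro p hp
    obtain ⟨_, h1, h2, h3⟩ := mem_filter.1 hp
    rw [mem_union, mem_product, mem_product]
    by_contra h
    rw [not_or] at h
    apply hno
    refine ⟨p.1, p.2, h1, h2, h3, ?_, ?_⟩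
    · intro v hv
      exact h.1 ⟨mem_image.2 ⟨v, mem_univ v, hv⟩, mem_univ _⟩
    · intro v hv
      exact h.2 ⟨mem_univ _, mem_image.2 ⟨v, mem_univ v, hv⟩⟩
  have h1 : cnt c lam a t ≤ Fintype.card V * n + n * Fintype.card V := by
    have h2 := (card_le_card hsub).trans (card_union_le _ _)
    rw [card_product, card_product, card_univ, Fintype.card_fin] at h2
    have h3 : (univ.image f).card ≤ Fintype.card V := by
      have := card_image_le (s := (univ : Finset V)) (f := f)
      rwa [card_univ] at this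
    have h4 := Nat.mul_le_mul_right n h3
    have h5 := Nat.mul_le_mul_left n h3
    have h6 : cnt c lam a t = ((univ : Finset (Fin n × Fin n)).filter
      (fun p => p.1 ≠ p.2 ∧ c s(p.1, p.2) = a ∧ lam p.1 + lam p.2 = t)).card := rfl
    omega
  have h2 : (cnt c lam a t : ℝ) ≤ 2 * (Fintype.card V : ℝ) * n := by
    have h3 : (cnt c lam a t : ℝ) ≤ ((Fintype.card V * n + n * Fintype.card V : ℕ) : ℝ) := by
      exact_mod_cast h1
    push_cast at h3
    linarith
  have hn0 : (0 : ℝ) < n := by
    have h4 : (0 : ℝ) ≤ Fintype.card V := Nat.cast_nonneg _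
    rcases Nat.eq_zero_or_pos n with h5 | h5
    · subst h5
      simp only [Nat.cast_zero, mul_zero] at hn
      linarith
    · exact_mod_cast h5
  have h3 : 2 * (Fintype.card V : ℝ) * n < κ * n * n := mul_lt_mul_of_pos_right hn hn0
  nlinarith

/-- The main induction. -/
theorem claim (hC : StCut) {V : Type} [Fintype V] {G : SimpleGraph V} {K k n r : ℕ} {κ : ℝ}
    (hk : 1 ≤ k) (hn : 2 * (Fintype.card V : ℝ) < κ * n) {c : Sym2 (Fin n) → Fin K}
    {lam : Fin n → Fin r → ZMod 2} {t' : Fin K → Fin r → ZMod 2}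
    (hcnt : ∀ a, κ * (n : ℝ) ^ 2 ≤ cnt c lam a (t' a)) {W : Finset V} (N : ℕ) :
    ∀ (W₂ W₁ : Finset V) (q q' : ℕ) (m : Fin q → ℕ) (P : Fin q → ℕ → V) (m' : ℕ) (P' : ℕ → V),
    q' = q + N → Stt G W W₂ W₁ q k m P m' P' → ∀ f : V → Fin n, Function.Injective f →
    Set.InjOn (fun e : Sym2 V => c (e.map f)) (edgesIn G W₁ : Set (Sym2 V)) →
    (∀ u v, s(u, v) ∈ edgesIn G W₁ → lam (f u) + lam (f v) = t' (c s(f u, f v))) →
    ∀ Z' : Finset (Fin K), Z'.card = N → (∀ e ∈ edgesIn G W₁, c (e.map f) ∉ Z') →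
    N * (k + 2) + 2 * k + 2 ≤ m' →
    ∃ (W₂' W₁' : Finset V) (m₁ : Fin q' → ℕ) (P₁ : Fin q' → ℕ → V) (g : V → Fin n),
      Stt G W W₂' W₁' q' k m₁ P₁ (m' - N * (k + 2)) (fun j => P' (N * (k + 2) + j)) ∧
      Function.Injective g ∧
      Set.InjOn (fun e : Sym2 V => c (e.map g)) (edgesIn G W₁' : Set (Sym2 V)) ∧
      (∀ u v, s(u, v) ∈ edgesIn G W₁' → lam (g u) + lam (g v) = t' (c s(g u, g v))) ∧
      (∀ a, (∃ e ∈ edgesIn G W₁', c (e.map g) = a) ↔
        (∃ e ∈ edgesIn G W₁, c (e.map f) = a) ∨ a ∈ Z') ∧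
      W₁ ⊆ W₁' ∧ (∀ v ∈ W₁, g v = f v) ∧ oddIn G W W₁' = oddIn G W W₁ := by
  classical
  induction N with
  | zero =>
    intro W₂ W₁ q q' m P m' P' hq hS f hf hc hl Z' hZ hZd hm
    subst hq
    rw [card_eq_zero] at hZ
    subst hZ
    refine ⟨W₂, W₁, m, P, f, ?_, hf, hc, hl, ?_, Subset.refl _, fun v _ => rfl, rfl⟩
    · have e1 : m' - 0 * (k + 2) = m' := by rw [Nat.zero_mul, Nat.sub_zero]
      have e2 : (fun j => P' (0 * (k + 2) + j)) = P' := by
        funext j
        rw [Nat.zero_mul, Nat.zero_add]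
      rw [e1, e2]
      exact hS
    · intro a
      constructor
      · exact fun h => Or.inl h
      · rintro (h | h)
        · exact h
        · exact absurd h (notMem_empty a)
  | succ N ih =>
    intro W₂ W₁ q q' m P m' P' hq hS f hf hc hl Z' hZ hZd hm
    have hm2 : (N + 1) * (k + 2) = N * (k + 2) + (k + 2) := by ring
    obtain ⟨a, ha⟩ : Z'.Nonempty := card_pos.1 (by omega)
    obtain ⟨x, y, hxy, hcxy, hlxy, hfx, hfy⟩ := exists_pair c lam a (t' a) (hcnt a) hn f
    obtain ⟨W₂₁, W₁₁, m₁, P₁, hS1, hp1, hp2, hsub, hmem, _, hs1, hodd⟩ :=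
      hC V G W W₂ W₁ q k m P m' P' 1 hk le_rfl (by omega) hS
    obtain ⟨hne, hnot, hedge⟩ := hs1 rfl
    have hp2' : P' (k + 2) ∉ W₁ := hp2
    -- the new map
    let f₁ : V → Fin n := Function.update (Function.update f (P' (k + 1)) x) (P' (k + 2)) y
    have f1a : f₁ (P' (k + 1)) = x := by
      change Function.update (Function.update f (P' (k + 1)) x) (P' (k + 2)) y (P' (k + 1)) = x
      rw [Function.update_of_ne hne, Function.update_self]
    have f1b : f₁ (P' (k + 2)) = y := Function.update_self _ _ _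
    have f1c : ∀ v, v ≠ P' (k + 1) → v ≠ P' (k + 2) → f₁ v = f v := by
      intro v h1 h2
      change Function.update (Function.update f (P' (k + 1)) x) (P' (k + 2)) y v = f v
      rw [Function.update_of_ne h2, Function.update_of_ne h1]
    have f1W : ∀ v ∈ W₁, f₁ v = f v := by
      intro v hv
      refine f1c v ?_ ?_
      · rintro rfl
        exact hp1 hv
      · rintro rfl
        exact hp2' hv
    have hf1 : Function.Injective f₁ := by
      intro u v huv
      by_cases hu1 : u = P' (k + 1)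
      · by_cases hv1 : v = P' (k + 1)
        · rw [hu1, hv1]
        · exfalso
          rw [hu1, f1a] at huv
          by_cases hv2 : v = P' (k + 2)
          · rw [hv2, f1b] at huv
            exact hxy huv
          · rw [f1c v hv1 hv2] at huv
            exact hfx v huv.symm
      · by_cases hu2 : u = P' (k + 2)
        · by_cases hv2 : v = P' (k + 2)
          · rw [hu2, hv2]
          · exfalso
            rw [hu2, f1b] at huv
            by_cases hv1 : v = P' (k + 1)
            · rw [hv1, f1a] at huv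
              exact hxy huv.symm
            · rw [f1c v hv1 hv2] at huv
              exact hfy v huv.symm
        · rw [f1c u hu1 hu2] at huv
          by_cases hv1 : v = P' (k + 1)
          · exfalso
            rw [hv1, f1a] at huv
            exact hfx u huv
          · by_cases hv2 : v = P' (k + 2)
            · exfalso
              rw [hv2, f1b] at huv
              exact hfy u huv
            · rw [f1c v hv1 hv2] at huv
              exact hf huv
    have hold : ∀ e ∈ edgesIn G W₁, e.map f₁ = e.map f := fun e he =>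
      map_congr_of e f₁ f fun v hv => f1W v (((mem_edgesIn G W₁ e).1 he).2 v hv)
    have hnew : c (s(P' (k + 1), P' (k + 2)).map f₁) = a := by
      rw [Sym2.map_mk, f1a, f1b, hcxy]
    have hc1 : Set.InjOn (fun e : Sym2 V => c (e.map f₁)) (edgesIn G W₁₁ : Set (Sym2 V)) := by
      intro e he e' he' hee
      have hee2 : c (e.map f₁) = c (e'.map f₁) := hee
      rcases (hedge e).1 (mem_coe.1 he) with h1 | h1
      · rcases (hedge e').1 (mem_coe.1 he') with h2 | h2
        · rw [hold e h1, hold e' h2] at hee2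
          exact hc (mem_coe.2 h1) (mem_coe.2 h2) hee2
        · exfalso
          rw [h2, hnew, hold e h1] at hee2
          exact hZd e h1 (hee2 ▸ ha)
      · rcases (hedge e').1 (mem_coe.1 he') with h2 | h2
        · exfalso
          rw [h1, hnew, hold e' h2] at hee2
          exact hZd e' h2 (hee2 ▸ ha)
        · rw [h1, h2]
    have hl1 : ∀ u v, s(u, v) ∈ edgesIn G W₁₁ →
        lam (f₁ u) + lam (f₁ v) = t' (c s(f₁ u, f₁ v)) := by
      intro u v huv
      rcases (hedge _).1 huv with h1 | h1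
      · have hu := ((mem_edgesIn G W₁ _).1 h1).2 u (Sym2.mem_mk_left u v)
        have hv := ((mem_edgesIn G W₁ _).1 h1).2 v (Sym2.mem_mk_right u v)
        rw [f1W u hu, f1W v hv]
        exact hl u v h1
      · rcases Sym2.eq_iff.1 h1 with ⟨h2, h3⟩ | ⟨h2, h3⟩
        · rw [h2, h3, f1a, f1b, hcxy]
          exact hlxy
        · rw [h2, h3, f1a, f1b, Sym2.eq_swap, hcxy, add_comm]
          exact hlxy
    have hZ1 : (Z'.erase a).card = N := by
      rw [card_erase_of_mem ha, hZ]
      rfl
    have hZd1 : ∀ e ∈ edgesIn G W₁₁, c (e.map f₁) ∉ Z'.erase a := by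
      intro e he h
      rcases (hedge e).1 he with h1 | h1
      · rw [hold e h1] at h
        exact hZd e h1 (mem_of_mem_erase h)
      · rw [h1, hnew] at h
        exact notMem_erase a Z' h
    obtain ⟨W₂', W₁', m₂, P₂, g, hS2, hg, hgc, hgl, hga, hWs, hgW, hodd2⟩ :=
      ih W₂₁ W₁₁ (q + 1) q' m₁ P₁ (m' - (k + 1 + 1)) (fun j => P' (k + 1 + 1 + j)) (by omega) hS1
        f₁ hf1 hc1 hl1 (Z'.erase a) hZ1 hZd1 (by omega)
    refine ⟨W₂', W₁', m₂, P₂, g, ?_, hg, hgc, hgl, ?_, hsub.trans hWs, ?_, hodd2.trans hodd⟩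
    · have e1 : m' - (k + 1 + 1) - N * (k + 2) = m' - (N + 1) * (k + 2) := by
        rw [hm2]
        omega
      have e2 : (fun j => (fun j => P' (k + 1 + 1 + j)) (N * (k + 2) + j)) =
          fun j => P' ((N + 1) * (k + 2) + j) := by
        funext j
        change P' (k + 1 + 1 + (N * (k + 2) + j)) = _
        congr 1
        rw [hm2]
        omega
      rw [← e1, ← e2]
      exact hS2
    · intro b
      rw [hga b]
      constructor
      · rintro (⟨e, he, heb⟩ | hb)
        · rcases (hedge e).1 he with h1 | h1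
          · left
            exact ⟨e, h1, by rw [← hold e h1]; exact heb⟩
          · right
            rw [h1, hnew] at heb
            rw [← heb]
            exact ha
        · exact Or.inr (mem_of_mem_erase hb)
      · rintro (⟨e, he, heb⟩ | hb)
        · left
          exact ⟨e, (hedge e).2 (Or.inl he), by rw [hold e he]; exact heb⟩
        · by_cases hba : b = a
          · left
            exact ⟨_, (hedge _).2 (Or.inr rfl), by rw [hnew, hba]⟩
          · exact Or.inr (mem_erase.2 ⟨hba, hb⟩)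
    · intro v hv
      rw [hgW v (hsub hv), f1W v hv]

end ModThread

open ModThread in
theorem thmThread (hC : StCut) : StThread := by
  intro V _ G K z k κ hκ hk
  obtain ⟨n₀, hn₀⟩ := exists_nat_gt (2 * (Fintype.card V : ℝ) / κ)
  refine ⟨n₀, fun n hn c r lam t' hcnt W W₂ W₁ q m P m' P' hS f hf hc hl Z' hZ hZd hm => ?_⟩
  have h1 : 2 * (Fintype.card V : ℝ) < κ * n := by
    have h2 : (n₀ : ℝ) ≤ n := by exact_mod_cast hn
    have h3 := hn₀.trans_le h2
    rw [div_lt_iff₀ hκ] at h3
    linarith
  exact claim hC hk h1 hcnt Z'.card W₂ W₁ q (q + Z'.card) m P m' P' rfl hS f hf hc hl Z' rfl hZd hm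

end Pool.Agent.Lib.MP_b1acb3_co.One
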