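import Pool.Agent.Lib.MP_b1acb3_co.One.Stmts

/-!
Most vertices are typical (problem MP_b1acb3_co).
-/

namespace Pool.Agent.Lib.MP_b1acb3_co.One

open Finset Uni Leaf

namespace ModTyp

variable {n K : ℕ}

/-- The union of the sets `R {a}`, `a ∈ S`. -/
theorem mu_biUnion_le {P : Fin K → Matrix (Fin n) (Fin n) ℝ}
    {R : Finset (Fin K) → Finset (Fin n)} {θ : ℝ} {d : ℕ} (h : Sys P R θ d)
    (S : Finset (Fin K)) :
    mu (S.biUnion (fun a => R {a})) ≤ (S.card : ℝ) / K + K * θ := by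
  have hn : (0 : ℝ) < n := by exact_mod_cast h.markov.npos
  have hK : (0 : ℝ) < K := by exact_mod_cast h.markov.kpos
  have hcard : (S.biUnion (fun a => R {a})).card = ∑ a ∈ S, (R {a}).card :=
    card_biUnion (fun a _ b _ hab => h.disj a b hab)
  have hcard2 : ((univ : Finset (Fin K)).biUnion (fun a => R {a})).card
      = ∑ a, (R {a}).card :=
    card_biUnion (fun a _ b _ hab => h.disj a b hab)
  have hle : ((univ : Finset (Fin K)).biUnion (fun a => R {a})).card ≤ n := by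
    simpa using card_le_univ ((univ : Finset (Fin K)).biUnion (fun a => R {a}))
  have hsum : ∑ a, mu (R {a}) ≤ 1 := by
    have e : ∑ a, mu (R {a}) = ((∑ a, (R {a}).card : ℕ) : ℝ) / n := by
      simp only [mu]
      rw [← sum_div]
      push_cast
      rfl
    rw [e, div_le_one hn, ← hcard2]
    exact_mod_cast hle
  have hS : mu (S.biUnion (fun a => R {a})) = ∑ a ∈ S, mu (R {a}) := by
    simp only [mu]
    rw [hcard, ← sum_div]
    push_cast
    rfl
  have hsplit : ∑ a ∈ S, mu (R {a}) + ∑ a ∈ Sᶜ, mu (R {a}) = ∑ a, mu (R {a}) :=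
    sum_add_sum_compl S _
  have hlow : ∑ a ∈ Sᶜ, (1 / (K : ℝ) - θ) ≤ ∑ a ∈ Sᶜ, mu (R {a}) :=
    sum_le_sum (fun a _ => h.start a)
  rw [sum_const, nsmul_eq_mul] at hlow
  have hc : (Sᶜ.card : ℝ) = K - S.card := by
    rw [card_compl, Fintype.card_fin, Nat.cast_sub]
    simpa using card_le_univ S
  have hθ := h.nonneg
  have hScard : (0 : ℝ) ≤ S.card := Nat.cast_nonneg _
  rw [hc] at hlow
  have e1 : ((K : ℝ) - S.card) * (1 / K - θ) = 1 - (S.card : ℝ) / K - K * θ + S.card * θ := by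
    field_simp
    ring
  have e2 : 0 ≤ (S.card : ℝ) * θ := mul_nonneg hScard hθ
  rw [hS]
  linarith

theorem num_mono {S T : Finset (Fin K)} {i : ℕ} {p q : Finset (Fin K) → Prop} (hST : S ⊆ T)
    (h : ∀ Q ⊆ S, Q.card = i → p Q → q Q) : num S i p ≤ num T i q := by
  classical
  unfold num
  apply card_le_card
  intro Q hQ
  rw [mem_filter, mem_powersetCard] at hQ ⊢
  exact ⟨⟨hQ.1.1.trans hST, hQ.1.2⟩, h Q hQ.1.1 hQ.1.2 hQ.2⟩

theorem choose_bound {K j : ℕ} (hK : 0 < K) (hj : 4 * j ≤ K) :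
    3 / 4 * (K.choose j : ℝ) ≤ ((K - 1).choose j : ℝ) := by
  obtain ⟨m, rfl⟩ : ∃ m, K = m + 1 := ⟨K - 1, by omega⟩
  have e := Nat.choose_mul_succ_eq m j
  have hm : m + 1 - 1 = m := by omega
  rw [hm]
  have e' : (m.choose j : ℝ) * ((m : ℝ) + 1) = ((m + 1).choose j : ℝ) * ((m : ℝ) + 1 - j) := by
    have h2 : ((m + 1 - j : ℕ) : ℝ) = (m : ℝ) + 1 - j := by
      rw [Nat.cast_sub (by omega)]
      push_cast
      ring
    have h3 : ((m.choose j * (m + 1) : ℕ) : ℝ) = (((m + 1).choose j * (m + 1 - j) : ℕ) : ℝ) := by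
      rw [e]
    rw [Nat.cast_mul, Nat.cast_mul, h2] at h3
    push_cast at h3
    exact h3
  have hpos : (0 : ℝ) < (m : ℝ) + 1 := by positivity
  have hj' : 4 * (j : ℝ) ≤ (m : ℝ) + 1 := by exact_mod_cast hj
  have hc : (0 : ℝ) ≤ ((m + 1).choose j : ℝ) := Nat.cast_nonneg _
  have h4 : 3 / 4 * ((m + 1).choose j : ℝ) * ((m : ℝ) + 1) ≤ (m.choose j : ℝ) * ((m : ℝ) + 1) := by
    rw [e']
    nlinarith
  exact le_of_mul_le_mul_right h4 hpos

end ModTyp

open ModTyp in
/-- Most vertices are typical. -/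
theorem thmTyp (hY : StTypY) (hT : StTrans) (hH : StHyper) (hF : StForb) : StTyp := by
  intro n K P R θ l h N Y hR hTi h6 h2K hN h4N hNl h10 hYN hn
  have hnpos : 0 < n := by omega
  obtain ⟨x, i₁, hi1, hi2, hi3⟩ :=
    hY n K P R θ l h N hR.sys hTi h6 (by omega) h4N hNl h10 hnpos
  set B : ℝ := 400 * K * (Real.log K + 1) / N + 2 with hB
  have hNpos : (0 : ℝ) < N := by
    have : 0 < N := by omega
    exact_mod_cast this
  have hBY : B + 1 ≤ Y := by
    rw [hB]
    have e1 : (400 * (K : ℝ) * (Real.log K + 1) + 3 * N) / N ≤ Y := by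
      rw [div_le_iff₀ hNpos]
      exact hYN
    have e2 : (400 * (K : ℝ) * (Real.log K + 1) + 3 * N) / N
        = 400 * K * (Real.log K + 1) / N + 3 := by
      rw [add_div, mul_div_assoc 3, div_self hNpos.ne', mul_one]
    rw [e2] at e1
    linarith
  have hKpos : 0 < K := by omega
  have hi25 : 25000 ≤ i₁ := by omega
  obtain ⟨S, hS1, hS2⟩ := hH K i₁ (Good (R x) B) (1 / 5) (by norm_num) (by omega) (by omega) hi3
  obtain ⟨Bad₀, hB1, hB2⟩ := hT n K P R θ hR hnpos x
  refine ⟨(i₁ - 1) / 2, by omega, by omega, insert x (Bad₀ ∪ S.biUnion (fun a => R x {a})), ?_, ?_⟩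
  · -- the measure of the bad set
    have hn' : (0 : ℝ) < n := by exact_mod_cast hnpos
    have hn'' : (1000 : ℝ) ≤ n := by exact_mod_cast hn
    have hK' : (0 : ℝ) < K := by exact_mod_cast hKpos
    have hK1 : (1 : ℝ) ≤ K := by exact_mod_cast hKpos
    have hθ : 0 ≤ θ := (hR.sys x).nonneg
    have m1 := mu_biUnion_le (hR.sys x) S
    have m2 := mu_union_le Bad₀ (S.biUnion (fun a => R x {a}))
    have m3 : (S.card : ℝ) / K ≤ 1 / 1000 := by
      rw [div_le_iff₀ hK']
      have hi' : (25000 : ℝ) ≤ i₁ := by exact_mod_cast hi25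
      have hSc : (0 : ℝ) ≤ S.card := Nat.cast_nonneg _
      have := mul_le_mul_of_nonneg_left hi' hSc
      nlinarith
    have m4 : (K : ℝ) * θ ≤ 1 / 1000 := by
      have h2 : (1 : ℝ) ≤ 2 ^ K := one_le_pow₀ (by norm_num)
      have h3 : (K : ℝ) * θ ≤ K ^ 2 * 2 ^ K * θ := by
        apply mul_le_mul_of_nonneg_right _ hθ
        nlinarith [mul_le_mul hK1 h2 (by norm_num) (by linarith : (0:ℝ) ≤ K)]
      nlinarith
    have m5 : (K : ℝ) ^ 2 * 2 ^ K * θ ≤ 1 / 1000 := by nlinarith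
    have m6 : mu (Bad₀ ∪ S.biUnion (fun a => R x {a})) ≤ 3 / 1000 := by linarith
    have m7 : ((Bad₀ ∪ S.biUnion (fun a => R x {a})).card : ℝ) ≤ 3 / 1000 * n := by
      unfold mu at m6
      rwa [div_le_iff₀ hn'] at m6
    have m8 := card_insert_le x (Bad₀ ∪ S.biUnion (fun a => R x {a}))
    have m9 : ((insert x (Bad₀ ∪ S.biUnion (fun a => R x {a}))).card : ℝ) ≤
        ((Bad₀ ∪ S.biUnion (fun a => R x {a})).card : ℝ) + 1 := by exact_mod_cast m8
    have m10 : (50 : ℝ) * ((insert x (Bad₀ ∪ S.biUnion (fun a => R x {a}))).card : ℝ) ≤ n := by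
      linarith
    exact_mod_cast m10
  · intro p hp F hFc
    simp only [mem_insert, mem_union, mem_biUnion, not_or, not_exists, not_and] at hp
    obtain ⟨hp1, hp2, hp3⟩ := hp
    obtain ⟨a, ha⟩ := hR.cover x p hp1
    have haS : a ∉ S := fun haS => hp3 a haS ha
    have h1 := hS2 a haS
    have h2 : num (univ.erase a) (i₁ - 1) (fun Q => Good (R x) B (insert a Q)) ≤
        num univ (i₁ - 1) (Good (R p) Y) := by
      apply num_mono (subset_univ _)
      intro Q hQ _ hg Q' hQ'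
      have haQ : a ∉ Q' := fun h' => (notMem_erase a univ) (hQ (hQ' h'))
      have e1 := hB2 a p ha hp2 Q' haQ
      have e2 := hg (insert a Q') (insert_subset_insert a hQ')
      linarith
    have h3 := choose_bound (K := K) (j := i₁ - 1) hKpos (by omega)
    have h2' : (num (univ.erase a) (i₁ - 1) (fun Q => Good (R x) B (insert a Q)) : ℝ) ≤
        num univ (i₁ - 1) (Good (R p) Y) := by exact_mod_cast h2
    have h4 : (3 / 40 : ℝ) * (K.choose (i₁ - 1) : ℝ) ≤ num univ (i₁ - 1) (Good (R p) Y) := by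
      linarith
    have hFc' : (100 : ℝ) * F.card ≤ K := by exact_mod_cast hFc
    have hFn : (0 : ℝ) ≤ F.card := Nat.cast_nonneg _
    have h5 := hF K (i₁ - 1) ((i₁ - 1) / 2) (Good (R p) Y) (3 / 40) F
      (fun Q Q' hQ hg => hg.mono hQ) (by norm_num) (by omega) (by omega) (by linarith) h4
    have hc : (0 : ℝ) ≤ (Fᶜ.card.choose ((i₁ - 1) / 2) : ℝ) := Nat.cast_nonneg _
    linarith

end Pool.Agent.Lib.MP_b1acb3_co.One
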