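import Pool.Agent.Lib.MP_b1acb3_co.One.Stmts
import Pool.Agent.Lib.MP_b1acb3_co.Uni.Main

/-!
Module (TypX): the alternative for one vertex.
-/

namespace Pool.Agent.Lib.MP_b1acb3_co.One

open Finset Uni Leaf

namespace ModTypX

/-- Markov inequality for the mean over all sets of size `i`. -/
theorem num_markov {K i : ℕ} (hi : i ≤ K) (f : Finset (Fin K) → ℝ)
    (hf : ∀ Q, Q.card = i → 0 ≤ f Q) (t : ℝ) :
    t * (num univ i (fun Q => t < f Q) : ℝ) ≤ EQ K i f * (K.choose i : ℝ) := by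
  classical
  have hC : (0 : ℝ) < (K.choose i : ℝ) := by exact_mod_cast Nat.choose_pos hi
  have h1 : EQ K i f * (K.choose i : ℝ) = ∑ Q ∈ powersetCard i univ, f Q := by
    unfold EQ
    field_simp
  rw [h1]
  unfold num
  rw [mul_comm, ← nsmul_eq_mul, ← sum_const]
  refine le_trans (sum_le_sum (f := fun _ => t) (g := f) ?_)
    (sum_le_sum_of_subset_of_nonneg (filter_subset _ _) ?_)
  · intro Q hQ
    exact (mem_filter.1 hQ).2.le
  · intro Q hQ _
    exact hf Q (mem_powersetCard.1 hQ).2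

/-- Covering by four properties. -/
theorem num_cover {K i : ℕ} (p q r s : Finset (Fin K) → Prop)
    (h : ∀ Q, Q.card = i → p Q ∨ q Q ∨ r Q ∨ s Q) :
    (K.choose i : ℝ) ≤ (num univ i p : ℝ) + num univ i q + num univ i r + num univ i s := by
  classical
  have h1 : (powersetCard i (univ : Finset (Fin K))) ⊆
      ((powersetCard i univ).filter p ∪ (powersetCard i univ).filter q) ∪
        ((powersetCard i univ).filter r ∪ (powersetCard i univ).filter s) := by
    intro Q hQ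
    have hc := (mem_powersetCard.1 hQ).2
    simp only [mem_union, mem_filter]
    rcases h Q hc with h | h | h | h
    · exact Or.inl (Or.inl ⟨hQ, h⟩)
    · exact Or.inl (Or.inr ⟨hQ, h⟩)
    · exact Or.inr (Or.inl ⟨hQ, h⟩)
    · exact Or.inr (Or.inr ⟨hQ, h⟩)
  have h2 := card_le_card h1
  rw [card_powersetCard, card_univ, Fintype.card_fin] at h2
  have h3 := h2.trans ((card_union_le _ _).trans (add_le_add (card_union_le _ _)
    (card_union_le _ _)))
  have h4 : K.choose i ≤ num univ i p + num univ i q + (num univ i r + num univ i s) := by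
    unfold num
    convert h3
  have h5 : ((K.choose i : ℕ) : ℝ) ≤
      ((num univ i p + num univ i q + (num univ i r + num univ i s) : ℕ) : ℝ) := by
    exact_mod_cast h4
  push_cast at h5
  linarith

/-- The final inequality. -/
theorem final_step (β D X Y E L B : ℝ) (hE : 0 ≤ E) (hD : 1 / 2 ≤ D) (hb : 0 < β)
    (hl : β * D - (Y - 2 * E) * β - 2 * E ≤ (X - 4 * E) * D) (c2 : 90 * L ≤ D) (c3 : X ≤ B)
    (c4 : Y ≤ 45 * L) : β ≤ 2 * B := by
  have hD' : 0 < D := by linarith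
  have a1 : E * (1 / 2) ≤ E * D := mul_le_mul_of_nonneg_left hD hE
  have a2 : 0 ≤ E * β := mul_nonneg hE hb.le
  have h5 : Y * β ≤ 45 * L * β := mul_le_mul_of_nonneg_right c4 hb.le
  have h6 : 45 * L * β ≤ 1 / 2 * D * β := mul_le_mul_of_nonneg_right (by linarith) hb.le
  have h7 : D * (β / 2) ≤ D * X := by linarith
  have h8 := le_of_mul_le_mul_left h7 hD'
  linarith

end ModTypX

open ModTypX Uni.ModM in
theorem thmTypX (h1 : StLoss1) (h2 : StBeta) : StTypX := by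
  intro n K P R θ N hS hLow hθ hN hNK
  have hP := hS.markov
  have hθ0 := hS.nonneg
  have hK400 : 400 ≤ K := by omega
  have hK' : (400 : ℝ) ≤ K := by exact_mod_cast hK400
  have hK0 : (0 : ℝ) < K := by linarith
  have hN' : (100 : ℝ) ≤ N := by exact_mod_cast hN
  have hNK' : 4 * (N : ℝ) ≤ K := by exact_mod_cast hNK
  obtain ⟨e0, -, e1⟩ := small (K := K) (by omega) hθ0 hθ
  -- `K ^ 2 θ` is small
  have e2 : 400 * ((K : ℝ) ^ 2 * θ) ≤ (K : ℝ) ^ 3 * θ := by
    have : (0 : ℝ) ≤ (K : ℝ) ^ 2 * θ := by positivity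
    nlinarith
  have e3 : (0 : ℝ) ≤ (K : ℝ) ^ 2 * θ := by positivity
  -- the logarithm
  have hlog0 : 0 ≤ Real.log K := Real.log_nonneg (by linarith)
  set L : ℝ := Real.log K + 1 with hL
  have hL1 : 1 ≤ L := by linarith
  have hlog2 : -(7 / 10 : ℝ) ≤ Real.log (1 / 2) := by
    rw [one_div, Real.log_inv]
    have := Real.log_two_lt_d9
    linarith
  -- the family `F`
  have hη0 : (0 : ℝ) ≤ (K : ℝ) ^ 1 * θ := by positivity
  have hgr : Grows P (rem R 1) ((K : ℝ) ^ 1 * θ) := grows_rem hP R θ hθ0 hS.grow 1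
  have hhalf : ∀ Q : Finset (Fin K), Q.card ≤ N → 1 / 2 ≤ dfc (rem R 1) Q := by
    intro Q hQ
    have h := hLow Q hQ
    norm_num at h
    linarith
  have hβ : ∀ Q : Finset (Fin K), Q.Nonempty → 1 / 2 ≤ (K : ℝ) * mu (R Q) := by
    intro Q hQ
    have h := (thmR1 n K P R θ (K + 1) hS).1 Q hQ
    linarith
  have hβK : ∀ Q : Finset (Fin K), (K : ℝ) * mu (R Q) ≤ K := by
    intro Q
    have := mu_le_one (R Q)
    nlinarith
  -- consequences of `all_L`
  have hLL : ∀ i : ℕ, i + 1 ≤ N →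
      sE (rem R 1) i / K ≤ lamE (rem R 1) i - lamE (rem R 1) (i + 1) + 2 * ((K : ℝ) ^ 2 * θ) ∧
      -(2 * ((K : ℝ) ^ 2 * θ)) ≤ sE (rem R 1) i / K ∧ lamE (rem R 1) i ≤ Real.log K := by
    intro i hi
    obtain ⟨-, a2, a3, a4⟩ := all_L n K P (rem R 1) ((K : ℝ) ^ 1 * θ) i hP hη0 hgr (by omega)
      (fun Q hQ => hhalf Q (by omega))
    refine ⟨?_, ?_, a4⟩
    · calc sE (rem R 1) i / K ≤ _ := a2
        _ = _ := by ring
    · rw [le_div_iff₀ hK0]
      calc -(2 * ((K : ℝ) ^ 2 * θ)) * K = -(2 * (K : ℝ) ^ 2 * ((K : ℝ) ^ 1 * θ)) := by ring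
        _ ≤ _ := a3
  have hlamN : -(7 / 10 : ℝ) ≤ lamE (rem R 1) N := by
    have h : EQ K N (fun _ => Real.log (1 / 2)) ≤ lamE (rem R 1) N := by
      apply ModL.EQ_mono
      intro Q hQ
      exact Real.log_le_log (by norm_num) (hhalf Q hQ.le)
    rw [ModL.EQ_const (by omega)] at h
    linarith
  -- bounds for `gE`
  have hg_le : ∀ i : ℕ, 1 ≤ i → i ≤ K → gE R i ≤ Real.log K := by
    intro i hi hiK
    have h : gE R i ≤ EQ K i (fun _ => Real.log K) := by
      apply ModL.EQ_mono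
      intro Q hQ
      have hne : Q.Nonempty := card_pos.1 (by omega)
      exact Real.log_le_log (by have := hβ Q hne; linarith) (hβK Q)
    rwa [ModL.EQ_const hiK] at h
  have hg_ge : ∀ i : ℕ, 1 ≤ i → i ≤ K → -(7 / 10 : ℝ) ≤ gE R i := by
    intro i hi hiK
    have h : EQ K i (fun _ => Real.log (1 / 2)) ≤ gE R i := by
      apply ModL.EQ_mono
      intro Q hQ
      have hne : Q.Nonempty := card_pos.1 (by omega)
      exact Real.log_le_log (by norm_num) (hβ Q hne)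
    rw [ModL.EQ_const hiK] at h
    linarith
  -- lower bound for `dec`
  have hdec : ∀ Q : Finset (Fin K), -((Q.card : ℝ) * ((K : ℝ) ^ 2 * θ)) ≤ dec R Q := by
    intro Q
    unfold dec
    calc -((Q.card : ℝ) * ((K : ℝ) ^ 2 * θ)) = ∑ _a ∈ Q, (-((K : ℝ) ^ 2 * θ)) := by
          rw [sum_const, nsmul_eq_mul]; ring
      _ ≤ _ := by
          apply sum_le_sum
          intro a _
          have h := (thmR1 n K P R θ (K + 1) hS).2 (Q.erase a) Q (erase_subset a Q)
          have h' := mul_le_mul_of_nonneg_left h hK0.le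
          nlinarith
  have hdecβ : ∀ Q : Finset (Fin K), Q.Nonempty →
      -(2 * ((Q.card : ℝ) * ((K : ℝ) ^ 2 * θ))) ≤ dec R Q / (K * mu (R Q)) := by
    intro Q hne
    have hb := hβ Q hne
    rw [le_div_iff₀ (by linarith)]
    have hd := hdec Q
    have hq : (0 : ℝ) ≤ (Q.card : ℝ) * ((K : ℝ) ^ 2 * θ) := by positivity
    nlinarith
  -- the relative decrease
  have hBeta : ∀ i : ℕ, 2 ≤ i → i ≤ K →
      EQ K i (fun Q => dec R Q / (K * mu (R Q))) ≤ i * (gE R i - gE R (i - 1)) := by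
    intro i hi hiK
    exact h2 n K P R θ (K + 1) hS (by nlinarith) i hi hiK
  have hg_step : ∀ i : ℕ, 2 ≤ i → i ≤ K →
      -(2 * ((K : ℝ) ^ 2 * θ)) ≤ gE R i - gE R (i - 1) := by
    intro i hi hiK
    have h3 := hBeta i hi hiK
    have h4 : EQ K i (fun _ => -(2 * ((i : ℝ) * ((K : ℝ) ^ 2 * θ)))) ≤
        EQ K i (fun Q => dec R Q / (K * mu (R Q))) := by
      apply ModL.EQ_mono
      intro Q hQ
      have h5 := hdecβ Q (card_pos.1 (by omega))
      rwa [hQ] at h5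
    rw [ModL.EQ_const hiK] at h4
    have hi0 : (0 : ℝ) < i := by exact_mod_cast (by omega : 0 < i)
    have h6 : (i : ℝ) * (-(2 * ((K : ℝ) ^ 2 * θ))) ≤ i * (gE R i - gE R (i - 1)) := by
      linarith
    exact le_of_mul_le_mul_left h6 hi0
  -- the window
  obtain ⟨b, T, hb1, hT1, hT2, hbT⟩ : ∃ b T : ℕ, N ≤ 2 * (b + 1) ∧ b + 1 + T = N ∧
      N ≤ 2 * T + 1 ∧ 2 ≤ b := ⟨(N - 1) / 2, N / 2, by omega, by omega, by omega, by omega⟩
  have hT0 : 0 < T := by omega
  have hTr : (0 : ℝ) < T := by exact_mod_cast hT0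
  have hTN : (N : ℝ) ≤ 2 * T + 1 := by exact_mod_cast hT2
  have hTK : (T : ℝ) ≤ K := by exact_mod_cast (by omega : T ≤ K)
  have hsum1 : ∑ j ∈ range T, (lamE (rem R 1) (b + 1 + j) - lamE (rem R 1) (b + 1 + (j + 1))) =
      lamE (rem R 1) (b + 1) - lamE (rem R 1) N := by
    have h := sum_range_sub' (fun j => lamE (rem R 1) (b + 1 + j)) T
    rw [h, hT1, add_zero]
  have hsum2 : ∑ j ∈ range T, (gE R (b + 1 + j) - gE R (b + j)) = gE R (b + T) - gE R b := by
    have h := sum_range_sub (fun j => gE R (b + j)) T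
    simp only [add_zero] at h
    rw [← h]
    apply sum_congr rfl
    intro j _
    rw [show b + 1 + j = b + (j + 1) by ring]
  -- the choice of `i`
  obtain ⟨j, hj, hj2⟩ : ∃ j ∈ range T, (sE (rem R 1) (b + 1 + j) / K + 2 * ((K : ℝ) ^ 2 * θ)) +
      (gE R (b + 1 + j) - gE R (b + j) + 2 * ((K : ℝ) ^ 2 * θ)) ≤ 2 * L / T := by
    apply exists_le_of_sum_le (nonempty_range_iff.2 hT0.ne')
    rw [sum_const, card_range, nsmul_eq_mul]
    have h3 : (T : ℝ) * (2 * L / T) = 2 * L := by field_simp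
    rw [h3]
    have h4 : ∑ j ∈ range T, ((sE (rem R 1) (b + 1 + j) / K + 2 * ((K : ℝ) ^ 2 * θ)) +
        (gE R (b + 1 + j) - gE R (b + j) + 2 * ((K : ℝ) ^ 2 * θ))) ≤
        ∑ j ∈ range T, ((lamE (rem R 1) (b + 1 + j) - lamE (rem R 1) (b + 1 + (j + 1))) +
          (gE R (b + 1 + j) - gE R (b + j)) + 6 * ((K : ℝ) ^ 2 * θ)) := by
      apply sum_le_sum
      intro j hj
      have hj' := mem_range.1 hj
      have h5 := (hLL (b + 1 + j) (by omega)).1
      rw [show b + 1 + j + 1 = b + 1 + (j + 1) by ring] at h5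
      linarith
    have h4R : ∑ j ∈ range T, ((lamE (rem R 1) (b + 1 + j) - lamE (rem R 1) (b + 1 + (j + 1))) +
          (gE R (b + 1 + j) - gE R (b + j)) + 6 * ((K : ℝ) ^ 2 * θ)) =
        (lamE (rem R 1) (b + 1) - lamE (rem R 1) N) + (gE R (b + T) - gE R b) +
          (T : ℝ) * (6 * ((K : ℝ) ^ 2 * θ)) := by
      rw [sum_add_distrib, sum_add_distrib, hsum1, hsum2, sum_const, card_range,
        nsmul_eq_mul]
    rw [h4R] at h4
    have h5 := (hLL (b + 1) (by omega)).2.2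
    have h6 := hg_le (b + T) (by omega) (by omega)
    have h7 := hg_ge b (by omega) (by omega)
    have h8 : (T : ℝ) * (6 * ((K : ℝ) ^ 2 * θ)) ≤ K * (6 * ((K : ℝ) ^ 2 * θ)) :=
      mul_le_mul_of_nonneg_right hTK (by positivity)
    have h9 : (K : ℝ) * (6 * ((K : ℝ) ^ 2 * θ)) = 6 * ((K : ℝ) ^ 3 * θ) := by ring
    linarith
  have hj' := mem_range.1 hj
  obtain ⟨i, hi⟩ : ∃ i, i = b + 1 + j := ⟨_, rfl⟩
  have hib : b + j = i - 1 := by omega
  rw [← hi, hib] at hj2
  have hiN : i + 1 ≤ N := by omega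
  have hi2 : 2 ≤ i := by omega
  have hiK : i ≤ K := by omega
  have hiN' : (i : ℝ) ≤ N := by exact_mod_cast (by omega : i ≤ N)
  have hN0 : (0 : ℝ) < N := by linarith
  have hi0 : (0 : ℝ) ≤ i := Nat.cast_nonneg i
  have hiK' : (i : ℝ) ≤ K := by exact_mod_cast hiK
  -- `2 / T ≤ 4.05 / N`
  have hTL : 2 * L / T ≤ 81 / 20 * L / N := by
    rw [div_le_div_iff₀ hTr hN0]
    nlinarith
  have hu0 := (hLL i hiN).2.1
  have hv0 := hg_step i hi2 hiK
  have hu : sE (rem R 1) i / K ≤ 81 / 20 * L / N := by linarith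
  have hv : gE R i - gE R (i - 1) ≤ 81 / 20 * L / N := by linarith
  refine ⟨i, by omega, hiN, ?_⟩
  by_contra hcon
  push Not at hcon
  obtain ⟨hA, hB⟩ := hcon
  have hC0 : (0 : ℝ) < (K.choose i : ℝ) := by exact_mod_cast Nat.choose_pos hiK
  -- the functions `X` and `Y`
  set X : Finset (Fin K) → ℝ := fun Q =>
    loss (rem R 1) Q / dfc (rem R 1) Q + 4 * ((K : ℝ) ^ 3 * θ) with hX
  set Y : Finset (Fin K) → ℝ := fun Q =>
    dec R Q / (K * mu (R Q)) + 2 * ((K : ℝ) ^ 3 * θ) with hY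
  have hX0 : ∀ Q : Finset (Fin K), Q.card = i → 0 ≤ X Q := by
    intro Q hQ
    have hD1 := hhalf Q (by omega)
    have hcard : ((Qᶜ.card : ℕ) : ℝ) ≤ K := by
      have := card_le_univ Qᶜ
      rw [Fintype.card_fin] at this
      exact_mod_cast this
    have h3 : -((K : ℝ) ^ 3 * θ) ≤ loss (rem R 1) Q := by
      unfold loss
      have h4 : -((Qᶜ.card : ℝ) * ((K : ℝ) * ((K : ℝ) ^ 1 * θ))) ≤
          ∑ c ∈ Qᶜ, (dfc (rem R 1) Q - dfc (rem R 1) (insert c Q)) := by
        calc -((Qᶜ.card : ℝ) * ((K : ℝ) * ((K : ℝ) ^ 1 * θ))) =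
            ∑ _c ∈ Qᶜ, (-((K : ℝ) * ((K : ℝ) ^ 1 * θ))) := by
              rw [sum_const, nsmul_eq_mul]; ring
          _ ≤ _ := by
              apply sum_le_sum
              intro c hc
              have h5 := dfc_grow hP (rem R 1) _ hη0 hgr Q c (mem_compl.1 hc)
              linarith
      have h6 : (Qᶜ.card : ℝ) * ((K : ℝ) * ((K : ℝ) ^ 1 * θ)) ≤
          K * ((K : ℝ) * ((K : ℝ) ^ 1 * θ)) :=
        mul_le_mul_of_nonneg_right hcard (by positivity)
      have h7 : (K : ℝ) * ((K : ℝ) * ((K : ℝ) ^ 1 * θ)) = (K : ℝ) ^ 3 * θ := by ring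
      linarith
    have h8 : -(2 * ((K : ℝ) ^ 3 * θ)) ≤ loss (rem R 1) Q / dfc (rem R 1) Q := by
      rw [le_div_iff₀ (by linarith)]
      nlinarith
    show 0 ≤ loss (rem R 1) Q / dfc (rem R 1) Q + 4 * ((K : ℝ) ^ 3 * θ)
    linarith
  have hY0 : ∀ Q : Finset (Fin K), Q.card = i → 0 ≤ Y Q := by
    intro Q hQ
    have h3 := hdecβ Q (card_pos.1 (by omega))
    rw [hQ] at h3
    have h4 : (i : ℝ) * ((K : ℝ) ^ 2 * θ) ≤ K * ((K : ℝ) ^ 2 * θ) :=
      mul_le_mul_of_nonneg_right hiK' e3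
    have h5 : (K : ℝ) * ((K : ℝ) ^ 2 * θ) = (K : ℝ) ^ 3 * θ := by ring
    show 0 ≤ dec R Q / (K * mu (R Q)) + 2 * ((K : ℝ) ^ 3 * θ)
    linarith
  have hEX : EQ K i X ≤ 9 / 2 * (K * L / N) := by
    have h3 : EQ K i X = sE (rem R 1) i + 4 * ((K : ℝ) ^ 3 * θ) := by
      rw [hX, EQ_add, ModL.EQ_const hiK]
      rfl
    have h4 : sE (rem R 1) i ≤ 81 / 20 * (K * L / N) := by
      rw [div_le_iff₀ hK0] at hu
      calc _ ≤ _ := hu
        _ = _ := by ring
    have h5 : 4 ≤ (K : ℝ) * L / N := by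
      rw [le_div_iff₀ hN0]
      nlinarith
    rw [h3]
    linarith
  have hEY : EQ K i Y ≤ 9 / 2 * L := by
    have h3 : EQ K i Y = EQ K i (fun Q => dec R Q / (K * mu (R Q))) +
        2 * ((K : ℝ) ^ 3 * θ) := by
      rw [hY, EQ_add, ModL.EQ_const hiK]
    have h4 := hBeta i hi2 hiK
    have h5 : (i : ℝ) * (gE R i - gE R (i - 1)) ≤ 81 / 20 * L := by
      calc (i : ℝ) * (gE R i - gE R (i - 1)) ≤ i * (81 / 20 * L / N) :=
            mul_le_mul_of_nonneg_left hv hi0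
        _ ≤ N * (81 / 20 * L / N) := mul_le_mul_of_nonneg_right hiN' (by positivity)
        _ = 81 / 20 * L := by field_simp
    rw [h3]
    linarith
  -- Markov
  have hmX := num_markov hiK X hX0 (90 * (K * L / N))
  have hmY := num_markov hiK Y hY0 (45 * L)
  have hKLN : 0 < (K : ℝ) * L / N := by positivity
  have hcX : (num univ i (fun Q => 90 * (K * L / N) < X Q) : ℝ) ≤ 1 / 20 * (K.choose i : ℝ) := by
    have h3 : EQ K i X * (K.choose i : ℝ) ≤ 9 / 2 * (K * L / N) * (K.choose i : ℝ) :=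
      mul_le_mul_of_nonneg_right hEX hC0.le
    have h4 : (K * L / N) * (90 * (num univ i (fun Q => 90 * (K * L / N) < X Q) : ℝ)) ≤
        (K * L / N) * (9 / 2 * (K.choose i : ℝ)) := by
      calc _ = 90 * (K * L / N) * (num univ i (fun Q => 90 * (K * L / N) < X Q) : ℝ) := by ring
        _ ≤ _ := hmX
        _ ≤ _ := h3
        _ = _ := by ring
    have h5 := le_of_mul_le_mul_left h4 hKLN
    linarith
  have hcY : (num univ i (fun Q => 45 * L < Y Q) : ℝ) ≤ 1 / 10 * (K.choose i : ℝ) := by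
    have h3 : EQ K i Y * (K.choose i : ℝ) ≤ 9 / 2 * L * (K.choose i : ℝ) :=
      mul_le_mul_of_nonneg_right hEY hC0.le
    have h4 : L * (45 * (num univ i (fun Q => 45 * L < Y Q) : ℝ)) ≤
        L * (9 / 2 * (K.choose i : ℝ)) := by
      calc _ = 45 * L * (num univ i (fun Q => 45 * L < Y Q) : ℝ) := by ring
        _ ≤ _ := hmY
        _ ≤ _ := h3
        _ = _ := by ring
    have h5 := le_of_mul_le_mul_left h4 (by linarith)
    linarith
  have hcov := num_cover (i := i)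
    (fun Q : Finset (Fin K) => (K : ℝ) * mu (R Q) ≤ 180 * K * (Real.log K + 1) / N)
    (fun Q => dfc (rem R 1) Q < 90 * (Real.log K + 1))
    (fun Q => 90 * (K * L / N) < X Q) (fun Q => 45 * L < Y Q) ?_
  · linarith
  · intro Q hQ
    by_contra hcon
    push Not at hcon
    obtain ⟨c1, c2, c3, c4⟩ := hcon
    rw [← hL] at c1 c2
    have hne : Q.Nonempty := card_pos.1 (by omega)
    have hb := hβ Q hne
    have hD := hhalf Q (by omega)
    have hD' : 0 < dfc (rem R 1) Q := by linarith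
    have hb' : 0 < (K : ℝ) * mu (R Q) := by linarith
    have hl := h1 n K P R θ (K + 1) hS Q (by omega)
    have hloss : loss (rem R 1) Q = (X Q - 4 * ((K : ℝ) ^ 3 * θ)) * dfc (rem R 1) Q := by
      show loss (rem R 1) Q = (loss (rem R 1) Q / dfc (rem R 1) Q + 4 * ((K : ℝ) ^ 3 * θ) -
        4 * ((K : ℝ) ^ 3 * θ)) * dfc (rem R 1) Q
      rw [add_sub_cancel_right, div_mul_cancel₀ _ hD'.ne']
    have hdd : dec R Q = (Y Q - 2 * ((K : ℝ) ^ 3 * θ)) * (K * mu (R Q)) := by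
      show dec R Q = (dec R Q / (K * mu (R Q)) + 2 * ((K : ℝ) ^ 3 * θ) -
        2 * ((K : ℝ) ^ 3 * θ)) * (K * mu (R Q))
      rw [add_sub_cancel_right, div_mul_cancel₀ _ hb'.ne']
    rw [hloss, hdd] at hl
    have h5 := final_step (K * mu (R Q)) (dfc (rem R 1) Q) (X Q) (Y Q) ((K : ℝ) ^ 3 * θ) L
      (90 * (K * L / N)) e0 hD hb' (by linarith) c2 c3 c4
    have h9 : 180 * (K : ℝ) * L / N = 2 * (90 * (K * L / N)) := by ring
    rw [h9] at c1
    exact absurd h5 (not_le.2 c1)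

end Pool.Agent.Lib.MP_b1acb3_co.One
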