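import Pool.Agent.Lib.MP_b1acb3_co.One.Stmts
import Pool.Agent.Lib.MP_b1acb3_co.Leaf.LowN
import Pool.Agent.Lib.MP_b1acb3_co.Leaf.PairN

/-!
One vertex from which a positive proportion of the sets of colours is good.
-/

namespace Pool.Agent.Lib.MP_b1acb3_co.One

open Finset Uni Leaf

namespace ModTypY

variable {n K : ℕ}

open Classical in
/-- Few sets of `i` elements meet a small set. -/
theorem few_meet {i : ℕ} (F : Finset (Fin K)) (hK : 1 ≤ K) (hi : 1 ≤ i)
    (hF : 20 * F.card * i ≤ K) (S : Finset (Finset (Fin K))) (hS : S ⊆ powersetCard i univ) :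
    20 * S.card ≤ 20 * (S.filter (fun Q => Disjoint F Q)).card + K.choose i := by
  obtain ⟨j, rfl⟩ : ∃ j, i = j + 1 := ⟨i - 1, by omega⟩
  have hfK : F.card ≤ K := by
    have := card_le_univ F
    rwa [Fintype.card_fin] at this
  have h1 := ModPairN.choose_le_add (K := K) (j := j) F.card hfK
  have h2 := Nat.add_one_mul_choose_eq (K - 1) j
  rw [Nat.sub_add_cancel hK] at h2
  have h3 : 20 * (F.card * (K - 1).choose j) ≤ K.choose (j + 1) := by
    have h : (20 * (F.card * (K - 1).choose j)) * K ≤ K.choose (j + 1) * K := by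
      calc (20 * (F.card * (K - 1).choose j)) * K
          = 20 * F.card * (K * (K - 1).choose j) := by ring
        _ = K.choose (j + 1) * (20 * F.card * (j + 1)) := by rw [h2]; ring
        _ ≤ _ := Nat.mul_le_mul_left _ hF
    exact Nat.le_of_mul_le_mul_right h (by omega)
  have h4 : (S.filter (fun Q => ¬ Disjoint F Q)).card + (K - F.card).choose (j + 1) ≤
      K.choose (j + 1) := by
    have e1 : (powersetCard (j + 1) Fᶜ).card = (K - F.card).choose (j + 1) := by
      rw [card_powersetCard, card_compl, Fintype.card_fin]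
    have e2 : (powersetCard (j + 1) (univ : Finset (Fin K))).card = K.choose (j + 1) := by
      rw [card_powersetCard, card_univ, Fintype.card_fin]
    rw [← e1, ← e2, ← card_union_of_disjoint]
    · apply card_le_card
      intro Q hQ
      rw [mem_union] at hQ
      rcases hQ with hQ | hQ
      · exact hS (mem_filter.1 hQ).1
      · exact powersetCard_mono (subset_univ _) hQ
    · rw [disjoint_left]
      intro Q h5 h6
      apply (mem_filter.1 h5).2
      rw [disjoint_left]
      intro a ha ha'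
      exact mem_compl.1 ((mem_powersetCard.1 h6).1 ha') ha
  have h5 : (S.filter (fun Q => Disjoint F Q)).card +
      (S.filter (fun Q => ¬ Disjoint F Q)).card = S.card := card_filter_add_card_filter_not _
  omega

open Classical in
/-- At least as many sets are disjoint from a set of a family as there are sets in the family. -/
theorem pairs_disj {i : ℕ} (S : Finset (Finset (Fin K))) (hS : S ⊆ powersetCard i univ)
    (hi : 2 * i ≤ K) :
    S.card ≤ ((powersetCard i univ).filter (fun Q' => ∃ Q ∈ S, Disjoint Q Q')).card := by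
  have hcard : ∀ Q : Finset (Fin K), Q.card = i → (powersetCard i Qᶜ).card = (K - i).choose i := by
    intro Q hQ
    rw [card_powersetCard, card_compl, Fintype.card_fin, hQ]
  have h := Finset.card_mul_le_card_mul (s := S)
    (t := (powersetCard i univ).filter (fun Q' => ∃ Q ∈ S, Disjoint Q Q'))
    (m := (K - i).choose i) (n := (K - i).choose i)
    (fun Q Q' : Finset (Fin K) => Disjoint Q Q') ?_ ?_
  · exact Nat.le_of_mul_le_mul_right h (Nat.choose_pos (by omega))
  · intro Q hQ
    rw [← hcard Q (mem_powersetCard.1 (hS hQ)).2]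
    apply card_le_card
    intro Q' hQ'
    rw [mem_powersetCard] at hQ'
    have hd : Disjoint Q Q' := by
      rw [disjoint_left]
      intro a ha ha'
      exact mem_compl.1 (hQ'.1 ha') ha
    rw [mem_bipartiteAbove, mem_filter, mem_powersetCard]
    exact ⟨⟨⟨subset_univ _, hQ'.2⟩, Q, hQ, hd⟩, hd⟩
  · intro Q' hQ'
    rw [mem_filter, mem_powersetCard] at hQ'
    rw [← hcard Q' hQ'.1.2]
    apply card_le_card
    intro Q hQ
    rw [mem_bipartiteBelow] at hQ
    rw [mem_powersetCard]
    refine ⟨?_, (mem_powersetCard.1 (hS hQ.1)).2⟩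
    intro a ha
    rw [mem_compl]
    exact fun ha' => disjoint_left.1 hQ.2 ha ha'

/-- The density seen from the other end. -/
theorem other_end {P : Fin K → Matrix (Fin n) (Fin n) ℝ}
    {R : Fin n → Finset (Fin K) → Finset (Fin n)} {θ : ℝ} {l i : ℕ}
    (hS : ∀ x, Sys P (R x) θ (K + 1)) (x y : Fin n) (Q Q' T : Finset (Fin K)) (hQ : Q.card = i)
    (hQQ : Disjoint Q Q') (_ : 2 ≤ i) (hil : i < l) (hQT : Q ∪ Q' ⊆ T) (hT : T.card = l + 1)
    (hT' : ∀ U U' : Finset (Fin K), U.Nonempty → U'.Nonempty → Disjoint U U' → U ⊆ T → U' ⊆ T →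
      U.card + U'.card = l → mu (R x U ∩ R y U') ≤ θ) (Q'' : Finset (Fin K)) (hQ'' : Q'' ⊆ Q') :
    K * mu (R y Q'') ≤ dfc (rem (R x) 1) Q + 2 * K ^ 2 * θ := by
  have hθ := (hS x).nonneg
  have hQT1 : Q ⊆ T := subset_union_left.trans hQT
  have hc1 : (T \ Q).card = l + 1 - Q.card := by
    rw [card_sdiff_of_subset hQT1, hT]
  have hU'ne : (T \ Q).Nonempty := by
    rw [← card_pos]
    omega
  have h1 : mu (R y (T \ Q) ∩ rem (R x) 1 Q) ≤ (K : ℝ) ^ 1 * θ := by
    refine ModLowN.inter_rem (R x) θ hθ (hS x).empty 1 Q (R y (T \ Q)) fun A hA hAc hne => ?_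
    refine hT' (Q \ A) (T \ Q) hne hU'ne (disjoint_sdiff.mono_left sdiff_subset)
      (sdiff_subset.trans hQT1) sdiff_subset ?_
    rw [card_sdiff_of_subset hA, hc1]
    have := card_le_card hA
    omega
  have h2 := mu_union_add_inter (R y (T \ Q)) (rem (R x) 1 Q)
  have h3 := mu_le_one (R y (T \ Q) ∪ rem (R x) 1 Q)
  have h4 : mu (R y (T \ Q)) - (K : ℝ) ^ 1 * θ ≤ 1 - mu (rem (R x) 1 Q) := by linarith
  have hK : (0 : ℝ) ≤ K := Nat.cast_nonneg K
  have h5 := mul_le_mul_of_nonneg_left h4 hK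
  have hsub : Q'' ⊆ T \ Q := by
    intro a ha
    rw [mem_sdiff]
    exact ⟨hQT (mem_union_right _ (hQ'' ha)), fun h => disjoint_left.1 hQQ h (hQ'' ha)⟩
  have h6 := (thmR1 n K P (R y) θ (K + 1) (hS y)).2 Q'' (T \ Q) hsub
  have h7 := mul_le_mul_of_nonneg_left h6 hK
  unfold dfc
  nlinarith

end ModTypY

open Classical in
open ModTypY in
/-- (TypY) One vertex from which a positive proportion of the sets of colours is good. -/
theorem thmTypY (h : StTypX) : StTypY := by
  intro n K P R θ l h N hS hT hKθ hN hNK hNl hhN hn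
  have hx₀ : ∃ x₀ : Fin n, True := ⟨⟨0, hn⟩, trivial⟩
  obtain ⟨x₀, -⟩ := hx₀
  have hθ := (hS x₀).nonneg
  have hLow : Low (R x₀) θ 1 (N / 2) := by
    intro Q hQ
    exact thmLowN n K P R θ l 1 h N 1 hS hT hNl le_rfl le_rfl x₀ Q (by omega)
  obtain ⟨i, hi1, hi2, hi3⟩ := ‹StTypX› n K P (R x₀) θ (N / 2) (hS x₀) hLow hKθ (by omega)
    (by omega)
  have hK0 : (0 : ℝ) < K := by exact_mod_cast (show 0 < K by omega)
  have hK1 : (1 : ℝ) ≤ K := by exact_mod_cast (show 1 ≤ K by omega)
  have hN0 : (0 : ℝ) < N := by exact_mod_cast (show 0 < N by omega)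
  have hlog : 0 ≤ Real.log K := Real.log_nonneg hK1
  have hsmall : 2 * (K : ℝ) ^ 2 * θ ≤ 1 := by
    have h1 : (K : ℝ) ^ 2 ≤ (K : ℝ) ^ 6 := pow_le_pow_right₀ hK1 (by norm_num)
    have h2 := mul_le_mul_of_nonneg_right h1 hθ
    nlinarith
  have hC0 : (0 : ℝ) ≤ (K.choose i : ℝ) := Nat.cast_nonneg _
  have hR1 := fun x => (thmR1 n K P (R x) θ (K + 1) (hS x)).2
  rcases hi3 with hi3 | hi3
  · refine ⟨x₀, i, by omega, by omega, ?_⟩
    have h1 : num univ i (fun Q => (K : ℝ) * mu (R x₀ Q) ≤
        180 * K * (Real.log K + 1) / ((N / 2 : ℕ) : ℝ)) ≤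
        num univ i (Good (R x₀) (400 * K * (Real.log K + 1) / N + 2)) := by
      apply card_le_card
      intro Q hQ
      rw [mem_filter] at hQ ⊢
      refine ⟨hQ.1, fun Q' hQ' => ?_⟩
      have h2 := mul_le_mul_of_nonneg_left (hR1 x₀ Q' Q hQ') hK0.le
      have h3 : 180 * K * (Real.log K + 1) / ((N / 2 : ℕ) : ℝ) ≤
          400 * K * (Real.log K + 1) / N := by
        have h4 : (9 : ℝ) * N ≤ 20 * ((N / 2 : ℕ) : ℝ) := by
          exact_mod_cast (show 9 * N ≤ 20 * (N / 2) by omega)
        have h5 : (0 : ℝ) < ((N / 2 : ℕ) : ℝ) := by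
          exact_mod_cast (show 0 < N / 2 by omega)
        rw [div_le_div_iff₀ h5 hN0]
        have h6 : 0 ≤ K * (Real.log K + 1) := by positivity
        nlinarith
      have h4 := hQ.2
      nlinarith
    have h2 : ((num univ i (fun Q => (K : ℝ) * mu (R x₀ Q) ≤
        180 * K * (Real.log K + 1) / ((N / 2 : ℕ) : ℝ)) : ℕ) : ℝ) ≤
        ((num univ i (Good (R x₀) (400 * K * (Real.log K + 1) / N + 2)) : ℕ) : ℝ) := by
      exact_mod_cast h1
    linarith
  · obtain ⟨y, F, hF, -, hy⟩ := hT x₀ ∅ (by simp)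
    refine ⟨y, i, by omega, by omega, ?_⟩
    set S₁ : Finset (Finset (Fin K)) := (powersetCard i univ).filter
      (fun Q => dfc (rem (R x₀) 1) Q < 90 * (Real.log K + 1)) with hS₁
    have hnum : (2 / 5 : ℝ) * (K.choose i : ℝ) ≤ (S₁.card : ℝ) := hi3
    set S₂ := S₁.filter (fun Q => Disjoint F Q) with hS₂
    have hFi : 20 * F.card * i ≤ K := by
      calc 20 * F.card * i ≤ 20 * h * i := by gcongr
        _ = 10 * h * (2 * i) := by ring
        _ ≤ 10 * h * N := by
          apply Nat.mul_le_mul_left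
          omega
        _ ≤ K := hhN
    have hm1 : 20 * S₁.card ≤ 20 * S₂.card + K.choose i :=
      few_meet F (by omega) (by omega) hFi S₁ (filter_subset _ _)
    have hm2 := ModTypY.pairs_disj S₂ ((filter_subset _ _).trans (filter_subset _ _)) (by omega)
    set S₃ := (powersetCard i (univ : Finset (Fin K))).filter
      (fun Q' => ∃ Q ∈ S₂, Disjoint Q Q') with hS₃
    have hm3 := few_meet F (by omega) (by omega) hFi S₃ (filter_subset _ _)
    have h1 : (S₃.filter (fun Q => Disjoint F Q)).card ≤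
        num univ i (Good (R y) (400 * K * (Real.log K + 1) / N + 2)) := by
      apply card_le_card
      intro Q' hQ'
      rw [mem_filter, hS₃, mem_filter] at hQ'
      obtain ⟨⟨hQ'1, Q, hQ, hQQ⟩, hFQ'⟩ := hQ'
      rw [hS₂, mem_filter, hS₁, mem_filter] at hQ
      obtain ⟨⟨hQ1, hQ2⟩, hFQ⟩ := hQ
      rw [mem_filter]
      refine ⟨hQ'1, fun Q'' hQ'' => ?_⟩
      have hc : (Q ∪ Q').card ≤ N := by
        have := card_union_le Q Q'
        have e1 := (mem_powersetCard.1 hQ1).2
        have e2 := (mem_powersetCard.1 hQ'1).2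
        omega
      obtain ⟨T, hQT, hTc, hT'⟩ := hy (Q ∪ Q') hc (disjoint_union_right.2 ⟨hFQ, hFQ'⟩)
      have h2 := other_end hS x₀ y Q Q' T (mem_powersetCard.1 hQ1).2 hQQ (by omega) (by omega)
        hQT hTc hT' Q'' hQ''
      have h3 : 90 * (Real.log K + 1) ≤ 400 * K * (Real.log K + 1) / N := by
        rw [le_div_iff₀ hN0]
        have h4 : (N : ℝ) ≤ K := by exact_mod_cast (show N ≤ K by omega)
        have h5 : 0 ≤ Real.log K + 1 := by positivity
        nlinarith
      linarith
    have h2 : 10 * S₁.card ≤ 10 * num univ i (Good (R y) (400 * K * (Real.log K + 1) / N + 2)) +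
        K.choose i := by omega
    have h3 : (10 : ℝ) * S₁.card ≤
        10 * (num univ i (Good (R y) (400 * K * (Real.log K + 1) / N + 2)) : ℝ) +
        (K.choose i : ℝ) := by exact_mod_cast h2
    linarith

end Pool.Agent.Lib.MP_b1acb3_co.One
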