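import Pool.Agent.Lib.MP_b1acb3_co.Leaf.Main
import Pool.Agent.Lib.MP_b1acb3_co.One.PathR
import Pool.Agent.Lib.MP_b1acb3_co.One.LastR
import Pool.Agent.Lib.MP_b1acb3_co.One.Ears3
import Pool.Agent.Lib.MP_b1acb3_co.One.TightR
import Pool.Agent.Lib.MP_b1acb3_co.One.RelSys
import Pool.Agent.Lib.MP_b1acb3_co.One.Loss1
import Pool.Agent.Lib.MP_b1acb3_co.One.Beta
import Pool.Agent.Lib.MP_b1acb3_co.One.TypX
import Pool.Agent.Lib.MP_b1acb3_co.One.TypY
import Pool.Agent.Lib.MP_b1acb3_co.One.Trans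
import Pool.Agent.Lib.MP_b1acb3_co.One.Hyper
import Pool.Agent.Lib.MP_b1acb3_co.One.Forb
import Pool.Agent.Lib.MP_b1acb3_co.One.Typ
import Pool.Agent.Lib.MP_b1acb3_co.One.Canon
import Pool.Agent.Lib.MP_b1acb3_co.One.Select
import Pool.Agent.Lib.MP_b1acb3_co.One.Size
import Pool.Agent.Lib.MP_b1acb3_co.One.NearInt
import Pool.Agent.Lib.MP_b1acb3_co.One.Shift
import Pool.Agent.Lib.MP_b1acb3_co.One.Local
import Pool.Agent.Lib.MP_b1acb3_co.One.Tau
import Pool.Agent.Lib.MP_b1acb3_co.One.Cnt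
import Pool.Agent.Lib.MP_b1acb3_co.One.Cov
import Pool.Agent.Lib.MP_b1acb3_co.One.Lamb
import Pool.Agent.Lib.MP_b1acb3_co.One.Rich
import Pool.Agent.Lib.MP_b1acb3_co.One.SP
import Pool.Agent.Lib.MP_b1acb3_co.One.Clean
import Pool.Agent.Lib.MP_b1acb3_co.One.Contain
import Pool.Agent.Lib.MP_b1acb3_co.One.ClassN
import Pool.Agent.Lib.MP_b1acb3_co.One.Rank
import Pool.Agent.Lib.MP_b1acb3_co.One.KerZ
import Pool.Agent.Lib.MP_b1acb3_co.One.Grow
import Pool.Agent.Lib.MP_b1acb3_co.One.Hall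
import Pool.Agent.Lib.MP_b1acb3_co.One.Assign
import Pool.Agent.Lib.MP_b1acb3_co.One.CoreR
import Pool.Agent.Lib.MP_b1acb3_co.One.CoreP
import Pool.Agent.Lib.MP_b1acb3_co.One.Pick
import Pool.Agent.Lib.MP_b1acb3_co.One.Cut
import Pool.Agent.Lib.MP_b1acb3_co.One.Rev
import Pool.Agent.Lib.MP_b1acb3_co.One.Join
import Pool.Agent.Lib.MP_b1acb3_co.One.Thread
import Pool.Agent.Lib.MP_b1acb3_co.One.End
import Pool.Agent.Lib.MP_b1acb3_co.One.Step
import Pool.Agent.Lib.MP_b1acb3_co.One.NoLeaf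
import Pool.Agent.Lib.MP_b1acb3_co.One.Num1
import Pool.Agent.Lib.MP_b1acb3_co.One.Final1
import Pool.Agent.Lib.MP_b1acb3_co.One.Combine

/-!
Assembly of the modules: the classification for all graphs that are close to forests.
-/

namespace Pool.Agent.Lib.MP_b1acb3_co.One

theorem all_LastR : StLastR := thmLastR thmPathR

theorem all_TightR : StTightR := thmTightR all_LastR thmEars3

theorem all_TypX : StTypX := thmTypX thmLoss1 thmBeta

theorem all_TypY : StTypY := thmTypY all_TypX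

theorem all_Typ : StTyp := thmTyp all_TypY thmTrans thmHyper thmForb

theorem all_Local : StLocal := thmLocal thmNearInt thmShift

theorem all_SP : StSP :=
  thmSP thmCanon thmSelect thmSize all_Local thmTau thmCnt thmCov thmLamb thmRich

theorem all_Rank : StRank := thmRank thmClassN

theorem all_Assign : StAssign := thmAssign thmHall thmClassN

theorem all_Pick : StPick := thmPick all_Assign thmCoreR thmCoreP thmClassN all_Rank

theorem all_Thread : StThread := thmThread thmCut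

theorem all_End : StEnd := thmEnd all_LastR thmEars3 thmClassN all_Rank thmKerZ thmGrow all_Pick
  thmCut thmRev thmJoin all_Thread

theorem all_Step : StStep :=
  thmStep all_TightR thmRelSys all_Typ all_SP thmClean thmContain all_End

theorem all_Final1 : StFinal1 := thmFinal1 all_Step thmNoLeaf thmNum1

/-- The classification of all graphs close to forests. -/
theorem all_combined : ∃ C : ℕ, 2 ≤ C ∧
    ∀ (V : Type) [Fintype V] (G : SimpleGraph V) (b : ℕ), 1 ≤ b →
    (∃ S : Finset (Sym2 V), S.card ≤ b ∧ (G.deleteEdges (S : Set (Sym2 V))).IsAcyclic) →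
    C * b ^ C ≤ numEdges G →
    (ForcesRainbow G ↔ ¬ ((∃ r : ℕ, numEdges G + 1 = 2 ^ r) ∧
      ∃ e₀ ∈ G.edgeSet, ∀ v, Even {u | G.Adj v u ∧ s(v, u) ≠ e₀}.ncard)) :=
  combine Leaf.all_Final all_Final1

end Pool.Agent.Lib.MP_b1acb3_co.One
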