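import Pool.Agent.Lib.MP_b1acb3_co.One.Stmts

/-!
Without vertices of degree one all edges lie in the core.
-/

namespace Pool.Agent.Lib.MP_b1acb3_co.One

open Finset Uni Leaf

namespace NoLeaf

/-- Vertices outside the core are isolated. -/
theorem isolated {V : Type} [Fintype V] (G : SimpleGraph V) (W : Finset V)
    (hW : TreeLikeOutside G W) (hG : ¬ ∃ v, {u | G.Adj v u}.ncard = 1) :
    ∀ v, v ∉ W → ∀ u, ¬ G.Adj v u := by
  classical
  obtain ⟨X, hX, hmin⟩ := Finset.exists_min_image
    (univ.filter fun X : Finset V => W ⊆ X ∧ ∀ v, v ∉ X → ∀ u, ¬ G.Adj v u) Finset.card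
    ⟨univ, by simp⟩
  simp only [mem_filter, mem_univ, true_and] at hX hmin
  obtain ⟨hWX, hiso⟩ := hX
  by_cases hXW : W = X
  · rw [hXW]
    exact hiso
  · exfalso
    obtain ⟨x, hxX, hxW, hx⟩ := hW X (Finset.ssubset_iff_subset_ne.2 ⟨hWX, hXW⟩)
    have hset : {y | y ∈ X ∧ G.Adj x y} = {u | G.Adj x u} := by
      ext y
      simp only [Set.mem_setOf_eq]
      refine ⟨fun h => h.2, fun h => ⟨?_, h⟩⟩
      by_contra hy
      exact hiso y hy x h.symm
    rw [hset] at hx
    have h1 : {u | G.Adj x u}.ncard ≠ 1 := fun h => hG ⟨x, h⟩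
    have h0 : {u | G.Adj x u}.ncard = 0 := by omega
    rw [Set.ncard_eq_zero (Set.toFinite _)] at h0
    have hx0 : ∀ u, ¬ G.Adj x u := by
      intro u hu
      have : u ∈ {u | G.Adj x u} := hu
      rw [h0] at this
      exact this
    have h2 := hmin (X.erase x) ⟨by
        intro w hw
        rw [mem_erase]
        exact ⟨fun h => hxW (h ▸ hw), hWX hw⟩, by
        intro v hv u
        by_cases hvx : v = x
        · rw [hvx]
          exact hx0 u
        · exact hiso v (fun h => hv (mem_erase.2 ⟨hvx, h⟩)) u⟩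
    rw [card_erase_of_mem hxX] at h2
    have := Finset.card_pos.2 ⟨x, hxX⟩
    omega

end NoLeaf

theorem thmNoLeaf : StNoLeaf := by
  intro V _ G W hW hG
  have hiso := NoLeaf.isolated G W hW hG
  unfold numEdgesIn numEdges
  congr 1
  ext e
  simp only [Set.mem_sep_iff, and_iff_left_iff_imp]
  intro he x hx
  by_contra hxW
  induction e with
  | _ a b =>
    rw [SimpleGraph.mem_edgeSet] at he
    rcases Sym2.mem_iff.1 hx with rfl | rfl
    · exact hiso _ hxW _ he
    · exact hiso _ hxW _ he.symm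

end Pool.Agent.Lib.MP_b1acb3_co.One
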