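import Pool.Agent.Lib.MP_b1acb3_co.One.Basic

/-!
Statements of the modules of the classification of graphs without a leaf.
-/

namespace Pool.Agent.Lib.MP_b1acb3_co.One

open Finset Uni Leaf

/-! ### Relations and embeddings -/

/-- (PathR) A rainbow path avoiding a given small set. -/
def StPathR : Prop := ∀ (K v : ℕ) (ϑ : ℝ), 0 < ϑ → ∃ n₀ : ℕ, ∀ n : ℕ, n₀ ≤ n →
  ∀ (c : Sym2 (Fin n) → Fin K) (Q : Finset (Fin K)) (x y : Fin n), y ∈ RS c ϑ x Q →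
  ∀ Z : Finset (Fin n), Z.card ≤ v → ∃ z : ℕ → Fin n, z 0 = x ∧ z Q.card = y ∧
    (∀ i, i < Q.card → c s(z i, z (i + 1)) ∈ Q) ∧
    (∀ i j, i < Q.card → j < Q.card → c s(z i, z (i + 1)) = c s(z j, z (j + 1)) → i = j) ∧
    (∀ i, 1 ≤ i → i < Q.card → z i ∉ Z ∧ z i ≠ x ∧ z i ≠ y) ∧
    (∀ i j, 1 ≤ i → i < Q.card → 1 ≤ j → j < Q.card → z i = z j → i = j)

/-- (LastR) The last ear. -/
def StLastR : Prop := ∀ (V : Type) [Fintype V] (G : SimpleGraph V) (ϑ : ℝ), 0 < ϑ →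
  ∃ δ : ℝ, 0 < δ ∧ ∃ n₀ : ℕ, ∀ n : ℕ, n₀ ≤ n →
  ∀ (c : Sym2 (Fin n) → Fin (numEdges G + 1))
    (B : Fin (numEdges G + 1) → Matrix (Fin n) (Fin n) ℝ), Env c B δ →
  ∀ (W W₂ : Finset V) (k m : ℕ) (P : ℕ → V), 1 ≤ k → TreeLikeOutside G W →
  Cyc.Ears G W W₂ 1 k (fun _ => m) (fun _ => P) →
  ∀ f : V → Fin n, Function.Injective f →
  Set.InjOn (fun e : Sym2 V => c (e.map f)) (edgesIn G W₂ : Set (Sym2 V)) →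
  ∀ Q : Finset (Fin (numEdges G + 1)), Q.card = m + 1 →
  (∀ e ∈ edgesIn G W₂, c (e.map f) ∉ Q) → f (P (m + 1)) ∈ RS c ϑ (f (P 0)) Q →
  HasRainbowCopy G c

/-- (Ears3) Embedding of the ears with forbidden colours, uniform version. -/
def StEars3 : Prop := ∀ (V : Type) [Fintype V] (G : SimpleGraph V) (k d K : ℕ), 0 < K →
  16 * K ^ 2 ≤ k.choose d → ∃ δ : ℝ, 0 < δ ∧ ∃ n₀ : ℕ, ∀ n : ℕ, n₀ ≤ n →
  ∀ (c : Sym2 (Fin n) → Fin K) (B : Fin K → Matrix (Fin n) (Fin n) ℝ), Env c B δ →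
  ∀ (W₂ W₁ : Finset V) (q : ℕ) (m : Fin q → ℕ) (P : Fin q → ℕ → V),
  Cyc.Ears G W₂ W₁ q k m P → ∀ f₀ : V → Fin n, Function.Injective f₀ →
  Set.InjOn (fun e : Sym2 V => c (e.map f₀)) (edgesIn G W₁ : Set (Sym2 V)) →
  ∀ F : Finset (Fin K), (∀ e ∈ edgesIn G W₁, c (e.map f₀) ∈ F) →
  2 * k * (F.card + q * k) ≤ K → F.card + ∑ i, (m i + 1) + q * d ≤ K →
  ∃ (f : V → Fin n) (w : Fin q → List (Fin K)), Function.Injective f ∧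
    (∀ v ∈ W₁, f v = f₀ v) ∧
    Set.InjOn (fun e : Sym2 V => c (e.map f)) (edgesIn G W₂ : Set (Sym2 V)) ∧
    (∀ e ∈ edgesIn G W₂, e ∉ edgesIn G W₁ → c (e.map f) ∉ F) ∧
    (∀ i, (w i).length = m i + 1) ∧
    (∀ i, 1 / 2 ≤ (n : ℝ) * Cyc.wker B (w i) (f (P i 0)) (f (P i (m i + 1)))) ∧
    ∀ (i : Fin q) (j : ℕ) (hj : j < (w i).length), c s(f (P i j), f (P i (j + 1))) = (w i)[j]

/-- (TightR) No rainbow copy. -/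
def StTightR : Prop := ∀ (V : Type) [Fintype V] (G : SimpleGraph V) (W W₁ : Finset V)
  (q k d d' N : ℕ) (m : Fin (q + 1) → ℕ) (P : Fin (q + 1) → ℕ → V) (i : Fin (q + 1)) (ϑ : ℝ),
  0 < ϑ → TreeLikeOutside G W → Cyc.Ears G W W₁ (q + 1) k m P →
  16 * (numEdges G + 1) ^ 2 ≤ k.choose d' → numEdgesIn G W + d = numEdges G + 1 →
  16 * numEdgesIn G W₁ ^ 2 ≤ numEdges G + 1 → 16 * numEdgesIn G W₁ * N ≤ numEdges G + 1 →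
  2 * k * (numEdgesIn G W₁ + N + q * k) ≤ numEdges G + 1 → N + q * d' ≤ m i + 1 + d →
  ∃ δ : ℝ, 0 < δ ∧ ∃ n₀ : ℕ, ∀ n : ℕ, n₀ ≤ n →
  ∀ (c : Sym2 (Fin n) → Fin (numEdges G + 1))
    (B : Fin (numEdges G + 1) → Matrix (Fin n) (Fin n) ℝ), Env c B δ → ¬ HasRainbowCopy G c →
  Tight (fun x => RS c ϑ x) (2 * ((numEdges G + 1 : ℕ) : ℝ) * ϑ) (m i + 1) d
    (numEdgesIn G W₁) N

/-- (RelSys) The relations form a system. -/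
def StRelSys : Prop := ∀ (K : ℕ) (ϑ : ℝ), 0 < K → 0 < ϑ → ∃ δ : ℝ, 0 < δ ∧ ∃ n₀ : ℕ,
  ∀ n : ℕ, n₀ ≤ n → ∀ (c : Sym2 (Fin n) → Fin K) (B : Fin K → Matrix (Fin n) (Fin n) ℝ),
  Env c B δ → RelSys (Cyc.nrm B) (fun x => RS c ϑ x) (2 * K * ϑ)

/-! ### Most vertices reach few vertices with most sets of colours -/

/-- (Loss1) Lower bound for the loss. -/
def StLoss1 : Prop := ∀ (n K : ℕ) (P : Fin K → Matrix (Fin n) (Fin n) ℝ)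
  (R : Finset (Fin K) → Finset (Fin n)) (θ : ℝ) (d : ℕ), Sys P R θ d →
  ∀ Q : Finset (Fin K), 2 ≤ Q.card →
  K * mu (R Q) * dfc (rem R 1) Q - dec R Q - 2 * K ^ 3 * θ ≤ loss (rem R 1) Q

/-- (Beta) Mean of the relative decrease. -/
def StBeta : Prop := ∀ (n K : ℕ) (P : Fin K → Matrix (Fin n) (Fin n) ℝ)
  (R : Finset (Fin K) → Finset (Fin n)) (θ : ℝ) (d : ℕ), Sys P R θ d → 2 * K ^ 2 * θ ≤ 1 →
  ∀ i : ℕ, 2 ≤ i → i ≤ K →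
  EQ K i (fun Q => dec R Q / (K * mu (R Q))) ≤ i * (gE R i - gE R (i - 1))

/-- (TypX) Alternative for one vertex. -/
def StTypX : Prop := ∀ (n K : ℕ) (P : Fin K → Matrix (Fin n) (Fin n) ℝ)
  (R : Finset (Fin K) → Finset (Fin n)) (θ : ℝ) (N : ℕ), Sys P R θ (K + 1) → Low R θ 1 N →
  100 * K ^ 6 * θ ≤ 1 → 100 ≤ N → 4 * N ≤ K → ∃ i : ℕ, N ≤ 2 * i ∧ i + 1 ≤ N ∧
  (1 / 4 * (K.choose i : ℝ) ≤
      num univ i (fun Q => K * mu (R Q) ≤ 180 * K * (Real.log K + 1) / N) ∨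
    2 / 5 * (K.choose i : ℝ) ≤
      num univ i (fun Q => dfc (rem R 1) Q < 90 * (Real.log K + 1)))

/-- (TypY) One vertex from which a positive proportion of the sets of colours is good. -/
def StTypY : Prop := ∀ (n K : ℕ) (P : Fin K → Matrix (Fin n) (Fin n) ℝ)
  (R : Fin n → Finset (Fin K) → Finset (Fin n)) (θ : ℝ) (l h N : ℕ),
  (∀ x, Sys P (R x) θ (K + 1)) → Tight R θ l 1 h N → 100 * K ^ 6 * θ ≤ 1 → 200 ≤ N →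
  4 * N ≤ K → N < l → 10 * h * N ≤ K → 0 < n → ∃ (x : Fin n) (i : ℕ), N ≤ 4 * i + 2 ∧ i < N ∧
    1 / 5 * (K.choose i : ℝ) ≤
      num univ i (Good (R x) (400 * K * (Real.log K + 1) / N + 2))

/-- (Trans) From one vertex to its neighbours. -/
def StTrans : Prop := ∀ (n K : ℕ) (P : Fin K → Matrix (Fin n) (Fin n) ℝ)
  (R : Fin n → Finset (Fin K) → Finset (Fin n)) (θ : ℝ), RelSys P R θ → 0 < n →
  ∀ x : Fin n, ∃ Bad : Finset (Fin n), mu Bad ≤ K ^ 2 * 2 ^ K * θ ∧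
    ∀ (c : Fin K) (p : Fin n), p ∈ R x {c} → p ∉ Bad → ∀ Q : Finset (Fin K), c ∉ Q →
      K * mu (R p Q) ≤ K * mu (R x (insert c Q)) + 1

/-- (Hyper) Most elements lie in many sets of a dense family. -/
def StHyper : Prop := ∀ (K i : ℕ) (p : Finset (Fin K) → Prop) (ρ : ℝ), 0 < ρ → 1 ≤ i → i ≤ K →
  ρ * (K.choose i : ℝ) ≤ num univ i p → ∃ S : Finset (Fin K), (S.card : ℝ) * i * ρ ≤ 4 * K ∧
    ∀ c, c ∉ S → ρ / 2 * ((K - 1).choose (i - 1) : ℝ) ≤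
      num (univ.erase c) (i - 1) (fun Q => p (insert c Q))

/-- (Forb) Decreasing properties and forbidden colours. -/
def StForb : Prop := ∀ (K i j : ℕ) (p : Finset (Fin K) → Prop) (ρ : ℝ) (F : Finset (Fin K)),
  (∀ Q Q' : Finset (Fin K), Q ⊆ Q' → p Q' → p Q) → 0 < ρ → 2 * j ≤ i → i ≤ K →
  4 * (F.card : ℝ) ≤ ρ * K → ρ * (K.choose i : ℝ) ≤ num univ i p →
  ρ / 2 * (Fᶜ.card.choose j : ℝ) ≤ num Fᶜ j p

/-- (Typ) Most vertices are typical. -/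
def StTyp : Prop := ∀ (n K : ℕ) (P : Fin K → Matrix (Fin n) (Fin n) ℝ)
  (R : Fin n → Finset (Fin K) → Finset (Fin n)) (θ : ℝ) (l h N Y : ℕ), RelSys P R θ →
  Tight R θ l 1 h N → 100 * K ^ 6 * θ ≤ 1 → 1000 * K ^ 2 * 2 ^ K * θ ≤ 1 → 100000 ≤ N →
  4 * N ≤ K → N < l → 10 * h * N ≤ K →
  400 * (K : ℝ) * (Real.log K + 1) + 3 * N ≤ (Y : ℝ) * N → 1000 ≤ n →
  ∃ i : ℕ, N ≤ 16 * i ∧ 2 * i ≤ N ∧ ∃ Bad : Finset (Fin n), 50 * Bad.card ≤ n ∧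
    ∀ p, p ∉ Bad → ∀ F : Finset (Fin K), 100 * F.card ≤ K →
      1 / 50 * (Fᶜ.card.choose i : ℝ) ≤ num Fᶜ i (Good (R p) Y)

/-! ### The structure seen from a typical vertex -/

/-- (Canon) Canonical optimal data. -/
def StCanon : Prop := ∀ (n K Y : ℕ) (R : Finset (Fin K) → Finset (Fin n)) (ν : ℝ),
  (∀ A : Finset (Fin K), A.Nonempty → ν < mu (R A)) →
  ∃ dat : Finset (Fin K) → Finset (Fin K) × Finset (Finset (Fin K)) × Finset (Fin K),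
    (∀ S : Finset (Fin K), S.Nonempty →
      Opt R Y ν S (dat S).1 (dat S).2.1 (dat S).2.2) ∧
    ∀ S S' : Finset (Fin K), S.Nonempty → S ⊆ S' → supp (dat S') ⊆ S → dat S = dat S'

/-- (Select) Selection of a set such that nearly all extensions by two elements have the same
data. -/
def StSelect : Prop := ∀ (K : ℕ) (α : Type) (S : Finset (Fin K)) (i w M : ℕ)
  (good : Finset (Fin K) → Prop) (dat : Finset (Fin K) → α) (sup : α → Finset (Fin K)),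
  (∀ Q Q' : Finset (Fin K), Q ⊆ Q' → good Q' → good Q) →
  (∀ Q : Finset (Fin K), Q.Nonempty → good Q → sup (dat Q) ⊆ Q ∧ (sup (dat Q)).card ≤ w) →
  (∀ Q Q' : Finset (Fin K), Q.Nonempty → Q ⊆ Q' → sup (dat Q') ⊆ Q → dat Q = dat Q') →
  8 ≤ i → 4 * i ≤ S.card → 2 ≤ M → 1 / 50 * (S.card.choose i : ℝ) ≤ num S i good →
  ∃ E Z₀ : Finset (Fin K), E ⊆ S ∧ i ≤ 2 * E.card ∧ E.card ≤ i ∧ good E ∧ Z₀ ⊆ S ∧
    i * Z₀.card ≤ 400 * M * S.card * (w + 1) ∧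
    ∀ c ∈ S, c ∉ E → c ∉ Z₀ → good (insert c E) ∧ dat (insert c E) = dat E ∧
      ∃ H : Finset (Fin K), M * H.card ≤ S.card ∧ ∀ c' ∈ S, c' ∉ E → c' ≠ c → c' ∉ H →
        good (insert c' (insert c E)) ∧ dat (insert c' (insert c E)) = dat E

/-- (Size) Optimal data are small. -/
def StSize : Prop := ∀ (n K Y : ℕ) (P : Fin K → Matrix (Fin n) (Fin n) ℝ)
  (R : Finset (Fin K) → Finset (Fin n)) (θ : ℝ) (S A : Finset (Fin K))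
  (V : Finset (Finset (Fin K))) (D : Finset (Fin K)), Sys P R θ (K + 1) → 1000 ≤ Y →
  8 * (Nat.log 2 K + 2) ≤ Y → Y ≤ K → 0 < θ → θ * K ^ 10 ≤ 1 → Opt R Y (100 * θ) S A V D →
  Good R Y S →
  (A ∪ un V ∪ D).card ≤ Y ^ 18 ∧ V.card + (un V).card ≤ Y ^ 3 ∧ D.card ≤ Nat.log 2 K + 1

/-- (NearInt) Nearly integral densities. -/
def StNearInt : Prop := ∀ (n K : ℕ) (P : Fin K → Matrix (Fin n) (Fin n) ℝ), Markov P →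
  ∀ (T : Finset (Fin n)) (C : Finset (Fin K)) (S : Fin K → Finset (Fin n)) (a : ℝ), 0 ≤ a →
  (∀ c ∈ C, K * avg (fun y => |app P c T y - if y ∈ S c then 1 else 0|) ≤ a) →
  ∃ N : ℕ, |K * mu T - N| ≤ a + Cᶜ.card * mu T

/-- (Shift) The colours act as translations on the intersections `Tv`. -/
def StShift : Prop := ∀ (n K Y b : ℕ) (P : Fin K → Matrix (Fin n) (Fin n) ℝ)
  (R : Finset (Fin K) → Finset (Fin n)) (θ : ℝ), Sys P R θ (K + 1) → 1 ≤ Y →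
  ∀ (S A : Finset (Fin K)) (V : Finset (Finset (Fin K))) (c : Fin K), A ⊆ S → A.Nonempty →
  (∀ A' ⊆ S, A'.Nonempty → scA R Y A' ≤ scA R Y A) → V.Nonempty → V.card ≤ b →
  (∀ v ∈ V, v ⊆ S \ A ∧ v.card ≤ b) → c ∈ S → c ∉ A → c ∉ un V →
  K * avg (fun y => |app P c (Tv R A V) y - if y ∈ Tv R A (sh V {c}) then 1 else 0|) ≤
    b * (b + 1) / (Y : ℝ) ^ 16 + 3 * (b + 1) * K ^ 2 * θ

/-- (Local) The local structure. -/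
def StLocal : Prop := ∀ (n K Y : ℕ) (P : Fin K → Matrix (Fin n) (Fin n) ℝ)
  (R : Finset (Fin K) → Finset (Fin n)) (θ : ℝ) (S A : Finset (Fin K))
  (V : Finset (Finset (Fin K))) (D C' : Finset (Fin K)), Sys P R θ (K + 1) → 1000 ≤ Y →
  8 * (Nat.log 2 K + 2) ≤ Y → Y ^ 60 ≤ K → 0 < θ → θ * K ^ 10 ≤ 1 →
  Opt R Y (100 * θ) S A V D → Good R Y S →
  (∀ c' ∈ C', c' ∈ S ∨ Opt R Y (100 * θ) (insert c' S) A V D) → C'ᶜ.card * Y ^ 10 ≤ K →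
  (A ∪ un V ∪ D).card ≤ Y ^ 18 → V.card + (un V).card ≤ Y ^ 3 →
  ∃ m : ℕ, 1 ≤ m ∧
    Atoms P (fun u => Tv R A (sh V u)) θ (100 * θ) (1 / (Y : ℝ) ^ 4) m Y (S \ (A ∪ un V)) D

/-- (Tau) Labels of the colours. -/
def StTau : Prop := ∀ (n K : ℕ) (P : Fin K → Matrix (Fin n) (Fin n) ℝ)
  (T : Finset (Fin K) → Finset (Fin n)) (θ ν ε : ℝ) (m s : ℕ) (C Cf D : Finset (Fin K)),
  Markov P → 0 ≤ θ → K * θ ≤ 1 / 1000 → 0 ≤ ν → K * ν ≤ 1 / 1000 → 0 ≤ ε → ε ≤ 1 / 1000 →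
  1 ≤ m → 4 * (D.card + 4) ≤ s → D ⊆ C → Disjoint Cf C → Cf.Nonempty →
  (∀ c ∈ Cf, Atoms P T θ ν ε m s (insert c C) D) →
  ∃ τ : Fin K → Fin D.card → ZMod 2, Loc P T θ ν ε m s C Cf D τ

/-- (Cnt) At most `m` colours have a given label. -/
def StCnt : Prop := ∀ (n K : ℕ) (P : Fin K → Matrix (Fin n) (Fin n) ℝ)
  (T : Finset (Fin K) → Finset (Fin n)) (θ ν ε : ℝ) (m s : ℕ) (C Cf D : Finset (Fin K))
  (τ : Fin K → Fin D.card → ZMod 2), Loc P T θ ν ε m s C Cf D τ →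
  ∀ t, ((C \ D ∪ Cf).filter (fun a => τ a = t)).card ≤ m

/-- (Cov) Every vertex is covered by many sets. -/
def StCov : Prop := ∀ (n K : ℕ) (P : Fin K → Matrix (Fin n) (Fin n) ℝ)
  (T : Finset (Fin K) → Finset (Fin n)) (θ ν ε : ℝ) (m s : ℕ) (C Cf D : Finset (Fin K))
  (τ : Fin K → Fin D.card → ZMod 2), Loc P T θ ν ε m s C Cf D τ →
  (∀ t, ((C \ D ∪ Cf).filter (fun a => τ a = t)).card ≤ m) →
  ((C \ D ∪ Cf)ᶜ.card : ℝ) + K * ε + K * 4 ^ D.card * ν + 3 ≤ (C \ D).card →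
  K * 2 ^ D.card * θ < 1 →
  ∀ (p : Fin n) (c₀ : Fin K), ∃ a ∈ C \ D, a ≠ c₀ ∧ ∃ u ⊆ D, p ∈ T (insert a u)

/-- (Lamb) Labels of the vertices. -/
def StLamb : Prop := ∀ (n K : ℕ) (P : Fin K → Matrix (Fin n) (Fin n) ℝ)
  (T : Finset (Fin K) → Finset (Fin n)) (θ ν ε : ℝ) (m s : ℕ) (C Cf D : Finset (Fin K))
  (τ : Fin K → Fin D.card → ZMod 2), Loc P T θ ν ε m s C Cf D τ →
  (∀ (p : Fin n) (c₀ : Fin K), ∃ a ∈ C \ D, a ≠ c₀ ∧ ∃ u ⊆ D, p ∈ T (insert a u)) →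
  ∃ lam : Fin n → Fin D.card → ZMod 2, ∀ a ∈ C \ D ∪ Cf,
    avg (fun x => ∑ y ∈ univ.filter (fun y => lam y ≠ lam x + τ a), P a x y) ≤
      4 ^ K * (2 * ν + θ)

/-- (Rich) The labels of the colours generate everything. -/
def StRich : Prop := ∀ (n K : ℕ) (P : Fin K → Matrix (Fin n) (Fin n) ℝ)
  (T : Finset (Fin K) → Finset (Fin n)) (θ ν ε : ℝ) (m s : ℕ) (C Cf D : Finset (Fin K))
  (τ : Fin K → Fin D.card → ZMod 2), Loc P T θ ν ε m s C Cf D τ →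
  (∀ t, ((C \ D ∪ Cf).filter (fun a => τ a = t)).card ≤ m) →
  8 * (C \ D ∪ Cf)ᶜ.card ≤ K → 100 * (4 : ℝ) ^ D.card * ν ≤ 1 →
  ∀ t : Fin D.card → ZMod 2, ∃ Q ⊆ C \ D ∪ Cf, ∑ a ∈ Q, τ a = t

/-- (SP) The structure seen from a typical vertex. -/
def StSP : Prop := ∀ (n K Y i : ℕ) (P : Fin K → Matrix (Fin n) (Fin n) ℝ)
  (R : Finset (Fin K) → Finset (Fin n)) (θ : ℝ) (F : Finset (Fin K)), Sys P R θ (K + 1) →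
  1000 ≤ Y → 8 * (Nat.log 2 K + 2) ≤ Y → Y ^ 60 ≤ K → 0 < θ → θ * K ^ 10 ≤ 1 →
  F.card * (2 * Y ^ 11) ≤ K → K ≤ Y ^ 2 * i → 4 * i ≤ Fᶜ.card →
  1 / 50 * (Fᶜ.card.choose i : ℝ) ≤ num Fᶜ i (Good R Y) →
  ∃ (r : ℕ) (Z : Finset (Fin K)) (τ : Fin K → Fin r → ZMod 2) (lam : Fin n → Fin r → ZMod 2)
    (Q : Finset (Fin K)), 2 ^ r ≤ 2 * K ∧ F ⊆ Z ∧ (Z \ F).card ≤ Y ^ 33 ∧
    Ex P Z τ lam (1000 * 4 ^ K * θ) ∧ Q.Nonempty ∧ Disjoint Q F ∧ Q.card ≤ Y ^ 18 ∧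
    49 / 50 ≤ 2 ^ r * mu (R Q)

/-! ### Labelled colourings -/

/-- (Clean) Removing atypical vertices. -/
def StClean : Prop := ∀ (K n' : ℕ) (ξ ε : ℝ), 0 < K → 0 < ξ → 0 < ε → ∃ ζ : ℝ, 0 < ζ ∧
  ∃ δ : ℝ, 0 < δ ∧ ∃ n₀ : ℕ, ∀ n : ℕ, n₀ ≤ n → ∀ (c : Sym2 (Fin n) → Fin K)
  (B : Fin K → Matrix (Fin n) (Fin n) ℝ), Env c B δ → ∀ (r : ℕ) (Z : Finset (Fin K))
  (τ : Fin K → Fin r → ZMod 2) (lam : Fin n → Fin r → ZMod 2), Ex (Cyc.nrm B) Z τ lam ζ →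
  ∃ (n₁ : ℕ) (g : Fin n₁ → Fin n), n' ≤ n₁ ∧ Function.Injective g ∧
    IsBalanced ε (fun e : Sym2 (Fin n₁) => c (e.map g)) ∧
    Lab (fun e : Sym2 (Fin n₁) => c (e.map g)) Z τ (fun y => lam (g y)) ξ

/-- (Contain) Sets of colours with labels lead to one class. -/
def StContain : Prop := ∀ (K : ℕ) (ϑ κ : ℝ), 0 < K → 0 < ϑ → 0 < κ → ∃ ξ : ℝ, 0 < ξ ∧
  ∀ (n r : ℕ) (c : Sym2 (Fin n) → Fin K) (Z : Finset (Fin K)) (τ : Fin K → Fin r → ZMod 2)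
  (lam : Fin n → Fin r → ZMod 2), 0 < n → Lab c Z τ lam ξ →
  ∀ (x : Fin n) (Q : Finset (Fin K)), Disjoint Q Z →
    mu (RS c ϑ x Q \ cls lam (lam x + ∑ b ∈ Q, τ b)) ≤ κ

/-- (ClassN) All classes have nearly the same size. -/
def StClassN : Prop := ∀ (K : ℕ) (κ : ℝ), 0 < K → 0 < κ → ∃ ξ : ℝ, 0 < ξ ∧ ∃ δ : ℝ, 0 < δ ∧
  ∃ n₀ : ℕ, ∀ n : ℕ, n₀ ≤ n → ∀ (c : Sym2 (Fin n) → Fin K)
  (B : Fin K → Matrix (Fin n) (Fin n) ℝ), Env c B δ → ∀ (r : ℕ) (Z : Finset (Fin K))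
  (τ : Fin K → Fin r → ZMod 2) (lam : Fin n → Fin r → ZMod 2), Lab c Z τ lam ξ →
  ∀ t, |mu (cls lam t) - 1 / 2 ^ r| ≤ κ

/-- (Rank) Bound for the rank. -/
def StRank : Prop := ∀ K : ℕ, 0 < K → ∃ ξ : ℝ, 0 < ξ ∧ ∃ δ : ℝ, 0 < δ ∧
  ∃ n₀ : ℕ, ∀ n : ℕ, n₀ ≤ n → ∀ (c : Sym2 (Fin n) → Fin K)
  (B : Fin K → Matrix (Fin n) (Fin n) ℝ), Env c B δ → ∀ (r : ℕ) (Z : Finset (Fin K))
  (τ : Fin K → Fin r → ZMod 2) (lam : Fin n → Fin r → ZMod 2), Lab c Z τ lam ξ → Z.card < K →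
  2 ^ r ≤ K

/-- (KerZ) The label of the end of a word. -/
def StKerZ : Prop := ∀ K : ℕ, 0 < K → ∃ ξ : ℝ, 0 < ξ ∧ ∃ δ : ℝ, 0 < δ ∧
  ∃ n₀ : ℕ, ∀ n : ℕ, n₀ ≤ n → ∀ (c : Sym2 (Fin n) → Fin K)
  (B : Fin K → Matrix (Fin n) (Fin n) ℝ), Env c B δ → ∀ (r : ℕ) (Z : Finset (Fin K))
  (τ : Fin K → Fin r → ZMod 2) (lam : Fin n → Fin r → ZMod 2), Lab c Z τ lam ξ →
  ∀ (w : List (Fin K)) (x y : Fin n), (∀ a ∈ w, a ∉ Z) → 2 ≤ w.length → w.length ≤ K →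
  1 / 2 ≤ (n : ℝ) * Cyc.wker B w x y → lam y = lam x + (w.map τ).sum

/-- (Grow) Adding colours with labels to a set that reaches a part of a class. -/
def StGrow : Prop := ∀ (K : ℕ) (κ : ℝ), 0 < K → 0 < κ → ∃ ϑ₀ : ℝ, 0 < ϑ₀ ∧
  ∀ ϑ : ℝ, 0 < ϑ → ϑ ≤ ϑ₀ → ∃ ξ : ℝ, 0 < ξ ∧ ∃ δ : ℝ, 0 < δ ∧
  ∃ n₀ : ℕ, ∀ n : ℕ, n₀ ≤ n → ∀ (c : Sym2 (Fin n) → Fin K)
  (B : Fin K → Matrix (Fin n) (Fin n) ℝ), Env c B δ → ∀ (r : ℕ) (Z : Finset (Fin K))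
  (τ : Fin K → Fin r → ZMod 2) (lam : Fin n → Fin r → ZMod 2), Lab c Z τ lam ξ →
  ∀ (x : Fin n) (Q Q' : Finset (Fin K)) (t : Fin r → ZMod 2), Disjoint Q Q' → Disjoint Q' Z →
    mu (RS c ϑ x Q ∩ cls lam t) ≤ mu (RS c ϑ x (Q ∪ Q') ∩ cls lam (t + ∑ b ∈ Q', τ b)) + κ

/-- (Hall) Assignment of labels to the exceptional colours. -/
def StHall : Prop := ∀ (K r : ℕ) (Z : Finset (Fin K)) (τ : Fin K → Fin r → ZMod 2)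
  (M : Fin K → (Fin r → ZMod 2) → ℝ) (κ κ' : ℝ), 2 ^ r ≤ K → 0 ≤ κ → 0 ≤ κ' →
  4 * K * κ' ≤ 1 → 4 * K ^ 3 * κ ≤ 1 → (∀ a t, 0 ≤ M a t) → (∀ a ∈ Z, ∑ t, M a t = 1) →
  (∀ t, |∑ a ∈ Z, M a t - ((K : ℝ) / 2 ^ r - (Zᶜ.filter (fun a => τ a = t)).card)| ≤ κ') →
  ∀ s : Fin r → ZMod 2, ∃ t' : Fin K → Fin r → ZMod 2, (∀ a, a ∉ Z → t' a = τ a) ∧
    (∀ a ∈ Z, κ ≤ M a (t' a)) ∧ (∀ t, K / 2 ^ r ≤ (univ.filter (fun a => t' a = t)).card) ∧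
    (2 ^ r < K → 2 ≤ (univ.filter (fun a => t' a = s)).card)

/-- (Assign) Labels for all colours, realised by many edges. -/
def StAssign : Prop := ∀ K : ℕ, 0 < K → ∃ κ : ℝ, 0 < κ ∧ ∃ ξ : ℝ, 0 < ξ ∧ ∃ δ : ℝ, 0 < δ ∧
  ∃ n₀ : ℕ, ∀ n : ℕ, n₀ ≤ n → ∀ (c : Sym2 (Fin n) → Fin K)
  (B : Fin K → Matrix (Fin n) (Fin n) ℝ), Env c B δ → ∀ (r : ℕ) (Z : Finset (Fin K))
  (τ : Fin K → Fin r → ZMod 2) (lam : Fin n → Fin r → ZMod 2), Lab c Z τ lam ξ → 2 ^ r ≤ K →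
  ∀ s : Fin r → ZMod 2, ∃ t' : Fin K → Fin r → ZMod 2, (∀ a, a ∉ Z → t' a = τ a) ∧
    (∀ a, κ * (n : ℝ) ^ 2 ≤ cnt c lam a (t' a)) ∧
    (∀ t, K / 2 ^ r ≤ (univ.filter (fun a => t' a = t)).card) ∧
    (2 ^ r < K → 2 ≤ (univ.filter (fun a => t' a = s)).card)

/-! ### Embedding of the small part -/

/-- (CoreR) Random embedding of the small part. -/
def StCoreR : Prop := ∀ (V : Type) [Fintype V] (G : SimpleGraph V) (W O : Finset V) (K N : ℕ),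
  0 < K → 16 * numEdgesIn G W ^ 2 ≤ K → 16 * numEdgesIn G W * N ≤ K → ∃ ξ : ℝ, 0 < ξ ∧
  ∃ n₀ : ℕ, ∀ n : ℕ, n₀ ≤ n → ∀ c : Sym2 (Fin n) → Fin K,
  (∀ i k, (colourDegree c i k : ℝ) ≤ 2 * ((n : ℝ) / K)) → ∀ (r : ℕ) (Z : Finset (Fin K))
  (τ : Fin K → Fin r → ZMod 2) (lam : Fin n → Fin r → ZMod 2), Lab c Z τ lam ξ →
  (∀ t, mu (cls lam t) ≤ 2 / 2 ^ r) → ∀ F : Finset (Fin K), Z ⊆ F → F.card ≤ N →
  ∀ σ : Fin r → ZMod 2, ∃ f : V → Fin n, Function.Injective f ∧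
    Set.InjOn (fun e : Sym2 V => c (e.map f)) (edgesIn G W : Set (Sym2 V)) ∧
    (∀ e ∈ edgesIn G W, c (e.map f) ∉ F) ∧
    (∀ u v, s(u, v) ∈ edgesIn G W → lam (f u) + lam (f v) = τ (c s(f u, f v))) ∧
    (O.Nonempty → 16 * numEdgesIn G W ≤ 2 ^ r →
      (∀ u v, s(u, v) ∈ edgesIn G W → ¬ ∀ x, x ∈ O ↔ x = u ∨ x = v) →
      ∀ u v, s(u, v) ∈ edgesIn G W → ∑ x ∈ O, lam (f x) + (lam (f u) + lam (f v)) ≠ σ)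

/-- (CoreP) Embedding of the small part with one prescribed edge. -/
def StCoreP : Prop := ∀ (V : Type) [Fintype V] (G : SimpleGraph V) (W : Finset V) (K N : ℕ),
  0 < K → 16 * numEdgesIn G W ^ 2 ≤ K → 16 * numEdgesIn G W * N ≤ K → ∃ ξ : ℝ, 0 < ξ ∧
  ∃ n₀ : ℕ, ∀ n : ℕ, n₀ ≤ n → ∀ c : Sym2 (Fin n) → Fin K,
  (∀ i k, (colourDegree c i k : ℝ) ≤ 2 * ((n : ℝ) / K)) → ∀ (r : ℕ) (Z : Finset (Fin K))
  (τ : Fin K → Fin r → ZMod 2) (lam : Fin n → Fin r → ZMod 2), Lab c Z τ lam ξ →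
  ∀ F : Finset (Fin K), Z ⊆ F → F.card ≤ N → ∀ u₀ v₀ : V, s(u₀, v₀) ∈ edgesIn G W →
  ∀ p q : Fin n, p ≠ q → lam p ≠ lam q → c s(p, q) ∈ F → ∃ f : V → Fin n,
    Function.Injective f ∧ f u₀ = p ∧ f v₀ = q ∧
    Set.InjOn (fun e : Sym2 V => c (e.map f)) (edgesIn G W : Set (Sym2 V)) ∧
    (∀ e ∈ edgesIn G W, e ≠ s(u₀, v₀) → c (e.map f) ∉ F) ∧
    ∀ u v, s(u, v) ∈ edgesIn G W → s(u, v) ≠ s(u₀, v₀) →
      lam (f u) + lam (f v) = τ (c s(f u, f v))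

/-- (Pick) Choice of the labels, of the unused colour and of the small part. -/
def StPick : Prop := ∀ (V : Type) [Fintype V] (G : SimpleGraph V) (W W₁ : Finset V)
  (q k z : ℕ) (m : Fin q → ℕ) (P : Fin q → ℕ → V), 1 ≤ k → Cyc.Ears G W W₁ q k m P →
  numEdgesIn G W = numEdges G → ¬ Exc G → 1000 * (numEdgesIn G W₁ + 1) ^ 2 ≤ numEdges G + 1 →
  16 * numEdgesIn G W₁ * (z + 2) ≤ numEdges G + 1 → z < numEdges G + 1 → ∃ κ : ℝ, 0 < κ ∧ ∃ ξ : ℝ, 0 < ξ ∧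
  ∃ δ : ℝ, 0 < δ ∧ ∃ n₀ : ℕ, ∀ n : ℕ, n₀ ≤ n →
  ∀ (c : Sym2 (Fin n) → Fin (numEdges G + 1))
    (B : Fin (numEdges G + 1) → Matrix (Fin n) (Fin n) ℝ), Env c B δ →
  ∀ (r : ℕ) (Z : Finset (Fin (numEdges G + 1))) (τ : Fin (numEdges G + 1) → Fin r → ZMod 2)
    (lam : Fin n → Fin r → ZMod 2), Z.card ≤ z → Lab c Z τ lam ξ →
  ∃ (t' : Fin (numEdges G + 1) → Fin r → ZMod 2) (j₀ : Fin (numEdges G + 1)) (f : V → Fin n),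
    (∀ a, a ∉ Z → t' a = τ a) ∧ (∀ a, κ * (n : ℝ) ^ 2 ≤ cnt c lam a (t' a)) ∧
    Function.Injective f ∧
    Set.InjOn (fun e : Sym2 V => c (e.map f)) (edgesIn G W₁ : Set (Sym2 V)) ∧
    (∀ u v, s(u, v) ∈ edgesIn G W₁ → lam (f u) + lam (f v) = t' (c s(f u, f v))) ∧
    (∀ e ∈ edgesIn G W₁, c (e.map f) ≠ j₀) ∧
    t' j₀ + ∑ v ∈ oddIn G W W₁, lam (f v) = ∑ a, t' a

/-! ### Cutting the last ear -/

/-- (Cut) A vertex (`s = 0`) or an edge (`s = 1`) of the last ear is moved to the small part. -/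
def StCut : Prop := ∀ (V : Type) [Fintype V] (G : SimpleGraph V) (W W₂ W₁ : Finset V)
  (q k : ℕ) (m : Fin q → ℕ) (P : Fin q → ℕ → V) (m' : ℕ) (P' : ℕ → V) (s : ℕ), 1 ≤ k →
  s ≤ 1 → 2 * k + 1 + s ≤ m' → Stt G W W₂ W₁ q k m P m' P' →
  ∃ (W₂' W₁' : Finset V) (m₁ : Fin (q + 1) → ℕ) (P₁ : Fin (q + 1) → ℕ → V),
    Stt G W W₂' W₁' (q + 1) k m₁ P₁ (m' - (k + 1 + s)) (fun j => P' (k + 1 + s + j)) ∧
    P' (k + 1) ∉ W₁ ∧ P' (k + 1 + s) ∉ W₁ ∧ W₁ ⊆ W₁' ∧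
    (∀ v ∈ W₁', v ∈ W₁ ∨ v = P' (k + 1) ∨ v = P' (k + 1 + s)) ∧
    (s = 0 → edgesIn G W₁' = edgesIn G W₁) ∧
    (s = 1 → P' (k + 1) ≠ P' (k + 2) ∧ s(P' (k + 1), P' (k + 2)) ∉ edgesIn G W₁ ∧
      ∀ e, e ∈ edgesIn G W₁' ↔ e ∈ edgesIn G W₁ ∨ e = s(P' (k + 1), P' (k + 2))) ∧
    oddIn G W W₁' = oddIn G W W₁

/-- (Rev) Reversal of the last ear. -/
def StRev : Prop := ∀ (V : Type) [Fintype V] (G : SimpleGraph V) (W W₂ W₁ : Finset V)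
  (q k : ℕ) (m : Fin q → ℕ) (P : Fin q → ℕ → V) (m' : ℕ) (P' : ℕ → V), 1 ≤ k →
  Stt G W W₂ W₁ q k m P m' P' → Stt G W W₂ W₁ q k m P m' (fun j => P' (m' + 1 - j))

/-- (Join) The last ear as one of the ears. -/
def StJoin : Prop := ∀ (V : Type) [Fintype V] (G : SimpleGraph V) (W W₂ W₁ : Finset V)
  (q k : ℕ) (m : Fin q → ℕ) (P : Fin q → ℕ → V) (m' : ℕ) (P' : ℕ → V), 1 ≤ k →
  Stt G W W₂ W₁ q k m P m' P' → ∃ (m₁ : Fin (q + 1) → ℕ) (P₁ : Fin (q + 1) → ℕ → V),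
    Cyc.Ears G W W₁ (q + 1) k m₁ P₁ ∧
    (∀ j : Fin q, m₁ j.castSucc = m j ∧ P₁ j.castSucc = P j) ∧
    m₁ (Fin.last q) = m' ∧ P₁ (Fin.last q) = P'

/-- (Thread) The colours of `Z'` are used for edges of the last ear. -/
def StThread : Prop := ∀ (V : Type) [Fintype V] (G : SimpleGraph V) (K z k : ℕ) (κ : ℝ),
  0 < κ → 1 ≤ k → ∃ n₀ : ℕ, ∀ n : ℕ, n₀ ≤ n → ∀ (c : Sym2 (Fin n) → Fin K) (r : ℕ)
  (lam : Fin n → Fin r → ZMod 2) (t' : Fin K → Fin r → ZMod 2),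
  (∀ a, κ * (n : ℝ) ^ 2 ≤ cnt c lam a (t' a)) →
  ∀ (W W₂ W₁ : Finset V) (q : ℕ) (m : Fin q → ℕ) (P : Fin q → ℕ → V) (m' : ℕ) (P' : ℕ → V),
  Stt G W W₂ W₁ q k m P m' P' → ∀ f : V → Fin n, Function.Injective f →
  Set.InjOn (fun e : Sym2 V => c (e.map f)) (edgesIn G W₁ : Set (Sym2 V)) →
  (∀ u v, s(u, v) ∈ edgesIn G W₁ → lam (f u) + lam (f v) = t' (c s(f u, f v))) →
  ∀ Z' : Finset (Fin K), Z'.card ≤ z → (∀ e ∈ edgesIn G W₁, c (e.map f) ∉ Z') →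
  Z'.card * (k + 2) + 2 * k + 2 ≤ m' →
  ∃ (W₂' W₁' : Finset V) (m₁ : Fin (q + Z'.card) → ℕ) (P₁ : Fin (q + Z'.card) → ℕ → V)
    (g : V → Fin n),
    Stt G W W₂' W₁' (q + Z'.card) k m₁ P₁ (m' - Z'.card * (k + 2))
      (fun j => P' (Z'.card * (k + 2) + j)) ∧
    Function.Injective g ∧
    Set.InjOn (fun e : Sym2 V => c (e.map g)) (edgesIn G W₁' : Set (Sym2 V)) ∧
    (∀ u v, s(u, v) ∈ edgesIn G W₁' → lam (g u) + lam (g v) = t' (c s(g u, g v))) ∧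
    (∀ a, (∃ e ∈ edgesIn G W₁', c (e.map g) = a) ↔
      (∃ e ∈ edgesIn G W₁, c (e.map f) = a) ∨ a ∈ Z') ∧
    W₁ ⊆ W₁' ∧ (∀ v ∈ W₁, g v = f v) ∧ oddIn G W W₁' = oddIn G W W₁

/-- (End) The end of the proof: rainbow copies in labelled colourings. -/
def StEnd : Prop := ∀ (V : Type) [Fintype V] (G : SimpleGraph V) (W W₁ : Finset V)
  (q k d' N Y : ℕ) (m : Fin (q + 1) → ℕ) (P : Fin (q + 1) → ℕ → V) (i : Fin (q + 1)) (r : ℕ),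
  TreeLikeOutside G W → 1 ≤ k → Cyc.Ears G W W₁ (q + 1) k m P →
  numEdgesIn G W = numEdges G → ¬ Exc G →
  Nums (numEdges G + 1) (numEdgesIn G W₁) q k d' N Y (m i + 1) → ∃ ϑ₀ : ℝ, 0 < ϑ₀ ∧
  ∀ ϑ : ℝ, 0 < ϑ → ϑ ≤ ϑ₀ → ∃ ξ : ℝ, 0 < ξ ∧ ∃ δ : ℝ, 0 < δ ∧
  ∃ n₀ : ℕ, ∀ n : ℕ, n₀ ≤ n → ∀ (c : Sym2 (Fin n) → Fin (numEdges G + 1))
    (B : Fin (numEdges G + 1) → Matrix (Fin n) (Fin n) ℝ), Env c B δ →
  ∀ (Z : Finset (Fin (numEdges G + 1))) (τ : Fin (numEdges G + 1) → Fin r → ZMod 2)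
    (lam : Fin n → Fin r → ZMod 2), Z.card ≤ Y ^ 36 → Lab c Z τ lam ξ →
  FillAll c Z τ lam ϑ (Y ^ 18) (Y ^ 19) → HasRainbowCopy G c

/-! ### Assembly -/

/-- (Step) Induction on the rank. -/
def StStep : Prop := ∀ (V : Type) [Fintype V] (G : SimpleGraph V) (W W₁ : Finset V)
  (q k d' N Y : ℕ) (m : Fin (q + 1) → ℕ) (P : Fin (q + 1) → ℕ → V) (i : Fin (q + 1)) (r : ℕ),
  TreeLikeOutside G W → 1 ≤ k → Cyc.Ears G W W₁ (q + 1) k m P →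
  numEdgesIn G W = numEdges G → ¬ Exc G →
  Nums (numEdges G + 1) (numEdgesIn G W₁) q k d' N Y (m i + 1) →
  2 ^ r ≤ 2 * (numEdges G + 1) →
  (∀ r', r < r' → 2 ^ r' ≤ 2 * (numEdges G + 1) → Claim G r' (r' * Y ^ 34)) →
  Claim G r (r * Y ^ 34)

/-- (NoLeaf) Without vertices of degree one all edges lie in the core. -/
def StNoLeaf : Prop := ∀ (V : Type) [Fintype V] (G : SimpleGraph V) (W : Finset V),
  TreeLikeOutside G W → (¬ ∃ v, {u | G.Adj v u}.ncard = 1) → numEdgesIn G W = numEdges G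

/-- (Num1) Numerical choices. -/
def StNum1 : Prop := ∃ C : ℕ, ∀ b e : ℕ, 1 ≤ b → C * b ^ C ≤ e → ∃ k d' N Y : ℕ, 1 ≤ k ∧
  ∀ h q l : ℕ, h ≤ 4 * b * (k + 1) → q + 1 ≤ 4 * b → e ≤ h + 4 * b * l →
    Nums (e + 1) h q k d' N Y l

/-- (Final1) The positive theorem for graphs without a leaf. -/
def StFinal1 : Prop := ∃ C : ℕ, ∀ (V : Type) [Fintype V] (G : SimpleGraph V) (b : ℕ), 1 ≤ b →
  (∃ S : Finset (Sym2 V), S.card ≤ b ∧ (G.deleteEdges (S : Set (Sym2 V))).IsAcyclic) →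
  (¬ ∃ v, {u | G.Adj v u}.ncard = 1) → C * b ^ C ≤ numEdges G → ¬ Exc G → ForcesRainbow G

end Pool.Agent.Lib.MP_b1acb3_co.One
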