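import Pool.Agent.Lib.MP_b1acb3_co.One.Stmts

/-!
(Trans): from one vertex to its neighbours.
-/

namespace Pool.Agent.Lib.MP_b1acb3_co.One

open Finset Uni Leaf

open Classical in
/-- The neighbours `p` of `x` in colour `a` such that `R p Q` leaves `R x (insert a Q)` too
often. -/
noncomputable def trBad {n K : ℕ} (R : Fin n → Finset (Fin K) → Finset (Fin n)) (x : Fin n)
    (a : Fin K) (Q : Finset (Fin K)) : Finset (Fin n) :=
  univ.filter (fun p => a ∉ Q ∧ p ∈ R x {a} ∧ 1 < (K : ℝ) * mu (R p Q \ R x (insert a Q)))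

theorem trBad_mu {n K : ℕ} {P : Fin K → Matrix (Fin n) (Fin n) ℝ}
    {R : Fin n → Finset (Fin K) → Finset (Fin n)} {θ : ℝ} (hR : RelSys P R θ) (hn : 0 < n)
    (x : Fin n) (a : Fin K) (Q : Finset (Fin K)) : mu (trBad R x a Q) ≤ K * θ := by
  classical
  have hθ : 0 ≤ θ := (hR.sys x).nonneg
  have hK : (0 : ℝ) < K := by exact_mod_cast (hR.sys x).markov.kpos
  have hn' : (0 : ℝ) < n := by exact_mod_cast hn
  by_cases ha : a ∈ Q
  · have : trBad R x a Q = ∅ := by
      unfold trBad
      apply filter_false_of_mem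
      intro p _ h
      exact h.1 ha
    rw [this, mu_empty]
    positivity
  set T := R x (insert a Q) with hT
  -- few `p` for each `y`
  have h1 : ∀ y, y ∉ T → ((R x {a} ∩ R y Q).card : ℝ) ≤ θ * n := by
    intro y hy
    by_contra hcon
    push Not at hcon
    apply hy
    have h2 : θ < mu (R x {a} ∩ R y Q) := by
      unfold mu
      rw [lt_div_iff₀ hn']
      exact hcon
    have h3 := hR.comp x y {a} Q (disjoint_singleton_left.2 ha) h2
    rwa [← insert_eq] at h3
  -- double counting
  have h4 : ∑ p ∈ trBad R x a Q, ((R p Q \ T).card : ℝ) ≤ θ * n * n := by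
    have e1 : ∑ p ∈ trBad R x a Q, ((R p Q \ T).card : ℝ) =
        ∑ y : Fin n, ∑ p ∈ trBad R x a Q, (if y ∈ R p Q \ T then (1 : ℝ) else 0) := by
      rw [sum_comm]
      apply sum_congr rfl
      intro p _
      rw [sum_ite_mem, univ_inter]
      simp
    rw [e1]
    have e2 : ∀ y : Fin n, ∑ p ∈ trBad R x a Q, (if y ∈ R p Q \ T then (1 : ℝ) else 0) ≤
        θ * n := by
      intro y
      by_cases hy : y ∈ T
      · have : ∑ p ∈ trBad R x a Q, (if y ∈ R p Q \ T then (1 : ℝ) else 0) = 0 := by
          apply sum_eq_zero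
          intro p _
          rw [if_neg]
          intro h
          exact (mem_sdiff.1 h).2 hy
        rw [this]
        positivity
      · refine le_trans ?_ (h1 y hy)
        rw [← sum_filter, sum_const, nsmul_eq_mul, mul_one]
        have hsub : (trBad R x a Q).filter (fun p => y ∈ R p Q \ T) ⊆ R x {a} ∩ R y Q := by
          intro p hp
          rw [mem_filter] at hp
          have hp1 := (mem_filter.1 hp.1).2
          rw [mem_inter]
          exact ⟨hp1.2.1, hR.symm p y Q (mem_sdiff.1 hp.2).1⟩
        exact_mod_cast card_le_card hsub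
    calc ∑ y : Fin n, ∑ p ∈ trBad R x a Q, (if y ∈ R p Q \ T then (1 : ℝ) else 0)
        ≤ ∑ _y : Fin n, θ * n := sum_le_sum fun y _ => e2 y
      _ = θ * n * n := by
          rw [sum_const, card_univ, Fintype.card_fin, nsmul_eq_mul]
          ring
  have h5 : ((trBad R x a Q).card : ℝ) * (n / K) ≤
      ∑ p ∈ trBad R x a Q, ((R p Q \ T).card : ℝ) := by
    rw [← nsmul_eq_mul]
    apply card_nsmul_le_sum
    intro p hp
    have hp1 := (mem_filter.1 hp).2.2.2
    unfold mu at hp1
    rw [mul_div_assoc'] at hp1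
    rw [lt_div_iff₀ hn', one_mul] at hp1
    rw [div_le_iff₀ hK, mul_comm]
    exact hp1.le
  have h6 := h5.trans h4
  unfold mu
  rw [div_le_iff₀ hn']
  have h7 : ((trBad R x a Q).card : ℝ) * (n / K) * (K / n) ≤ θ * n * n * (K / n) :=
    mul_le_mul_of_nonneg_right h6 (by positivity)
  have e3 : ((trBad R x a Q).card : ℝ) * (n / K) * (K / n) = (trBad R x a Q).card := by
    field_simp
  have e4 : θ * n * n * (K / n) = K * θ * n := by
    field_simp
  rw [e3, e4] at h7
  exact h7

theorem thmTrans : StTrans := by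
  classical
  intro n K P R θ hR hn x
  have hθ : 0 ≤ θ := (hR.sys x).nonneg
  refine ⟨univ.biUnion (fun a : Fin K => univ.biUnion
    (fun Q : Finset (Fin K) => trBad R x a Q)), ?_, ?_⟩
  · calc mu (univ.biUnion (fun a : Fin K => univ.biUnion
        (fun Q : Finset (Fin K) => trBad R x a Q)))
        ≤ ∑ a : Fin K, mu (univ.biUnion (fun Q : Finset (Fin K) => trBad R x a Q)) :=
          mu_biUnion_le _ _
      _ ≤ ∑ _a : Fin K, ∑ _Q : Finset (Fin K), (K : ℝ) * θ := by
          apply sum_le_sum
          intro a _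
          exact (mu_biUnion_le _ _).trans (sum_le_sum fun Q _ => trBad_mu hR hn x a Q)
      _ = K ^ 2 * 2 ^ K * θ := by
          rw [sum_const, sum_const, card_univ, card_univ, Fintype.card_fin,
            Fintype.card_finset, Fintype.card_fin, nsmul_eq_mul, nsmul_eq_mul]
          push_cast
          ring
  · intro a p hp hbad Q ha
    have h1 : p ∉ trBad R x a Q := by
      intro h
      apply hbad
      rw [mem_biUnion]
      refine ⟨a, mem_univ _, ?_⟩
      rw [mem_biUnion]
      exact ⟨Q, mem_univ _, h⟩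
    have h2 : (K : ℝ) * mu (R p Q \ R x (insert a Q)) ≤ 1 := by
      by_contra hcon
      push Not at hcon
      exact h1 (mem_filter.2 ⟨mem_univ _, ha, hp, hcon⟩)
    have h3 : mu (R p Q) ≤ mu (R x (insert a Q)) + mu (R p Q \ R x (insert a Q)) := by
      refine le_trans (mu_mono ?_) (mu_union_le _ _)
      intro y hy
      by_cases hy' : y ∈ R x (insert a Q)
      · exact mem_union_left _ hy'
      · exact mem_union_right _ (mem_sdiff.2 ⟨hy, hy'⟩)
    have h4 : (K : ℝ) * mu (R p Q) ≤
        K * (mu (R x (insert a Q)) + mu (R p Q \ R x (insert a Q))) :=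
      mul_le_mul_of_nonneg_left h3 (Nat.cast_nonneg K)
    linarith [mul_add (K : ℝ) (mu (R x (insert a Q))) (mu (R p Q \ R x (insert a Q)))]

end Pool.Agent.Lib.MP_b1acb3_co.One
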